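import Mathlib

/-!
Lower bound for the number of terms/clauses of a formula with a prescribed number of models:
definitions, subcubes, inclusion-exclusion and the bit lemma.
-/

open Finset

namespace Pool.Agent.R130.Block

/-- A literal over `n` variables: a variable and a sign. -/
abbrev Lit (n : ℕ) := Fin n × Bool

/-- The number of satisfying assignments of the DNF with terms `φ j`. -/
def dnfCount {n m : ℕ} (φ : Fin m → Finset (Lit n)) : ℕ :=
  (univ.filter (fun a : Fin n → Bool => ∃ j, ∀ l ∈ φ j, a l.1 = l.2)).card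

/-- The number of satisfying assignments of the CNF with clauses `φ j`. -/
def cnfCount {n m : ℕ} (φ : Fin m → Finset (Lit n)) : ℕ :=
  (univ.filter (fun a : Fin n → Bool => ∀ j, ∃ l ∈ φ j, a l.1 = l.2)).card

/-- There is a DNF with `m` terms or a CNF with `m` clauses (over some number `n` of variables)
with exactly `k` satisfying assignments. -/
def HasFormula (k m : ℕ) : Prop :=
  0 < m ∧ ∃ (n : ℕ) (φ : Fin m → Finset (Lit n)), dnfCount φ = k ∨ cnfCount φ = k

/-- `β(k)`: the least number of terms (DNF) or clauses (CNF) of a formula with exactly `k`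
satisfying assignments. -/
noncomputable def beta (k : ℕ) : ℕ := sInf {m | HasFormula k m}

/-- `bl(k)`: the number of maximal runs of ones in the binary expansion of `k`, counted by their
leading positions. -/
noncomputable def bl (k : ℕ) : ℕ := Set.ncard {p : ℕ | k.testBit p = true ∧ k.testBit (p + 1) = false}

/-- The subcube given by a set of literals. -/
def cube {n : ℕ} (T : Finset (Lit n)) : Finset (Fin n → Bool) :=
  univ.filter (fun a => ∀ l ∈ T, a l.1 = l.2)

/-- The variables of a set of literals. -/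
def vars {n : ℕ} (T : Finset (Lit n)) : Finset (Fin n) := T.image Prod.fst

theorem mem_cube {n : ℕ} {T : Finset (Lit n)} {a : Fin n → Bool} :
    a ∈ cube T ↔ ∀ l ∈ T, a l.1 = l.2 := by simp [cube]

theorem card_agree {n : ℕ} (V : Finset (Fin n)) (a : Fin n → Bool) :
    (univ.filter (fun b : Fin n → Bool => ∀ i ∈ V, b i = a i)).card = 2 ^ (n - V.card) := by
  have h : univ.filter (fun b : Fin n → Bool => ∀ i ∈ V, b i = a i) =
      Fintype.piFinset (fun i => if i ∈ V then {a i} else (univ : Finset Bool)) := by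
    ext b
    simp only [mem_filter, mem_univ, true_and, Fintype.mem_piFinset]
    constructor
    · intro h i
      by_cases hi : i ∈ V
      · rw [if_pos hi, mem_singleton]
        exact h i hi
      · rw [if_neg hi]
        exact mem_univ _
    · intro h i hi
      have := h i
      rw [if_pos hi, mem_singleton] at this
      exact this
  rw [h, Fintype.card_piFinset]
  have h2 : ∀ i : Fin n, (if i ∈ V then ({a i} : Finset Bool) else univ).card =
      if i ∈ V then 1 else 2 := by
    intro i
    by_cases hi : i ∈ V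
    · rw [if_pos hi, if_pos hi, card_singleton]
    · rw [if_neg hi, if_neg hi]
      simp
  rw [Finset.prod_congr rfl (fun i _ => h2 i), Finset.prod_ite]
  simp only [prod_const_one, prod_const, one_mul]
  congr 1
  have h3 : (univ.filter (fun i => i ∉ V)) = Vᶜ := by
    ext i; simp
  rw [h3, card_compl, Fintype.card_fin]

theorem card_cube {n : ℕ} {T : Finset (Lit n)} (h : (cube T).Nonempty) :
    (cube T).card = 2 ^ (n - (vars T).card) := by
  obtain ⟨a, ha⟩ := h
  rw [mem_cube] at ha
  rw [← card_agree (vars T) a]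
  congr 1
  ext b
  rw [mem_cube, mem_filter]
  constructor
  · intro hb
    refine ⟨mem_univ _, ?_⟩
    intro i hi
    obtain ⟨l, hl, rfl⟩ := mem_image.1 hi
    rw [hb l hl, ha l hl]
  · rintro ⟨_, hb⟩ l hl
    rw [hb l.1 (mem_image_of_mem _ hl), ha l hl]

/-- The number of assignments in none of the subcubes. -/
def falseCount {n m : ℕ} (φ : Fin m → Finset (Lit n)) : ℕ :=
  (univ.filter (fun a : Fin n → Bool => ∀ j, a ∉ cube (φ j))).card

theorem falseCount_eq {n m : ℕ} (φ : Fin m → Finset (Lit n)) :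
    (falseCount φ : ℤ) = ∑ t : Finset (Fin m), (-1 : ℤ) ^ t.card * ((cube (t.biUnion φ)).card : ℤ) := by
  have h := Finset.inclusion_exclusion_card_inf_compl (univ : Finset (Fin m)) (fun j => cube (φ j))
  have h1 : ∀ t : Finset (Fin m), (t.inf fun j => cube (φ j)) = cube (t.biUnion φ) := by
    intro t
    induction t using Finset.induction_on with
    | empty =>
      rw [Finset.inf_empty, Finset.biUnion_empty]
      ext a
      simp [mem_cube]
    | insert j t hj ih =>
      rw [Finset.inf_insert, ih, Finset.biUnion_insert]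
      ext a
      simp only [Finset.inf_eq_inter, mem_inter, mem_cube, mem_union]
      constructor
      · rintro ⟨h1, h2⟩ l (hl | hl)
        · exact h1 l hl
        · exact h2 l hl
      · intro h
        exact ⟨fun l hl => h l (Or.inl hl), fun l hl => h l (Or.inr hl)⟩
  have h2 : ((univ : Finset (Fin m)).inf fun j => (cube (φ j))ᶜ) =
      univ.filter (fun a : Fin n → Bool => ∀ j, a ∉ cube (φ j)) := by
    have h3 : ∀ t : Finset (Fin m), (t.inf fun j => (cube (φ j))ᶜ) =
        univ.filter (fun a : Fin n → Bool => ∀ j ∈ t, a ∉ cube (φ j)) := by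
      intro t
      induction t using Finset.induction_on with
      | empty => simp
      | insert j t hj ih =>
        rw [Finset.inf_insert, ih]
        ext a
        simp
    rw [h3]
    ext a
    simp
  rw [h2] at h
  unfold falseCount
  rw [h, Finset.powerset_univ]
  apply Finset.sum_congr rfl
  intro t _
  rw [h1]

theorem dnf_add_false {n m : ℕ} (φ : Fin m → Finset (Lit n)) :
    dnfCount φ + falseCount φ = 2 ^ n := by
  unfold dnfCount falseCount
  have h : (univ.filter (fun a : Fin n → Bool => ∀ j, a ∉ cube (φ j))) =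
      univ.filter (fun a : Fin n → Bool => ¬ ∃ j, ∀ l ∈ φ j, a l.1 = l.2) := by
    ext a
    simp only [mem_filter, mem_univ, true_and, mem_cube, not_exists]
  rw [h, Finset.card_filter_add_card_filter_not]
  simp

/-- The negations of the clauses. -/
def negf {n m : ℕ} (φ : Fin m → Finset (Lit n)) (j : Fin m) : Finset (Lit n) :=
  (φ j).image (fun l => (l.1, !l.2))

theorem cnf_eq_false {n m : ℕ} (φ : Fin m → Finset (Lit n)) :
    cnfCount φ = falseCount (negf φ) := by
  unfold cnfCount falseCount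
  congr 1
  ext a
  simp only [mem_filter, mem_univ, true_and, mem_cube, negf, mem_image]
  constructor
  · intro h j hcon
    obtain ⟨l, hl, hal⟩ := h j
    have := hcon (l.1, !l.2) ⟨l, hl, rfl⟩
    rw [hal] at this
    simp at this
  · intro h j
    by_contra hcon
    push Not at hcon
    apply h j
    rintro _ ⟨l, hl, rfl⟩
    have := hcon l hl
    revert this
    cases a l.1 <;> cases l.2 <;> simp

/-- The bit lemma. -/
theorem bit_lemma {ι : Type*} [Fintype ι] (z : ι → ℤ) (a : ι → ℕ) (m : ℕ)
    (hs : Fintype.card ι ≤ 2 ^ m) (hz : ∀ i, z i = 0 ∨ |z i| = 2 ^ (a i)) (K : ℕ)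
    (hK : (K : ℤ) = ∑ i, z i) (p : ℕ) (hp : (K / 2 ^ p) % 4 = 1) :
    ∃ i, z i ≠ 0 ∧ p ≤ a i + m ∧ a i ≤ p + 1 := by
  classical
  by_contra hcon
  push Not at hcon
  set s := ∑ i ∈ univ.filter (fun i => a i + m < p), z i with hs'
  set t := ∑ i ∈ univ.filter (fun i => ¬ (a i + m < p)), z i with ht'
  have hst : s + t = K := by
    rw [hK, hs', ht']
    exact Finset.sum_filter_add_sum_filter_not _ _ _
  -- the large part is divisible by 4 * 2^p
  have htd : (4 * 2 ^ p : ℤ) ∣ t := by
    apply Finset.dvd_sum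
    intro i hi
    rw [mem_filter] at hi
    rcases hz i with h | h
    · rw [h]; exact dvd_zero _
    · have hne : z i ≠ 0 := by
        intro h0
        rw [h0, abs_zero] at h
        have : (0 : ℤ) < 2 ^ (a i) := by positivity
        omega
      have h1 := hcon i hne (by have := hi.2; omega)
      have h2 : (4 * 2 ^ p : ℤ) ∣ 2 ^ (a i) := by
        obtain ⟨c, hc⟩ := Nat.exists_eq_add_of_lt h1
        rw [show a i = p + 2 + c by omega, pow_add, pow_add]
        exact ⟨2 ^ c, by ring⟩
      rw [← h] at h2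
      exact (dvd_abs _ _).1 h2
  -- the small part is small
  have hsb : 2 * |s| ≤ 2 ^ p := by
    have h1 : ∀ i ∈ univ.filter (fun i => a i + m < p), 2 * 2 ^ m * |z i| ≤ (2 : ℤ) ^ p := by
      intro i hi
      rw [mem_filter] at hi
      rcases hz i with h | h
      · rw [h, abs_zero, mul_zero]; positivity
      · rw [h]
        obtain ⟨c, hc⟩ := Nat.exists_eq_add_of_lt hi.2
        rw [hc]
        have : (2 : ℤ) ^ (a i + m + c + 1) = 2 * 2 ^ m * 2 ^ (a i) * 2 ^ c := by ring
        rw [this]
        have h2 : (1 : ℤ) ≤ 2 ^ c := one_le_pow₀ (by norm_num)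
        have h3 : (0 : ℤ) ≤ 2 * 2 ^ m * 2 ^ (a i) := by positivity
        nlinarith
    have h2 : |s| ≤ ∑ i ∈ univ.filter (fun i => a i + m < p), |z i| := Finset.abs_sum_le_sum_abs _ _
    have h3 : 2 * 2 ^ m * |s| ≤ (2 : ℤ) ^ m * 2 ^ p := by
      calc 2 * 2 ^ m * |s| ≤ 2 * 2 ^ m * ∑ i ∈ univ.filter (fun i => a i + m < p), |z i| := by
            gcongr
        _ = ∑ i ∈ univ.filter (fun i => a i + m < p), 2 * 2 ^ m * |z i| := by rw [Finset.mul_sum]
        _ ≤ ∑ i ∈ univ.filter (fun i => a i + m < p), (2 : ℤ) ^ p := Finset.sum_le_sum h1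
        _ = ((univ.filter (fun i => a i + m < p)).card : ℤ) * 2 ^ p := by
            rw [Finset.sum_const, nsmul_eq_mul]
        _ ≤ 2 ^ m * 2 ^ p := by
            gcongr
            have : (univ.filter (fun i => a i + m < p)).card ≤ 2 ^ m :=
              (Finset.card_le_univ _).trans hs
            exact_mod_cast this
    have h4 : (0 : ℤ) < 2 ^ m := by positivity
    have h5 : 2 ^ m * (2 * |s|) ≤ (2 : ℤ) ^ m * 2 ^ p := by linarith
    exact le_of_mul_le_mul_left h5 h4
  -- K = 4 * 2^p * q + 2^p + r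
  have hKd : (K : ℤ) = 4 * 2 ^ p * ((K / 2 ^ p / 4 : ℕ) : ℤ) + 2 ^ p + ((K % 2 ^ p : ℕ) : ℤ) := by
    have h1 : K = 2 ^ p * (K / 2 ^ p) + K % 2 ^ p := (Nat.div_add_mod K (2 ^ p)).symm
    have h2 : K / 2 ^ p = 4 * (K / 2 ^ p / 4) + 1 := by
      have := Nat.div_add_mod (K / 2 ^ p) 4
      omega
    have h3 : (K : ℤ) = 2 ^ p * ((K / 2 ^ p : ℕ) : ℤ) + ((K % 2 ^ p : ℕ) : ℤ) := by exact_mod_cast h1
    have h4 : ((K / 2 ^ p : ℕ) : ℤ) = 4 * ((K / 2 ^ p / 4 : ℕ) : ℤ) + 1 := by exact_mod_cast h2
    rw [h3, h4]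
    ring_nf
  have hr0 : (0 : ℤ) ≤ ((K % 2 ^ p : ℕ) : ℤ) := by positivity
  have hr1 : ((K % 2 ^ p : ℕ) : ℤ) < 2 ^ p := by
    have : K % 2 ^ p < 2 ^ p := Nat.mod_lt _ (by positivity)
    exact_mod_cast this
  have hdiv : (4 * 2 ^ p : ℤ) ∣ (2 ^ p + ((K % 2 ^ p : ℕ) : ℤ) - s) := by
    have h1 : (2 ^ p + ((K % 2 ^ p : ℕ) : ℤ) - s) = t - 4 * 2 ^ p * ((K / 2 ^ p / 4 : ℕ) : ℤ) := by
      linarith
    rw [h1]
    exact dvd_sub htd (Dvd.intro _ rfl)
  have hpp : (0 : ℤ) < 2 ^ p := by positivity
  have hs1 := (abs_le.1 (le_refl |s|))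
  have hpos : 0 < (2 ^ p + ((K % 2 ^ p : ℕ) : ℤ) - s) := by linarith [hs1.2]
  have hle := Int.le_of_dvd hpos hdiv
  linarith [hs1.1]

end Pool.Agent.R130.Block
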