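import Pool.Agent.R130.BlockA

open Finset

namespace Pool.Agent.R130.Block

/-- The distances from the leading position. -/
def D (m : ℕ) : ℕ → ℕ
  | 0 => 0
  | (i + 1) => 3 * (m + 2) ^ 2 * (D m i + 1)

theorem D_step (m i : ℕ) : D m i + 2 ≤ D m (i + 1) ∧ m * (D m i + 2 * m) + 1 < D m (i + 1) := by
  have h : D m (i + 1) = 3 * (m + 2) ^ 2 * (D m i + 1) := rfl
  rw [h]
  constructor <;> nlinarith [Nat.zero_le (D m i), Nat.zero_le m, Nat.zero_le (m * D m i),
    Nat.zero_le (m ^ 2 * D m i), Nat.zero_le (m ^ 2)]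

theorem D_mono (m : ℕ) : Monotone (D m) :=
  monotone_nat_of_le_succ fun i => le_trans (Nat.le_add_right _ 2) (D_step m i).1

theorem D_growth (m : ℕ) {i i' : ℕ} (h : i < i') : m * (D m i + 2 * m) + 1 < D m i' :=
  lt_of_lt_of_le (D_step m i).2 (D_mono m h)

/-- The numbers with isolated ones at distances `D m 0, ..., D m i` from the top. -/
def KK (m : ℕ) : ℕ → ℕ
  | 0 => 1
  | (i + 1) => KK m i * 2 ^ (D m (i + 1) - D m i) + 1

theorem gap_ge (m i : ℕ) : 2 ≤ D m (i + 1) - D m i := by
  have := (D_step m i).1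
  omega

theorem KK_mod (m i : ℕ) : KK m i % 4 = 1 := by
  cases i with
  | zero => rfl
  | succ i =>
    show (KK m i * 2 ^ (D m (i + 1) - D m i) + 1) % 4 = 1
    obtain ⟨c, hc⟩ := Nat.exists_eq_add_of_le (gap_ge m i)
    rw [hc, pow_add]
    have : KK m i * (2 ^ 2 * 2 ^ c) + 1 = 4 * (KK m i * 2 ^ c) + 1 := by ring
    rw [this]
    omega

theorem KK_div (m B : ℕ) : ∀ i, i ≤ B → KK m B / 2 ^ (D m B - D m i) = KK m i := by
  induction B with
  | zero =>
    intro i hi
    have : i = 0 := by omega
    rw [this]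
    simp
  | succ B ih =>
    intro i hi
    rcases Nat.lt_or_ge B i with h | h
    · have : i = B + 1 := by omega
      rw [this]
      simp
    · have h1 : D m (B + 1) - D m i = (D m (B + 1) - D m B) + (D m B - D m i) := by
        have h2 := D_mono m h
        have h3 : D m B ≤ D m (B + 1) := D_mono m (Nat.le_succ B)
        omega
      rw [h1, pow_add, ← Nat.div_div_eq_div_mul]
      have h4 : KK m (B + 1) / 2 ^ (D m (B + 1) - D m B) = KK m B := by
        show (KK m B * 2 ^ (D m (B + 1) - D m B) + 1) / 2 ^ (D m (B + 1) - D m B) = KK m B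
        have h5 : 1 < 2 ^ (D m (B + 1) - D m B) :=
          Nat.one_lt_two_pow (by have := gap_ge m B; omega)
        rw [mul_comm, Nat.mul_add_div (by positivity), Nat.div_eq_of_lt h5, add_zero]
      rw [h4]
      exact ih i h

theorem KK_pos (m i : ℕ) : 0 < KK m i := by
  have := KK_mod m i
  omega

theorem KK_lt (m B : ℕ) : KK m B < 2 ^ (D m B + 1) := by
  have h := KK_div m B 0 (Nat.zero_le _)
  have h0 : D m 0 = 0 := rfl
  have h1 : KK m 0 = 1 := rfl
  rw [h0, h1, Nat.sub_zero] at h
  have h2 : KK m B / 2 ^ D m B < 2 := by omega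
  rw [Nat.div_lt_iff_lt_mul (by positivity)] at h2
  rw [pow_succ]
  linarith

theorem KK_ge (m B : ℕ) : 2 ^ (D m B) ≤ KK m B := by
  have h := KK_div m B 0 (Nat.zero_le _)
  have h0 : D m 0 = 0 := rfl
  have h1 : KK m 0 = 1 := rfl
  rw [h0, h1, Nat.sub_zero] at h
  by_contra hcon
  rw [Nat.div_eq_of_lt (not_le.1 hcon)] at h
  omega

/-! ### Block count -/

theorem bl_set_finite (k : ℕ) : {p : ℕ | k.testBit p = true ∧ k.testBit (p + 1) = false}.Finite := by
  apply (Set.finite_lt_nat k).subset
  intro p hp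
  show p < k
  by_contra hcon
  have h1 : k < 2 ^ p := lt_of_le_of_lt (not_lt.1 hcon) Nat.lt_two_pow_self
  have h2 := Nat.testBit_lt_two_pow h1
  have h3 : k.testBit p = true := hp.1
  rw [h2] at h3
  exact absurd h3 (by simp)

theorem bl_step (k d : ℕ) (hd : 2 ≤ d) : bl (k * 2 ^ d + 1) = bl k + 1 := by
  have htb : ∀ p, (k * 2 ^ d + 1).testBit p =
      if p < d then decide (p = 0) else k.testBit (p - d) := by
    intro p
    rw [mul_comm, Nat.testBit_two_pow_mul_add _ (Nat.one_lt_two_pow (by omega))]
    by_cases hp : p < d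
    · rw [if_pos hp, if_pos hp]
      cases p with
      | zero => simp
      | succ p => simp [Nat.testBit_succ]
    · rw [if_neg hp, if_neg hp]
  have hset : {p : ℕ | (k * 2 ^ d + 1).testBit p = true ∧ (k * 2 ^ d + 1).testBit (p + 1) = false} =
      insert 0 ((fun p => p + d) '' {p : ℕ | k.testBit p = true ∧ k.testBit (p + 1) = false}) := by
    ext p
    simp only [Set.mem_ofPred_eq, Set.mem_insert_iff, Set.mem_image, htb]
    constructor
    · rintro ⟨h1, h2⟩
      by_cases hp : p < d
      · rw [if_pos hp] at h1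
        left
        simpa using h1
      · right
        rw [if_neg hp] at h1
        rw [if_neg (by omega)] at h2
        refine ⟨p - d, ⟨h1, ?_⟩, by omega⟩
        rw [show p - d + 1 = p + 1 - d by omega]
        exact h2
    · rintro (rfl | ⟨q, ⟨h1, h2⟩, rfl⟩)
      · rw [if_pos (by omega), if_pos (by omega)]
        simp
      · rw [if_neg (by omega), if_neg (by omega), Nat.add_sub_cancel,
          show q + d + 1 - d = q + 1 by omega]
        exact ⟨h1, h2⟩
  unfold bl
  rw [hset, Set.ncard_insert_of_notMem _ ((bl_set_finite k).image _),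
    Set.ncard_image_of_injective]
  · intro a b hab
    simpa using hab
  · rintro ⟨q, _, hq⟩
    simp at hq
    omega

theorem bl_one : bl 1 = 1 := by
  unfold bl
  have : {p : ℕ | Nat.testBit 1 p = true ∧ Nat.testBit 1 (p + 1) = false} = {0} := by
    ext p
    simp only [Set.mem_ofPred_eq, Set.mem_singleton_iff]
    constructor
    · rintro ⟨h1, _⟩
      cases p with
      | zero => rfl
      | succ p => simp [Nat.testBit_succ] at h1
    · rintro rfl
      simp [Nat.testBit_succ]
  rw [this, Set.ncard_singleton]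

theorem bl_KK (m i : ℕ) : bl (KK m i) = i + 1 := by
  induction i with
  | zero => exact bl_one
  | succ i ih =>
    show bl (KK m i * 2 ^ (D m (i + 1) - D m i) + 1) = i + 1 + 1
    rw [bl_step _ _ (gap_ge m i), ih]

/-! ### The lower bound -/

theorem pigeon {m m' B : ℕ} (hm : m' ≤ m) (G : Fin m' → Fin m' → ℕ)
    (h : ∀ i, 1 ≤ i → i ≤ B → ∃ j k, D m i ≤ m' * G j k + 1 ∧ G j k ≤ D m i + 2 * m') :
    B ≤ m' ^ 2 := by
  have h' : ∀ i : Fin B, ∃ jk : Fin m' × Fin m', D m (i.1 + 1) ≤ m' * G jk.1 jk.2 + 1 ∧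
      G jk.1 jk.2 ≤ D m (i.1 + 1) + 2 * m' := by
    intro i
    obtain ⟨j, k, hjk⟩ := h (i.1 + 1) (by omega) (by have := i.2; omega)
    exact ⟨(j, k), hjk⟩
  choose f hf using h'
  have key : ∀ i i' : Fin B, i.1 < i'.1 → f i ≠ f i' := by
    intro i i' hlt heq
    have h1 := (hf i').1
    rw [← heq] at h1
    have h2 := (hf i).2
    have h3 := D_growth m (show i.1 + 1 < i'.1 + 1 by omega)
    have h4 : m' * G (f i).1 (f i).2 ≤ m' * (D m (i.1 + 1) + 2 * m') := Nat.mul_le_mul_left _ h2
    have h5 : m' * (D m (i.1 + 1) + 2 * m') ≤ m * (D m (i.1 + 1) + 2 * m) :=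
      Nat.mul_le_mul hm (by omega)
    omega
  have hinj : Function.Injective f := by
    intro i i' heq
    rcases lt_trichotomy i.1 i'.1 with h1 | h1 | h1
    · exact absurd heq (key i i' h1)
    · exact Fin.ext h1
    · exact absurd heq.symm (key i' i h1)
  have := Fintype.card_le_of_injective f hinj
  simp only [Fintype.card_fin, Fintype.card_prod] at this
  rw [sq]
  exact this

theorem vars_biUnion {n m : ℕ} (φ : Fin m → Finset (Lit n)) (U : Finset (Fin m)) :
    vars (U.biUnion φ) = U.biUnion (fun j => vars (φ j)) := by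
  unfold vars
  rw [Finset.biUnion_image]

theorem cube_anti {n : ℕ} {T T' : Finset (Lit n)} (h : T ⊆ T') : cube T' ⊆ cube T := by
  intro a ha
  rw [mem_cube] at ha ⊢
  exact fun l hl => ha l (h hl)

theorem vars_le {n : ℕ} (T : Finset (Lit n)) : (vars T).card ≤ n := by
  have := Finset.card_le_univ (vars T)
  simpa using this

/-- Bound for unions of variable sets. -/
theorem vars_union_le {n m : ℕ} (φ : Fin m → Finset (Lit n)) (U : Finset (Fin m)) (j : Fin m) :
    (vars (U.biUnion φ)).card ≤ (vars (φ j)).card +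
      ∑ k ∈ U, ((vars (φ j ∪ φ k)).card - (vars (φ j)).card) := by
  classical
  have h1 : vars (U.biUnion φ) ⊆ vars (φ j) ∪ U.biUnion (fun k => vars (φ k) \ vars (φ j)) := by
    rw [vars_biUnion]
    intro x hx
    obtain ⟨k, hk, hxk⟩ := mem_biUnion.1 hx
    by_cases hxj : x ∈ vars (φ j)
    · exact mem_union_left _ hxj
    · exact mem_union_right _ (mem_biUnion.2 ⟨k, hk, mem_sdiff.2 ⟨hxk, hxj⟩⟩)
  refine (card_le_card h1).trans ((card_union_le _ _).trans ?_)
  gcongr
  refine card_biUnion_le.trans (Finset.sum_le_sum fun k _ => ?_)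
  have h2 : vars (φ j ∪ φ k) = vars (φ j) ∪ vars (φ k) := by
    unfold vars
    rw [image_union]
  rw [h2]
  have h3 : (vars (φ j) ∪ vars (φ k)).card = (vars (φ j)).card + (vars (φ k) \ vars (φ j)).card := by
    rw [← union_sdiff_self_eq_union, card_union_of_disjoint disjoint_sdiff]
  omega

theorem dnf_case {m m' B n : ℕ} (hm : m' ≤ m) (φ : Fin m' → Finset (Lit n))
    (hK : dnfCount φ = KK m B) : B ≤ m' ^ 2 := by
  classical
  set e0 := D m B with he0
  apply pigeon hm (fun j k => e0 + (vars (φ j ∪ φ k)).card - n)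
  intro i hi1 hiB
  -- apply the bit lemma
  set z : Finset (Fin m') → ℤ := fun U =>
    if U = ∅ then 0 else -((-1) ^ U.card * ((cube (U.biUnion φ)).card : ℤ)) with hz
  have hsum : ((KK m B : ℕ) : ℤ) = ∑ U, z U := by
    have h1 := falseCount_eq φ
    have h2 := dnf_add_false φ
    have h3 : ((dnfCount φ : ℕ) : ℤ) + (falseCount φ : ℤ) = 2 ^ n := by exact_mod_cast h2
    have h4 : ∑ U : Finset (Fin m'), (-1 : ℤ) ^ U.card * ((cube (U.biUnion φ)).card : ℤ) =
        2 ^ n - ∑ U, z U := by
      have h5 : ∑ U, z U = ∑ U ∈ univ.erase (∅ : Finset (Fin m')), z U := by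
        rw [Finset.sum_erase]
        simp [hz]
      rw [h5, ← Finset.add_sum_erase _ _ (mem_univ (∅ : Finset (Fin m')))]
      have h6 : ∑ U ∈ univ.erase (∅ : Finset (Fin m')), z U =
          - ∑ U ∈ univ.erase (∅ : Finset (Fin m')),
            (-1 : ℤ) ^ U.card * ((cube (U.biUnion φ)).card : ℤ) := by
        rw [← Finset.sum_neg_distrib]
        apply Finset.sum_congr rfl
        intro U hU
        simp only [hz]
        rw [if_neg (Finset.ne_of_mem_erase hU)]
      rw [h6]
      have h7 : (cube ((∅ : Finset (Fin m')).biUnion φ)).card = 2 ^ n := by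
        rw [Finset.biUnion_empty]
        have : cube (∅ : Finset (Lit n)) = univ := by ext a; simp [mem_cube]
        rw [this]
        simp
      rw [h7]
      simp only [Finset.card_empty, pow_zero, one_mul, sub_neg_eq_add]
      push_cast
      ring
    rw [← hK]
    rw [h4] at h1
    linarith
  obtain ⟨U, hU0, hU1, hU2⟩ := bit_lemma z (fun U => n - (vars (U.biUnion φ)).card) m' (by simp)
    (by
      intro U
      simp only [hz]
      by_cases hU : U = ∅
      · left; rw [if_pos hU]
      · rw [if_neg hU]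
        by_cases hne : (cube (U.biUnion φ)).Nonempty
        · right
          rw [card_cube hne, abs_neg, abs_mul, abs_pow, abs_neg, abs_one, one_pow, one_mul]
          simp
        · left
          rw [Finset.not_nonempty_iff_eq_empty] at hne
          rw [hne]
          simp) (KK m B) hsum (e0 - D m i) (by rw [KK_div m B i hiB]; exact KK_mod m i)
  have hDi : D m i ≤ e0 := D_mono m hiB
  have hUne : U ≠ ∅ := by
    rintro rfl
    simp [hz] at hU0
  have hcne : (cube (U.biUnion φ)).Nonempty := by
    rw [Finset.nonempty_iff_ne_empty]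
    intro h
    apply hU0
    simp only [hz]
    rw [if_neg hUne, h]
    simp
  obtain ⟨j, hj⟩ := Finset.nonempty_iff_ne_empty.2 hUne
  have hfU := vars_le (U.biUnion φ)
  -- each term has small volume
  have hfj : n ≤ e0 + (vars (φ j)).card := by
    have h1 : (cube (φ j)).Nonempty := hcne.mono (cube_anti (Finset.subset_biUnion_of_mem φ hj))
    have h2 : (cube (φ j)).card ≤ dnfCount φ := by
      apply card_le_card
      intro a ha
      rw [mem_filter]
      exact ⟨mem_univ _, j, mem_cube.1 ha⟩
    rw [card_cube h1, hK] at h2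
    have h3 := lt_of_le_of_lt h2 (KK_lt m B)
    have h4 := (Nat.pow_lt_pow_iff_right (by norm_num : 1 < 2)).1 h3
    omega
  have hle : ∀ k, (vars (φ j)).card ≤ (vars (φ j ∪ φ k)).card := fun k => by
    apply card_le_card
    unfold vars
    exact image_subset_image subset_union_left
  have hleU : ∀ k ∈ U, (vars (φ j ∪ φ k)).card ≤ (vars (U.biUnion φ)).card := fun k hk => by
    apply card_le_card
    unfold vars
    apply image_subset_image
    exact union_subset (Finset.subset_biUnion_of_mem φ hj) (Finset.subset_biUnion_of_mem φ hk)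
  have hu := vars_union_le φ U j
  -- exists k
  have hex : ∃ k ∈ U, e0 + (vars (U.biUnion φ)).card - n ≤
      m' * (e0 + (vars (φ j ∪ φ k)).card - n) := by
    by_contra hcon
    push Not at hcon
    have h1 : ∑ k ∈ U, m' * (e0 + (vars (φ j ∪ φ k)).card - n) <
        ∑ k ∈ U, (e0 + (vars (U.biUnion φ)).card - n) :=
      Finset.sum_lt_sum_of_nonempty ⟨j, hj⟩ hcon
    rw [Finset.sum_const, smul_eq_mul, ← Finset.mul_sum] at h1
    have h2 : U.card ≤ m' := by
      have := Finset.card_le_univ U
      simpa using this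
    have h3 : e0 + (vars (U.biUnion φ)).card - n ≤
        ∑ k ∈ U, (e0 + (vars (φ j ∪ φ k)).card - n) := by
      rw [← Finset.add_sum_erase _ _ hj]
      rw [← Finset.add_sum_erase _ _ hj] at hu
      have h4 : ∑ k ∈ U.erase j, ((vars (φ j ∪ φ k)).card - (vars (φ j)).card) ≤
          ∑ k ∈ U.erase j, (e0 + (vars (φ j ∪ φ k)).card - n) := by
        apply Finset.sum_le_sum
        intro k _
        have := hle k
        omega
      rw [Finset.union_self] at hu ⊢
      omega
    have h5 : U.card * (e0 + (vars (U.biUnion φ)).card - n) ≤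
        m' * ∑ k ∈ U, (e0 + (vars (φ j ∪ φ k)).card - n) := Nat.mul_le_mul h2 h3
    omega
  obtain ⟨k, hk, hjk⟩ := hex
  refine ⟨j, k, ?_, ?_⟩
  · have h1 : D m i ≤ e0 + (vars (U.biUnion φ)).card - n + 1 := by omega
    omega
  · have h1 := hleU k hk
    show e0 + (vars (φ j ∪ φ k)).card - n ≤ D m i + 2 * m'
    omega

theorem cnf_case {m m' B n : ℕ} (hm : m' ≤ m) (ψ : Fin m' → Finset (Lit n))
    (hK : falseCount ψ = KK m B) : B ≤ m' ^ 2 := by
  classical
  set e0 := D m B with he0
  -- n - m' ≤ e0 ≤ n
  have hlow : n ≤ e0 + m' := by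
    have hpos : 0 < falseCount ψ := by rw [hK]; exact KK_pos m B
    unfold falseCount at hpos
    rw [Finset.card_pos] at hpos
    obtain ⟨a, ha⟩ := hpos
    rw [mem_filter] at ha
    have h1 : ∀ j, ∃ l ∈ ψ j, a l.1 ≠ l.2 := by
      intro j
      have := ha.2 j
      rw [mem_cube] at this
      push Not at this
      exact this
    choose l hl hal using h1
    set V : Finset (Fin n) := univ.image (fun j => (l j).1) with hV
    have hVc : V.card ≤ m' := by
      refine Finset.card_image_le.trans ?_
      simp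
    have h2 : (univ.filter (fun b : Fin n → Bool => ∀ i ∈ V, b i = a i)).card ≤ falseCount ψ := by
      apply card_le_card
      intro b hb
      rw [mem_filter] at hb ⊢
      refine ⟨mem_univ _, fun j hcon => ?_⟩
      rw [mem_cube] at hcon
      have h3 := hcon (l j) (hl j)
      rw [hb.2 (l j).1 (mem_image_of_mem _ (mem_univ j))] at h3
      exact hal j h3
    rw [card_agree, hK] at h2
    have h3 := lt_of_le_of_lt h2 (KK_lt m B)
    have h4 := (Nat.pow_lt_pow_iff_right (by norm_num : 1 < 2)).1 h3
    omega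
  have hup : e0 ≤ n := by
    have h1 : falseCount ψ ≤ 2 ^ n := by
      unfold falseCount
      refine (Finset.card_filter_le _ _).trans ?_
      simp
    rw [hK] at h1
    have h2 := (KK_ge m B).trans h1
    exact (Nat.pow_le_pow_iff_right (by norm_num : 1 < 2)).1 h2
  apply pigeon hm (fun j _ => (vars (ψ j)).card)
  intro i hi1 hiB
  have hDi : D m i ≤ e0 := D_mono m hiB
  set z : Finset (Fin m') → ℤ := fun U => (-1) ^ U.card * ((cube (U.biUnion ψ)).card : ℤ) with hz
  have hsum : ((KK m B : ℕ) : ℤ) = ∑ U, z U := by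
    rw [← hK]
    exact falseCount_eq ψ
  obtain ⟨U, hU0, hU1, hU2⟩ := bit_lemma z (fun U => n - (vars (U.biUnion ψ)).card) m' (by simp)
    (by
      intro U
      simp only [hz]
      by_cases hne : (cube (U.biUnion ψ)).Nonempty
      · right
        rw [card_cube hne, abs_mul, abs_pow, abs_neg, abs_one, one_pow, one_mul]
        simp
      · left
        rw [Finset.not_nonempty_iff_eq_empty] at hne
        rw [hne]
        simp) (KK m B) hsum (e0 - D m i) (by rw [KK_div m B i hiB]; exact KK_mod m i)
  have hfU := vars_le (U.biUnion ψ)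
  have hD1 : 2 ≤ D m i := by
    have h1 : D m 0 + 2 ≤ D m 1 := (D_step m 0).1
    have h2 := D_mono m hi1
    omega
  have hex : ∃ j ∈ U, (vars (U.biUnion ψ)).card ≤ m' * (vars (ψ j)).card := by
    by_contra hcon
    push Not at hcon
    have hUne : U.Nonempty := by
      rw [Finset.nonempty_iff_ne_empty]
      rintro rfl
      rw [Finset.biUnion_empty] at hU2
      have : (vars (∅ : Finset (Lit n))).card = 0 := by simp [vars]
      rw [this] at hU2
      omega
    have h1 : ∑ k ∈ U, m' * (vars (ψ k)).card < ∑ k ∈ U, (vars (U.biUnion ψ)).card :=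
      Finset.sum_lt_sum_of_nonempty hUne hcon
    rw [Finset.sum_const, smul_eq_mul, ← Finset.mul_sum] at h1
    have h2 : U.card ≤ m' := by
      have := Finset.card_le_univ U
      simpa using this
    have h3 : (vars (U.biUnion ψ)).card ≤ ∑ k ∈ U, (vars (ψ k)).card := by
      rw [vars_biUnion]
      exact card_biUnion_le
    have h5 : U.card * (vars (U.biUnion ψ)).card ≤ m' * ∑ k ∈ U, (vars (ψ k)).card :=
      Nat.mul_le_mul h2 h3
    omega
  obtain ⟨j, hj, hjU⟩ := hex
  have hjle : (vars (ψ j)).card ≤ (vars (U.biUnion ψ)).card := by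
    apply card_le_card
    unfold vars
    exact image_subset_image (Finset.subset_biUnion_of_mem ψ hj)
  refine ⟨j, j, ?_, ?_⟩
  · show D m i ≤ m' * (vars (ψ j)).card + 1
    omega
  · show (vars (ψ j)).card ≤ D m i + 2 * m'
    omega

/-- Every formula with exactly `KK m B` models, `B > m ^ 2`, has more than `m` terms. -/
theorem lower {m m' B : ℕ} (hB : m ^ 2 < B) (h : HasFormula (KK m B) m') : m < m' := by
  by_contra hcon
  have hm : m' ≤ m := not_lt.1 hcon
  obtain ⟨_, n, φ, h | h⟩ := h
  · have h1 := dnf_case hm φ h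
    have h2 : m' ^ 2 ≤ m ^ 2 := Nat.pow_le_pow_left hm 2
    omega
  · rw [cnf_eq_false] at h
    have h1 := cnf_case hm (negf φ) h
    have h2 : m' ^ 2 ≤ m ^ 2 := Nat.pow_le_pow_left hm 2
    omega

/-- Every positive number is the number of models of some DNF. -/
theorem exists_formula {k : ℕ} (hk : 0 < k) : ∃ m, HasFormula k m := by
  classical
  refine ⟨k, hk, k, ?_⟩
  -- k distinct assignments over k variables
  have hcard : k ≤ Fintype.card (Fin k → Bool) := by
    simp only [Fintype.card_pi, Fintype.card_bool, prod_const, card_univ, Fintype.card_fin]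
    exact Nat.lt_two_pow_self.le
  obtain ⟨f⟩ : Nonempty (Fin k ↪ (Fin k → Bool)) := by
    apply Function.Embedding.nonempty_of_card_le
    simpa using hcard
  refine ⟨fun j => univ.image (fun i => (i, f j i)), Or.inl ?_⟩
  unfold dnfCount
  have h : univ.filter (fun a : Fin k → Bool =>
      ∃ j, ∀ l ∈ (univ.image (fun i => (i, f j i)) : Finset (Lit k)), a l.1 = l.2) =
      univ.image (fun j => f j) := by
    ext a
    simp only [mem_filter, mem_univ, true_and, mem_image, forall_exists_index,
      forall_apply_eq_imp_iff]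
    constructor
    · rintro ⟨j, hj⟩
      exact ⟨j, (funext hj).symm⟩
    · rintro ⟨j, rfl⟩
      exact ⟨j, fun i => rfl⟩
  rw [h, Finset.card_image_of_injective _ f.injective]
  simp

/-- `β(KK m (m ^ 2 + 1)) > m`, while this number has `m ^ 2 + 2` blocks. -/
theorem beta_lower (m : ℕ) : m < beta (KK m (m ^ 2 + 1)) := by
  have h : HasFormula (KK m (m ^ 2 + 1)) (beta (KK m (m ^ 2 + 1))) :=
    Nat.sInf_mem (s := {x | HasFormula (KK m (m ^ 2 + 1)) x}) (exists_formula (KK_pos m _))
  exact lower (by omega) h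

end Pool.Agent.R130.Block
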