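import Mathlib

/-!
# Triple-reversal puzzles

Labelled items `0, 1, 2, …` sit on the places `0, 1, 2, …`. A state is a permutation `σ` (`σ k` is
the item on place `k`). A relation `T` tells which triples may be reversed: if the items `x, c, z`
on the consecutive places `p, p+1, p+2` satisfy `T x c z`, then `x` and `z` may be exchanged.
Under the axioms below the graph of states is a median graph.
-/

set_option autoImplicit false

namespace Pool.Agent.R130.Puzzle

open Equiv

/-- The data of a puzzle. -/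
structure Puz where
  m : ℕ
  T : ℕ → ℕ → ℕ → Prop
  lt₁ : ∀ {x c z}, T x c z → x < m
  symm : ∀ {x c z}, T x c z → T z c x
  uniq : ∀ {x c z z'}, T x c z → T x c z' → z = z'
  rot : ∀ {x c z w}, T x c z → T c z w → w = x

variable (P : Puz)

/-- the move with left place `p` is allowed -/
def Al (σ : Perm ℕ) (p : ℕ) : Prop := P.T (σ p) (σ (p + 1)) (σ (p + 2))

/-- the move with left place `p` -/
def mv (σ : Perm ℕ) (p : ℕ) : Perm ℕ := σ * swap p (p + 2)

lemma mv_left (σ : Perm ℕ) (p : ℕ) : mv σ p p = σ (p + 2) := by simp [mv]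

lemma mv_right (σ : Perm ℕ) (p : ℕ) : mv σ p (p + 2) = σ p := by simp [mv]

lemma mv_of_ne (σ : Perm ℕ) {p k : ℕ} (h1 : k ≠ p) (h2 : k ≠ p + 2) : mv σ p k = σ k := by
  simp [mv, swap_apply_of_ne_of_ne h1 h2]

lemma mv_mid (σ : Perm ℕ) (p : ℕ) : mv σ p (p + 1) = σ (p + 1) :=
  mv_of_ne σ (by omega) (by omega)

lemma mv_mv (σ : Perm ℕ) (p : ℕ) : mv (mv σ p) p = σ := by
  simp [mv, mul_assoc, swap_mul_self]

lemma mv_symm (σ : Perm ℕ) (p y : ℕ) : (mv σ p).symm y = swap p (p + 2) (σ.symm y) := by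
  rw [symm_apply_eq]
  simp [mv]

variable {P}

lemma Al.mv {σ : Perm ℕ} {p : ℕ} (h : Al P σ p) : Al P (mv σ p) p := by
  unfold Al
  rw [mv_left, mv_right, mv_mid]
  exact P.symm h

variable (P)

/-- validity of a list of moves -/
def Valid : Perm ℕ → List ℕ → Prop
  | _, [] => True
  | σ, p :: ps => Al P σ p ∧ Valid (mv σ p) ps

/-- the result of a list of moves -/
def run : Perm ℕ → List ℕ → Perm ℕ
  | σ, [] => σ
  | σ, p :: ps => run (mv σ p) ps

lemma run_append (σ : Perm ℕ) (ps qs : List ℕ) : run σ (ps ++ qs) = run (run σ ps) qs := by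
  induction ps generalizing σ with
  | nil => rfl
  | cons p ps ih => exact ih (mv σ p)

lemma valid_append (σ : Perm ℕ) (ps qs : List ℕ) :
    Valid P σ (ps ++ qs) ↔ Valid P σ ps ∧ Valid P (run σ ps) qs := by
  induction ps generalizing σ with
  | nil => simp [Valid, run]
  | cons p ps ih =>
    simp only [List.cons_append, Valid, run, ih]
    tauto

lemma reverse_path (σ : Perm ℕ) (ps : List ℕ) (h : Valid P σ ps) :
    Valid P (run σ ps) ps.reverse ∧ run (run σ ps) ps.reverse = σ := by
  induction ps generalizing σ with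
  | nil => simp [Valid, run]
  | cons p ps ih =>
    obtain ⟨h1, h2⟩ := h
    obtain ⟨h3, h4⟩ := ih (mv σ p) h2
    rw [List.reverse_cons]
    constructor
    · rw [valid_append]
      refine ⟨h3, ?_⟩
      change Valid P (run (run (mv σ p) ps) ps.reverse) [p]
      rw [h4]
      exact ⟨h1.mv, trivial⟩
    · rw [run_append]
      change run (run (run (mv σ p) ps) ps.reverse) [p] = σ
      rw [h4]
      exact mv_mv σ p

/-- moves far from `p` do not mix the two sides -/
lemma far_moves (p : ℕ) (σ : Perm ℕ) (ps : List ℕ) (h : ∀ r ∈ ps, r + 2 ≤ p ∨ p + 3 ≤ r) :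
    run σ ps (p + 1) = σ (p + 1) ∧ run σ ps (p + 2) = σ (p + 2) ∧
    ∀ k, p + 3 ≤ k → ∃ k', p + 3 ≤ k' ∧ run σ ps k = σ k' := by
  induction ps generalizing σ with
  | nil => exact ⟨rfl, rfl, fun k hk => ⟨k, hk, rfl⟩⟩
  | cons r ps ih =>
    obtain ⟨h1, h2, h3⟩ := ih (mv σ r) (fun q hq => h q (List.mem_cons_of_mem _ hq))
    have hr := h r List.mem_cons_self
    change run (mv σ r) ps (p + 1) = _ ∧ run (mv σ r) ps (p + 2) = _ ∧ ∀ k, _ →
      ∃ k', _ ∧ run (mv σ r) ps k = _
    refine ⟨?_, ?_, ?_⟩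
    · rw [h1]
      exact mv_of_ne σ (by omega) (by omega)
    · rw [h2]
      exact mv_of_ne σ (by omega) (by omega)
    · intro k hk
      obtain ⟨k', hk', e⟩ := h3 k hk
      rw [e]
      by_cases e1 : k' = r
      · subst e1
        exact ⟨k' + 2, by omega, mv_left σ k'⟩
      · by_cases e2 : k' = r + 2
        · subst e2
          exact ⟨r, by omega, mv_right σ r⟩
        · exact ⟨k', hk', mv_of_ne σ e1 e2⟩

/-- Adjacent moves never both occur along a path. -/
lemma no_adj_aux (n : ℕ) : ∀ (σ : Perm ℕ) (ps : List ℕ) (p : ℕ), ps.length ≤ n → Valid P σ ps →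
    ¬ (Al P σ p ∧ Al P (run σ ps) (p + 1)) ∧ ¬ (Al P σ (p + 1) ∧ Al P (run σ ps) p) := by
  induction n with
  | zero =>
    intro σ ps p hl hv
    have : ps = [] := List.length_eq_zero_iff.mp (Nat.le_zero.mp hl)
    subst this
    have key : ¬ (Al P σ p ∧ Al P σ (p + 1)) := by
      rintro ⟨h1, h2⟩
      have := P.rot h1 h2
      have := σ.injective this
      omega
    exact ⟨key, fun h => key ⟨h.2, h.1⟩⟩
  | succ n ih =>
    have main : ∀ (σ : Perm ℕ) (ps : List ℕ) (p : ℕ), ps.length ≤ n + 1 → Valid P σ ps →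
        ¬ (Al P σ p ∧ Al P (run σ ps) (p + 1)) := by
      rintro σ ps p hl hv ⟨h1, h2⟩
      have hfar : ∀ r ∈ ps, r + 2 ≤ p ∨ p + 3 ≤ r := by
        intro r hr
        obtain ⟨ps1, ps2, rfl⟩ := List.append_of_mem hr
        rw [valid_append] at hv
        obtain ⟨hv1, hr1, hv2⟩ := hv
        rw [run_append] at h2
        change Al P (run (mv (run σ ps1) r) ps2) (p + 1) at h2
        have hl1 : ps1.length ≤ n := by
          simp only [List.length_append, List.length_cons] at hl
          omega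
        have hl2 : ps2.length ≤ n := by
          simp only [List.length_append, List.length_cons] at hl
          omega
        by_contra hcon
        have hcases : r = p ∨ r = p + 1 ∨ r = p + 2 ∨ r + 1 = p := by omega
        rcases hcases with rfl | rfl | rfl | rfl
        · exact (ih _ ps2 r hl2 hv2).1 ⟨hr1.mv, h2⟩
        · exact (ih _ ps1 p hl1 hv1).1 ⟨h1, hr1⟩
        · exact (ih _ ps2 (p + 1) hl2 hv2).2 ⟨hr1.mv, h2⟩
        · exact (ih _ ps1 r hl1 hv1).2 ⟨h1, hr1⟩
      obtain ⟨f1, f2, f3⟩ := far_moves p σ ps hfar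
      obtain ⟨k', hk', e⟩ := f3 (p + 3) le_rfl
      unfold Al at h1 h2
      have e3 : p + 1 + 2 = p + 3 := rfl
      have e4 : p + 1 + 1 = p + 2 := rfl
      rw [e3, e4, f1, f2, e] at h2
      have := σ.injective (P.rot h1 h2)
      omega
    intro σ ps p hl hv
    refine ⟨main σ ps p hl hv, ?_⟩
    rintro ⟨h1, h2⟩
    obtain ⟨r1, r2⟩ := reverse_path P σ ps hv
    refine main (run σ ps) ps.reverse p (by simpa using hl) r1 ⟨h2, ?_⟩
    rw [r2]
    exact h1

/-- reachability -/
def Re (σ τ : Perm ℕ) : Prop := ∃ ps, Valid P σ ps ∧ run σ ps = τ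

variable {P}

lemma Re.refl (σ : Perm ℕ) : Re P σ σ := ⟨[], trivial, rfl⟩

lemma Re.symm {σ τ : Perm ℕ} (h : Re P σ τ) : Re P τ σ := by
  obtain ⟨ps, h1, rfl⟩ := h
  obtain ⟨r1, r2⟩ := reverse_path P σ ps h1
  exact ⟨_, r1, r2⟩

lemma Re.trans {σ τ μ : Perm ℕ} (h : Re P σ τ) (h' : Re P τ μ) : Re P σ μ := by
  obtain ⟨ps, h1, rfl⟩ := h
  obtain ⟨qs, h2, rfl⟩ := h'
  exact ⟨ps ++ qs, (valid_append P _ _ _).mpr ⟨h1, h2⟩, run_append _ _ _⟩

lemma Re.step {σ τ : Perm ℕ} {p : ℕ} (h : Re P σ τ) (hp : Al P τ p) : Re P σ (mv τ p) :=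
  h.trans ⟨[p], ⟨hp, trivial⟩, rfl⟩

lemma no_adj {σ τ : Perm ℕ} {p : ℕ} (h : Re P σ τ) (h1 : Al P σ p) (h2 : Al P τ (p + 1)) :
    False := by
  obtain ⟨ps, hv, rfl⟩ := h
  exact (no_adj_aux P _ σ ps p le_rfl hv).1 ⟨h1, h2⟩

/-- induction along a path -/
lemma Re.induct {σ : Perm ℕ} {Q : Perm ℕ → Prop} (h0 : Q σ)
    (hs : ∀ τ p, Re P σ τ → Al P τ p → Q τ → Q (mv τ p)) {τ : Perm ℕ} (h : Re P σ τ) : Q τ := by
  obtain ⟨ps, hv, rfl⟩ := h
  have : ∀ (ps : List ℕ) (μ : Perm ℕ), Re P σ μ → Q μ → Valid P μ ps → Q (run μ ps) := by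
    intro ps
    induction ps with
    | nil => intro μ _ h _; exact h
    | cons p ps ih =>
      intro μ hμ hQ hv
      exact ih (mv μ p) (hμ.step hv.1) (hs μ p hμ hv.1 hQ) hv.2
  exact this ps σ (Re.refl σ) h0 hv

/-- the middle item of a move never moves -/
lemma center_fixed {σ τ : Perm ℕ} {p : ℕ} (h : Re P σ τ) (h1 : Al P σ p) :
    τ (p + 1) = σ (p + 1) := by
  refine Re.induct (Q := fun τ => τ (p + 1) = σ (p + 1)) rfl ?_ h
  intro τ r hτ hr hQ
  have e1 : r ≠ p + 1 := by
    rintro rfl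
    exact no_adj hτ h1 hr
  have e2 : r + 1 ≠ p := by
    rintro rfl
    exact no_adj hτ.symm hr h1
  change mv τ r (p + 1) = _
  rw [mv_of_ne τ (by omega) (by omega), hQ]

lemma parity {τ : Perm ℕ} (h : Re P 1 τ) : ∀ k, τ k % 2 = k % 2 := by
  refine Re.induct (Q := fun τ => ∀ k, τ k % 2 = k % 2) (fun k => rfl) ?_ h
  intro τ p _ _ hQ k
  by_cases e1 : k = p
  · subst e1
    rw [mv_left, hQ]
    omega
  · by_cases e2 : k = p + 2
    · subst e2
      rw [mv_right, hQ]
      omega
    · rw [mv_of_ne τ e1 e2, hQ]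

lemma parity_symm {τ : Perm ℕ} (h : Re P 1 τ) (k : ℕ) : τ.symm k % 2 = k % 2 := by
  have := parity h (τ.symm k)
  rw [apply_symm_apply] at this
  exact this.symm

lemma fixes {τ : Perm ℕ} (h : Re P 1 τ) : ∀ k, P.m ≤ k → τ k = k := by
  refine Re.induct (Q := fun τ => ∀ k, P.m ≤ k → τ k = k) (fun k _ => rfl) ?_ h
  intro τ p _ hp hQ k hk
  have e1 : k ≠ p := by
    rintro rfl
    have := P.lt₁ hp
    rw [hQ k hk] at this
    omega
  have e2 : k ≠ p + 2 := by
    rintro rfl
    have := P.lt₁ (P.symm hp)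
    rw [hQ _ hk] at this
    omega
  rw [mv_of_ne τ e1 e2, hQ k hk]

lemma Al.lt {τ : Perm ℕ} (h : Re P 1 τ) {p : ℕ} (hp : Al P τ p) : p + 2 < P.m := by
  by_contra hcon
  have := P.lt₁ (P.symm hp)
  rw [fixes h _ (by omega)] at this
  omega

/-- The two items exchanged by a move are always on different sides of its middle item. -/
lemma side {μ σ : Perm ℕ} {p : ℕ} (hp : Al P μ p) (h : Re P μ σ) :
    (σ.symm (μ p) < p + 1 ∧ p + 1 < σ.symm (μ (p + 2))) ∨
    (σ.symm (μ (p + 2)) < p + 1 ∧ p + 1 < σ.symm (μ p)) := by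
  refine Re.induct (Q := fun σ => (σ.symm (μ p) < p + 1 ∧ p + 1 < σ.symm (μ (p + 2))) ∨
    (σ.symm (μ (p + 2)) < p + 1 ∧ p + 1 < σ.symm (μ p))) ?_ ?_ h
  · left
    rw [symm_apply_apply, symm_apply_apply]
    omega
  · intro τ r hτ hr hQ
    have e1 : r ≠ p + 1 := by
      rintro rfl
      exact no_adj hτ hp hr
    have e2 : r + 1 ≠ p := by
      rintro rfl
      exact no_adj hτ.symm hr hp
    simp only [mv_symm]
    by_cases e3 : r = p
    · subst e3
      have hc := center_fixed hτ hp
      unfold Al at hr hp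
      rw [hc] at hr
      by_cases f1 : τ.symm (μ r) = r
      · have g1 : τ r = μ r := by rw [← f1, apply_symm_apply, f1]
        rw [g1] at hr
        have g2 : τ (r + 2) = μ (r + 2) := P.uniq hr hp
        have f2 : τ.symm (μ (r + 2)) = r + 2 := by rw [← g2, symm_apply_apply]
        rw [f1, f2, swap_apply_left, swap_apply_right]
        omega
      · by_cases f2 : τ.symm (μ r) = r + 2
        · have g1 : τ (r + 2) = μ r := by rw [← f2, apply_symm_apply]
          rw [g1] at hr
          have g2 : τ r = μ (r + 2) := P.uniq (P.symm hr) hp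
          have f3 : τ.symm (μ (r + 2)) = r := by rw [← g2, symm_apply_apply]
          rw [f2, f3, swap_apply_left, swap_apply_right]
          omega
        · have f3 : τ.symm (μ (r + 2)) ≠ r := by
            intro h3
            have g1 : τ r = μ (r + 2) := by rw [← h3, apply_symm_apply, h3]
            rw [g1] at hr
            have g2 : τ (r + 2) = μ r := P.uniq hr (P.symm hp)
            exact f2 (by rw [← g2, symm_apply_apply])
          have f4 : τ.symm (μ (r + 2)) ≠ r + 2 := by
            intro h3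
            have g1 : τ (r + 2) = μ (r + 2) := by rw [← h3, apply_symm_apply, h3]
            rw [g1] at hr
            have g2 : τ r = μ r := P.uniq (P.symm hr) (P.symm hp)
            exact f1 (by rw [← g2, symm_apply_apply])
          rw [swap_apply_of_ne_of_ne f1 f2, swap_apply_of_ne_of_ne f3 f4]
          exact hQ
    · simp only [swap_apply_def]
      split_ifs <;> omega

lemma exists_inverting {x z : ℕ} (hxz : x % 2 = z % 2) : ∀ (ps : List ℕ) (σ : Perm ℕ), Re P 1 σ →
    Valid P σ ps → σ.symm x < σ.symm z → (run σ ps).symm z < (run σ ps).symm x →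
    ∃ μ r, Re P 1 μ ∧ Al P μ r ∧ μ r = x ∧ μ (r + 2) = z := by
  intro ps
  induction ps with
  | nil =>
    intro σ _ _ h1 h2
    simp only [run] at h2
    omega
  | cons r ps ih =>
    intro σ hσ hv h1 h2
    by_cases h3 : (mv σ r).symm x < (mv σ r).symm z
    · exact ih (mv σ r) (hσ.step hv.1) hv.2 h3 h2
    · refine ⟨σ, r, hσ, hv.1, ?_⟩
      have p1 := parity_symm hσ x
      have p2 := parity_symm hσ z
      have key : σ.symm x = r ∧ σ.symm z = r + 2 := by
        rw [mv_symm, mv_symm] at h3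
        simp only [swap_apply_def] at h3
        split_ifs at h3 <;> omega
      constructor
      · rw [← key.1, apply_symm_apply]
      · rw [← key.2, apply_symm_apply]

/-- the move inverting a pair which is inverted between two states -/
lemma exists_move {x z : ℕ} (hxz : x % 2 = z % 2) {σ τ : Perm ℕ} (hσ : Re P 1 σ) (hτ : Re P 1 τ)
    (h1 : σ.symm x < σ.symm z) (h2 : τ.symm z < τ.symm x) :
    ∃ μ r, Re P 1 μ ∧ Al P μ r ∧ μ r = x ∧ μ (r + 2) = z := by
  obtain ⟨ps, hv, rfl⟩ := hσ.symm.trans hτ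
  exact exists_inverting hxz ps σ hσ hv h1 h2

/-- an inverted pair has a separating center -/
lemma exists_center {x z : ℕ} (hxz : x % 2 = z % 2) {σ τ : Perm ℕ} (hσ : Re P 1 σ) (hτ : Re P 1 τ)
    (h1 : σ.symm x < σ.symm z) (h2 : τ.symm z < τ.symm x) :
    ∃ c, ∀ μ, Re P 1 μ → (μ.symm x < c ∧ c < μ.symm z) ∨ (μ.symm z < c ∧ c < μ.symm x) := by
  obtain ⟨μ, r, hμ, hr, rfl, rfl⟩ := exists_move hxz hσ hτ h1 h2
  exact ⟨r + 1, fun ν hν => side hr (hμ.symm.trans hν)⟩

/-- neighbours which are inverted in another state may be exchanged -/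
lemma allowed {σ τ : Perm ℕ} (hσ : Re P 1 σ) (hτ : Re P 1 τ) {p : ℕ}
    (h : τ.symm (σ (p + 2)) < τ.symm (σ p)) : Al P σ p := by
  have hpar : σ p % 2 = σ (p + 2) % 2 := by
    rw [parity hσ, parity hσ]
    omega
  obtain ⟨μ, r, hμ, hr, h1, h2⟩ := exists_move hpar hσ hτ
    (by rw [symm_apply_apply, symm_apply_apply]; omega) h
  have h3 := side hr (hμ.symm.trans hσ)
  rw [h1, h2, symm_apply_apply, symm_apply_apply] at h3
  have h4 : r = p := by omega
  subst h4
  have h5 := center_fixed (hμ.symm.trans hσ) hr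
  unfold Al at hr ⊢
  rw [h5, ← h1, ← h2]
  exact hr

/-! ### Distances -/

variable (P)

/-- ordered pairs of items which are in this order in `σ` and in the opposite order in `τ` -/
def Inv (σ τ : Perm ℕ) : Finset (ℕ × ℕ) :=
  (Finset.range P.m ×ˢ Finset.range P.m).filter
    (fun e => e.1 % 2 = e.2 % 2 ∧ σ.symm e.1 < σ.symm e.2 ∧ τ.symm e.2 < τ.symm e.1)

variable {P}

lemma mem_Inv {σ τ : Perm ℕ} {e : ℕ × ℕ} : e ∈ Inv P σ τ ↔ (e.1 < P.m ∧ e.2 < P.m) ∧
    e.1 % 2 = e.2 % 2 ∧ σ.symm e.1 < σ.symm e.2 ∧ τ.symm e.2 < τ.symm e.1 := by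
  simp [Inv]

lemma mv_order {σ : Perm ℕ} (hσ : Re P 1 σ) {p x z : ℕ} (hxz : x % 2 = z % 2)
    (h : ¬ (x = σ p ∧ z = σ (p + 2))) (h' : ¬ (z = σ p ∧ x = σ (p + 2))) :
    (mv σ p).symm x < (mv σ p).symm z ↔ σ.symm x < σ.symm z := by
  have p1 := parity_symm hσ x
  have p2 := parity_symm hσ z
  have h1 : ¬ (σ.symm x = p ∧ σ.symm z = p + 2) := by
    rintro ⟨a, b⟩
    exact h ⟨by rw [← a, apply_symm_apply], by rw [← b, apply_symm_apply]⟩
  have h2 : ¬ (σ.symm z = p ∧ σ.symm x = p + 2) := by
    rintro ⟨a, b⟩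
    exact h' ⟨by rw [← a, apply_symm_apply], by rw [← b, apply_symm_apply]⟩
  rw [mv_symm, mv_symm]
  simp only [swap_apply_def]
  split_ifs <;> omega

lemma Inv_mv {σ : Perm ℕ} (hσ : Re P 1 σ) {p : ℕ} {τ : Perm ℕ} :
    Inv P σ τ ⊆ insert (σ p, σ (p + 2)) (Inv P (mv σ p) τ) := by
  intro e he
  rw [mem_Inv] at he
  obtain ⟨h1, h2, h3, h4⟩ := he
  rw [Finset.mem_insert]
  by_cases hc : e.1 = σ p ∧ e.2 = σ (p + 2)
  · left
    exact Prod.ext hc.1 hc.2
  · right
    rw [mem_Inv]
    refine ⟨h1, h2, ?_, h4⟩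
    rw [mv_order hσ h2 hc]
    · exact h3
    · rintro ⟨a, b⟩
      rw [a, b, symm_apply_apply, symm_apply_apply] at h3
      omega

lemma Inv_mv_lt {σ : Perm ℕ} (hσ : Re P 1 σ) {p : ℕ} {τ : Perm ℕ} (hp : Al P σ p)
    (h : τ.symm (σ (p + 2)) < τ.symm (σ p)) :
    (Inv P (mv σ p) τ).card + 1 = (Inv P σ τ).card := by
  have hmem : (σ p, σ (p + 2)) ∈ Inv P σ τ := by
    rw [mem_Inv]
    refine ⟨⟨P.lt₁ hp, P.lt₁ (P.symm hp)⟩, ?_, ?_, h⟩
    · simp only
      rw [parity hσ, parity hσ]
      omega
    · simp only [symm_apply_apply]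
      omega
  have heq : Inv P (mv σ p) τ = (Inv P σ τ).erase (σ p, σ (p + 2)) := by
    ext e
    rw [Finset.mem_erase]
    constructor
    · intro he
      have he' := he
      rw [mem_Inv] at he
      obtain ⟨h1, h2, h3, h4⟩ := he
      have hc : ¬ (e.1 = σ p ∧ e.2 = σ (p + 2)) := by
        rintro ⟨a, b⟩
        rw [a, b, mv_symm, mv_symm, symm_apply_apply, symm_apply_apply, swap_apply_left,
          swap_apply_right] at h3
        omega
      have hc' : ¬ (e.2 = σ p ∧ e.1 = σ (p + 2)) := by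
        rintro ⟨a, b⟩
        rw [a, b] at h4
        omega
      refine ⟨fun h => hc ⟨by rw [h], by rw [h]⟩, ?_⟩
      rw [mem_Inv]
      exact ⟨h1, h2, (mv_order hσ h2 hc hc').mp h3, h4⟩
    · rintro ⟨hne, he⟩
      have := Inv_mv hσ (p := p) he
      rw [Finset.mem_insert] at this
      exact this.resolve_left hne
  rw [heq, Finset.card_erase_of_mem hmem]
  have := Finset.card_pos.mpr ⟨_, hmem⟩
  omega

/-- different reachable states differ in the order of two neighbours -/
lemma eq_of_no_inv {σ τ : Perm ℕ} (hσ : Re P 1 σ) (hτ : Re P 1 τ)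
    (h : ∀ p, τ.symm (σ p) < τ.symm (σ (p + 2))) : σ = τ := by
  -- `g k = τ⁻¹ (σ k)` is increasing on each parity class
  have hg : ∀ k, k ≤ τ.symm (σ k) := by
    intro k
    induction k using Nat.strong_induction_on with
    | _ k ih =>
      have hp : τ.symm (σ k) % 2 = k % 2 := by rw [parity_symm hτ, parity hσ]
      by_cases hk : k < 2
      · omega
      · obtain ⟨j, rfl⟩ : ∃ j, k = j + 2 := ⟨k - 2, by omega⟩
        have h1 := ih j (by omega)
        have h2 := h j
        omega
  -- so it is the identity, by counting from the top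
  have hfix : ∀ k, P.m ≤ k → τ.symm (σ k) = k := by
    intro k hk
    rw [fixes hσ k hk, symm_apply_eq, fixes hτ k hk]
  have key : ∀ n k, k + n = P.m → τ.symm (σ k) = k := by
    intro n
    induction n using Nat.strong_induction_on with
    | _ n ih =>
      intro k hk
      by_contra hne
      have h1 := hg k
      have h2 : k < τ.symm (σ k) := by omega
      set j := τ.symm (σ k) with hj
      have h3 : τ.symm (σ j) = j := by
        by_cases hjm : P.m ≤ j
        · exact hfix j hjm
        · exact ih (P.m - j) (by omega) j (by omega)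
      rw [hj] at h3
      have h4 := σ.injective (τ.symm.injective h3)
      omega
  ext k
  by_cases hk : P.m ≤ k
  · rw [fixes hσ k hk, fixes hτ k hk]
  · have := key (P.m - k) k (by omega)
    rw [symm_apply_eq] at this
    exact this

lemma exists_descent {σ τ : Perm ℕ} (hσ : Re P 1 σ) (hτ : Re P 1 τ) (hne : σ ≠ τ) :
    ∃ p, τ.symm (σ (p + 2)) < τ.symm (σ p) := by
  by_contra hcon
  push Not at hcon
  apply hne
  apply eq_of_no_inv hσ hτ
  intro p
  refine lt_of_le_of_ne (hcon p) ?_
  intro h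
  have := σ.injective (τ.symm.injective h)
  omega

variable (P)

/-- the vertices of the state graph -/
abbrev St : Type := {σ : Perm ℕ // Re P 1 σ}

/-- the state graph -/
def G : SimpleGraph (St P) where
  Adj σ τ := ∃ p, Al P σ.1 p ∧ τ.1 = mv σ.1 p
  symm := ⟨by
    rintro σ τ ⟨p, h1, h2⟩
    refine ⟨p, ?_, ?_⟩
    · rw [h2]; exact h1.mv
    · rw [h2, mv_mv]⟩
  loopless := ⟨by
    rintro σ ⟨p, _, h2⟩
    have h3 := congrArg (fun f : Perm ℕ => f p) h2
    simp only [mv_left] at h3
    have := σ.1.injective h3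
    omega⟩

variable {P}

lemma card_le_walk {σ τ : St P} (w : (G P).Walk σ τ) : (Inv P σ.1 τ.1).card ≤ w.length := by
  induction w with
  | nil =>
    rename_i u
    have : Inv P u.1 u.1 = ∅ := by
      ext e
      rw [mem_Inv]
      simp only [Finset.notMem_empty, iff_false]
      omega
    rw [this]
    simp
  | cons h w ih =>
    rename_i u v w'
    rw [SimpleGraph.Walk.length_cons]
    obtain ⟨p, h1, h2⟩ := h
    have h3 := Finset.card_le_card (Inv_mv (τ := w'.1) u.2 (p := p))
    rw [← h2] at h3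
    have h4 := Finset.card_insert_le (u.1 p, u.1 (p + 2)) (Inv P v.1 w'.1)
    omega

lemma exists_walk (τ : St P) : ∀ (n : ℕ) (σ : St P), (Inv P σ.1 τ.1).card = n →
    ∃ w : (G P).Walk σ τ, w.length = n := by
  intro n
  induction n with
  | zero =>
    intro σ h
    have : σ = τ := by
      by_contra hne
      obtain ⟨p, hp⟩ := exists_descent σ.2 τ.2 (fun h => hne (Subtype.ext h))
      have hal := allowed σ.2 τ.2 hp
      have := Inv_mv_lt σ.2 hal hp
      omega
    subst this
    exact ⟨SimpleGraph.Walk.nil, rfl⟩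
  | succ n ih =>
    intro σ h
    have hne : σ ≠ τ := by
      rintro rfl
      have : Inv P σ.1 σ.1 = ∅ := by
        ext e
        rw [mem_Inv]
        simp only [Finset.notMem_empty, iff_false]
        omega
      rw [this] at h
      simp at h
    obtain ⟨p, hp⟩ := exists_descent σ.2 τ.2 (fun h => hne (Subtype.ext h))
    have hal := allowed σ.2 τ.2 hp
    have h2 := Inv_mv_lt σ.2 hal hp
    obtain ⟨w, hw⟩ := ih ⟨mv σ.1 p, σ.2.step hal⟩ (by simp only; omega)
    have hadj : (G P).Adj σ ⟨mv σ.1 p, σ.2.step hal⟩ := ⟨p, hal, rfl⟩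
    exact ⟨SimpleGraph.Walk.cons hadj w, by rw [SimpleGraph.Walk.length_cons, hw]⟩

lemma connected : (G P).Connected := by
  have : Nonempty (St P) := ⟨⟨1, Re.refl 1⟩⟩
  refine SimpleGraph.Connected.mk ?_
  intro σ τ
  obtain ⟨w, _⟩ := exists_walk τ _ σ rfl
  exact ⟨w⟩

/-- the distance is the number of inverted pairs -/
lemma dist_eq (σ τ : St P) : (G P).dist σ τ = (Inv P σ.1 τ.1).card := by
  apply le_antisymm
  · obtain ⟨w, hw⟩ := exists_walk τ _ σ rfl
    rw [← hw]
    exact SimpleGraph.dist_le w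
  · obtain ⟨w, hw⟩ := (connected (P := P)).exists_walk_length_eq_dist σ τ
    rw [← hw]
    exact card_le_walk w

/-! ### Medians -/

/-- `μ` is between `u` and `v` as soon as it agrees with them wherever they agree -/
lemma dist_add_of_agree {u v μ : St P} (h : ∀ x z : ℕ, x < P.m → z < P.m → x % 2 = z % 2 →
    u.1.symm x < u.1.symm z → v.1.symm x < v.1.symm z → μ.1.symm x < μ.1.symm z) :
    (G P).dist u μ + (G P).dist μ v = (G P).dist u v := by
  rw [dist_eq, dist_eq, dist_eq]
  have hu : Inv P u.1 μ.1 ∪ Inv P μ.1 v.1 = Inv P u.1 v.1 := by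
    ext e
    rw [Finset.mem_union, mem_Inv, mem_Inv, mem_Inv]
    have hne : ∀ σ : Perm ℕ, e.1 ≠ e.2 → σ.symm e.1 ≠ σ.symm e.2 := fun σ h h' =>
      h (σ.symm.injective h')
    constructor
    · rintro (⟨h1, h2, h3, h4⟩ | ⟨h1, h2, h3, h4⟩)
      · refine ⟨h1, h2, h3, ?_⟩
        by_contra hcon
        have hne' : e.1 ≠ e.2 := by intro h; rw [h] at h3; omega
        have := hne v.1 hne'
        have := h e.1 e.2 h1.1 h1.2 h2 h3 (by omega)
        omega
      · refine ⟨h1, h2, ?_, h4⟩
        by_contra hcon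
        have hne' : e.1 ≠ e.2 := by intro h; rw [h] at h3; omega
        have := hne u.1 hne'
        have := h e.2 e.1 h1.2 h1.1 h2.symm (by omega) h4
        omega
    · rintro ⟨h1, h2, h3, h4⟩
      have hne' : e.1 ≠ e.2 := by intro h; rw [h] at h3; omega
      have := hne μ.1 hne'
      by_cases h5 : μ.1.symm e.2 < μ.1.symm e.1
      · left; exact ⟨h1, h2, h3, h5⟩
      · right; exact ⟨h1, h2, by omega, h4⟩
  have hd : Disjoint (Inv P u.1 μ.1) (Inv P μ.1 v.1) := by
    rw [Finset.disjoint_left]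
    intro e h1 h2
    rw [mem_Inv] at h1 h2
    omega
  rw [← hu, Finset.card_union_of_disjoint hd]

/-- if `μ` is between `u` and `v`, then it agrees with them wherever they agree -/
lemma agree_of_dist_add {u v μ : St P}
    (h : (G P).dist u μ + (G P).dist μ v = (G P).dist u v) {x z : ℕ} (hx : x < P.m) (hz : z < P.m)
    (hxz : x % 2 = z % 2) (h1 : u.1.symm x < u.1.symm z) (h2 : v.1.symm x < v.1.symm z) :
    μ.1.symm x < μ.1.symm z := by
  by_contra hcon
  have hne' : x ≠ z := by rintro rfl; omega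
  have hne : μ.1.symm x ≠ μ.1.symm z := fun h => hne' (μ.1.symm.injective h)
  rw [dist_eq, dist_eq, dist_eq] at h
  have hmem : (x, z) ∈ Inv P u.1 μ.1 := by
    rw [mem_Inv]
    exact ⟨⟨hx, hz⟩, hxz, h1, by simp only; omega⟩
  have hsub : Inv P u.1 v.1 ⊆ (Inv P u.1 μ.1).erase (x, z) ∪ Inv P μ.1 v.1 := by
    intro e he
    rw [mem_Inv] at he
    obtain ⟨g1, g2, g3, g4⟩ := he
    have hne' : e.1 ≠ e.2 := by intro h; rw [h] at g3; omega
    have hne2 : μ.1.symm e.1 ≠ μ.1.symm e.2 := fun h => hne' (μ.1.symm.injective h)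
    rw [Finset.mem_union, Finset.mem_erase, mem_Inv, mem_Inv]
    by_cases h5 : μ.1.symm e.2 < μ.1.symm e.1
    · left
      refine ⟨?_, g1, g2, g3, h5⟩
      rintro rfl
      simp only at g4
      omega
    · right; exact ⟨g1, g2, by omega, g4⟩
  have h3 := Finset.card_le_card hsub
  have h4 := Finset.card_union_le ((Inv P u.1 μ.1).erase (x, z)) (Inv P μ.1 v.1)
  rw [Finset.card_erase_of_mem hmem] at h4
  have h5 := Finset.card_pos.mpr ⟨_, hmem⟩
  omega

/-- no cyclic majorities -/
lemma no_cycle {u v w : Perm ℕ} (hu : Re P 1 u) (hv : Re P 1 v) (hw : Re P 1 w) {x y z : ℕ}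
    (hxy : x % 2 = y % 2) (hyz : y % 2 = z % 2)
    (u1 : u.symm x < u.symm y) (u2 : u.symm y < u.symm z)
    (v1 : v.symm z < v.symm x) (v2 : v.symm x < v.symm y)
    (w1 : w.symm y < w.symm z) (w2 : w.symm z < w.symm x) : False := by
  obtain ⟨a, ha⟩ := exists_center hxy hu hw u1 (by omega)
  obtain ⟨b, hb⟩ := exists_center hyz hu hv u2 (by omega)
  obtain ⟨c, hc⟩ := exists_center (hxy.trans hyz) hu hv (by omega) v1
  have a1 := ha u hu
  have a2 := ha v hv
  have a3 := ha w hw
  have b1 := hb u hu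
  have b2 := hb v hv
  have b3 := hb w hw
  have c1 := hc u hu
  have c2 := hc v hv
  have c3 := hc w hw
  omega

/-- pairs on which `u` is in the minority -/
def Mi (P : Puz) (u v w : Perm ℕ) : Finset (ℕ × ℕ) := Inv P u v ∩ Inv P u w

lemma exists_median_aux (v w : St P) : ∀ (n : ℕ) (u : St P), (Mi P u.1 v.1 w.1).card = n →
    ∃ μ : St P, ∀ x z : ℕ, x < P.m → z < P.m → x % 2 = z % 2 →
      ((u.1.symm x < u.1.symm z → v.1.symm x < v.1.symm z → μ.1.symm x < μ.1.symm z) ∧
      (u.1.symm x < u.1.symm z → w.1.symm x < w.1.symm z → μ.1.symm x < μ.1.symm z) ∧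
      (v.1.symm x < v.1.symm z → w.1.symm x < w.1.symm z → μ.1.symm x < μ.1.symm z)) := by
  intro n
  induction n with
  | zero =>
    intro u h
    refine ⟨u, fun x z hx hz hxz => ⟨fun h _ => h, fun h _ => h, fun h1 h2 => ?_⟩⟩
    by_contra hcon
    have hne' : x ≠ z := by rintro rfl; omega
    have hne : u.1.symm x ≠ u.1.symm z := fun h => hne' (u.1.symm.injective h)
    have hmem : (z, x) ∈ Mi P u.1 v.1 w.1 := by
      unfold Mi
      rw [Finset.mem_inter, mem_Inv, mem_Inv]
      exact ⟨⟨⟨hz, hx⟩, hxz.symm, by simp only; omega, h1⟩,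
        ⟨⟨hz, hx⟩, hxz.symm, by simp only; omega, h2⟩⟩
    rw [Finset.card_eq_zero] at h
    rw [h] at hmem
    exact absurd hmem (Finset.notMem_empty _)
  | succ n ih =>
    intro u h
    -- a pair at minimal distance
    have hne : (Mi P u.1 v.1 w.1).Nonempty := by
      rw [← Finset.card_pos]; omega
    obtain ⟨e, he, hmin⟩ := Finset.exists_min_image _ (fun e => u.1.symm e.2 - u.1.symm e.1) hne
    obtain ⟨x, z⟩ := e
    have he' := he
    unfold Mi at he
    rw [Finset.mem_inter, mem_Inv, mem_Inv] at he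
    obtain ⟨⟨⟨hx, hz⟩, hxz, h1, h2⟩, ⟨-, -, -, h3⟩⟩ := he
    simp only at hx hz hxz h1 h2 h3 hmin
    have p1 := parity_symm u.2 x
    have p2 := parity_symm u.2 z
    have hadj : u.1.symm z = u.1.symm x + 2 := by
      by_contra hnadj
      -- the item `y` right after `x`
      set y := u.1 (u.1.symm x + 2) with hy
      have hyy : u.1.symm y = u.1.symm x + 2 := by rw [hy, symm_apply_apply]
      have py : y % 2 = x % 2 := by
        have := parity_symm u.2 y
        omega
      have hym : y < P.m := by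
        by_contra hcon
        have e1 := fixes u.2 y (by omega)
        have e2 : u.1.symm y = y := by rw [symm_apply_eq, e1]
        have e3 : u.1.symm z < P.m := by
          by_contra h4
          have := fixes u.2 (u.1.symm z) (by omega)
          rw [apply_symm_apply] at this
          omega
        omega
      have hyx : y ≠ x := by
        intro h4
        rw [h4] at hyy
        omega
      have hyz : y ≠ z := by
        intro h4
        rw [h4] at hyy
        exact hnadj hyy
      have nxy : ¬ (v.1.symm y < v.1.symm x ∧ w.1.symm y < w.1.symm x) := by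
        rintro ⟨g1, g2⟩
        have hm : (x, y) ∈ Mi P u.1 v.1 w.1 := by
          unfold Mi
          rw [Finset.mem_inter, mem_Inv, mem_Inv]
          exact ⟨⟨⟨hx, hym⟩, py.symm, by simp only; omega, g1⟩,
            ⟨⟨hx, hym⟩, py.symm, by simp only; omega, g2⟩⟩
        have := hmin _ hm
        simp only at this
        omega
      have nyz : ¬ (v.1.symm z < v.1.symm y ∧ w.1.symm z < w.1.symm y) := by
        rintro ⟨g1, g2⟩
        have hm : (y, z) ∈ Mi P u.1 v.1 w.1 := by
          unfold Mi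
          rw [Finset.mem_inter, mem_Inv, mem_Inv]
          exact ⟨⟨⟨hym, hz⟩, by simp only; omega, by simp only; omega, g1⟩,
            ⟨⟨hym, hz⟩, by simp only; omega, by simp only; omega, g2⟩⟩
        have := hmin _ hm
        simp only at this
        omega
      have vx : v.1.symm x ≠ v.1.symm y := fun h => hyx (v.1.symm.injective h).symm
      have wx : w.1.symm x ≠ w.1.symm y := fun h => hyx (w.1.symm.injective h).symm
      have vz : v.1.symm z ≠ v.1.symm y := fun h => hyz (v.1.symm.injective h).symm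
      have wz : w.1.symm z ≠ w.1.symm y := fun h => hyz (w.1.symm.injective h).symm
      by_cases g : v.1.symm x < v.1.symm y
      · -- `v : z x y`, `w : y z x`
        exact no_cycle u.2 v.2 w.2 (x := x) (y := y) (z := z) py.symm (py.trans hxz)
          (by omega) (by omega) h2 g (by omega) h3
      · exact no_cycle u.2 w.2 v.2 (x := x) (y := y) (z := z) py.symm (py.trans hxz)
          (by omega) (by omega) h3 (by omega) (by omega) h2
    set p := u.1.symm x with hp
    have ux : u.1 p = x := by rw [hp, apply_symm_apply]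
    have uz : u.1 (p + 2) = z := by rw [← hadj, apply_symm_apply]
    have hal : Al P u.1 p := allowed u.2 v.2 (by rw [ux, uz]; exact h2)
    set u' : St P := ⟨mv u.1 p, u.2.step hal⟩ with hu'
    have hcard : (Mi P u'.1 v.1 w.1).card = n := by
      have heq : Mi P u'.1 v.1 w.1 = (Mi P u.1 v.1 w.1).erase (x, z) := by
        ext e
        rw [Finset.mem_erase]
        unfold Mi
        rw [Finset.mem_inter, Finset.mem_inter]
        have key : ∀ τ : Perm ℕ, τ.symm z < τ.symm x → (e ∈ Inv P u'.1 τ ↔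
            e ≠ (x, z) ∧ e ∈ Inv P u.1 τ) := by
          intro τ hτ
          rw [mem_Inv, mem_Inv]
          constructor
          · rintro ⟨g1, g2, g3, g4⟩
            have hc : ¬ (e.1 = u.1 p ∧ e.2 = u.1 (p + 2)) := by
              rintro ⟨a, b⟩
              rw [hu'] at g3
              simp only at g3
              rw [a, b, mv_symm, mv_symm, symm_apply_apply, symm_apply_apply, swap_apply_left,
                swap_apply_right] at g3
              omega
            have hc' : ¬ (e.2 = u.1 p ∧ e.1 = u.1 (p + 2)) := by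
              rintro ⟨a, b⟩
              rw [a, b, ux, uz] at g4
              omega
            refine ⟨?_, g1, g2, (mv_order u.2 g2 hc hc').mp g3, g4⟩
            rintro rfl
            exact hc ⟨ux.symm, uz.symm⟩
          · rintro ⟨hne, g1, g2, g3, g4⟩
            have hc : ¬ (e.1 = u.1 p ∧ e.2 = u.1 (p + 2)) := by
              rintro ⟨a, b⟩
              rw [ux] at a
              rw [uz] at b
              exact hne (Prod.ext a b)
            have hc' : ¬ (e.2 = u.1 p ∧ e.1 = u.1 (p + 2)) := by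
              rintro ⟨a, b⟩
              rw [a, b, ux, uz] at g4
              omega
            exact ⟨g1, g2, (mv_order u.2 g2 hc hc').mpr g3, g4⟩
        rw [key v.1 h2, key w.1 h3]
        tauto
      rw [heq, Finset.card_erase_of_mem he']
      omega
    obtain ⟨μ, hμ⟩ := ih u' hcard
    refine ⟨μ, fun a b ha hb hab => ?_⟩
    obtain ⟨m1, m2, m3⟩ := hμ a b ha hb hab
    -- the order of `a, b` in `u'`
    have hord : ¬ (a = x ∧ b = z) → u.1.symm a < u.1.symm b → u'.1.symm a < u'.1.symm b := by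
      intro hne hlt
      refine (mv_order u.2 hab ?_ ?_).mpr hlt
      · rw [ux, uz]; exact hne
      · rintro ⟨g1, g2⟩
        rw [g1, g2, ux, uz] at hlt
        omega
    refine ⟨?_, ?_, m3⟩
    · intro g1 g2
      by_cases hne : a = x ∧ b = z
      · obtain ⟨rfl, rfl⟩ := hne
        omega
      · exact m1 (hord hne g1) g2
    · intro g1 g2
      by_cases hne : a = x ∧ b = z
      · obtain ⟨rfl, rfl⟩ := hne
        omega
      · exact m2 (hord hne g1) g2

/-- **The state graph is a median graph.** -/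
theorem median (u v w : St P) : ∃! μ : St P,
    (G P).dist u μ + (G P).dist μ v = (G P).dist u v ∧
    (G P).dist v μ + (G P).dist μ w = (G P).dist v w ∧
    (G P).dist u μ + (G P).dist μ w = (G P).dist u w := by
  obtain ⟨μ, hμ⟩ := exists_median_aux v w _ u rfl
  refine ⟨μ, ⟨?_, ?_, ?_⟩, ?_⟩
  · exact dist_add_of_agree fun x z hx hz hxz => (hμ x z hx hz hxz).1
  · exact dist_add_of_agree fun x z hx hz hxz => (hμ x z hx hz hxz).2.2
  · exact dist_add_of_agree fun x z hx hz hxz => (hμ x z hx hz hxz).2.1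
  · rintro ν ⟨n1, n2, n3⟩
    -- `ν` and `μ` order all pairs in the same way
    have hall : ∀ x z : ℕ, x < P.m → z < P.m → x % 2 = z % 2 → μ.1.symm x < μ.1.symm z →
        ν.1.symm x < ν.1.symm z := by
      intro x z hx hz hxz hlt
      have hne' : x ≠ z := by rintro rfl; omega
      have hne : ∀ σ : Perm ℕ, σ.symm x ≠ σ.symm z := fun σ h => hne' (σ.symm.injective h)
      have a1 := hne u.1
      have a2 := hne v.1
      have a3 := hne w.1
      have m1 := hμ z x hz hx hxz.symm
      by_cases b1 : u.1.symm x < u.1.symm z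
      · by_cases b2 : v.1.symm x < v.1.symm z
        · exact agree_of_dist_add n1 hx hz hxz b1 b2
        · by_cases b3 : w.1.symm x < w.1.symm z
          · exact agree_of_dist_add n3 hx hz hxz b1 b3
          · have := m1.2.2 (by omega) (by omega)
            omega
      · by_cases b2 : v.1.symm x < v.1.symm z
        · by_cases b3 : w.1.symm x < w.1.symm z
          · exact agree_of_dist_add n2 hx hz hxz b2 b3
          · have := m1.2.1 (by omega) (by omega)
            omega
        · have := m1.1 (by omega) (by omega)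
          omega
    have h0 : (G P).dist μ ν = 0 := by
      rw [dist_eq, Finset.card_eq_zero]
      ext e
      rw [mem_Inv]
      simp only [Finset.notMem_empty, iff_false]
      rintro ⟨h1, h2, h3, h4⟩
      have := hall e.1 e.2 h1.1 h1.2 h2 h3
      omega
    exact ((connected (P := P)).dist_eq_zero_iff.mp h0).symm

end Pool.Agent.R130.Puzzle
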