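import Mathlib
import Pool.Agent.R130.Puzzle

/-!
# Braid classes of reduced words in simply-laced Coxeter systems

Definitions (braid moves, braid classes, braid graphs, braid shadows) and the identification of the
braid graph of a reduced word with the state graph of a triple-reversal puzzle on its reflections.
-/

set_option autoImplicit false

namespace Pool.Agent.R130.Braid

open Pool.Agent.R130.Puzzle CoxeterSystem

/-! ### Definitions -/

section defs

variable {B : Type*} (M : CoxeterMatrix B)

/-- The Coxeter matrix is simply laced: `m(s,t)` is `2` or `3` for all distinct `s, t`. -/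
def SimplyLaced : Prop := ∀ s t, s ≠ t → M s t = 2 ∨ M s t = 3

/-- The Coxeter graph has no triangle. -/
def TriangleFree : Prop := ∀ s t u, ¬ (M s t = 3 ∧ M t u = 3 ∧ M s u = 3)

/-- `γ` arises from `β` by replacing a consecutive factor `sts` by `tst`, where `m(s,t) = 3`. -/
def BraidMove (β γ : List B) : Prop :=
  ∃ (l₁ l₂ : List B) (s t : B), M s t = 3 ∧ β = l₁ ++ [s, t, s] ++ l₂ ∧ γ = l₁ ++ [t, s, t] ++ l₂

/-- The braid class of `α`: all words obtained from `α` by finitely many braid moves. -/
def braidClass (α : List B) : Set (List B) := {β | Relation.ReflTransGen (BraidMove M) α β}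

/-- Position `p` (counted from `0`) of `β` starts a braid shadow: the letters at the positions
`p, p+1, p+2` of `β` read `sts` with `m(s,t) = 3`. -/
def IsShadow (β : List B) (p : ℕ) : Prop :=
  ∃ (l₁ l₂ : List B) (s t : B), M s t = 3 ∧ β = l₁ ++ [s, t, s] ++ l₂ ∧ l₁.length = p

/-- The first positions (counted from `0`) of the braid shadows of the words in the braid class. -/
def shadows (α : List B) : Set ℕ := {p | ∃ β ∈ braidClass M α, IsShadow M β p}

variable {M}

lemma BraidMove.symm {β γ : List B} (h : BraidMove M β γ) : BraidMove M γ β := by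
  obtain ⟨l₁, l₂, s, t, h1, h2, h3⟩ := h
  exact ⟨l₁, l₂, t, s, by rw [M.symmetric]; exact h1, h3, h2⟩

lemma BraidMove.ne {β γ : List B} (h : BraidMove M β γ) : β ≠ γ := by
  obtain ⟨l₁, l₂, s, t, h1, h2, h3⟩ := h
  rintro rfl
  rw [h2] at h3
  have : s = t := by
    simp at h3
    exact h3.1
  subst this
  rw [M.diagonal] at h1
  omega

variable (M)

/-- The braid graph of `α`. -/
def braidGraph (α : List B) : SimpleGraph (braidClass M α) where
  Adj β γ := BraidMove M β.1 γ.1
  symm := ⟨fun _ _ h => h.symm⟩
  loopless := ⟨fun _ h => h.ne rfl⟩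

end defs

/-! ### Reflections -/

section refl

variable {B W : Type*} {M : CoxeterMatrix B} [Group W] (cs : CoxeterSystem M W)

/-- the `j`-th entry of the left inversion sequence -/
noncomputable def rf (ω : List B) (j : ℕ) : W := (cs.leftInvSeq ω).getD j 1

lemma rf_mul_self (ω : List B) (j : ℕ) : rf cs ω j * rf cs ω j = 1 :=
  cs.getD_leftInvSeq_mul_self ω j

lemma rf_eq (ω : List B) (j : ℕ) : rf cs ω j =
    cs.wordProd (ω.take j) * ((ω[j]?).map cs.simple).getD 1 * (cs.wordProd (ω.take j))⁻¹ :=
  cs.getD_leftInvSeq ω j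

lemma rf_append_left (l r : List B) {j : ℕ} (hj : j < l.length) : rf cs (l ++ r) j = rf cs l j := by
  rw [rf_eq, rf_eq, List.take_append_of_le_length hj.le, List.getElem?_append_left hj]

lemma rf_append_right (l r : List B) (j : ℕ) :
    rf cs (l ++ r) (l.length + j) = cs.wordProd l * rf cs r j * (cs.wordProd l)⁻¹ := by
  rw [rf_eq, rf_eq, List.getElem?_append_right (by omega), List.take_append]
  have e1 : l.take (l.length + j) = l := List.take_of_length_le (by omega)
  have e2 : l.length + j - l.length = j := by omega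
  rw [e1, e2, cs.wordProd_append]
  group

lemma comm_of_two {s t : B} (h : M s t = 2) :
    cs.simple s * cs.simple t = cs.simple t * cs.simple s := by
  have h1 := cs.simple_mul_simple_pow s t
  rw [h] at h1
  have hs := cs.simple_mul_simple_self s
  have ht := cs.simple_mul_simple_self t
  rw [pow_two] at h1
  calc cs.simple s * cs.simple t
      = cs.simple t * (cs.simple t * (cs.simple s * cs.simple t)) := by
        rw [← mul_assoc (cs.simple t), ht, one_mul]
    _ = cs.simple t * ((cs.simple s * cs.simple s) * (cs.simple t * (cs.simple s * cs.simple t))) := by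
        rw [hs, one_mul]
    _ = cs.simple t * cs.simple s * ((cs.simple s * cs.simple t) * (cs.simple s * cs.simple t)) := by
        simp only [mul_assoc]
    _ = cs.simple t * cs.simple s := by rw [h1, mul_one]

lemma braid_of_three {s t : B} (h : M s t = 3) :
    cs.simple s * cs.simple t * cs.simple s = cs.simple t * cs.simple s * cs.simple t := by
  have h1 := cs.simple_mul_simple_pow s t
  rw [h] at h1
  have hs := cs.simple_mul_simple_self s
  have ht := cs.simple_mul_simple_self t
  have h3 : (cs.simple s * cs.simple t * cs.simple s) *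
      (cs.simple t * cs.simple s * cs.simple t) = 1 := by
    rw [← h1]
    simp only [pow_succ, pow_zero, one_mul, mul_assoc]
  have h4 : (cs.simple t * cs.simple s * cs.simple t) *
      (cs.simple t * cs.simple s * cs.simple t) = 1 := by
    calc (cs.simple t * cs.simple s * cs.simple t) * (cs.simple t * cs.simple s * cs.simple t)
        = cs.simple t * (cs.simple s * ((cs.simple t * cs.simple t) *
          (cs.simple s * cs.simple t))) := by
          simp only [mul_assoc]
      _ = 1 := by rw [ht, one_mul, ← mul_assoc (cs.simple s), hs, one_mul, ht]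
  exact mul_right_cancel (h3.trans h4.symm)

lemma rf_cons_zero (s : B) (l : List B) : rf cs (s :: l) 0 = cs.simple s := by
  rw [rf_eq]; simp

lemma rf_cons_succ (s : B) (l : List B) (j : ℕ) :
    rf cs (s :: l) (j + 1) = cs.simple s * rf cs l j * cs.simple s := by
  have := rf_append_right cs [s] l j
  simp only [List.singleton_append, List.length_singleton, cs.wordProd_singleton, cs.inv_simple] at this
  rw [add_comm 1 j] at this
  exact this

/-- values of the reflections of a word at three consecutive places -/
lemma rf_three (l₁ l₂ : List B) (a b c : B) :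
    rf cs (l₁ ++ [a, b, c] ++ l₂) l₁.length =
      cs.wordProd l₁ * cs.simple a * (cs.wordProd l₁)⁻¹ ∧
    rf cs (l₁ ++ [a, b, c] ++ l₂) (l₁.length + 1) =
      cs.wordProd l₁ * (cs.simple a * cs.simple b * cs.simple a) * (cs.wordProd l₁)⁻¹ ∧
    rf cs (l₁ ++ [a, b, c] ++ l₂) (l₁.length + 2) =
      cs.wordProd l₁ * (cs.simple a * (cs.simple b * cs.simple c * cs.simple b) * cs.simple a) *
        (cs.wordProd l₁)⁻¹ := by
  rw [List.append_assoc]
  refine ⟨?_, ?_, ?_⟩
  · have := rf_append_right cs l₁ ([a, b, c] ++ l₂) 0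
    rw [add_zero] at this
    rw [this]
    change cs.wordProd l₁ * rf cs (a :: (b :: c :: l₂)) 0 * _ = _
    rw [rf_cons_zero]
  · rw [rf_append_right]
    congr 2
    change rf cs (a :: (b :: c :: l₂)) (0 + 1) = _
    rw [rf_cons_succ, rf_cons_zero]
  · rw [rf_append_right]
    congr 2
    change rf cs (a :: (b :: c :: l₂)) ((0 + 1) + 1) = _
    rw [rf_cons_succ, rf_cons_succ, rf_cons_zero]

/-- a braid move exchanges two reflections -/
lemma rf_braid (l₁ l₂ : List B) {s t : B} (h : M s t = 3) (k : ℕ) :
    rf cs (l₁ ++ [t, s, t] ++ l₂) k =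
      rf cs (l₁ ++ [s, t, s] ++ l₂) (Equiv.swap l₁.length (l₁.length + 2) k) := by
  have hb := braid_of_three cs h
  have hs := cs.simple_mul_simple_self s
  have ht := cs.simple_mul_simple_self t
  obtain ⟨a1, a2, a3⟩ := rf_three cs l₁ l₂ s t s
  obtain ⟨b1, b2, b3⟩ := rf_three cs l₁ l₂ t s t
  have f1 : cs.simple s * (cs.simple t * cs.simple s * cs.simple t) * cs.simple s = cs.simple t := by
    rw [← hb]
    calc cs.simple s * (cs.simple s * cs.simple t * cs.simple s) * cs.simple s
        = (cs.simple s * cs.simple s) * cs.simple t * (cs.simple s * cs.simple s) := by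
          simp only [mul_assoc]
      _ = cs.simple t := by rw [hs, one_mul, mul_one]
  have f2 : cs.simple t * (cs.simple s * cs.simple t * cs.simple s) * cs.simple t = cs.simple s := by
    rw [hb]
    calc cs.simple t * (cs.simple t * cs.simple s * cs.simple t) * cs.simple t
        = (cs.simple t * cs.simple t) * cs.simple s * (cs.simple t * cs.simple t) := by
          simp only [mul_assoc]
      _ = cs.simple s := by rw [ht, one_mul, mul_one]
  by_cases e1 : k = l₁.length
  · subst e1
    rw [Equiv.swap_apply_left, b1, a3, f1]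
  · by_cases e2 : k = l₁.length + 2
    · subst e2
      rw [Equiv.swap_apply_right, b3, a1, f2]
    · rw [Equiv.swap_apply_of_ne_of_ne e1 e2]
      by_cases e3 : k = l₁.length + 1
      · subst e3
        rw [b2, a2, hb]
      · rcases lt_or_ge k l₁.length with h1 | h1
        · rw [List.append_assoc, List.append_assoc, rf_append_left cs _ _ h1,
            rf_append_left cs _ _ h1]
        · obtain ⟨j, rfl⟩ : ∃ j, k = l₁.length + (3 + j) := ⟨k - l₁.length - 3, by omega⟩
          rw [List.append_assoc, List.append_assoc, rf_append_right, rf_append_right]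
          have g1 := rf_append_right cs [t, s, t] l₂ j
          have g2 := rf_append_right cs [s, t, s] l₂ j
          simp only [List.length_cons, List.length_nil, Nat.zero_add, Nat.reduceAdd] at g1 g2
          rw [g1, g2]
          have hw : cs.wordProd [t, s, t] = cs.wordProd [s, t, s] := by
            simp only [cs.wordProd_cons, cs.wordProd_nil, mul_one, ← mul_assoc]
            exact hb.symm
          rw [hw]

lemma wordProd_braid (l₁ l₂ : List B) {s t : B} (h : M s t = 3) :
    cs.wordProd (l₁ ++ [t, s, t] ++ l₂) = cs.wordProd (l₁ ++ [s, t, s] ++ l₂) := by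
  have hw : cs.wordProd [t, s, t] = cs.wordProd [s, t, s] := by
    simp only [cs.wordProd_cons, cs.wordProd_nil, mul_one, ← mul_assoc]
    exact (braid_of_three cs h).symm
  simp only [cs.wordProd_append, hw]

/-! ### Injectivity of simple reflections (as in `Pool.Agent.W838.DC.Inj`) -/

/-- entry of the Cartan matrix (over the integers) of a simply laced Coxeter matrix -/
noncomputable def cartE (M : CoxeterMatrix B) (i k : B) : ℤ := by
  classical
  exact if k = i then 2 else if M i k = 3 then -1 else 0

/-- the dual reflection on functions -/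
noncomputable def dre (M : CoxeterMatrix B) (i : B) : Equiv.Perm (B → ℤ) where
  toFun := fun f k => f k - f i * cartE M i k
  invFun := fun f k => f k - f i * cartE M i k
  left_inv := by
    intro f
    funext k
    have : cartE M i i = 2 := by simp [cartE]
    simp only [this]
    ring
  right_inv := by
    intro f
    funext k
    have : cartE M i i = 2 := by simp [cartE]
    simp only [this]
    ring

theorem dre_apply (M : CoxeterMatrix B) (i : B) (f : B → ℤ) (k : B) :
    dre M i f k = f k - f i * cartE M i k := rfl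

theorem dre_lift (M : CoxeterMatrix B) (hsl : SimplyLaced M) : M.IsLiftable (dre M) := by
  intro i j
  have cii : ∀ i, cartE M i i = 2 := fun i => by simp [cartE]
  by_cases hij : i = j
  · subst hij
    rw [M.diagonal i, pow_one]
    ext f k
    simp only [Equiv.Perm.coe_mul, Function.comp, dre_apply, cii, Equiv.Perm.coe_one, id]
    ring
  · rcases hsl i j hij with h | h
    · have h1 : cartE M i j = 0 := by simp [cartE, Ne.symm hij, h]
      have h2 : cartE M j i = 0 := by simp [cartE, hij, M.symmetric j i, h]
      rw [h]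
      ext f k
      simp only [pow_succ, pow_zero, one_mul, Equiv.Perm.coe_mul, Function.comp, dre_apply, cii, h1, h2,
        Equiv.Perm.coe_one, id]
      ring
    · have h1 : cartE M i j = -1 := by simp [cartE, Ne.symm hij, h]
      have h2 : cartE M j i = -1 := by simp [cartE, hij, M.symmetric j i, h]
      rw [h]
      ext f k
      simp only [pow_succ, pow_zero, one_mul, Equiv.Perm.coe_mul, Function.comp, dre_apply, cii, h1, h2,
        Equiv.Perm.coe_one, id]
      ring

/-- different letters give different simple reflections -/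
theorem simple_inj (hsl : SimplyLaced M) : Function.Injective cs.simple := by
  classical
  intro i j h
  by_contra hij
  have h1 := congrArg (cs.lift ⟨dre M, dre_lift M hsl⟩) h
  rw [cs.lift_apply_simple (dre_lift M hsl), cs.lift_apply_simple (dre_lift M hsl)] at h1
  have h2 := congrFun (congrArg (fun g : Equiv.Perm (B → ℤ) => g (Pi.single i 1)) h1) i
  simp only [dre_apply, Pi.single_eq_same, Pi.single_eq_of_ne (Ne.symm hij)] at h2
  have cii : cartE M i i = 2 := by simp [cartE]
  rw [cii] at h2
  omega

/-- the reflections determine the word -/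
lemma lis_inj (hsl : SimplyLaced M) : ∀ ω ω' : List B, cs.leftInvSeq ω = cs.leftInvSeq ω' → ω = ω' := by
  intro ω
  induction ω with
  | nil =>
    intro ω' h
    have := congrArg List.length h
    rw [cs.length_leftInvSeq, cs.length_leftInvSeq] at this
    exact (List.length_eq_zero_iff.mp this.symm).symm
  | cons i ω ih =>
    intro ω' h
    cases ω' with
    | nil =>
      have := congrArg List.length h
      rw [cs.length_leftInvSeq, cs.length_leftInvSeq] at this
      simp at this
    | cons i' ω' =>
      rw [leftInvSeq, leftInvSeq, List.cons.injEq] at h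
      obtain ⟨h1, h2⟩ := h
      have h3 := simple_inj cs hsl h1
      subst h3
      rw [(List.map_injective_iff.mpr (MulEquiv.injective _) : Function.Injective
        (List.map (MulAut.conj (cs.simple i)))).eq_iff] at h2
      rw [ih ω' h2]

end refl

/-! ### The puzzle of a reduced word -/

section puzzle

variable {B W : Type*} {M : CoxeterMatrix B} [Group W] (cs : CoxeterSystem M W)

lemma rf_injOn {α : List B} (hα : cs.IsReduced α) {i j : ℕ} (hi : i < α.length) (hj : j < α.length)
    (h : rf cs α i = rf cs α j) : i = j := by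
  have hn := hα.nodup_leftInvSeq
  unfold rf at h
  rw [List.getD_eq_getElem _ _ (by rw [cs.length_leftInvSeq]; exact hi),
    List.getD_eq_getElem _ _ (by rw [cs.length_leftInvSeq]; exact hj)] at h
  exact (hn.getElem_inj_iff).mp h

/-- The puzzle of a reduced word: the items are (the places of) its reflections, and three of them
may be reversed if they are the reflections of a group of type `A₂`. -/
noncomputable def puz (α : List B) (hα : cs.IsReduced α) : Puz where
  m := α.length
  T := fun x c z => x < α.length ∧ c < α.length ∧ z < α.length ∧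
    rf cs α x * rf cs α z * rf cs α x = rf cs α c ∧
    rf cs α z * rf cs α x * rf cs α z = rf cs α c
  lt₁ := fun h => h.1
  symm := fun h => ⟨h.2.2.1, h.2.1, h.1, h.2.2.2.2, h.2.2.2.1⟩
  uniq := by
    rintro x c z z' ⟨_, _, h1, h2, _⟩ ⟨_, _, h1', h2', _⟩
    apply rf_injOn cs hα h1 h1'
    have := h2.trans h2'.symm
    exact mul_left_cancel (mul_right_cancel this)
  rot := by
    rintro x c z w ⟨hx, hc, hz, h1, h2⟩ ⟨_, _, hw, h3, h4⟩
    apply rf_injOn cs hα hw hx
    have hcc := rf_mul_self cs α c
    have hzz := rf_mul_self cs α z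
    have hxx := rf_mul_self cs α x
    -- `w = c z c`
    have e1 : rf cs α w = rf cs α c * rf cs α z * rf cs α c := by
      rw [← h3]
      calc rf cs α w = (rf cs α c * rf cs α c) * rf cs α w * (rf cs α c * rf cs α c) := by
            rw [hcc, one_mul, mul_one]
        _ = _ := by simp only [mul_assoc]
    rw [e1]
    calc rf cs α c * rf cs α z * rf cs α c
        = (rf cs α z * rf cs α x * rf cs α z) * rf cs α z * (rf cs α z * rf cs α x * rf cs α z) := by
          rw [h2]
      _ = rf cs α z * rf cs α x * (rf cs α z * rf cs α z) * (rf cs α z * rf cs α x * rf cs α z) := by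
          simp only [mul_assoc]
      _ = rf cs α z * (rf cs α x * rf cs α z * rf cs α x) * rf cs α z := by
          rw [hzz, mul_one]; simp only [mul_assoc]
      _ = rf cs α z * (rf cs α z * rf cs α x * rf cs α z) * rf cs α z := by rw [h1, h2]
      _ = (rf cs α z * rf cs α z) * rf cs α x * (rf cs α z * rf cs α z) := by
          simp only [mul_assoc]
      _ = rf cs α x := by rw [hzz, one_mul, mul_one]

/-- the word `β` and the state `σ` describe the same arrangement -/
def Rel (α β : List B) (σ : Equiv.Perm ℕ) : Prop :=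
  β.length = α.length ∧ cs.wordProd β = cs.wordProd α ∧
    ∀ k, k < α.length → rf cs β k = rf cs α (σ k)

variable {cs}

lemma Rel.reduced {α β : List B} {σ : Equiv.Perm ℕ} (hα : cs.IsReduced α) (h : Rel cs α β σ) :
    cs.IsReduced β := by
  unfold CoxeterSystem.IsReduced
  rw [h.2.1, h.1]
  exact hα

lemma Rel.refl (α : List B) : Rel cs α α 1 := ⟨rfl, rfl, fun _ _ => rfl⟩

/-- a braid move gives an allowed move of the puzzle -/
lemma Rel.of_braid {α β γ : List B} (hα : cs.IsReduced α) {σ : Equiv.Perm ℕ}
    (hσ : Re (puz cs α hα) 1 σ) (h : Rel cs α β σ) {l₁ l₂ : List B} {s t : B} (hst : M s t = 3)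
    (hβ : β = l₁ ++ [s, t, s] ++ l₂) (hγ : γ = l₁ ++ [t, s, t] ++ l₂) :
    Al (puz cs α hα) σ l₁.length ∧ Rel cs α γ (mv σ l₁.length) := by
  have hlen : l₁.length + 2 < α.length := by
    rw [← h.1, hβ]
    simp only [List.length_append, List.length_cons, List.length_nil]
    omega
  have hlt : ∀ k, k < α.length → σ k < α.length := by
    intro k hk
    by_contra hcon
    have := fixes hσ (σ k) (by simpa [puz] using hcon)
    have := σ.injective this
    omega
  obtain ⟨a1, a2, a3⟩ := rf_three cs l₁ l₂ s t s
  rw [← hβ] at a1 a2 a3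
  have hb := braid_of_three cs hst
  have hs := cs.simple_mul_simple_self s
  have ht := cs.simple_mul_simple_self t
  have f1 : cs.simple s * (cs.simple t * cs.simple s * cs.simple t) * cs.simple s = cs.simple t := by
    rw [← hb]
    calc cs.simple s * (cs.simple s * cs.simple t * cs.simple s) * cs.simple s
        = (cs.simple s * cs.simple s) * cs.simple t * (cs.simple s * cs.simple s) := by
          simp only [mul_assoc]
      _ = cs.simple t := by rw [hs, one_mul, mul_one]
  rw [f1] at a3
  constructor
  · refine ⟨hlt _ (by omega), hlt _ (by omega), hlt _ (by omega), ?_, ?_⟩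
    · rw [← h.2.2 _ (by omega : l₁.length < α.length), ← h.2.2 _ (by omega : l₁.length + 1 < α.length),
        ← h.2.2 _ hlen, a1, a2, a3]
      group
    · rw [← h.2.2 _ (by omega : l₁.length < α.length), ← h.2.2 _ (by omega : l₁.length + 1 < α.length),
        ← h.2.2 _ hlen, a1, a2, a3, hb]
      group
  · refine ⟨?_, ?_, ?_⟩
    · rw [← h.1, hγ, hβ]
      simp
    · rw [← h.2.1, hγ, hβ]
      exact wordProd_braid cs l₁ l₂ hst
    · intro k hk
      rw [hγ, rf_braid cs l₁ l₂ hst k, ← hβ]
      have hk' : Equiv.swap l₁.length (l₁.length + 2) k < α.length := by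
        rw [Equiv.swap_apply_def]
        split_ifs <;> omega
      rw [h.2.2 _ hk']
      rfl

/-- splitting a word at three consecutive letters -/
lemma split_three (β : List B) (p : ℕ) (hp : p + 2 < β.length) :
    ∃ (l₁ l₂ : List B) (a b c : B), l₁.length = p ∧ β = l₁ ++ [a, b, c] ++ l₂ := by
  refine ⟨β.take p, β.drop (p + 3), β[p], β[p + 1], β[p + 2], by simp; omega, ?_⟩
  have e1 : β.drop p = β[p] :: β.drop (p + 1) := List.drop_eq_getElem_cons (by omega)
  have e2 : β.drop (p + 1) = β[p + 1] :: β.drop (p + 2) := List.drop_eq_getElem_cons (by omega)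
  have e3 : β.drop (p + 2) = β[p + 2] :: β.drop (p + 3) := List.drop_eq_getElem_cons (by omega)
  conv_lhs => rw [← List.take_append_drop p β, e1, e2, e3]
  simp

/-- an allowed move of the puzzle gives a braid move -/
lemma Rel.of_allowed (hsl : SimplyLaced M) {α β : List B} (hα : cs.IsReduced α)
    {σ : Equiv.Perm ℕ} (hσ : Re (puz cs α hα) 1 σ) (h : Rel cs α β σ) {p : ℕ}
    (hp : Al (puz cs α hα) σ p) :
    ∃ (l₁ l₂ : List B) (s t : B), l₁.length = p ∧ M s t = 3 ∧ β = l₁ ++ [s, t, s] ++ l₂ := by
  have hlt : p + 2 < α.length := hp.lt hσ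
  obtain ⟨l₁, l₂, a, b, c, hl, hβ⟩ := split_three β p (by rw [h.1]; exact hlt)
  have hred := h.reduced hα
  have hinj := simple_inj cs hsl
  have hlenβ := h.1
  -- consecutive letters are different
  have hab : a ≠ b := by
    rintro rfl
    have h1 : cs.wordProd β = cs.wordProd (l₁ ++ (c :: l₂)) := by
      rw [hβ]
      simp only [cs.wordProd_append, cs.wordProd_cons, cs.wordProd_nil, mul_one, ← mul_assoc]
      rw [mul_assoc (cs.wordProd l₁) (cs.simple a) (cs.simple a), cs.simple_mul_simple_self, mul_one]
    have h2 := cs.length_wordProd_le (l₁ ++ (c :: l₂))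
    rw [← h1, hred.eq, hβ] at h2
    simp only [List.length_append, List.length_cons, List.length_nil] at h2
    omega
  have hbc : b ≠ c := by
    rintro rfl
    have h1 : cs.wordProd β = cs.wordProd (l₁ ++ (a :: l₂)) := by
      rw [hβ]
      simp only [cs.wordProd_append, cs.wordProd_cons, cs.wordProd_nil, mul_one, ← mul_assoc]
      rw [mul_assoc (cs.wordProd l₁ * cs.simple a) (cs.simple b) (cs.simple b),
        cs.simple_mul_simple_self, mul_one]
    have h2 := cs.length_wordProd_le (l₁ ++ (a :: l₂))
    rw [← h1, hred.eq, hβ] at h2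
    simp only [List.length_append, List.length_cons, List.length_nil] at h2
    omega
  obtain ⟨a1, a2, a3⟩ := rf_three cs l₁ l₂ a b c
  rw [← hβ, hl] at a1 a2 a3
  obtain ⟨_, _, _, h1, _⟩ := hp
  rw [← h.2.2 p (by omega), ← h.2.2 (p + 1) (by omega), ← h.2.2 (p + 2) (by omega), a1, a2, a3] at h1
  have ha := cs.simple_mul_simple_self a
  have h2 : cs.simple b * cs.simple c * cs.simple b = cs.simple a * cs.simple b * cs.simple a := by
    have h3 : cs.wordProd l₁ * (cs.simple b * cs.simple c * cs.simple b) * (cs.wordProd l₁)⁻¹ =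
        cs.wordProd l₁ * (cs.simple a * cs.simple b * cs.simple a) * (cs.wordProd l₁)⁻¹ := by
      rw [← h1]
      calc cs.wordProd l₁ * (cs.simple b * cs.simple c * cs.simple b) * (cs.wordProd l₁)⁻¹
          = cs.wordProd l₁ * ((cs.simple a * cs.simple a) * (cs.simple b * cs.simple c * cs.simple b) *
            (cs.simple a * cs.simple a)) * (cs.wordProd l₁)⁻¹ := by rw [ha, one_mul, mul_one]
        _ = _ := by group
    exact mul_left_cancel (mul_right_cancel h3)
  rcases hsl a b hab with hm | hm
  · exfalso
    have h3 := comm_of_two cs hm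
    have h4 : cs.simple a * cs.simple b * cs.simple a = cs.simple b := by
      rw [h3, mul_assoc, ha, mul_one]
    rw [h4] at h2
    have h5 : cs.simple b * cs.simple c = 1 := by
      have : cs.simple b * cs.simple c * cs.simple b = 1 * cs.simple b := by rw [h2, one_mul]
      exact mul_right_cancel this
    have h6 : cs.simple c = cs.simple b := by
      have : cs.simple b * (cs.simple b * cs.simple c) = cs.simple b := by rw [h5, mul_one]
      rw [← mul_assoc, cs.simple_mul_simple_self, one_mul] at this
      exact this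
    exact hbc (hinj h6).symm
  · have h3 := braid_of_three cs hm
    rw [h3] at h2
    have h4 : cs.simple c = cs.simple a := mul_left_cancel (mul_right_cancel h2)
    have h5 := hinj h4
    subst h5
    exact ⟨l₁, l₂, c, b, hl, hm, hβ⟩

/-- the state of a word is unique -/
lemma Rel.state_unique {α β : List B} (hα : cs.IsReduced α) {σ τ : Equiv.Perm ℕ}
    (hσ : Re (puz cs α hα) 1 σ) (hτ : Re (puz cs α hα) 1 τ) (h : Rel cs α β σ)
    (h' : Rel cs α β τ) : σ = τ := by
  have hlt : ∀ (σ : Equiv.Perm ℕ), Re (puz cs α hα) 1 σ → ∀ k, k < α.length → σ k < α.length := by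
    intro σ hσ k hk
    by_contra hcon
    have := fixes hσ (σ k) (by simpa [puz] using hcon)
    have := σ.injective this
    omega
  ext k
  by_cases hk : k < α.length
  · apply rf_injOn cs hα (hlt σ hσ k hk) (hlt τ hτ k hk)
    rw [← h.2.2 k hk, ← h'.2.2 k hk]
  · rw [fixes hσ k (by simpa [puz] using hk), fixes hτ k (by simpa [puz] using hk)]

/-- the word of a state is unique -/
lemma Rel.word_unique (hsl : SimplyLaced M) {α β γ : List B} {σ : Equiv.Perm ℕ}
    (h : Rel cs α β σ) (h' : Rel cs α γ σ) : β = γ := by
  apply lis_inj cs hsl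
  apply List.ext_getElem
  · rw [cs.length_leftInvSeq, cs.length_leftInvSeq, h.1, h'.1]
  · intro k h1 h2
    rw [cs.length_leftInvSeq] at h1 h2
    have e := (h.2.2 k (by rw [← h.1]; exact h1)).trans (h'.2.2 k (by rw [← h.1]; exact h1)).symm
    unfold rf at e
    rw [List.getD_eq_getElem _ _ (by rw [cs.length_leftInvSeq]; exact h1),
      List.getD_eq_getElem _ _ (by rw [cs.length_leftInvSeq]; exact h2)] at e
    exact e

/-- words of the braid class have states -/
lemma exists_state {α β : List B} (hα : cs.IsReduced α) (hβ : β ∈ braidClass M α) :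
    ∃ σ, Re (puz cs α hα) 1 σ ∧ Rel cs α β σ := by
  unfold braidClass at hβ
  rw [Set.mem_ofPred_eq] at hβ
  induction hβ with
  | refl => exact ⟨1, Re.refl 1, Rel.refl α⟩
  | tail _ h ih =>
    obtain ⟨σ, h1, h2⟩ := ih
    obtain ⟨l₁, l₂, s, t, h3, h4, h5⟩ := h
    obtain ⟨h6, h7⟩ := h2.of_braid hα h1 h3 h4 h5
    exact ⟨_, h1.step h6, h7⟩

/-- states have words -/
lemma exists_word (hsl : SimplyLaced M) {α : List B} (hα : cs.IsReduced α) {σ : Equiv.Perm ℕ}
    (hσ : Re (puz cs α hα) 1 σ) : ∃ β ∈ braidClass M α, Rel cs α β σ := by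
  refine Re.induct (Q := fun σ => ∃ β ∈ braidClass M α, Rel cs α β σ)
    ⟨α, Relation.ReflTransGen.refl, Rel.refl α⟩ ?_ hσ
  rintro τ p hτ hp ⟨β, h1, h2⟩
  obtain ⟨l₁, l₂, s, t, h3, h4, h5⟩ := h2.of_allowed hsl hα hτ hp
  obtain ⟨-, h7⟩ := h2.of_braid hα hτ h4 h5 rfl
  rw [h3] at h7
  exact ⟨_, Relation.ReflTransGen.tail h1 ⟨l₁, l₂, s, t, h4, h5, rfl⟩, h7⟩

/-- the state of a word -/
noncomputable def toSt {α : List B} (hα : cs.IsReduced α) (β : braidClass M α) :
    St (puz cs α hα) :=
  ⟨(exists_state hα β.2).choose, (exists_state hα β.2).choose_spec.1⟩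

lemma toSt_rel {α : List B} (hα : cs.IsReduced α) (β : braidClass M α) :
    Rel cs α β.1 (toSt hα β).1 := (exists_state hα β.2).choose_spec.2

lemma toSt_bij (hsl : SimplyLaced M) {α : List B} (hα : cs.IsReduced α) :
    Function.Bijective (toSt (cs := cs) hα) := by
  constructor
  · intro β γ h
    have h1 := toSt_rel hα β
    have h2 := toSt_rel hα γ
    rw [h] at h1
    exact Subtype.ext (h1.word_unique hsl h2)
  · intro σ
    obtain ⟨β, h1, h2⟩ := exists_word hsl hα σ.2
    refine ⟨⟨β, h1⟩, ?_⟩
    exact Subtype.ext (Rel.state_unique hα (toSt hα ⟨β, h1⟩).2 σ.2 (toSt_rel hα ⟨β, h1⟩) h2)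

/-- **The braid graph is the state graph of the puzzle.** -/
noncomputable def iso (hsl : SimplyLaced M) {α : List B} (hα : cs.IsReduced α) :
    braidGraph M α ≃g G (puz cs α hα) where
  toEquiv := Equiv.ofBijective (toSt hα) (toSt_bij hsl hα)
  map_rel_iff' := by
    intro β γ
    simp only [Equiv.ofBijective_apply]
    constructor
    · rintro ⟨p, h1, h2⟩
      obtain ⟨l₁, l₂, s, t, h3, h4, h5⟩ := (toSt_rel hα β).of_allowed hsl hα (toSt hα β).2 h1
      obtain ⟨-, h7⟩ := (toSt_rel hα β).of_braid hα (toSt hα β).2 h4 h5 rfl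
      rw [h3, ← h2] at h7
      have h8 := (toSt_rel hα γ).word_unique hsl h7
      exact ⟨l₁, l₂, s, t, h4, h5, h8⟩
    · rintro ⟨l₁, l₂, s, t, h4, h5, h6⟩
      obtain ⟨h1, h7⟩ := (toSt_rel hα β).of_braid hα (toSt hα β).2 h4 h5 h6
      exact ⟨l₁.length, h1, Rel.state_unique hα (toSt hα γ).2 ((toSt hα β).2.step h1)
        (toSt_rel hα γ) h7⟩

/-- shadows are the allowed moves -/
lemma mem_shadows (hsl : SimplyLaced M) {α : List B} (hα : cs.IsReduced α) (p : ℕ) :
    p ∈ shadows M α ↔ ∃ σ, Re (puz cs α hα) 1 σ ∧ Al (puz cs α hα) σ p := by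
  constructor
  · rintro ⟨β, hβ, l₁, l₂, s, t, h1, h2, rfl⟩
    obtain ⟨σ, h3, h4⟩ := exists_state hα hβ
    exact ⟨σ, h3, (h4.of_braid hα h3 h1 h2 rfl).1⟩
  · rintro ⟨σ, h1, h2⟩
    obtain ⟨β, h3, h4⟩ := exists_word hsl hα h1
    obtain ⟨l₁, l₂, s, t, h5, h6, h7⟩ := h4.of_allowed hsl hα h1 h2
    exact ⟨β, h3, l₁, l₂, s, t, h6, h7, h5⟩

end puzzle

/-! ### Distances under isomorphisms -/

lemma dist_iso {V V' : Type*} {H : SimpleGraph V} {H' : SimpleGraph V'} (f : H ≃g H')
    (hc : H.Connected) (u v : V) : H'.dist (f u) (f v) = H.dist u v := by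
  have hc' : H'.Connected := (f.connected_iff).mp hc
  apply le_antisymm
  · obtain ⟨w, hw⟩ := hc.exists_walk_length_eq_dist u v
    rw [← hw, ← SimpleGraph.Walk.length_map f.toHom w]
    exact SimpleGraph.dist_le _
  · obtain ⟨w, hw⟩ := hc'.exists_walk_length_eq_dist (f u) (f v)
    rw [← hw, ← SimpleGraph.Walk.length_map f.symm.toHom w]
    have e1 : f.symm.toHom (f u) = u := f.symm_apply_apply u
    have e2 : f.symm.toHom (f v) = v := f.symm_apply_apply v
    calc H.dist u v = H.dist (f.symm.toHom (f u)) (f.symm.toHom (f v)) := by rw [e1, e2]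
      _ ≤ _ := SimpleGraph.dist_le _

end Pool.Agent.R130.Braid
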