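import Mathlib
import Pool.Agent.R130.Puzzle

/-!
# Puzzles in which every move always exchanges the same pair

For such puzzles the distance of two states is the number of moves by which they differ, and there
are two states that differ by all moves.
-/

set_option autoImplicit false

namespace Pool.Agent.R130.Puzzle

open Equiv

/-! ### A Boolean lemma -/

section boolean

/-- Local constraints on a path: every assignment satisfying the constraints can be reached. -/
lemma reach_target (m : ℕ) (C : ℕ → Prop) (hC : ∀ p, C p → p < m) (n n' : ℕ → Bool)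
    (X : Set (ℕ → Bool)) (hne : X.Nonempty)
    (h1 : ∀ x ∈ X, ∀ p, C p → C (p + 2) → x (p + 2) = n p ∨ x p = n' p)
    (h2 : ∀ x ∈ X, ∀ p, C p → (C (p + 2) → x (p + 2) = n p) →
      (∀ q, q + 2 = p → C q → x q = n' q) → Function.update x p (!x p) ∈ X)
    (y : ℕ → Bool) (hy : ∀ p, C p → C (p + 2) → y (p + 2) = n p ∨ y p = n' p) :
    ∃ x ∈ X, ∀ p, C p → x p = y p := by
  classical
  -- the set of differences
  set D : (ℕ → Bool) → Finset ℕ := fun x => (Finset.range m).filter (fun p => C p ∧ x p ≠ y p)
    with hD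
  have memD : ∀ x p, p ∈ D x ↔ C p ∧ x p ≠ y p := by
    intro x p
    simp only [hD, Finset.mem_filter, Finset.mem_range]
    exact ⟨fun h => h.2, fun h => ⟨hC p h.1, h⟩⟩
  obtain ⟨k, hk⟩ : ∃ k, ∃ x ∈ X, (D x).card = k := by
    obtain ⟨x, hx⟩ := hne
    exact ⟨_, x, hx, rfl⟩
  induction k using Nat.strong_induction_on with
  | _ k ih =>
    obtain ⟨x, hx, hcard⟩ := hk
    by_cases hemp : ∀ p, C p → x p = y p
    · exact ⟨x, hx, hemp⟩
    push Not at hemp
    obtain ⟨p₀, hp₀, hxy₀⟩ := hemp
    -- toggling an allowed place of `D` decreases the distance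
    have dec : ∀ p, C p → x p ≠ y p → (C (p + 2) → x (p + 2) = n p) →
        (∀ q, q + 2 = p → C q → x q = n' q) → ∃ x ∈ X, ∀ p, C p → x p = y p := by
      intro p hp hxy g1 g2
      have hx' := h2 x hx p hp g1 g2
      have hcard' : D (Function.update x p (!x p)) = (D x).erase p := by
        ext q
        rw [Finset.mem_erase, memD, memD]
        by_cases hqp : q = p
        · subst hqp
          rw [Function.update_self]
          have : (!x q) = y q := by
            cases h3 : x q <;> cases h4 : y q <;> simp_all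
          tauto
        · rw [Function.update_of_ne hqp]
          tauto
      have hpD : p ∈ D x := (memD x p).mpr ⟨hp, hxy⟩
      have h5 := Finset.card_pos.mpr ⟨p, hpD⟩
      refine ih ((D x).card - 1) (by omega) ⟨_, hx', ?_⟩
      rw [hcard', Finset.card_erase_of_mem hpD]
    -- going to the right
    have right : ∀ j p, p + j = m → C p → x p ≠ y p → (∀ q, q + 2 = p → C q → x q = n' q) →
        ∃ x ∈ X, ∀ p, C p → x p = y p := by
      intro j
      induction j using Nat.strong_induction_on with
      | _ j ihj =>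
        intro p hpj hp hxy hleft
        by_cases hr : C (p + 2) → x (p + 2) = n p
        · exact dec p hp hxy hr hleft
        · push Not at hr
          obtain ⟨hc2, hne2⟩ := hr
          have hxp : x p = n' p := (h1 x hx p hp hc2).resolve_left hne2
          have hyp : y p ≠ n' p := fun h => hxy (hxp.trans h.symm)
          have hyp2 : y (p + 2) = n p := (hy p hp hc2).resolve_right hyp
          have hlt := hC _ hc2
          refine ihj (j - 2) (by omega) (p + 2) (by omega) hc2 (fun h => hne2 (h.trans hyp2)) ?_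
          intro q hq _
          have : q = p := by omega
          rw [this]
          exact hxp
    -- going to the left
    have left : ∀ p, C p → x p ≠ y p → (C (p + 2) → x (p + 2) = n p) →
        ∃ x ∈ X, ∀ p, C p → x p = y p := by
      intro p
      induction p using Nat.strong_induction_on with
      | _ p ihp =>
        intro hp hxy hright
        by_cases hl : ∀ q, q + 2 = p → C q → x q = n' q
        · exact dec p hp hxy hright hl
        · push Not at hl
          obtain ⟨q, rfl, hcq, hneq⟩ := hl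
          have hxp : x (q + 2) = n q := (h1 x hx q hcq hp).resolve_right hneq
          have hyp : y (q + 2) ≠ n q := fun h => hxy (hxp.trans h.symm)
          have hyq : y q = n' q := (hy q hcq hp).resolve_left hyp
          exact ihp q (by omega) hcq (fun h => hneq (h.trans hyq)) (fun _ => hxp)
    by_cases hr : C (p₀ + 2) → x (p₀ + 2) = n p₀
    · exact left p₀ hp₀ hxy₀ hr
    · push Not at hr
      obtain ⟨hc2, hne2⟩ := hr
      have hxp : x p₀ = n' p₀ := (h1 x hx p₀ hp₀ hc2).resolve_left hne2
      have hyp : y p₀ ≠ n' p₀ := fun h => hxy₀ (hxp.trans h.symm)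
      have hyp2 : y (p₀ + 2) = n p₀ := (hy p₀ hp₀ hc2).resolve_right hyp
      have hlt := hC _ hc2
      refine right (m - (p₀ + 2)) (p₀ + 2) (by omega) hc2 (fun h => hne2 (h.trans hyp2)) ?_
      intro q hq _
      have : q = p₀ := by omega
      rw [this]
      exact hxp

/-- an assignment such that it and its complement satisfy all constraints -/
noncomputable def zig (C : ℕ → Prop) (n n' : ℕ → Bool) : ℕ → Bool
  | 0 => false
  | 1 => false
  | (p + 2) => if zig C n n' p = n' p then !n p else n p

lemma zig_spec (C : ℕ → Prop) (n n' : ℕ → Bool) (p : ℕ) :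
    (zig C n n' (p + 2) = n p ∨ zig C n n' p = n' p) ∧
    ((!zig C n n' (p + 2)) = n p ∨ (!zig C n n' p) = n' p) := by
  have h : zig C n n' (p + 2) = if zig C n n' p = n' p then !n p else n p := by
    rw [zig]
  rw [h]
  split_ifs with h1
  · simp [h1]
  · refine ⟨Or.inl rfl, Or.inr ?_⟩
    cases h3 : zig C n n' p <;> cases h4 : n' p <;> simp_all

end boolean

/-! ### Puzzles with a unique pair for every move -/

variable (P : Puz)

/-- every move always exchanges the same pair -/
def Uni : Prop := ∀ (σ τ : Perm ℕ) (p : ℕ), Re P 1 σ → Re P 1 τ → Al P σ p → Al P τ p →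
  τ p = σ p ∨ τ p = σ (p + 2)

/-- the moves that are possible in some reachable state -/
def Cen (p : ℕ) : Prop := ∃ σ, Re P 1 σ ∧ Al P σ p

open Classical in
/-- a state in which `p` is allowed -/
noncomputable def ref (p : ℕ) : Perm ℕ := if h : Cen P p then h.choose else 1

/-- the two items exchanged by the move `p` -/
noncomputable def ia (p : ℕ) : ℕ := ref P p p
noncomputable def ib (p : ℕ) : ℕ := ref P p (p + 2)

variable {P}

lemma ref_spec {p : ℕ} (h : Cen P p) : Re P 1 (ref P p) ∧ Al P (ref P p) p := by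
  unfold ref
  rw [dif_pos h]
  exact h.choose_spec

lemma Cen.lt {p : ℕ} (h : Cen P p) : p < P.m := by
  obtain ⟨σ, h1, h2⟩ := h
  have := h2.lt h1
  omega

lemma pair_of_al (hU : Uni P) {τ : Perm ℕ} {p : ℕ} (hτ : Re P 1 τ) (hp : Al P τ p) :
    (τ p = ia P p ∧ τ (p + 2) = ib P p) ∨ (τ p = ib P p ∧ τ (p + 2) = ia P p) := by
  obtain ⟨h1, h2⟩ := ref_spec ⟨τ, hτ, hp⟩
  have hc := center_fixed (h1.symm.trans hτ) h2
  have hp' := hp
  have h2' := h2
  unfold Al at hp' h2'
  rw [hc] at hp'
  rcases hU _ _ p h1 hτ h2 hp with h | h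
  · left
    refine ⟨h, ?_⟩
    rw [h] at hp'
    exact P.uniq hp' h2'
  · right
    refine ⟨h, ?_⟩
    rw [h] at hp'
    exact P.uniq hp' (P.symm h2')

lemma side' {σ : Perm ℕ} {p : ℕ} (hp : Cen P p) (hσ : Re P 1 σ) :
    (σ.symm (ia P p) < p + 1 ∧ p + 1 < σ.symm (ib P p)) ∨
    (σ.symm (ib P p) < p + 1 ∧ p + 1 < σ.symm (ia P p)) := by
  obtain ⟨h1, h2⟩ := ref_spec hp
  exact side h2 (h1.symm.trans hσ)

/-- the sides of the items `ia p` -/
noncomputable def chi (σ : Perm ℕ) (p : ℕ) : Bool := decide (σ.symm (ia P p) < p + 1)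

variable (P) in
/-- the state, as a Boolean function -/
noncomputable def chi' (σ : Perm ℕ) : ℕ → Bool := fun p => chi (P := P) σ p

lemma chi_true {σ : Perm ℕ} {p : ℕ} : chi (P := P) σ p = true ↔ σ.symm (ia P p) < p + 1 := by
  simp [chi]

lemma chi_false {σ : Perm ℕ} {p : ℕ} : chi (P := P) σ p = false ↔ ¬ σ.symm (ia P p) < p + 1 := by
  simp [chi]

/-- a move only changes its own side -/
lemma chi_mv_ne {σ : Perm ℕ} {p q : ℕ} (hσ : Re P 1 σ) (hp : Al P σ p) (hq : Cen P q)
    (hpq : q ≠ p) : chi (P := P) (mv σ p) q = chi (P := P) σ q := by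
  obtain ⟨h1, h2⟩ := ref_spec hq
  have e1 : p ≠ q + 1 := by
    rintro rfl
    exact no_adj (h1.symm.trans hσ) h2 hp
  have e2 : p + 1 ≠ q := by
    rintro rfl
    exact no_adj (hσ.symm.trans h1) hp h2
  have hs := side' hq hσ
  unfold chi
  rw [mv_symm, swap_apply_def]
  congr 1
  apply propext
  split_ifs <;> omega

lemma chi_mv {σ : Perm ℕ} (hU : Uni P) {p : ℕ} (hσ : Re P 1 σ) (hp : Al P σ p) :
    chi (P := P) (mv σ p) p = !chi (P := P) σ p := by
  unfold chi
  rw [mv_symm]
  rcases pair_of_al hU hσ hp with ⟨h1, h2⟩ | ⟨h1, h2⟩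
  · rw [← h1, symm_apply_apply, swap_apply_left]
    simp
  · rw [← h2, symm_apply_apply, swap_apply_right]
    simp

/-- an item at a place next to a move belongs to a neighbouring move -/
def PlaceOk (q : ℕ) (σ : Perm ℕ) : Prop :=
  (Cen P q ∧ (σ q = ia P q ∨ σ q = ib P q)) ∨
  (∃ r, r + 2 = q ∧ Cen P r ∧ (σ q = ia P r ∨ σ q = ib P r))

lemma placeOk (hU : Uni P) {q : ℕ} {τ σ : Perm ℕ} (hτ : Re P 1 τ) (h : PlaceOk (P := P) q τ)
    (hσ : Re P 1 σ) : PlaceOk (P := P) q σ := by
  refine Re.induct (Q := fun σ => PlaceOk (P := P) q σ) h ?_ (hτ.symm.trans hσ)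
  intro μ r hμ hr hQ
  have hμ' := hτ.trans hμ
  by_cases e1 : q = r
  · subst e1
    left
    refine ⟨⟨μ, hμ', hr⟩, ?_⟩
    rw [mv_left]
    rcases pair_of_al hU hμ' hr with ⟨_, h2⟩ | ⟨_, h2⟩
    · exact Or.inr h2
    · exact Or.inl h2
  · by_cases e2 : q = r + 2
    · subst e2
      right
      refine ⟨r, rfl, ⟨μ, hμ', hr⟩, ?_⟩
      rw [mv_right]
      rcases pair_of_al hU hμ' hr with ⟨h1, _⟩ | ⟨h1, _⟩
      · exact Or.inl h1
      · exact Or.inr h1
    · unfold PlaceOk at hQ ⊢
      rw [mv_of_ne μ e1 e2]
      exact hQ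

/-- neighbouring moves share an item -/
lemma common (hU : Uni P) {p : ℕ} (hp : Cen P p) (hp2 : Cen P (p + 2)) :
    ∃ e, (e = ia P p ∨ e = ib P p) ∧ (e = ia P (p + 2) ∨ e = ib P (p + 2)) := by
  by_contra hcon
  push Not at hcon
  obtain ⟨h1, h2⟩ := ref_spec hp
  obtain ⟨h3, h4⟩ := ref_spec hp2
  have key : (ref P (p + 2)) (p + 2) = ia P p ∨ (ref P (p + 2)) (p + 2) = ib P p := by
    refine Re.induct (Q := fun σ => σ (p + 2) = ia P p ∨ σ (p + 2) = ib P p) (Or.inr rfl) ?_
      (h1.symm.trans h3)
    intro μ r hμ hr hQ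
    have hμ' := h1.trans hμ
    by_cases e1 : p + 2 = r
    · subst e1
      exfalso
      obtain ⟨g1, g2⟩ := hcon (μ (p + 2)) hQ
      rcases pair_of_al hU hμ' hr with ⟨h, _⟩ | ⟨h, _⟩
      · exact g1 h
      · exact g2 h
    · by_cases e2 : p + 2 = r + 2
      · have e3 : r = p := by omega
        subst e3
        rw [mv_right]
        rcases pair_of_al hU hμ' hr with ⟨h1, _⟩ | ⟨h1, _⟩
        · exact Or.inl h1
        · exact Or.inr h1
      · rw [mv_of_ne μ e1 e2]
        exact hQ
  exact (hcon _ key).1 rfl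

open Classical in
variable (P) in
/-- the item shared by `p` and `p + 2` -/
noncomputable def sh (p : ℕ) : ℕ :=
  if h : ∃ e, (e = ia P p ∨ e = ib P p) ∧ (e = ia P (p + 2) ∨ e = ib P (p + 2)) then h.choose else 0

lemma sh_spec (hU : Uni P) {p : ℕ} (hp : Cen P p) (hp2 : Cen P (p + 2)) :
    (sh P p = ia P p ∨ sh P p = ib P p) ∧ (sh P p = ia P (p + 2) ∨ sh P p = ib P (p + 2)) := by
  have h := common hU hp hp2
  unfold sh
  rw [dif_pos h]
  exact h.choose_spec

variable (P) in
noncomputable def nn (p : ℕ) : Bool := decide (sh P p = ia P (p + 2))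

variable (P) in
noncomputable def nn' (p : ℕ) : Bool := !decide (sh P p = ia P p)

lemma ia_ne_ib (p : ℕ) : ia P p ≠ ib P p := by
  intro h
  have := (ref P p).injective h
  omega

/-- the constraint between neighbouring moves -/
lemma constraint (hU : Uni P) {σ : Perm ℕ} (hσ : Re P 1 σ) {p : ℕ} (hp : Cen P p)
    (hp2 : Cen P (p + 2)) : chi (P := P) σ (p + 2) = nn P p ∨ chi (P := P) σ p = nn' P p := by
  obtain ⟨h1, h2⟩ := sh_spec hU hp hp2
  have s1 := side' hp hσ
  have s2 := side' hp2 hσ
  by_cases hpos : σ.symm (sh P p) < p + 3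
  · left
    unfold nn
    rcases h2 with h2 | h2
    · rw [h2] at hpos ⊢
      simp only [decide_true]
      rw [chi_true]
      omega
    · have hne : ¬ sh P p = ia P (p + 2) := by
        rw [h2]; exact (ia_ne_ib (P := P) (p + 2)).symm
      simp only [hne, decide_false]
      rw [h2] at hpos
      rw [chi_false]
      omega
  · right
    unfold nn'
    rcases h1 with h1 | h1
    · have hh : sh P p = ia P p := h1
      simp only [hh, decide_true, Bool.not_true]
      rw [chi_false]
      rw [h1] at hpos
      omega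
    · have hne : ¬ sh P p = ia P p := by
        rw [h1]; exact (ia_ne_ib (P := P) p).symm
      simp only [hne, decide_false, Bool.not_false]
      rw [h1] at hpos
      rw [chi_true]
      omega

/-- the criterion for an allowed move -/
lemma al_of_chi (hU : Uni P) {σ : Perm ℕ} (hσ : Re P 1 σ) {p : ℕ} (hp : Cen P p)
    (hr : Cen P (p + 2) → chi (P := P) σ (p + 2) = nn P p)
    (hl : ∀ q, q + 2 = p → Cen P q → chi (P := P) σ q = nn' P q) : Al P σ p := by
  obtain ⟨r1, r2⟩ := ref_spec hp
  have s1 := side' hp hσ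
  -- the item on the right place
  have hR : σ (p + 2) = ia P p ∨ σ (p + 2) = ib P p := by
    have h0 : PlaceOk (P := P) (p + 2) (ref P p) := Or.inr ⟨p, rfl, hp, Or.inr rfl⟩
    rcases placeOk hU r1 h0 hσ with ⟨hc, h1⟩ | ⟨r, hr1, _, h1⟩
    · have hr' := hr hc
      obtain ⟨g1, g2⟩ := sh_spec hU hp hc
      have s2 := side' hc hσ
      -- if it is the shared item, fine
      by_cases he : σ (p + 2) = sh P p
      · rw [he]; exact g1
      · exfalso
        have hpos : σ.symm (σ (p + 2)) = p + 2 := symm_apply_apply _ _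
        rcases h1 with h1 | h1
        · rw [h1] at hpos
          have g3 : sh P p = ib P (p + 2) := g2.resolve_left (fun h => he (h1.trans h.symm))
          have hne : ¬ sh P p = ia P (p + 2) := fun h => he (h1.trans h.symm)
          unfold nn at hr'
          simp only [hne, decide_false] at hr'
          rw [chi_false] at hr'
          omega
        · rw [h1] at hpos
          have g3 : sh P p = ia P (p + 2) := g2.resolve_right (fun h => he (h1.trans h.symm))
          unfold nn at hr'
          simp only [g3, decide_true] at hr'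
          rw [chi_true] at hr'
          omega
    · have : r = p := by omega
      subst this
      exact h1
  have hL : σ p = ia P p ∨ σ p = ib P p := by
    have h0 : PlaceOk (P := P) p (ref P p) := Or.inl ⟨hp, Or.inl rfl⟩
    rcases placeOk hU r1 h0 hσ with ⟨hc, h1⟩ | ⟨q, rfl, hc, h1⟩
    · exact h1
    · have hl' := hl q rfl hc
      obtain ⟨g1, g2⟩ := sh_spec hU hc hp
      have s2 := side' hc hσ
      by_cases he : σ (q + 2) = sh P q
      · rw [he]; exact g2
      · exfalso
        have hpos : σ.symm (σ (q + 2)) = q + 2 := symm_apply_apply _ _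
        rcases h1 with h1 | h1
        · rw [h1] at hpos
          have hne : ¬ sh P q = ia P q := fun h => he (h1.trans h.symm)
          unfold nn' at hl'
          simp only [hne, decide_false, Bool.not_false] at hl'
          rw [chi_true] at hl'
          omega
        · rw [h1] at hpos
          have g3 : sh P q = ia P q := g1.resolve_right (fun h => he (h1.trans h.symm))
          unfold nn' at hl'
          simp only [g3, decide_true, Bool.not_true] at hl'
          rw [chi_false] at hl'
          omega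
  have hc := center_fixed (r1.symm.trans hσ) r2
  have hne : σ p ≠ σ (p + 2) := fun h => by
    have := σ.injective h
    omega
  unfold Al at r2 ⊢
  rw [hc]
  rcases hL with hL | hL
  · have hR' : σ (p + 2) = ib P p := hR.resolve_left (fun h => hne (hL.trans h.symm))
    rw [hL, hR']
    exact r2
  · have hR' : σ (p + 2) = ia P p := hR.resolve_right (fun h => hne (hL.trans h.symm))
    rw [hL, hR']
    exact P.symm r2

/-- **Antipodal states**: two reachable states that differ by all moves -/
theorem antipodal (hU : Uni P) : ∃ u v : St P, ∀ p, Cen P p →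
    chi (P := P) u.1 p ≠ chi (P := P) v.1 p := by
  classical
  set X : Set (ℕ → Bool) := {x | ∃ σ, Re P 1 σ ∧ ∀ p, Cen P p → x p = chi (P := P) σ p} with hX
  have main : ∀ y : ℕ → Bool, (∀ p, Cen P p → Cen P (p + 2) → y (p + 2) = nn P p ∨ y p = nn' P p) →
      ∃ u : St P, ∀ p, Cen P p → chi (P := P) u.1 p = y p := by
    intro y hy
    have hXne : X.Nonempty := ⟨chi' P 1, 1, Re.refl 1, fun p _ => rfl⟩
    have k1 : ∀ x ∈ X, ∀ p, Cen P p → Cen P (p + 2) → x (p + 2) = nn P p ∨ x p = nn' P p := by
      rintro x ⟨σ, hσ, hx⟩ p hp hp2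
      rw [hx p hp, hx (p + 2) hp2]
      exact constraint hU hσ hp hp2
    have k2 : ∀ x ∈ X, ∀ p, Cen P p → (Cen P (p + 2) → x (p + 2) = nn P p) →
        (∀ q, q + 2 = p → Cen P q → x q = nn' P q) → Function.update x p (!x p) ∈ X := by
      rintro x ⟨σ, hσ, hx⟩ p hp g1 g2
      have hal : Al P σ p := by
        apply al_of_chi hU hσ hp
        · intro h
          rw [← hx _ h]
          exact g1 h
        · intro q hq hcq
          rw [← hx _ hcq]
          exact g2 q hq hcq
      refine ⟨mv σ p, hσ.step hal, ?_⟩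
      intro q hq
      by_cases hqp : q = p
      · subst hqp
        rw [Function.update_self, chi_mv hU hσ hal, hx q hq]
      · rw [Function.update_of_ne hqp, chi_mv_ne hσ hal hq hqp, hx q hq]
    obtain ⟨x, ⟨σ, hσ, hx⟩, h⟩ := reach_target P.m (Cen P) (fun p hp => hp.lt) (nn P) (nn' P) X hXne
      k1 k2 y hy
    exact ⟨⟨σ, hσ⟩, fun p hp => by rw [← hx p hp, h p hp]⟩
  obtain ⟨u, hu⟩ := main (zig (Cen P) (nn P) (nn' P)) (fun p _ _ => (zig_spec _ _ _ p).1)
  obtain ⟨v, hv⟩ := main (fun p => !zig (Cen P) (nn P) (nn' P) p) (fun p _ _ => (zig_spec _ _ _ p).2)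
  refine ⟨u, v, fun p hp => ?_⟩
  rw [hu p hp, hv p hp]
  simp

/-! ### Distances -/

open Classical in
variable (P) in
/-- the finite set of moves -/
noncomputable def CF : Finset ℕ := (Finset.range P.m).filter (fun p => Cen P p)

lemma mem_CF {p : ℕ} : p ∈ CF P ↔ Cen P p := by
  classical
  unfold CF
  rw [Finset.mem_filter, Finset.mem_range]
  exact ⟨fun h => h.2, fun h => ⟨h.lt, h⟩⟩

/-- **The distance is the number of moves by which the states differ.** -/
theorem dist_eq_chi (hU : Uni P) (σ τ : St P) : (G P).dist σ τ =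
    ((CF P).filter (fun p => chi (P := P) σ.1 p ≠ chi (P := P) τ.1 p)).card := by
  rw [dist_eq]
  symm
  refine Finset.card_bij (fun p _ => if chi (P := P) σ.1 p = true then (ia P p, ib P p)
    else (ib P p, ia P p)) ?_ ?_ ?_
  · intro p hp
    rw [Finset.mem_filter, mem_CF] at hp
    obtain ⟨hp, hne⟩ := hp
    obtain ⟨r1, r2⟩ := ref_spec hp
    have l1 : ia P p < P.m := P.lt₁ r2
    have l2 : ib P p < P.m := P.lt₁ (P.symm r2)
    have par : ia P p % 2 = ib P p % 2 := by
      unfold ia ib
      rw [parity r1, parity r1]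
      omega
    have s1 := side' hp σ.2
    have s2 := side' hp τ.2
    split_ifs with h
    · rw [mem_Inv]
      have h' : chi (P := P) τ.1 p = false := by
        cases h3 : chi (P := P) τ.1 p
        · rfl
        · rw [h, h3] at hne
          exact absurd rfl hne
      rw [chi_true] at h
      rw [chi_false] at h'
      refine ⟨⟨l1, l2⟩, par, ?_, ?_⟩ <;> simp only <;> omega
    · rw [mem_Inv]
      have h0 : chi (P := P) σ.1 p = false := by simpa using h
      have h' : chi (P := P) τ.1 p = true := by
        cases h3 : chi (P := P) τ.1 p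
        · rw [h0, h3] at hne
          exact absurd rfl hne
        · rfl
      rw [chi_false] at h0
      rw [chi_true] at h'
      refine ⟨⟨l2, l1⟩, par.symm, ?_, ?_⟩ <;> simp only <;> omega
  · intro p hp q hq h
    rw [Finset.mem_filter, mem_CF] at hp hq
    obtain ⟨r1, r2⟩ := ref_spec hp.1
    have s := side' hq.1 r1
    have e1 : (ref P p).symm (ia P p) = p := symm_apply_apply _ _
    have e2 : (ref P p).symm (ib P p) = p + 2 := symm_apply_apply _ _
    have hset : (ia P q = ia P p ∧ ib P q = ib P p) ∨ (ia P q = ib P p ∧ ib P q = ia P p) := by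
      split_ifs at h <;> rw [Prod.mk.injEq] at h
      · exact Or.inl ⟨h.1.symm, h.2.symm⟩
      · exact Or.inr ⟨h.2.symm, h.1.symm⟩
      · exact Or.inr ⟨h.1.symm, h.2.symm⟩
      · exact Or.inl ⟨h.2.symm, h.1.symm⟩
    rcases hset with ⟨h1, h2⟩ | ⟨h1, h2⟩
    · rw [h1, h2, e1, e2] at s
      omega
    · rw [h1, h2, e1, e2] at s
      omega
  · rintro ⟨x, z⟩ he
    rw [mem_Inv] at he
    obtain ⟨⟨hx, hz⟩, hxz, h1, h2⟩ := he
    simp only at hx hz hxz h1 h2
    obtain ⟨μ, r, hμ, hr, e1, e2⟩ := exists_move hxz σ.2 τ.2 h1 h2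
    have hc : Cen P r := ⟨μ, hμ, hr⟩
    have s1 := side' hc σ.2
    have s2 := side' hc τ.2
    refine ⟨r, ?_, ?_⟩
    · rw [Finset.mem_filter, mem_CF]
      refine ⟨hc, ?_⟩
      intro heq
      rcases pair_of_al hU hμ hr with ⟨g1, g2⟩ | ⟨g1, g2⟩
      · rw [e1] at g1
        rw [e2] at g2
        subst g1
        subst g2
        have c1 : chi (P := P) σ.1 r = true := by rw [chi_true]; omega
        have c2 : chi (P := P) τ.1 r = false := by rw [chi_false]; omega
        rw [c1, c2] at heq
        exact Bool.noConfusion heq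
      · rw [e1] at g1
        rw [e2] at g2
        subst g1
        subst g2
        have c1 : chi (P := P) σ.1 r = false := by rw [chi_false]; omega
        have c2 : chi (P := P) τ.1 r = true := by rw [chi_true]; omega
        rw [c1, c2] at heq
        exact Bool.noConfusion heq
    · rcases pair_of_al hU hμ hr with ⟨g1, g2⟩ | ⟨g1, g2⟩
      · rw [e1] at g1
        rw [e2] at g2
        subst g1
        subst g2
        have c1 : chi (P := P) σ.1 r = true := by rw [chi_true]; omega
        rw [if_pos c1]
      · rw [e1] at g1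
        rw [e2] at g2
        subst g1
        subst g2
        have c1 : ¬ chi (P := P) σ.1 r = true := by rw [chi_true]; omega
        rw [if_neg c1]

end Pool.Agent.R130.Puzzle
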