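import Mathlib
import Pool.Agent.R130.PuzzleU
import Pool.Agent.R130.BraidWords

/-!
# Braid graphs of type `Λ` (simply laced and triangle free)

In type `Λ` every braid shadow always exchanges the same two reflections, so the results on puzzles
with unique pairs apply.
-/

set_option autoImplicit false

namespace Pool.Agent.R130.Braid

open Pool.Agent.R130.Puzzle CoxeterSystem

section lists

variable {B : Type*}

lemma letters_three (l₁ l₂ : List B) (a b c : B) :
    (l₁ ++ [a, b, c] ++ l₂)[l₁.length]? = some a ∧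
    (l₁ ++ [a, b, c] ++ l₂)[l₁.length + 1]? = some b ∧
    (l₁ ++ [a, b, c] ++ l₂)[l₁.length + 2]? = some c := by
  rw [List.append_assoc]
  refine ⟨?_, ?_, ?_⟩
  · rw [List.getElem?_append_right (le_refl _)]; simp
  · rw [List.getElem?_append_right (by omega)]; simp
  · rw [List.getElem?_append_right (by omega)]
    have : l₁.length + 2 - l₁.length = 2 := by omega
    rw [this]; simp

lemma letters_outer (l₁ l₂ : List B) (a b c a' b' c' : B) (k : ℕ)
    (hk : k < l₁.length ∨ l₁.length + 3 ≤ k) :
    (l₁ ++ [a, b, c] ++ l₂)[k]? = (l₁ ++ [a', b', c'] ++ l₂)[k]? := by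
  rw [List.append_assoc, List.append_assoc]
  rcases hk with hk | hk
  · rw [List.getElem?_append_left hk, List.getElem?_append_left hk]
  · have e : ∀ x y z : B, (l₁ ++ ([x, y, z] ++ l₂))[k]? = l₂[k - l₁.length - 3]? := by
      intro x y z
      rw [List.getElem?_append_right (by omega)]
      obtain ⟨j, hj⟩ : ∃ j, k - l₁.length = j + 3 := ⟨k - l₁.length - 3, by omega⟩
      rw [hj]
      simp
    rw [e, e]

end lists

section lambda

variable {B W : Type*} {M : CoxeterMatrix B} [Group W] {cs : CoxeterSystem M W}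

/-- the invariant along a path avoiding the move `c` -/
def InvL (cs : CoxeterSystem M W) {α : List B} (hα : cs.IsReduced α) (c e : ℕ) (s₀ t₀ u₀ : B)
    (μ : Equiv.Perm ℕ) (β : List B) : Prop :=
  β[c + 1]? = some t₀ ∧
  ((μ (c + 2) = e ∧ β[c + 2]? = some s₀ ∧ β[c + 3]? = some u₀) ∨
   ((puz cs α hα).T e (μ (c + 3)) (μ (c + 2)) ∧ β[c + 2]? = some u₀ ∧ β[c + 3]? = some s₀ ∧
     M s₀ u₀ = 3))

lemma invL_path (hsl : SimplyLaced M) {α : List B} (hα : cs.IsReduced α) {c e : ℕ} {s₀ t₀ u₀ : B}
    (hc : Cen (puz cs α hα) c) (hc2 : Cen (puz cs α hα) (c + 2)) :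
    ∀ (ps : List ℕ) (μ : Equiv.Perm ℕ) (β : List B), Re (puz cs α hα) 1 μ → Rel cs α β μ →
      Valid (puz cs α hα) μ ps → (∀ r ∈ ps, r ≠ c) → InvL cs hα c e s₀ t₀ u₀ μ β →
      ∃ β', Rel cs α β' (run μ ps) ∧ InvL cs hα c e s₀ t₀ u₀ (run μ ps) β' := by
  intro ps
  induction ps with
  | nil => intro μ β _ h _ _ hI; exact ⟨β, h, hI⟩
  | cons r ps ih =>
    intro μ β hμ h hv hne hI
    obtain ⟨hr, hv'⟩ := hv
    have hrc : r ≠ c := hne r List.mem_cons_self
    obtain ⟨ρ, hρ1, hρ2⟩ := hc
    obtain ⟨ρ', hρ1', hρ2'⟩ := hc2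
    have n1 : r ≠ c + 1 := by
      rintro rfl
      exact no_adj (hρ1.symm.trans hμ) hρ2 hr
    have n2 : r + 1 ≠ c := by
      rintro rfl
      exact no_adj (hμ.symm.trans hρ1) hr hρ2
    have n3 : r ≠ c + 3 := by
      rintro rfl
      exact no_adj (p := c + 2) (hρ1'.symm.trans hμ) hρ2' hr
    obtain ⟨l₁, l₂, s, t, hl, hst, hβ⟩ := h.of_allowed hsl hα hμ hr
    obtain ⟨-, hγ⟩ := h.of_braid hα hμ hst hβ rfl
    rw [hl] at hγ
    refine ih (mv μ r) _ (hμ.step hr) hγ hv' (fun q hq => hne q (List.mem_cons_of_mem _ hq)) ?_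
    obtain ⟨i1, i2⟩ := hI
    obtain ⟨b1, b2, b3⟩ := letters_three l₁ l₂ s t s
    obtain ⟨g1, g2, g3⟩ := letters_three l₁ l₂ t s t
    rw [← hβ] at b1 b2 b3
    rw [hl] at b1 b2 b3 g1 g2 g3
    have outer : ∀ k, (k < r ∨ r + 3 ≤ k) → (l₁ ++ [t, s, t] ++ l₂)[k]? = β[k]? := by
      intro k hk
      rw [hβ]
      exact letters_outer l₁ l₂ t s t s t s k (by rw [hl]; exact hk)
    by_cases hr2 : r = c + 2
    · subst hr2
      refine ⟨?_, ?_⟩
      · rw [outer (c + 1) (by omega)]
        exact i1
      · have e3 : c + 2 + 1 = c + 3 := rfl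
        rw [e3] at b2 g2
        unfold Al at hr
        rcases i2 with ⟨j1, j2, j3⟩ | ⟨j1, j2, j3, j4⟩
        · right
          rw [mv_left]
          have e4 : mv μ (c + 2) (c + 3) = μ (c + 3) := mv_mid μ (c + 2)
          rw [e4]
          rw [b1] at j2
          rw [b2] at j3
          have js : s = s₀ := Option.some.inj j2
          have jt : t = u₀ := Option.some.inj j3
          subst js
          subst jt
          rw [j1] at hr
          exact ⟨hr, g1, g2, hst⟩
        · left
          rw [mv_left]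
          rw [b1] at j2
          rw [b2] at j3
          have js : s = u₀ := Option.some.inj j2
          have jt : t = s₀ := Option.some.inj j3
          subst js
          subst jt
          exact ⟨(puz cs α hα).uniq hr ((puz cs α hα).symm j1), g1, g2⟩
    · refine ⟨?_, ?_⟩
      · rw [outer (c + 1) (by omega)]
        exact i1
      · rw [outer (c + 2) (by omega), outer (c + 3) (by omega),
          mv_of_ne μ (by omega) (by omega), mv_of_ne μ (by omega) (by omega)]
        exact i2

/-- paths avoiding `c` and `c + 2` do not change the item on place `c + 2` -/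
lemma path_avoid {P : Puz} {c : ℕ} (hc2 : ¬ Cen P (c + 2)) :
    ∀ (ps : List ℕ) (μ : Equiv.Perm ℕ), Re P 1 μ → Valid P μ ps → (∀ r ∈ ps, r ≠ c) →
      run μ ps (c + 2) = μ (c + 2) := by
  intro ps
  induction ps with
  | nil => intro μ _ _ _; rfl
  | cons r ps ih =>
    intro μ hμ hv hne
    obtain ⟨hr, hv'⟩ := hv
    have hrc : r ≠ c := hne r List.mem_cons_self
    have hr2 : r ≠ c + 2 := by
      rintro rfl
      exact hc2 ⟨μ, hμ, hr⟩
    change run (mv μ r) ps (c + 2) = _
    rw [ih (mv μ r) (hμ.step hr) hv' (fun q hq => hne q (List.mem_cons_of_mem _ hq)),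
      mv_of_ne μ (by omega) (by omega)]

/-- **In type `Λ` every braid shadow always exchanges the same pair.** -/
theorem uni (hsl : SimplyLaced M) (htf : TriangleFree M) {α : List B} (hα : cs.IsReduced α) :
    Uni (puz cs α hα) := by
  -- paths avoiding the move
  have avoid : ∀ (c : ℕ) (ps : List ℕ) (σ : Equiv.Perm ℕ), Re (puz cs α hα) 1 σ →
      Valid (puz cs α hα) σ ps → (∀ r ∈ ps, r ≠ c) → Al (puz cs α hα) σ c →
      Al (puz cs α hα) (run σ ps) c → run σ ps c = σ c := by
    intro c ps σ hσ hv hne h1 h2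
    have hc : Cen (puz cs α hα) c := ⟨σ, hσ, h1⟩
    have hστ : Re (puz cs α hα) σ (run σ ps) := ⟨ps, hv, rfl⟩
    have hcf := center_fixed hστ h1
    -- it is enough to compare the items on place `c + 2`
    suffices hs : run σ ps (c + 2) = σ (c + 2) by
      unfold Al at h1 h2
      rw [hcf, hs] at h2
      exact (puz cs α hα).uniq ((puz cs α hα).symm h2) ((puz cs α hα).symm h1)
    by_cases hc2 : Cen (puz cs α hα) (c + 2)
    · obtain ⟨β₀, -, hβ₀⟩ := exists_word hsl hα hσ
      obtain ⟨l₁, l₂, s₀, t₀, hl, hst, hβ⟩ := hβ₀.of_allowed hsl hα hσ h1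
      obtain ⟨b1, b2, b3⟩ := letters_three l₁ l₂ s₀ t₀ s₀
      rw [← hβ, hl] at b1 b2 b3
      have hlen : c + 3 < β₀.length := by
        obtain ⟨ρ, hρ1, hρ2⟩ := hc2
        have := hρ2.lt hρ1
        have h4 : (puz cs α hα).m = α.length := rfl
        rw [hβ₀.1]
        omega
      obtain ⟨u₀, hu₀⟩ : ∃ u₀, β₀[c + 3]? = some u₀ := ⟨β₀[c + 3], List.getElem?_eq_getElem hlen⟩
      obtain ⟨β', hβ', hI⟩ := invL_path hsl hα (e := σ (c + 2)) (s₀ := s₀) (t₀ := t₀) (u₀ := u₀)
        hc hc2 ps σ β₀ hσ hβ₀ hv hne ⟨b2, Or.inl ⟨rfl, b3, hu₀⟩⟩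
      obtain ⟨i1, i2⟩ := hI
      rcases i2 with ⟨j1, -, -⟩ | ⟨j1, j2, j3, j4⟩
      · exact j1
      · exfalso
        obtain ⟨k₁, k₂, s₁, t₁, hk, hst', hβ''⟩ := hβ'.of_allowed hsl hα (hσ.trans hστ) h2
        obtain ⟨d1, d2, d3⟩ := letters_three k₁ k₂ s₁ t₁ s₁
        rw [← hβ'', hk] at d1 d2 d3
        rw [d2] at i1
        rw [d3] at j2
        have e1 : t₁ = t₀ := Option.some.inj i1
        have e2 : s₁ = u₀ := Option.some.inj j2
        subst e1
        subst e2
        exact htf s₀ s₁ t₁ ⟨j4, hst', hst⟩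
    · exact path_avoid hc2 ps σ hσ hv hne
  -- general paths
  have main : ∀ (n c : ℕ) (ps : List ℕ) (σ : Equiv.Perm ℕ), ps.length ≤ n →
      Re (puz cs α hα) 1 σ → Valid (puz cs α hα) σ ps → Al (puz cs α hα) σ c →
      Al (puz cs α hα) (run σ ps) c → run σ ps c = σ c ∨ run σ ps c = σ (c + 2) := by
    intro n
    induction n with
    | zero =>
      intro c ps σ hl hσ hv h1 h2
      have : ps = [] := List.length_eq_zero_iff.mp (Nat.le_zero.mp hl)
      subst this
      exact Or.inl rfl
    | succ n ih =>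
      intro c ps σ hl hσ hv h1 h2
      by_cases hmem : c ∈ ps
      · obtain ⟨ps1, ps2, rfl⟩ := List.append_of_mem hmem
        rw [valid_append] at hv
        obtain ⟨hv1, hr1, hv2⟩ := hv
        rw [run_append] at h2 ⊢
        change Al _ (run (mv (run σ ps1) c) ps2) c at h2
        change run (mv (run σ ps1) c) ps2 c = σ c ∨ run (mv (run σ ps1) c) ps2 c = σ (c + 2)
        have hl1 : ps1.length ≤ n := by
          simp only [List.length_append, List.length_cons] at hl
          omega
        have hl2 : ps2.length ≤ n := by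
          simp only [List.length_append, List.length_cons] at hl
          omega
        set μ := run σ ps1 with hμ
        have hσμ : Re (puz cs α hα) σ μ := ⟨ps1, hv1, rfl⟩
        have a1 := ih c ps1 σ hl1 hσ hv1 h1 hr1
        have a2 := ih c ps2 (mv μ c) hl2 ((hσ.trans hσμ).step hr1) hv2 hr1.mv h2
        rw [mv_left, mv_right] at a2
        -- the pair of `μ` is the pair of `σ`
        have hcf := center_fixed hσμ h1
        have hpair : (μ c = σ c ∧ μ (c + 2) = σ (c + 2)) ∨
            (μ c = σ (c + 2) ∧ μ (c + 2) = σ c) := by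
          have h1' := h1
          have hr1' := hr1
          unfold Al at h1' hr1'
          rw [hcf] at hr1'
          rcases a1 with a1 | a1
          · left
            rw [← hμ] at a1
            refine ⟨a1, ?_⟩
            rw [a1] at hr1'
            exact (puz cs α hα).uniq hr1' h1'
          · right
            rw [← hμ] at a1
            refine ⟨a1, ?_⟩
            rw [a1] at hr1'
            exact (puz cs α hα).uniq hr1' ((puz cs α hα).symm h1')
        rcases hpair with ⟨p1, p2⟩ | ⟨p1, p2⟩ <;> rw [p1, p2] at a2 <;> tauto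
      · left
        exact avoid c ps σ hσ hv (fun r hr h => hmem (h ▸ hr)) h1 h2
  intro σ τ c hσ hτ h1 h2
  obtain ⟨ps, hv, rfl⟩ := hσ.symm.trans hτ
  exact main ps.length c ps σ le_rfl hσ hv h1 h2

end lambda

/-! ### Consequences for braid graphs -/

section graph

variable {B W : Type*} {M : CoxeterMatrix B} [Group W] {cs : CoxeterSystem M W}

lemma braid_connected (hsl : SimplyLaced M) {α : List B} (hα : cs.IsReduced α) :
    (braidGraph M α).Connected :=
  ((iso (cs := cs) hsl hα).connected_iff).mpr connected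

lemma shadows_eq (hsl : SimplyLaced M) {α : List B} (hα : cs.IsReduced α) :
    shadows M α = ((CF (puz cs α hα) : Finset ℕ) : Set ℕ) := by
  ext p
  rw [mem_shadows hsl hα p, Finset.mem_coe, mem_CF]
  rfl

/-- the side functions of the words of the braid class -/
noncomputable def chiW {α : List B} (hα : cs.IsReduced α) (β : braidClass M α) (p : ℕ) : Bool :=
  chi (P := puz cs α hα) (toSt hα β).1 p

/-- The distance in the braid graph is the number of shadows with different sides. -/
theorem dist_braid (hsl : SimplyLaced M) (htf : TriangleFree M) {α : List B}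
    (hα : cs.IsReduced α) (β γ : braidClass M α) : (braidGraph M α).dist β γ =
      ((CF (puz cs α hα)).filter (fun p => chiW hα β p ≠ chiW hα γ p)).card := by
  rw [← dist_iso (iso (cs := cs) hsl hα) (braid_connected (cs := cs) hsl hα)]
  exact dist_eq_chi (uni hsl htf hα) _ _

/-- There are two words that differ at all shadows. -/
theorem antipodal_braid (hsl : SimplyLaced M) (htf : TriangleFree M) {α : List B}
    (hα : cs.IsReduced α) : ∃ u v : braidClass M α, ∀ p ∈ CF (puz cs α hα),
      chiW hα u p ≠ chiW hα v p := by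
  obtain ⟨u, v, h⟩ := antipodal (uni hsl htf hα)
  obtain ⟨u', rfl⟩ := (toSt_bij (cs := cs) hsl hα).2 u
  obtain ⟨v', rfl⟩ := (toSt_bij (cs := cs) hsl hα).2 v
  exact ⟨u', v', fun p hp => h p (mem_CF.mp hp)⟩

end graph

end Pool.Agent.R130.Braid
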