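import Mathlib

/-!
Covering entropy of a set system: definitions and basic tools.
-/

open MeasureTheory ENNReal Filter Topology

namespace Pool.Agent.R130.Cov

universe u

/-- `nl y = -log y` as an extended nonnegative number (used for `0 ≤ y ≤ 1`; `nl 0 = ∞`). -/
noncomputable def nl (y : ℝ≥0∞) : ℝ≥0∞ := (-ENNReal.log y).toENNReal

/-- `lg y = log y` as an extended nonnegative number (used for `1 ≤ y`; `lg ∞ = ∞`). -/
noncomputable def lg (y : ℝ≥0∞) : ℝ≥0∞ := (ENNReal.log y).toENNReal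

/-- `φ_π(a) = ∫ -log a dπ` for `a : Ω → [0,1]`. -/
noncomputable def phi {Ω : Type u} [MeasurableSpace Ω] (π : Measure Ω) (a : Ω → ℝ≥0∞) : ℝ≥0∞ :=
  ∫⁻ x, nl (a x) ∂π

/-- The box `J 0 × ... × J (ℓ - 1)`. -/
def box {Ω : Type u} {l : ℕ} (J : Fin l → Set Ω) : Set (Fin l → Ω) := {x | ∀ i, x i ∈ J i}

/-- `N_ℓ(I, π, lam)`: the least number of `ℓ`-dimensional `I`-boxes whose union has measure at
least `1 - lam` (`∞` if there is no such finite family). -/
noncomputable def covN {Ω : Type u} [MeasurableSpace Ω] (π : Measure Ω) (I : Set (Set Ω))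
    (lam : ℝ) (l : ℕ) : ℝ≥0∞ :=
  ⨅ (F : Finset (Fin l → Set Ω))
    (_ : (∀ J ∈ F, ∀ i, J i ∈ I) ∧
      ENNReal.ofReal (1 - lam) ≤ Measure.pi (fun _ : Fin l => π) (⋃ J ∈ F, box J)),
    (F.card : ℝ≥0∞)

/-- A probability measure `β` on some `σ`-algebra of subsets of `I` is compatible if
`{(J, x) | x ∈ J}` is measurable for the completion of `β × π`. -/
def Compatible {Ω : Type u} [MeasurableSpace Ω] (π : Measure Ω) {I : Set (Set Ω)}
    [MeasurableSpace I] (β : Measure I) : Prop :=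
  IsProbabilityMeasure β ∧
    NullMeasurableSet {p : I × Ω | p.2 ∈ (p.1 : Set Ω)} (β.prod π)

/-- `a_β(x) = ∫ 1_J(x) dβ(J)`. -/
noncomputable def mix {Ω : Type u} {I : Set (Set Ω)} [MeasurableSpace I] (β : Measure I)
    (x : Ω) : ℝ≥0∞ :=
  ∫⁻ J : I, (J : Set Ω).indicator 1 x ∂β

/-- The infimum of `φ_π` over `VP_full`. -/
noncomputable def Hfull {Ω : Type u} [MeasurableSpace Ω] (π : Measure Ω) (I : Set (Set Ω)) :
    ℝ≥0∞ :=
  ⨅ (_ : MeasurableSpace I) (β : Measure I) (_ : Compatible π β), phi π (mix β)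

/-- Countable convex combinations of indicators of members of `I`. -/
def IsCnt {Ω : Type u} (I : Set (Set Ω)) (a : Ω → ℝ≥0∞) : Prop :=
  ∃ (q : ℕ → ℝ≥0∞) (J : ℕ → Set Ω), (∑' k, q k = 1) ∧ (∀ k, J k ∈ I) ∧
    ∀ x, a x = ∑' k, (J k).indicator (fun _ => q k) x

/-- The infimum of `φ_π` over the countable convex combinations. -/
noncomputable def Hcnt {Ω : Type u} [MeasurableSpace Ω] (π : Measure Ω) (I : Set (Set Ω)) :
    ℝ≥0∞ :=
  ⨅ (a : Ω → ℝ≥0∞) (_ : IsCnt I a), phi π a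

/-! ### Facts about `nl` and `lg` -/

theorem continuous_nl : Continuous nl :=
  (ENNReal.continuous_log.neg).ereal_toENNReal

theorem measurable_nl : Measurable nl := continuous_nl.measurable

theorem nl_anti {x y : ℝ≥0∞} (h : x ≤ y) : nl y ≤ nl x :=
  EReal.toENNReal_le_toENNReal (EReal.neg_le_neg_iff.2 (ENNReal.log_monotone h))

theorem nl_zero : nl 0 = ∞ := by simp [nl]

theorem nl_mul {x y : ℝ≥0∞} (hx : x ≤ 1) (hy : y ≤ 1) : nl (x * y) = nl x + nl y := by
  unfold nl
  have hx' : ENNReal.log x ≤ 0 := ENNReal.log_le_zero_iff.2 hx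
  have hy' : ENNReal.log y ≤ 0 := ENNReal.log_le_zero_iff.2 hy
  rw [ENNReal.log_mul_add, EReal.neg_add, sub_eq_add_neg, EReal.toENNReal_add]
  · exact EReal.neg_nonneg.2 hx'
  · exact EReal.neg_nonneg.2 hy'
  · right
    intro h
    rw [h] at hy'
    exact absurd hy' (by simp)
  · left
    intro h
    rw [h] at hx'
    exact absurd hx' (by simp)

theorem nl_ofReal {x : ℝ} (hx : 0 < x) : nl (ENNReal.ofReal x) = ENNReal.ofReal (-Real.log x) := by
  unfold nl
  rw [ENNReal.log_ofReal_of_pos hx, ← EReal.coe_neg, EReal.toENNReal_of_ne_top (EReal.coe_ne_top _)]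
  rfl

theorem lg_ofReal {x : ℝ} (hx : 0 < x) : lg (ENNReal.ofReal x) = ENNReal.ofReal (Real.log x) := by
  unfold lg
  rw [ENNReal.log_ofReal_of_pos hx, EReal.toENNReal_of_ne_top (EReal.coe_ne_top _)]
  rfl

theorem lg_mono {x y : ℝ≥0∞} (h : x ≤ y) : lg x ≤ lg y :=
  EReal.toENNReal_le_toENNReal (ENNReal.log_monotone h)

theorem nl_eq_ofReal {y : ℝ≥0∞} (h0 : y ≠ 0) (h1 : y ≤ 1) :
    nl y = ENNReal.ofReal (-Real.log y.toReal) := by
  have ht : y ≠ ∞ := (lt_of_le_of_lt h1 ENNReal.one_lt_top).ne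
  have := nl_ofReal (ENNReal.toReal_pos h0 ht)
  rwa [ENNReal.ofReal_toReal ht] at this

theorem nl_ne_top {y : ℝ≥0∞} (h : nl y ≠ ∞) : y ≠ 0 := by
  rintro rfl
  exact h nl_zero

/-! ### Product integrals -/

theorem lintegral_fin_prod {E : Type*} [MeasurableSpace E] (μ : Measure E) [SigmaFinite μ] :
    ∀ (n : ℕ) (f : Fin n → E → ℝ≥0∞) (_ : ∀ i, Measurable (f i)),
      ∫⁻ x : Fin n → E, ∏ i, f i (x i) ∂(Measure.pi fun _ => μ) = ∏ i, ∫⁻ x, f i x ∂μ := by
  intro n
  induction n with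
  | zero =>
    intro f _
    simp
  | succ n ih =>
    intro f hf
    have h1 := (measurePreserving_piFinSuccAbove (fun _ : Fin (n + 1) => μ) 0).symm
    rw [← h1.lintegral_comp (by
      apply Finset.measurable_prod
      intro i _
      exact (hf i).comp (measurable_pi_apply i))]
    simp_rw [MeasurableEquiv.piFinSuccAbove_symm_apply, Fin.insertNthEquiv,
      Fin.prod_univ_succ, Fin.insertNth_zero]
    simp only [Equiv.coe_fn_mk, cast_eq, Fin.cons_zero, Fin.cons_succ]
    rw [lintegral_prod_mul (f := fun x => f 0 x) (g := fun y : Fin n → E => ∏ i, f i.succ (y i))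
      (hf 0).aemeasurable (by
        apply Measurable.aemeasurable
        apply Finset.measurable_prod
        intro i _
        exact (hf _).comp (measurable_pi_apply i))]
    rw [ih (fun i => f i.succ) (fun i => hf _)]

theorem measurableSet_box {Ω : Type u} [MeasurableSpace Ω] {l : ℕ} (J : Fin l → Set Ω)
    (hJ : ∀ i, MeasurableSet (J i)) : MeasurableSet (box J) := by
  have : box J = Set.univ.pi J := by
    ext x
    simp [box, Set.mem_pi]
  rw [this]
  exact MeasurableSet.univ_pi hJ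

end Pool.Agent.R130.Cov
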