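import Pool.Agent.R130.CovA

open MeasureTheory ENNReal Filter Topology

namespace Pool.Agent.R130.Cov

universe u

variable {Ω : Type u} [MeasurableSpace Ω]

/-- Chernoff bound for bounded functions on a power of a probability space. -/
theorem chernoff (π : Measure Ω) [IsProbabilityMeasure π] (g : Ω → ℝ) (hg : Measurable g)
    (K : ℝ) (hK : ∀ x, |g x| ≤ K) (m : ℝ) (hm : ∫ x, g x ∂π < m) :
    Tendsto (fun l : ℕ => Measure.pi (fun _ : Fin l => π) {x | (l : ℝ) * m ≤ ∑ i, g (x i)})
      atTop (𝓝 0) := by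
  obtain ⟨x0⟩ : Nonempty Ω := nonempty_of_isProbabilityMeasure π
  have hK0 : 0 ≤ K := le_trans (abs_nonneg _) (hK x0)
  set G := ∫ x, g x ∂π with hG
  have hgi : Integrable g π := by
    refine Integrable.of_bound hg.aestronglyMeasurable K (ae_of_all _ fun x => ?_)
    simpa using hK x
  -- choose s
  obtain ⟨s, hs0, hsK, hs⟩ : ∃ s : ℝ, 0 < s ∧ s * K ≤ 1 ∧ s * K ^ 2 < m - G := by
    refine ⟨min (1 / (K + 1)) ((m - G) / (K ^ 2 + 1)), ?_, ?_, ?_⟩
    · apply lt_min
      · positivity
      · apply div_pos <;> nlinarith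
    · calc min (1 / (K + 1)) ((m - G) / (K ^ 2 + 1)) * K ≤ 1 / (K + 1) * K := by
            gcongr
            exact min_le_left _ _
        _ ≤ 1 := by
            rw [div_mul_eq_mul_div, div_le_one (by positivity)]
            linarith
    · have h1 : min (1 / (K + 1)) ((m - G) / (K ^ 2 + 1)) ≤ (m - G) / (K ^ 2 + 1) :=
        min_le_right _ _
      calc min (1 / (K + 1)) ((m - G) / (K ^ 2 + 1)) * K ^ 2
          ≤ (m - G) / (K ^ 2 + 1) * K ^ 2 := by gcongr
        _ < m - G := by
            rw [div_mul_eq_mul_div, div_lt_iff₀ (by positivity)]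
            nlinarith
  -- the exponential moment
  have hexp : ∀ x, Real.exp (s * g x) ≤ 1 + s * g x + s ^ 2 * K ^ 2 := by
    intro x
    have h1 : |s * g x| ≤ 1 := by
      rw [abs_mul, abs_of_pos hs0]
      exact le_trans (mul_le_mul_of_nonneg_left (hK x) hs0.le) hsK
    have h2 := Real.abs_exp_sub_one_sub_id_le h1
    have h3 := (abs_le.1 h2).2
    have h4 : (s * g x) ^ 2 ≤ s ^ 2 * K ^ 2 := by
      rw [mul_pow]
      apply mul_le_mul_of_nonneg_left _ (sq_nonneg s)
      rw [← sq_abs]
      exact pow_le_pow_left₀ (abs_nonneg _) (hK x) 2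
    linarith
  set f : Ω → ℝ≥0∞ := fun x => ENNReal.ofReal (Real.exp (s * (g x - m))) with hf
  have hfm : Measurable f := by
    apply Measurable.ennreal_ofReal
    exact Real.measurable_exp.comp ((hg.sub_const m).const_mul s)
  have hint : ∫⁻ x, f x ∂π < 1 := by
    have h1 : ∀ x, f x ≤ ENNReal.ofReal (Real.exp (-(s * m)) * (1 + s * g x + s ^ 2 * K ^ 2)) := by
      intro x
      apply ENNReal.ofReal_le_ofReal
      have : Real.exp (s * (g x - m)) = Real.exp (-(s * m)) * Real.exp (s * g x) := by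
        rw [← Real.exp_add]
        congr 1
        ring
      rw [this]
      exact mul_le_mul_of_nonneg_left (hexp x) (Real.exp_pos _).le
    have h2 : Integrable (fun x => Real.exp (-(s * m)) * (1 + s * g x + s ^ 2 * K ^ 2)) π := by
      apply Integrable.const_mul
      apply Integrable.add
      · apply Integrable.add (integrable_const _)
        exact hgi.const_mul s
      · exact integrable_const _
    have h3 : ∀ x, 0 ≤ Real.exp (-(s * m)) * (1 + s * g x + s ^ 2 * K ^ 2) := fun x =>
      mul_nonneg (Real.exp_pos _).le (le_trans (Real.exp_pos _).le (hexp x))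
    calc ∫⁻ x, f x ∂π
        ≤ ∫⁻ x, ENNReal.ofReal (Real.exp (-(s * m)) * (1 + s * g x + s ^ 2 * K ^ 2)) ∂π :=
          lintegral_mono h1
      _ = ENNReal.ofReal (∫ x, Real.exp (-(s * m)) * (1 + s * g x + s ^ 2 * K ^ 2) ∂π) :=
          (ofReal_integral_eq_lintegral_ofReal h2 (ae_of_all _ h3)).symm
      _ < 1 := by
          have h5 : ∫ x, (1 + s * g x + s ^ 2 * K ^ 2) ∂π = 1 + s * G + s ^ 2 * K ^ 2 := by
            rw [integral_add (f := fun x => 1 + s * g x) (g := fun _ => s ^ 2 * K ^ 2)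
              ((integrable_const _).add (hgi.const_mul s)) (integrable_const _),
              integral_add (f := fun _ => 1) (g := fun x => s * g x) (integrable_const _)
              (hgi.const_mul s), integral_const_mul, ← hG]
            simp only [integral_const, probReal_univ, one_smul]
          rw [integral_const_mul, h5]
          rw [← ENNReal.ofReal_one]
          apply (ENNReal.ofReal_lt_ofReal_iff one_pos).2
          have h4 : 1 + s * G + s ^ 2 * K ^ 2 ≤ Real.exp (s * G + s ^ 2 * K ^ 2) := by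
            have := Real.add_one_le_exp (s * G + s ^ 2 * K ^ 2)
            linarith
          calc Real.exp (-(s * m)) * (1 + s * G + s ^ 2 * K ^ 2)
              ≤ Real.exp (-(s * m)) * Real.exp (s * G + s ^ 2 * K ^ 2) :=
                mul_le_mul_of_nonneg_left h4 (Real.exp_pos _).le
            _ = Real.exp (-(s * m) + (s * G + s ^ 2 * K ^ 2)) := by rw [← Real.exp_add]
            _ < 1 := by
                rw [Real.exp_lt_one_iff]
                have : -(s * m) + (s * G + s ^ 2 * K ^ 2) = s * (s * K ^ 2 - (m - G)) := by ring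
                rw [this]
                exact mul_neg_of_pos_of_neg hs0 (by linarith)
  have hpow := ENNReal.tendsto_pow_atTop_nhds_zero_of_lt_one hint
  refine tendsto_of_tendsto_of_tendsto_of_le_of_le tendsto_const_nhds hpow (fun _ => bot_le)
    (fun l => ?_)
  show Measure.pi (fun _ : Fin l => π) {x | (l : ℝ) * m ≤ ∑ i, g (x i)} ≤ (∫⁻ x, f x ∂π) ^ l
  have hprod := lintegral_fin_prod π l (fun _ => f) (fun _ => hfm)
  simp only [Finset.prod_const, Finset.card_univ, Fintype.card_fin] at hprod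
  rw [← hprod]
  have hmeas : MeasurableSet {x : Fin l → Ω | (l : ℝ) * m ≤ ∑ i, g (x i)} := by
    apply measurableSet_le measurable_const
    apply Finset.measurable_sum
    intro i _
    exact hg.comp (measurable_pi_apply i)
  rw [← lintegral_indicator_one hmeas]
  apply lintegral_mono
  intro x
  show Set.indicator {x : Fin l → Ω | (l : ℝ) * m ≤ ∑ i, g (x i)} 1 x ≤ ∏ i, f (x i)
  by_cases hx : x ∈ {x : Fin l → Ω | (l : ℝ) * m ≤ ∑ i, g (x i)}
  · rw [Set.indicator_of_mem hx]
    simp only [hf, Pi.one_apply]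
    rw [← ENNReal.ofReal_prod_of_nonneg (fun i _ => (Real.exp_pos _).le), ← Real.exp_sum]
    rw [← ENNReal.ofReal_one]
    apply ENNReal.ofReal_le_ofReal
    rw [← Real.exp_zero]
    apply Real.exp_le_exp.2
    rw [← Finset.mul_sum, Finset.sum_sub_distrib]
    simp only [Finset.sum_const, Finset.card_univ, Fintype.card_fin, nsmul_eq_mul]
    have hx' : (l : ℝ) * m ≤ ∑ i, g (x i) := hx
    apply mul_nonneg hs0.le
    linarith
  · rw [Set.indicator_of_notMem hx]
    exact bot_le

/-- Upper half of the weak law of large numbers, for nonnegative integrable functions. -/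
theorem wlln (π : Measure Ω) [IsProbabilityMeasure π] (g : Ω → ℝ) (hg : Measurable g)
    (hg0 : ∀ x, 0 ≤ g x) (hgi : Integrable g π) (m : ℝ) (hm : ∫ x, g x ∂π < m) :
    Tendsto (fun l : ℕ => Measure.pi (fun _ : Fin l => π) {x | (l : ℝ) * m ≤ ∑ i, g (x i)})
      atTop (𝓝 0) := by
  rw [ENNReal.tendsto_nhds_zero]
  intro ε hε
  set G := ∫ x, g x ∂π with hG
  set ρ := (m - G) / 2 with hρ
  have hρ0 : 0 < ρ := by rw [hρ]; linarith
  -- truncation
  have hlim : Tendsto (fun n : ℕ => ∫ x, (g x - min (g x) n) ∂π) atTop (𝓝 (∫ _, (0 : ℝ) ∂π)) := by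
    apply tendsto_integral_of_dominated_convergence g
    · intro n
      exact (hg.sub (hg.min measurable_const)).aestronglyMeasurable
    · exact hgi
    · intro n
      refine ae_of_all _ fun x => ?_
      rw [Real.norm_eq_abs, abs_of_nonneg (by linarith [min_le_left (g x) (n : ℝ)])]
      have : 0 ≤ min (g x) (n : ℝ) := le_min (hg0 x) (Nat.cast_nonneg n)
      linarith
    · refine ae_of_all _ fun x => ?_
      apply tendsto_const_nhds.congr'
      obtain ⟨N, hN⟩ := exists_nat_ge (g x)
      filter_upwards [eventually_ge_atTop N] with n hn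
      have : g x ≤ n := le_trans hN (by exact_mod_cast hn)
      rw [min_eq_left this, sub_self]
  rw [integral_zero] at hlim
  obtain ⟨ε', hε'0, hε'⟩ : ∃ ε' : ℝ, 0 < ε' ∧ ENNReal.ofReal ε' ≤ ε / 2 := by
    rcases eq_or_ne ε ∞ with h | h
    · exact ⟨1, one_pos, by rw [h, ENNReal.top_div_of_ne_top (by norm_num)]; exact le_top⟩
    · refine ⟨(ε / 2).toReal, ENNReal.toReal_pos ?_ ?_, ?_⟩
      · exact (ENNReal.div_pos hε.ne' (by norm_num)).ne'
      · exact ENNReal.div_ne_top h (by norm_num)
      · rw [ENNReal.ofReal_toReal (ENNReal.div_ne_top h (by norm_num))]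
  have hev := hlim.eventually (gt_mem_nhds (show (0 : ℝ) < ε' * ρ by positivity))
  obtain ⟨K, hK⟩ := hev.exists
  set g1 : Ω → ℝ := fun x => min (g x) K with hg1
  set g2 : Ω → ℝ := fun x => g x - min (g x) K with hg2
  have hg1m : Measurable g1 := hg.min measurable_const
  have hg2m : Measurable g2 := hg.sub (hg.min measurable_const)
  have hg20 : ∀ x, 0 ≤ g2 x := fun x => by
    simp only [hg2]
    linarith [min_le_left (g x) (K : ℝ)]
  have hg1b : ∀ x, |g1 x| ≤ K := by
    intro x
    simp only [hg1]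
    rw [abs_of_nonneg (le_min (hg0 x) (Nat.cast_nonneg K))]
    exact min_le_right _ _
  have hg1i : Integrable g1 π := by
    refine Integrable.of_bound hg1m.aestronglyMeasurable K (ae_of_all _ fun x => ?_)
    simpa using hg1b x
  have hg2i : Integrable g2 π := hgi.sub hg1i
  have h1 : ∫ x, g1 x ∂π < G + ρ := by
    have : ∫ x, g1 x ∂π ≤ G := integral_mono hg1i hgi (fun x => min_le_left _ _)
    linarith
  have hc := chernoff π g1 hg1m K hg1b (G + ρ) h1
  have hε2 : 0 < ε / 2 := ENNReal.div_pos hε.ne' (by norm_num)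
  rw [ENNReal.tendsto_nhds_zero] at hc
  filter_upwards [hc (ε / 2) hε2, eventually_gt_atTop 0] with l hl hl0
  have hl0' : (0 : ℝ) < l := by exact_mod_cast hl0
  have hsub : {x : Fin l → Ω | (l : ℝ) * m ≤ ∑ i, g (x i)} ⊆
      {x | (l : ℝ) * (G + ρ) ≤ ∑ i, g1 (x i)} ∪ {x | (l : ℝ) * ρ ≤ ∑ i, g2 (x i)} := by
    intro x hx
    by_contra hcon
    rw [Set.mem_union, not_or] at hcon
    obtain ⟨hc1, hc2⟩ := hcon
    have hc1' : ∑ i, g1 (x i) < l * (G + ρ) := not_le.1 hc1
    have hc2' : ∑ i, g2 (x i) < l * ρ := not_le.1 hc2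
    have hx' : (l : ℝ) * m ≤ ∑ i, g (x i) := hx
    have hsum : ∑ i, g (x i) = ∑ i, g1 (x i) + ∑ i, g2 (x i) := by
      rw [← Finset.sum_add_distrib]
      apply Finset.sum_congr rfl
      intro i _
      simp only [hg1, hg2]
      ring
    have hmm : m = G + ρ + ρ := by rw [hρ]; ring
    rw [hmm] at hx'
    nlinarith
  have hmarkov : Measure.pi (fun _ : Fin l => π) {x | (l : ℝ) * ρ ≤ ∑ i, g2 (x i)} ≤ ε / 2 := by
    refine le_trans ?_ hε'
    have hF : Measurable (fun x : Fin l → Ω => ∑ i, ENNReal.ofReal (g2 (x i))) := by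
      apply Finset.measurable_sum
      intro i _
      exact (hg2m.comp (measurable_pi_apply i)).ennreal_ofReal
    have hint : ∫⁻ x : Fin l → Ω, ∑ i, ENNReal.ofReal (g2 (x i)) ∂(Measure.pi fun _ => π)
        = l * ENNReal.ofReal (∫ x, g2 x ∂π) := by
      have hmi : ∀ i : Fin l, Measurable (fun x : Fin l → Ω => ENNReal.ofReal (g2 (x i))) :=
        fun i => (hg2m.comp (measurable_pi_apply i)).ennreal_ofReal
      rw [lintegral_finsetSum _ (fun i _ => hmi i)]
      have : ∀ i : Fin l, ∫⁻ x : Fin l → Ω, ENNReal.ofReal (g2 (x i)) ∂(Measure.pi fun _ => π)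
          = ENNReal.ofReal (∫ x, g2 x ∂π) := by
        intro i
        have h := (measurePreserving_eval (fun _ : Fin l => π) i).lintegral_comp
          (hg2m.ennreal_ofReal)
        rw [ofReal_integral_eq_lintegral_ofReal hg2i (ae_of_all _ hg20)]
        exact h
      rw [Finset.sum_congr rfl (fun i _ => this i)]
      simp
    have hsub2 : {x : Fin l → Ω | (l : ℝ) * ρ ≤ ∑ i, g2 (x i)} ⊆
        {x | ENNReal.ofReal (l * ρ) ≤ ∑ i, ENNReal.ofReal (g2 (x i))} := by
      intro x hx
      have hx' : (l : ℝ) * ρ ≤ ∑ i, g2 (x i) := hx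
      show ENNReal.ofReal (l * ρ) ≤ ∑ i, ENNReal.ofReal (g2 (x i))
      rw [← ENNReal.ofReal_sum_of_nonneg (fun i _ => hg20 _)]
      exact ENNReal.ofReal_le_ofReal hx'
    have hmk := mul_meas_ge_le_lintegral (μ := Measure.pi fun _ : Fin l => π) hF
      (ENNReal.ofReal (l * ρ))
    have hpos : ENNReal.ofReal ((l : ℝ) * ρ) ≠ 0 := by
      rw [Ne, ENNReal.ofReal_eq_zero, not_le]
      positivity
    have h5 : ENNReal.ofReal (l * ρ) *
        Measure.pi (fun _ : Fin l => π) {x | (l : ℝ) * ρ ≤ ∑ i, g2 (x i)}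
        ≤ ENNReal.ofReal (l * ρ) * ENNReal.ofReal ε' := by
      calc _ ≤ ENNReal.ofReal (l * ρ) * Measure.pi (fun _ : Fin l => π)
            {x | ENNReal.ofReal (l * ρ) ≤ ∑ i, ENNReal.ofReal (g2 (x i))} := by
              gcongr
        _ ≤ _ := hmk
        _ = l * ENNReal.ofReal (∫ x, g2 x ∂π) := hint
        _ ≤ l * ENNReal.ofReal (ε' * ρ) := by
              gcongr
        _ = ENNReal.ofReal (l * ρ) * ENNReal.ofReal ε' := by
              rw [← ENNReal.ofReal_natCast, ← ENNReal.ofReal_mul (by positivity),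
                ← ENNReal.ofReal_mul (by positivity)]
              congr 1
              ring
    exact (ENNReal.mul_le_mul_iff_right hpos ENNReal.ofReal_ne_top).1 h5
  calc _ ≤ Measure.pi (fun _ : Fin l => π) ({x | (l : ℝ) * (G + ρ) ≤ ∑ i, g1 (x i)} ∪
        {x | (l : ℝ) * ρ ≤ ∑ i, g2 (x i)}) := measure_mono hsub
    _ ≤ _ := measure_union_le _ _
    _ ≤ ε / 2 + ε / 2 := add_le_add hl hmarkov
    _ = ε := ENNReal.add_halves ε

end Pool.Agent.R130.Cov
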