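import Pool.Agent.R130.CovB

open MeasureTheory ENNReal Filter Topology

namespace Pool.Agent.R130.Cov

universe u

variable {Ω : Type u} [MeasurableSpace Ω]

/-- A dual feasible function. -/
structure Feas (π : Measure Ω) (I : Set (Set Ω)) (r : Ω → ℝ) : Prop where
  meas : Measurable r
  pos : ∀ x, 0 < r x
  bdd : ∃ K, ∀ x, |Real.log (r x)| ≤ K
  le : ∀ J ∈ I, ∫⁻ x in J, ENNReal.ofReal (r x) ∂π ≤ 1

theorem le_of_forall_sub {G : ℝ} {L : ℝ≥0∞} (h : ∀ ρ : ℝ, 0 < ρ → ENNReal.ofReal (G - ρ) ≤ L) :
    ENNReal.ofReal G ≤ L := by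
  apply ENNReal.le_of_forall_pos_le_add
  intro ε hε _
  calc ENNReal.ofReal G = ENNReal.ofReal ((G - ε) + ε) := by rw [sub_add_cancel]
    _ ≤ ENNReal.ofReal (G - ε) + ENNReal.ofReal ε := ENNReal.ofReal_add_le
    _ ≤ L + ε := by
      gcongr
      · exact h ε (by exact_mod_cast hε)
      · simp

theorem card_lower (π : Measure Ω) [IsProbabilityMeasure π] (I : Set (Set Ω))
    (hI : ∀ J ∈ I, MeasurableSet J) (r : Ω → ℝ) (hr : Feas π I r) (lam : ℝ) (h1 : lam < 1)
    (ρ : ℝ) (hρ : 0 < ρ) :
    ∀ᶠ l : ℕ in atTop,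
      ENNReal.ofReal ((1 - lam) / 2 * Real.exp (l * (∫ x, Real.log (r x) ∂π - ρ)))
        ≤ covN π I lam l := by
  obtain ⟨K, hK⟩ := hr.bdd
  set G := ∫ x, Real.log (r x) ∂π with hG
  have hlogm : Measurable (fun x => Real.log (r x)) := Real.measurable_log.comp hr.meas
  have hch := chernoff π (fun x => - Real.log (r x)) hlogm.neg K
    (by intro x; rw [abs_neg]; exact hK x) (-G + ρ) (by rw [integral_neg]; linarith)
  rw [ENNReal.tendsto_nhds_zero] at hch
  have hpos : (0 : ℝ) < (1 - lam) / 2 := by linarith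
  filter_upwards [hch (ENNReal.ofReal ((1 - lam) / 2)) (by rwa [gt_iff_lt, ENNReal.ofReal_pos])]
    with l hl
  unfold covN
  refine le_iInf₂ fun F hF => ?_
  obtain ⟨hFI, hFm⟩ := hF
  set P := Measure.pi (fun _ : Fin l => π) with hP
  set Tc : Set (Fin l → Ω) := {x | (l : ℝ) * (-G + ρ) ≤ ∑ i, - Real.log (r (x i))} with hTc
  set E : ℝ := Real.exp (l * (G - ρ)) with hE
  have hE0 : 0 < E := Real.exp_pos _
  have hbox : ∀ J ∈ F, ENNReal.ofReal E * P (box J \ Tc) ≤ 1 := by
    intro J hJ
    have hmeas : MeasurableSet (box J \ Tc) := by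
      apply (measurableSet_box J (fun i => hI _ (hFI J hJ i))).diff
      apply measurableSet_le measurable_const
      apply Finset.measurable_sum
      intro i _
      exact (hlogm.comp (measurable_pi_apply i)).neg
    calc ENNReal.ofReal E * P (box J \ Tc)
        = ∫⁻ x, (box J \ Tc).indicator (fun _ => ENNReal.ofReal E) x ∂P := by
          rw [lintegral_indicator_const hmeas]
      _ ≤ ∫⁻ x, ∏ i, (J i).indicator (fun y => ENNReal.ofReal (r y)) (x i) ∂P := by
          apply lintegral_mono
          intro x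
          show (box J \ Tc).indicator (fun _ => ENNReal.ofReal E) x ≤
            ∏ i, (J i).indicator (fun y => ENNReal.ofReal (r y)) (x i)
          by_cases hx : x ∈ box J \ Tc
          · rw [Set.indicator_of_mem hx]
            have h2 : ∀ i, (J i).indicator (fun y => ENNReal.ofReal (r y)) (x i)
                = ENNReal.ofReal (r (x i)) := fun i => Set.indicator_of_mem (hx.1 i) _
            rw [Finset.prod_congr rfl (fun i _ => h2 i),
              ← ENNReal.ofReal_prod_of_nonneg (fun i _ => (hr.pos _).le)]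
            apply ENNReal.ofReal_le_ofReal
            have h3 : ¬ ((l : ℝ) * (-G + ρ) ≤ ∑ i, - Real.log (r (x i))) := hx.2
            rw [Finset.sum_neg_distrib] at h3
            have h4 : ∏ i, r (x i) = Real.exp (∑ i, Real.log (r (x i))) := by
              rw [Real.exp_sum]
              exact Finset.prod_congr rfl (fun i _ => (Real.exp_log (hr.pos _)).symm)
            rw [h4, hE]
            apply Real.exp_le_exp.2
            nlinarith
          · rw [Set.indicator_of_notMem hx]
            exact bot_le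
      _ = ∏ i, ∫⁻ y, (J i).indicator (fun y => ENNReal.ofReal (r y)) y ∂π := by
          rw [hP]
          exact lintegral_fin_prod π l (fun i => (J i).indicator (fun y => ENNReal.ofReal (r y)))
            (fun i => hr.meas.ennreal_ofReal.indicator (hI _ (hFI J hJ i)))
      _ ≤ 1 := by
          apply Finset.prod_le_one'
          intro i _
          rw [lintegral_indicator (hI _ (hFI J hJ i))]
          exact hr.le _ (hFI J hJ i)
  have hsum : ENNReal.ofReal (1 - lam) ≤ ENNReal.ofReal ((1 - lam) / 2) +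
      ∑ J ∈ F, P (box J \ Tc) := by
    calc ENNReal.ofReal (1 - lam) ≤ P (⋃ J ∈ F, box J) := hFm
      _ ≤ P (Tc ∪ ⋃ J ∈ F, (box J \ Tc)) := by
          apply measure_mono
          intro x hx
          by_cases hxT : x ∈ Tc
          · exact Or.inl hxT
          · right
            simp only [Set.mem_iUnion] at hx ⊢
            obtain ⟨J, hJ, hx⟩ := hx
            exact ⟨J, hJ, hx, hxT⟩
      _ ≤ P Tc + P (⋃ J ∈ F, (box J \ Tc)) := measure_union_le _ _
      _ ≤ _ := by
          gcongr
          exact measure_biUnion_finset_le _ _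
  have hcard : ENNReal.ofReal ((1 - lam) / 2) ≤ ∑ J ∈ F, P (box J \ Tc) := by
    have h5 : ENNReal.ofReal (1 - lam) = ENNReal.ofReal ((1 - lam) / 2) +
        ENNReal.ofReal ((1 - lam) / 2) := by
      rw [← ENNReal.ofReal_add hpos.le hpos.le]
      congr 1
      ring
    rw [h5] at hsum
    exact (ENNReal.add_le_add_iff_left ENNReal.ofReal_ne_top).1 hsum
  calc ENNReal.ofReal ((1 - lam) / 2 * E)
      = ENNReal.ofReal E * ENNReal.ofReal ((1 - lam) / 2) := by
        rw [← ENNReal.ofReal_mul hE0.le, mul_comm]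
    _ ≤ ENNReal.ofReal E * ∑ J ∈ F, P (box J \ Tc) := by gcongr
    _ = ∑ J ∈ F, ENNReal.ofReal E * P (box J \ Tc) := by rw [Finset.mul_sum]
    _ ≤ ∑ J ∈ F, 1 := Finset.sum_le_sum hbox
    _ = F.card := by simp

/-- A dual feasible function bounds the exponential covering rate from below. -/
theorem lower_bound (π : Measure Ω) [IsProbabilityMeasure π] (I : Set (Set Ω))
    (hI : ∀ J ∈ I, MeasurableSet J) (r : Ω → ℝ) (hr : Feas π I r) (lam : ℝ) (h1 : lam < 1) :
    ENNReal.ofReal (∫ x, Real.log (r x) ∂π) ≤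
      liminf (fun l : ℕ => lg (covN π I lam l) / l) atTop := by
  set G := ∫ x, Real.log (r x) ∂π with hG
  apply le_of_forall_sub
  intro ρ hρ
  apply le_liminf_of_le
  · isBoundedDefault
  have hpos : (0 : ℝ) < (1 - lam) / 2 := by linarith
  obtain ⟨N, hN⟩ := exists_nat_ge (- Real.log ((1 - lam) / 2) / (ρ / 2))
  filter_upwards [card_lower π I hI r hr lam h1 (ρ / 2) (by positivity), eventually_ge_atTop N,
    eventually_gt_atTop 0] with l hl hlN hl0
  have hl0' : (0 : ℝ) < l := by exact_mod_cast hl0
  rw [ENNReal.le_div_iff_mul_le (by left; exact_mod_cast hl0.ne') (by left; simp)]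
  refine le_trans ?_ (lg_mono hl)
  rw [lg_ofReal (by positivity), Real.log_mul hpos.ne' (Real.exp_pos _).ne', Real.log_exp,
    ← ENNReal.ofReal_natCast, ← ENNReal.ofReal_mul' (by positivity)]
  apply ENNReal.ofReal_le_ofReal
  have h2 : - Real.log ((1 - lam) / 2) ≤ l * (ρ / 2) := by
    rw [div_le_iff₀ (by positivity)] at hN
    have : (N : ℝ) ≤ l := by exact_mod_cast hlN
    nlinarith
  rw [← hG]
  nlinarith

/-- Weak duality. -/
theorem weak_duality (π : Measure Ω) [IsProbabilityMeasure π] (I : Set (Set Ω))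
    (hI : ∀ J ∈ I, MeasurableSet J) (r : Ω → ℝ) (hr : Feas π I r) :
    ENNReal.ofReal (∫ x, Real.log (r x) ∂π) ≤ Hfull π I := by
  unfold Hfull
  refine le_iInf fun m => le_iInf fun β => le_iInf fun hβ => ?_
  obtain ⟨hβp, hβm⟩ := hβ
  obtain ⟨K, hK⟩ := hr.bdd
  set G := ∫ x, Real.log (r x) ∂π with hG
  set S : Set (I × Ω) := {p : I × Ω | p.2 ∈ (p.1 : Set Ω)} with hS
  have hlogm : Measurable (fun x => Real.log (r x)) := Real.measurable_log.comp hr.meas
  have hlogi : Integrable (fun x => Real.log (r x)) π := by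
    refine Integrable.of_bound hlogm.aestronglyMeasurable K (ae_of_all _ fun x => ?_)
    simpa using hK x
  obtain ⟨x0⟩ : Nonempty Ω := nonempty_of_isProbabilityMeasure π
  have hK0 : 0 ≤ K := le_trans (abs_nonneg _) (hK x0)
  -- the indicator is a.e. measurable
  have hind : AEMeasurable (S.indicator (fun _ => (1 : ℝ≥0∞))) (β.prod π) :=
    aemeasurable_const.indicator₀ hβm
  have hjoint : AEMeasurable (fun p : I × Ω => S.indicator (fun _ => (1 : ℝ≥0∞)) p *
      ENNReal.ofReal (r p.2)) (β.prod π) :=
    hind.mul (hr.meas.comp measurable_snd).ennreal_ofReal.aemeasurable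
  have hmixm : AEMeasurable (mix β) π := by
    have h2 : AEMeasurable (fun x => ∫⁻ J, S.indicator (fun _ => (1 : ℝ≥0∞)) (J, x) ∂β) π :=
      hind.lintegral_prod_left'
    exact h2
  -- Tonelli
  have hton : ∫⁻ x, mix β x * ENNReal.ofReal (r x) ∂π ≤ 1 := by
    calc ∫⁻ x, mix β x * ENNReal.ofReal (r x) ∂π
        = ∫⁻ x, ∫⁻ J, S.indicator (fun _ => (1 : ℝ≥0∞)) (J, x) * ENNReal.ofReal (r x) ∂β ∂π := by
          apply lintegral_congr
          intro x
          rw [lintegral_mul_const' _ _ ENNReal.ofReal_ne_top]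
          rfl
      _ = ∫⁻ J, ∫⁻ x, S.indicator (fun _ => (1 : ℝ≥0∞)) (J, x) * ENNReal.ofReal (r x) ∂π ∂β :=
          (lintegral_lintegral_swap hjoint).symm
      _ ≤ ∫⁻ J, 1 ∂β := by
          apply lintegral_mono
          intro J
          refine le_trans (le_of_eq ?_) (hr.le J J.2)
          rw [← lintegral_indicator (hI J J.2)]
          apply lintegral_congr
          intro x
          by_cases hx : x ∈ (J : Set Ω)
          · have hxS : (J, x) ∈ S := hx
            rw [Set.indicator_of_mem hx, Set.indicator_of_mem hxS, one_mul]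
          · have hxS : (J, x) ∉ S := hx
            rw [Set.indicator_of_notMem hx, Set.indicator_of_notMem hxS, zero_mul]
      _ = 1 := by simp
  have hmix1 : ∀ x, mix β x ≤ 1 := by
    intro x
    calc mix β x ≤ ∫⁻ _ : I, 1 ∂β := by
          apply lintegral_mono
          intro J
          exact Set.indicator_le_self' (fun _ _ => bot_le) x
      _ = 1 := by simp
  have hpt : ∀ x, ENNReal.ofReal (Real.log (r x) + 1 + K) ≤
      nl (mix β x) + (mix β x * ENNReal.ofReal (r x) + ENNReal.ofReal K) := by
    intro x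
    by_cases h0 : mix β x = 0
    · rw [h0, nl_zero, top_add]
      exact le_top
    · have ht : mix β x ≠ ∞ := (lt_of_le_of_lt (hmix1 x) ENNReal.one_lt_top).ne
      have hpos := ENNReal.toReal_pos h0 ht
      set y := (mix β x).toReal with hy
      rw [nl_eq_ofReal h0 (hmix1 x), ← hy]
      have h3 : mix β x = ENNReal.ofReal y := (ENNReal.ofReal_toReal ht).symm
      have hy1 : y ≤ 1 := by
        have := ENNReal.toReal_mono ENNReal.one_ne_top (hmix1 x)
        simpa using this
      have hly : 0 ≤ - Real.log y := by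
        have := Real.log_nonpos hpos.le hy1
        linarith
      rw [h3, ← ENNReal.ofReal_mul hpos.le,
        ← ENNReal.ofReal_add (mul_nonneg hpos.le (hr.pos x).le) hK0,
        ← ENNReal.ofReal_add hly (by have := mul_nonneg hpos.le (hr.pos x).le; linarith)]
      apply ENNReal.ofReal_le_ofReal
      have h4 := Real.log_le_sub_one_of_pos (mul_pos hpos (hr.pos x))
      rw [Real.log_mul hpos.ne' (hr.pos x).ne'] at h4
      linarith
  have hint : ∫⁻ x, ENNReal.ofReal (Real.log (r x) + 1 + K) ∂π
      = ENNReal.ofReal (G + 1 + K) := by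
    rw [← ofReal_integral_eq_lintegral_ofReal]
    · congr 1
      rw [integral_add (f := fun x => Real.log (r x) + 1) (g := fun _ => K)
        (hlogi.add (integrable_const _)) (integrable_const _),
        integral_add (f := fun x => Real.log (r x)) (g := fun _ => (1 : ℝ)) hlogi
        (integrable_const _)]
      simp [hG]
    · exact (hlogi.add (integrable_const _)).add (integrable_const _)
    · refine ae_of_all _ fun x => ?_
      have := (abs_le.1 (hK x)).1
      show (0 : ℝ) ≤ Real.log (r x) + 1 + K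
      linarith
  have hfin : ENNReal.ofReal (G + 1 + K) ≤ phi π (mix β) + (1 + ENNReal.ofReal K) := by
    calc ENNReal.ofReal (G + 1 + K)
        = ∫⁻ x, ENNReal.ofReal (Real.log (r x) + 1 + K) ∂π := hint.symm
      _ ≤ ∫⁻ x, (nl (mix β x) + (mix β x * ENNReal.ofReal (r x) + ENNReal.ofReal K)) ∂π :=
          lintegral_mono hpt
      _ = ∫⁻ x, nl (mix β x) ∂π +
          ∫⁻ x, (mix β x * ENNReal.ofReal (r x) + ENNReal.ofReal K) ∂π := by
          apply lintegral_add_left'
          exact measurable_nl.comp_aemeasurable hmixm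
      _ = ∫⁻ x, nl (mix β x) ∂π + (∫⁻ x, mix β x * ENNReal.ofReal (r x) ∂π +
          ENNReal.ofReal K) := by
          rw [lintegral_add_right _ measurable_const]
          simp
      _ ≤ _ := by
          unfold phi
          gcongr
  rcases le_or_gt 0 G with hG0 | hG0
  · have hne : (1 + ENNReal.ofReal K) ≠ ∞ := by simp
    apply (ENNReal.add_le_add_iff_right hne).1
    refine le_trans ?_ hfin
    rw [← ENNReal.ofReal_one, ← ENNReal.ofReal_add zero_le_one hK0,
      ← ENNReal.ofReal_add hG0 (by linarith)]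
    apply ENNReal.ofReal_le_ofReal
    linarith
  · rw [ENNReal.ofReal_of_nonpos hG0.le]
    exact bot_le

end Pool.Agent.R130.Cov
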