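import Pool.Agent.R130.CovC

open MeasureTheory ENNReal Filter Topology

namespace Pool.Agent.R130.Cov

universe u

variable {Ω : Type u} [MeasurableSpace Ω]

omit [MeasurableSpace Ω] in
theorem IsCnt.le_one {I : Set (Set Ω)} {a : Ω → ℝ≥0∞} (ha : IsCnt I a) (x : Ω) : a x ≤ 1 := by
  obtain ⟨q, J, hq, _, hx⟩ := ha
  rw [hx, ← hq]
  exact ENNReal.tsum_le_tsum fun k => Set.indicator_le_self' (fun _ _ => bot_le) x

theorem IsCnt.meas {I : Set (Set Ω)} (hI : ∀ J ∈ I, MeasurableSet J) {a : Ω → ℝ≥0∞}
    (ha : IsCnt I a) : Measurable a := by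
  obtain ⟨q, J, _, hJ, hx⟩ := ha
  rw [show a = fun x => ∑' k, (J k).indicator (fun _ => q k) x from funext hx]
  exact Measurable.tsum fun k => measurable_const.indicator (hI _ (hJ k))

/-- One greedy step. -/
theorem greedy_step (π : Measure Ω) [IsProbabilityMeasure π] (J : ℕ → Set Ω)
    (hJ : ∀ k, MeasurableSet (J k)) (q : ℕ → ℝ≥0∞) (hq : ∑' k, q k = 1) (a : Ω → ℝ≥0∞)
    (ha : ∀ x, a x = ∑' k, (J k).indicator (fun _ => q k) x) (l : ℕ) (U : Set (Fin l → Ω))
    (hU : MeasurableSet U) (τ : ℝ≥0∞) (hτ : ∀ x ∈ U, τ ≤ ∏ i, a (x i)) :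
    ∃ k : Fin l → ℕ, τ * Measure.pi (fun _ : Fin l => π) U ≤
      Measure.pi (fun _ : Fin l => π) (U ∩ box (fun i => J (k i))) := by
  set P := Measure.pi (fun _ : Fin l => π) with hP
  set β : Measure ℕ := Measure.sum (fun k => q k • Measure.dirac k) with hβ
  have hβint : ∀ f : ℕ → ℝ≥0∞, ∫⁻ n, f n ∂β = ∑' k, q k * f k := by
    intro f
    rw [hβ, lintegral_sum_measure]
    congr 1
    ext k
    rw [lintegral_smul_measure, lintegral_dirac, smul_eq_mul]
  have : IsProbabilityMeasure β := ⟨by
    have := hβint (fun _ => 1)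
    simpa [hq] using this⟩
  set B := Measure.pi (fun _ : Fin l => β) with hB
  have hae : ∀ x, ∫⁻ n, (J n).indicator (fun _ => (1 : ℝ≥0∞)) x ∂β = a x := by
    intro x
    rw [hβint, ha]
    congr 1
    ext k
    by_cases hx : x ∈ J k
    · rw [Set.indicator_of_mem hx, Set.indicator_of_mem hx, mul_one]
    · rw [Set.indicator_of_notMem hx, Set.indicator_of_notMem hx, mul_zero]
  set F : (Fin l → ℕ) → (Fin l → Ω) → ℝ≥0∞ := fun k x =>
    U.indicator (fun _ => (1 : ℝ≥0∞)) x * ∏ i, (J (k i)).indicator (fun _ => (1 : ℝ≥0∞)) (x i)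
    with hF
  have hFk : ∀ k, Measurable (F k) := by
    intro k
    apply (measurable_const.indicator hU).mul
    apply Finset.measurable_prod
    intro i _
    exact (measurable_const.indicator (hJ (k i))).comp (measurable_pi_apply i)
  have hFind : ∀ k x, F k x = (U ∩ box (fun i => J (k i))).indicator (fun _ => (1 : ℝ≥0∞)) x := by
    intro k x
    simp only [hF]
    by_cases hxU : x ∈ U
    · rw [Set.indicator_of_mem hxU, one_mul]
      by_cases hxb : x ∈ box (fun i => J (k i))
      · rw [Set.indicator_of_mem (Set.mem_inter hxU hxb)]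
        apply Finset.prod_eq_one
        intro i _
        exact Set.indicator_of_mem (hxb i) _
      · rw [Set.indicator_of_notMem (fun h => hxb h.2)]
        have : ∃ i, x i ∉ J (k i) := by
          by_contra hcon
          push Not at hcon
          exact hxb hcon
        obtain ⟨i, hi⟩ := this
        exact Finset.prod_eq_zero (Finset.mem_univ i) (Set.indicator_of_notMem hi _)
    · rw [Set.indicator_of_notMem hxU, Set.indicator_of_notMem (fun h => hxU h.1), zero_mul]
  have hFP : ∀ k, ∫⁻ x, F k x ∂P = P (U ∩ box (fun i => J (k i))) := by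
    intro k
    rw [lintegral_congr (hFind k), lintegral_indicator_const
      (hU.inter (measurableSet_box _ (fun i => hJ _))), one_mul]
  have hswap : ∫⁻ k, ∫⁻ x, F k x ∂P ∂B = ∫⁻ x, ∫⁻ k, F k x ∂B ∂P := by
    apply lintegral_lintegral_swap
    apply Measurable.aemeasurable
    exact measurable_from_prod_countable_right (fun k => hFk k)
  have hin : ∀ x, ∫⁻ k, F k x ∂B = U.indicator (fun _ => (1 : ℝ≥0∞)) x * ∏ i, a (x i) := by
    intro x
    simp only [hF]
    rw [lintegral_const_mul']
    · congr 1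
      rw [hB]
      have := lintegral_fin_prod β l
        (fun i n => (J n).indicator (fun _ => (1 : ℝ≥0∞)) (x i)) (fun i => measurable_of_countable _)
      rw [this]
      exact Finset.prod_congr rfl (fun i _ => hae (x i))
    · by_cases hx : x ∈ U
      · rw [Set.indicator_of_mem hx]; exact ENNReal.one_ne_top
      · rw [Set.indicator_of_notMem hx]; exact ENNReal.zero_ne_top
  have hmain : τ * P U ≤ ∫⁻ k, ∫⁻ x, F k x ∂P ∂B := by
    rw [hswap, ← lintegral_indicator_const hU]
    apply lintegral_mono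
    intro x
    show U.indicator (fun _ => τ) x ≤ ∫⁻ k, F k x ∂B
    rw [hin]
    by_cases hx : x ∈ U
    · rw [Set.indicator_of_mem hx, Set.indicator_of_mem hx, one_mul]
      exact hτ x hx
    · rw [Set.indicator_of_notMem hx]
      exact bot_le
  have hfin : ∫⁻ k, ∫⁻ x, F k x ∂P ∂B ≠ ∞ := by
    have : ∫⁻ k, ∫⁻ x, F k x ∂P ∂B ≤ ∫⁻ _, 1 ∂B := by
      apply lintegral_mono
      intro k
      show ∫⁻ x, F k x ∂P ≤ 1
      rw [hFP]
      exact prob_le_one
    refine ne_top_of_le_ne_top ?_ this
    simp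
  obtain ⟨k, hk⟩ := exists_lintegral_le hfin
  refine ⟨k, hmain.trans (hk.trans (le_of_eq (hFP k)))⟩

/-- Greedy covering by boxes. -/
theorem greedy_iter (π : Measure Ω) [IsProbabilityMeasure π] (I : Set (Set Ω))
    (hI : ∀ J ∈ I, MeasurableSet J) (a : Ω → ℝ≥0∞) (ha : IsCnt I a) (l : ℕ)
    (T : Set (Fin l → Ω)) (hT : MeasurableSet T) (τ : ℝ≥0∞) (hτ1 : τ ≤ 1)
    (hτ : ∀ x ∈ T, τ ≤ ∏ i, a (x i)) (n : ℕ) :
    ∃ F : Finset (Fin l → Set Ω), F.card ≤ n ∧ (∀ J ∈ F, ∀ i, J i ∈ I) ∧
      Measure.pi (fun _ : Fin l => π) (T \ ⋃ J ∈ F, box J) ≤ (1 - τ) ^ n := by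
  classical
  obtain ⟨q, J, hq, hJ, hx⟩ := ha
  induction n with
  | zero =>
    refine ⟨∅, by simp, by simp, ?_⟩
    simp only [pow_zero]
    exact prob_le_one
  | succ n ih =>
    obtain ⟨F, hFc, hFI, hFm⟩ := ih
    set U := T \ ⋃ J ∈ F, box J with hUdef
    have hU : MeasurableSet U := by
      apply hT.diff
      apply Finset.measurableSet_biUnion
      intro J' hJ'
      exact measurableSet_box J' (fun i => hI _ (hFI J' hJ' i))
    obtain ⟨k, hk⟩ := greedy_step π J (fun k => hI _ (hJ k)) q hq a hx l U hU τ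
      (fun x hxU => hτ x hxU.1)
    set b : Fin l → Set Ω := fun i => J (k i) with hb
    have hbm : MeasurableSet (box b) := measurableSet_box b (fun i => hI _ (hJ _))
    refine ⟨insert b F, ?_, ?_, ?_⟩
    · exact (Finset.card_insert_le _ _).trans (by omega)
    · intro J' hJ'
      rcases Finset.mem_insert.1 hJ' with h | h
      · rw [h]; intro i; exact hJ _
      · exact hFI J' h
    · have h1 : T \ ⋃ J ∈ insert b F, box J = U \ box b := by
        rw [Finset.set_biUnion_insert, hUdef, Set.sdiff_sdiff, Set.union_comm]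
      rw [h1]
      have h2 := measure_inter_add_sdiff (μ := Measure.pi (fun _ : Fin l => π)) U hbm
      have h3 : (1 - τ) * Measure.pi (fun _ : Fin l => π) U + τ *
          Measure.pi (fun _ : Fin l => π) U = Measure.pi (fun _ : Fin l => π) U := by
        rw [← add_mul, tsub_add_cancel_of_le hτ1, one_mul]
      have hfin : Measure.pi (fun _ : Fin l => π) (U ∩ box b) ≠ ∞ := measure_ne_top _ _
      have h4 : Measure.pi (fun _ : Fin l => π) (U \ box b) ≤
          (1 - τ) * Measure.pi (fun _ : Fin l => π) U := by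
        apply (ENNReal.add_le_add_iff_left hfin).1
        rw [h2]
        calc Measure.pi (fun _ : Fin l => π) U
            = (1 - τ) * Measure.pi (fun _ : Fin l => π) U + τ *
              Measure.pi (fun _ : Fin l => π) U := h3.symm
          _ ≤ (1 - τ) * Measure.pi (fun _ : Fin l => π) U +
              Measure.pi (fun _ : Fin l => π) (U ∩ box b) := by gcongr
          _ = _ := add_comm _ _
      calc _ ≤ (1 - τ) * Measure.pi (fun _ : Fin l => π) U := h4
        _ ≤ (1 - τ) * (1 - τ) ^ n := by gcongr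
        _ = (1 - τ) ^ (n + 1) := by rw [pow_succ, mul_comm]

theorem card_upper (π : Measure Ω) [IsProbabilityMeasure π] (I : Set (Set Ω))
    (hI : ∀ J ∈ I, MeasurableSet J) (a : Ω → ℝ≥0∞) (ha : IsCnt I a) (hphi : phi π a ≠ ∞)
    (lam : ℝ) (h0 : 0 < lam) (h1 : lam < 1) (ρ : ℝ) (hρ : 0 < ρ) :
    ∀ᶠ l : ℕ in atTop, covN π I lam l ≤
      ENNReal.ofReal ((Real.log (2 / lam) + 1) * Real.exp (l * ((phi π a).toReal + ρ))) := by
  have ham : Measurable a := ha.meas hI
  have ha1 : ∀ x, a x ≤ 1 := ha.le_one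
  set φ := (phi π a).toReal with hφ
  have hφ0 : 0 ≤ φ := ENNReal.toReal_nonneg
  set g : Ω → ℝ := fun x => (nl (a x)).toReal with hg
  have hgm : Measurable g := (measurable_nl.comp ham).ennreal_toReal
  have hnlm : Measurable (fun x => nl (a x)) := measurable_nl.comp ham
  have hnlf : ∫⁻ x, nl (a x) ∂π ≠ ∞ := hphi
  have hgi : Integrable g π := integrable_toReal_of_lintegral_ne_top hnlm.aemeasurable hnlf
  have haetop : ∀ᵐ x ∂π, nl (a x) < ∞ := ae_lt_top hnlm hnlf
  have hgint : ∫ x, g x ∂π = φ := by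
    rw [hg, integral_toReal hnlm.aemeasurable haetop]
    rfl
  have hw := wlln π g hgm (fun x => ENNReal.toReal_nonneg) hgi (φ + ρ) (by rw [hgint]; linarith)
  rw [ENNReal.tendsto_nhds_zero] at hw
  filter_upwards [hw (ENNReal.ofReal (lam / 2)) (by rw [gt_iff_lt, ENNReal.ofReal_pos]; linarith)]
    with l hl
  set P := Measure.pi (fun _ : Fin l => π) with hP
  set E : ℝ := Real.exp (l * (φ + ρ)) with hE
  have hE0 : 0 < E := Real.exp_pos _
  have hE1 : 1 ≤ E := by
    rw [hE]
    apply Real.one_le_exp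
    positivity
  set T : Set (Fin l → Ω) := {x | ∑ i, g (x i) < l * (φ + ρ)} ∩ {x | ∀ i, a (x i) ≠ 0} with hT
  have hTm : MeasurableSet T := by
    apply MeasurableSet.inter
    · apply measurableSet_lt _ measurable_const
      apply Finset.measurable_sum
      intro i _
      exact hgm.comp (measurable_pi_apply i)
    · have : {x : Fin l → Ω | ∀ i, a (x i) ≠ 0} = ⋂ i, {x | a (x i) ≠ 0} := by
        ext x; simp
      rw [this]
      apply MeasurableSet.iInter
      intro i
      exact (measurableSet_eq_fun (ham.comp (measurable_pi_apply i)) measurable_const).compl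
  have hTc : P Tᶜ ≤ ENNReal.ofReal (lam / 2) := by
    refine le_trans ?_ hl
    apply measure_mono_ae
    have hall : ∀ᵐ x ∂P, ∀ i, a (x i) ≠ 0 := by
      rw [ae_all_iff]
      intro i
      have h2 : ∀ᵐ y ∂π, a y ≠ 0 := by
        filter_upwards [haetop] with y hy
        exact nl_ne_top hy.ne
      exact (measurePreserving_eval (fun _ : Fin l => π) i).quasiMeasurePreserving.ae h2
    filter_upwards [hall] with x hx
    intro hxT
    show (l : ℝ) * (φ + ρ) ≤ ∑ i, g (x i)
    by_contra hcon
    exact hxT ⟨not_le.1 hcon, hx⟩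
  have hτT : ∀ x ∈ T, ENNReal.ofReal (1 / E) ≤ ∏ i, a (x i) := by
    intro x hx
    have h2 : ∀ i, a (x i) = ENNReal.ofReal (Real.exp (- g (x i))) := by
      intro i
      have hne := hx.2 i
      have ht : a (x i) ≠ ∞ := (lt_of_le_of_lt (ha1 _) ENNReal.one_lt_top).ne
      have hpos := ENNReal.toReal_pos hne ht
      have hle : (a (x i)).toReal ≤ 1 := by
        have := ENNReal.toReal_mono ENNReal.one_ne_top (ha1 (x i))
        simpa using this
      have h3 : g (x i) = - Real.log (a (x i)).toReal := by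
        simp only [hg]
        rw [nl_eq_ofReal hne (ha1 _), ENNReal.toReal_ofReal]
        have := Real.log_nonpos hpos.le hle
        linarith
      rw [h3, neg_neg, Real.exp_log hpos, ENNReal.ofReal_toReal ht]
    rw [Finset.prod_congr rfl (fun i _ => h2 i),
      ← ENNReal.ofReal_prod_of_nonneg (fun i _ => (Real.exp_pos _).le), ← Real.exp_sum]
    apply ENNReal.ofReal_le_ofReal
    rw [hE, one_div, ← Real.exp_neg]
    apply Real.exp_le_exp.2
    rw [Finset.sum_neg_distrib]
    have := hx.1
    simp only [Set.mem_ofPred_eq] at this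
    linarith
  have hL : 0 ≤ Real.log (2 / lam) := by
    apply Real.log_nonneg
    rw [le_div_iff₀ h0]
    linarith
  set n := ⌈E * Real.log (2 / lam)⌉₊ with hn
  obtain ⟨F, hFc, hFI, hFm⟩ := greedy_iter π I hI a ha l T hTm (ENNReal.ofReal (1 / E))
    (by
      rw [← ENNReal.ofReal_one]
      apply ENNReal.ofReal_le_ofReal
      rw [div_le_one hE0]
      exact hE1) hτT n
  have hpow : (1 - ENNReal.ofReal (1 / E)) ^ n ≤ ENNReal.ofReal (lam / 2) := by
    have hEle : 1 / E ≤ 1 := by rw [div_le_one hE0]; exact hE1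
    rw [← ENNReal.ofReal_one, ← ENNReal.ofReal_sub _ (by positivity),
      ← ENNReal.ofReal_pow (by linarith)]
    apply ENNReal.ofReal_le_ofReal
    have h2 : 1 - 1 / E ≤ Real.exp (-(1 / E)) := by
      have := Real.add_one_le_exp (-(1 / E))
      linarith
    calc (1 - 1 / E) ^ n ≤ (Real.exp (-(1 / E))) ^ n := pow_le_pow_left₀ (by linarith) h2 n
      _ = Real.exp (-(n / E)) := by
          rw [← Real.exp_nat_mul]
          congr 1
          ring
      _ ≤ Real.exp (- Real.log (2 / lam)) := by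
          apply Real.exp_le_exp.2
          apply neg_le_neg
          rw [le_div_iff₀ hE0, mul_comm]
          exact Nat.le_ceil _
      _ = lam / 2 := by
          rw [Real.exp_neg, Real.exp_log (by positivity), inv_div]
  have hcov : ENNReal.ofReal (1 - lam) ≤ P (⋃ J ∈ F, box J) := by
    have h2 : (1 : ℝ≥0∞) ≤ P Tᶜ + (P (T \ ⋃ J ∈ F, box J) + P (⋃ J ∈ F, box J)) := by
      calc (1 : ℝ≥0∞) = P Set.univ := by rw [hP, measure_univ]
        _ ≤ P (Tᶜ ∪ ((T \ ⋃ J ∈ F, box J) ∪ ⋃ J ∈ F, box J)) := by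
            apply measure_mono
            intro x _
            by_cases hxT : x ∈ T
            · by_cases hxF : x ∈ ⋃ J ∈ F, box J
              · exact Or.inr (Or.inr hxF)
              · exact Or.inr (Or.inl ⟨hxT, hxF⟩)
            · exact Or.inl hxT
        _ ≤ _ := (measure_union_le _ _).trans (by gcongr; exact measure_union_le _ _)
    have h3 : (1 : ℝ≥0∞) = ENNReal.ofReal lam + ENNReal.ofReal (1 - lam) := by
      rw [← ENNReal.ofReal_add h0.le (by linarith)]
      simp
    have h4 : ENNReal.ofReal lam = ENNReal.ofReal (lam / 2) + ENNReal.ofReal (lam / 2) := by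
      rw [← ENNReal.ofReal_add (by positivity) (by positivity)]
      congr 1
      ring
    have h5 : ENNReal.ofReal lam + ENNReal.ofReal (1 - lam) ≤
        ENNReal.ofReal lam + P (⋃ J ∈ F, box J) := by
      rw [← h3]
      refine h2.trans ?_
      rw [h4, add_assoc]
      gcongr
      exact hFm.trans hpow
    exact (ENNReal.add_le_add_iff_left ENNReal.ofReal_ne_top).1 h5
  calc covN π I lam l ≤ F.card := iInf₂_le F ⟨hFI, hcov⟩
    _ ≤ n := by exact_mod_cast hFc
    _ ≤ _ := by
        rw [← ENNReal.ofReal_natCast]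
        apply ENNReal.ofReal_le_ofReal
        have := (Nat.ceil_lt_add_one (show 0 ≤ E * Real.log (2 / lam) by positivity)).le
        nlinarith

/-- Every countable convex combination bounds the exponential covering rate from above. -/
theorem upper_bound (π : Measure Ω) [IsProbabilityMeasure π] (I : Set (Set Ω))
    (hI : ∀ J ∈ I, MeasurableSet J) (a : Ω → ℝ≥0∞) (ha : IsCnt I a)
    (lam : ℝ) (h0 : 0 < lam) (h1 : lam < 1) :
    limsup (fun l : ℕ => lg (covN π I lam l) / l) atTop ≤ phi π a := by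
  rcases eq_or_ne (phi π a) ∞ with hphi | hphi
  · rw [hphi]
    exact le_top
  apply ENNReal.le_of_forall_pos_le_add
  intro ε hε _
  have hε' : (0 : ℝ) < ε := by exact_mod_cast hε
  set φ := (phi π a).toReal with hφ
  have hφ0 : 0 ≤ φ := ENNReal.toReal_nonneg
  have hrhs : phi π a + ε = ENNReal.ofReal (φ + ε) := by
    rw [ENNReal.ofReal_add hφ0 hε'.le, hφ, ENNReal.ofReal_toReal hphi]
    simp
  rw [hrhs]
  apply limsup_le_of_le
  · isBoundedDefault
  have hL : 0 ≤ Real.log (2 / lam) := by
    apply Real.log_nonneg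
    rw [le_div_iff₀ h0]
    linarith
  obtain ⟨N, hN⟩ := exists_nat_ge (Real.log (Real.log (2 / lam) + 1) / (ε / 2))
  filter_upwards [card_upper π I hI a ha hphi lam h0 h1 (ε / 2) (by positivity),
    eventually_ge_atTop N, eventually_gt_atTop 0] with l hl hlN hl0
  have hl0' : (0 : ℝ) < l := by exact_mod_cast hl0
  rw [ENNReal.div_le_iff_le_mul (by left; exact_mod_cast hl0.ne') (by left; simp)]
  refine (lg_mono hl).trans ?_
  rw [lg_ofReal (by positivity), Real.log_mul (by positivity) (Real.exp_pos _).ne', Real.log_exp,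
    ← ENNReal.ofReal_natCast, ← ENNReal.ofReal_mul' (by positivity)]
  apply ENNReal.ofReal_le_ofReal
  have h2 : Real.log (Real.log (2 / lam) + 1) ≤ l * (ε / 2) := by
    rw [div_le_iff₀ (by positivity)] at hN
    have : (N : ℝ) ≤ l := by exact_mod_cast hlN
    nlinarith
  rw [← hφ]
  nlinarith

end Pool.Agent.R130.Cov
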