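import Pool.Agent.R130.CovD

open MeasureTheory ENNReal Filter Topology

namespace Pool.Agent.R130.Cov

universe u

variable {Ω : Type u} [MeasurableSpace Ω]

omit [MeasurableSpace Ω] in
/-- Countable mixtures of countable convex combinations. -/
theorem IsCnt.mixture {ι : Type} [Countable ι] {I : Set (Set Ω)} (a : ι → Ω → ℝ≥0∞)
    (ha : ∀ i, IsCnt I (a i)) (w : ι → ℝ≥0∞) (hw : ∑' i, w i = 1) :
    IsCnt I (fun x => ∑' i, w i * a i x) := by
  classical
  choose q J hq hJ hx using ha
  obtain ⟨i0⟩ : Nonempty ι := by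
    by_contra hcon
    rw [not_nonempty_iff] at hcon
    rw [tsum_empty] at hw
    exact zero_ne_one hw
  obtain ⟨e, he⟩ := Countable.exists_injective_nat (ι × ℕ)
  refine ⟨Function.extend e (fun p => w p.1 * q p.1 p.2) 0,
    Function.extend e (fun p => J p.1 p.2) (fun _ => J i0 0), ?_, ?_, ?_⟩
  · rw [tsum_extend_zero he, ENNReal.tsum_prod (f := fun i k => w i * q i k), ← hw]
    congr 1
    ext i
    rw [ENNReal.tsum_mul_left, hq, mul_one]
  · intro n
    by_cases h : ∃ p, e p = n
    · obtain ⟨p, rfl⟩ := h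
      rw [he.extend_apply]
      exact hJ _ _
    · rw [Function.extend_apply' _ _ _ h]
      exact hJ _ _
  · intro x
    have h1 : ∀ n, (Function.extend e (fun p => J p.1 p.2) (fun _ => J i0 0) n).indicator
        (fun _ => Function.extend e (fun p => w p.1 * q p.1 p.2) 0 n) x =
        Function.extend e (fun p => (J p.1 p.2).indicator (fun _ => w p.1 * q p.1 p.2) x) 0 n := by
      intro n
      by_cases h : ∃ p, e p = n
      · obtain ⟨p, rfl⟩ := h
        rw [he.extend_apply, he.extend_apply, he.extend_apply]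
      · rw [Function.extend_apply' _ _ _ h, Function.extend_apply' _ _ _ h,
          Function.extend_apply' _ _ _ h]
        simp
    simp_rw [h1]
    rw [tsum_extend_zero he, ENNReal.tsum_prod
      (f := fun i k => (J i k).indicator (fun _ => w i * q i k) x)]
    congr 1
    ext i
    rw [hx, ← ENNReal.tsum_mul_left]
    congr 1
    ext k
    by_cases hk : x ∈ J i k
    · rw [Set.indicator_of_mem hk, Set.indicator_of_mem hk]
    · rw [Set.indicator_of_notMem hk, Set.indicator_of_notMem hk, mul_zero]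

omit [MeasurableSpace Ω] in
theorem IsCnt.single {I : Set (Set Ω)} {J : Set Ω} (hJ : J ∈ I) :
    IsCnt I (J.indicator (fun _ => 1)) := by
  refine ⟨Pi.single 0 1, fun _ => J, ?_, fun _ => hJ, ?_⟩
  · exact tsum_pi_single 0 1
  · intro x
    by_cases hx : x ∈ J
    · simp only [Set.indicator_of_mem hx]
      exact (tsum_pi_single (0 : ℕ) (1 : ℝ≥0∞)).symm
    · simp [Set.indicator_of_notMem hx]

omit [MeasurableSpace Ω] in
theorem IsCnt.convex {I : Set (Set Ω)} {a b : Ω → ℝ≥0∞} (ha : IsCnt I a) (hb : IsCnt I b)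
    {t : ℝ} (h0 : 0 ≤ t) (h1 : t ≤ 1) :
    IsCnt I (fun x => ENNReal.ofReal (1 - t) * a x + ENNReal.ofReal t * b x) := by
  have h := IsCnt.mixture (ι := Bool) (I := I) (fun i => if i then b else a)
    (by intro i; cases i <;> simpa) (fun i => if i then ENNReal.ofReal t else ENNReal.ofReal (1 - t))
    (by
      rw [tsum_fintype, Fintype.sum_bool]
      simp only [if_true, Bool.false_eq_true, if_false]
      rw [← ENNReal.ofReal_add h0 (by linarith)]
      simp)
  convert h using 1
  ext x
  rw [tsum_fintype, Fintype.sum_bool]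
  simp [add_comm]

/-- `(1 - ε) a + ε` as a real function. -/
noncomputable def cc (ε : ℝ) (a : Ω → ℝ≥0∞) (x : Ω) : ℝ := (1 - ε) * (a x).toReal + ε

/-- The regularised cost. -/
noncomputable def cost (π : Measure Ω) (ε : ℝ) (a : Ω → ℝ≥0∞) : ℝ :=
  ∫ x, - Real.log (cc ε a x) ∂π

/-- The regularised infimum. -/
noncomputable def mm (π : Measure Ω) (I : Set (Set Ω)) (ε : ℝ) : ℝ :=
  ⨅ a : {a : Ω → ℝ≥0∞ // IsCnt I a}, cost π ε a.1

omit [MeasurableSpace Ω] in
theorem IsCnt.toReal_mem {I : Set (Set Ω)} {a : Ω → ℝ≥0∞} (ha : IsCnt I a) (x : Ω) :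
    0 ≤ (a x).toReal ∧ (a x).toReal ≤ 1 := by
  refine ⟨ENNReal.toReal_nonneg, ?_⟩
  have := ENNReal.toReal_mono ENNReal.one_ne_top (ha.le_one x)
  simpa using this

omit [MeasurableSpace Ω] in
theorem cc_ge {I : Set (Set Ω)} {a : Ω → ℝ≥0∞} (ha : IsCnt I a) {ε : ℝ} (h1 : ε ≤ 1)
    (x : Ω) : ε ≤ cc ε a x := by
  have := (ha.toReal_mem x).1
  unfold cc
  nlinarith

omit [MeasurableSpace Ω] in
theorem cc_le {I : Set (Set Ω)} {a : Ω → ℝ≥0∞} (ha : IsCnt I a) {ε : ℝ} (h1 : ε ≤ 1)
    (x : Ω) : cc ε a x ≤ 1 := by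
  have := (ha.toReal_mem x).2
  unfold cc
  nlinarith

theorem cc_meas {I : Set (Set Ω)} (hI : ∀ J ∈ I, MeasurableSet J) {a : Ω → ℝ≥0∞}
    (ha : IsCnt I a) (ε : ℝ) : Measurable (cc ε a) := by
  unfold cc
  exact ((ha.meas hI).ennreal_toReal.const_mul _).add_const _

omit [MeasurableSpace Ω] in
theorem logcc_bound {I : Set (Set Ω)} {a : Ω → ℝ≥0∞} (ha : IsCnt I a) {ε : ℝ} (h0 : 0 < ε)
    (h1 : ε ≤ 1) (x : Ω) : Real.log ε ≤ Real.log (cc ε a x) ∧ Real.log (cc ε a x) ≤ 0 := by
  constructor
  · exact Real.log_le_log h0 (cc_ge ha h1 x)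
  · exact Real.log_nonpos (le_trans h0.le (cc_ge ha h1 x)) (cc_le ha h1 x)

theorem logcc_integrable (π : Measure Ω) [IsProbabilityMeasure π] {I : Set (Set Ω)}
    (hI : ∀ J ∈ I, MeasurableSet J) {a : Ω → ℝ≥0∞}
    (ha : IsCnt I a) {ε : ℝ} (h0 : 0 < ε) (h1 : ε ≤ 1) :
    Integrable (fun x => Real.log (cc ε a x)) π := by
  refine Integrable.of_bound (C := - Real.log ε)
    (Real.measurable_log.comp (cc_meas hI ha ε)).aestronglyMeasurable (ae_of_all _ fun x => ?_)
  have := logcc_bound ha h0 h1 x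
  rw [Real.norm_eq_abs, abs_of_nonpos this.2]
  linarith [this.1]

theorem cost_nonneg (π : Measure Ω) [IsProbabilityMeasure π] {I : Set (Set Ω)}
    {a : Ω → ℝ≥0∞} (ha : IsCnt I a) {ε : ℝ} (h0 : 0 < ε) (h1 : ε ≤ 1) : 0 ≤ cost π ε a := by
  apply integral_nonneg
  intro x
  have := (logcc_bound ha h0 h1 x).2
  simp only [Pi.zero_apply]
  linarith

theorem mm_le (π : Measure Ω) [IsProbabilityMeasure π] {I : Set (Set Ω)}
    {a : Ω → ℝ≥0∞} (ha : IsCnt I a) {ε : ℝ} (h0 : 0 < ε) (h1 : ε ≤ 1) :
    mm π I ε ≤ cost π ε a := by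
  unfold mm
  refine ciInf_le ⟨0, ?_⟩ (⟨a, ha⟩ : {a : Ω → ℝ≥0∞ // IsCnt I a})
  rintro _ ⟨b, rfl⟩
  exact cost_nonneg π b.2 h0 h1

theorem exists_near (π : Measure Ω) [IsProbabilityMeasure π] {I : Set (Set Ω)} {J : Set Ω}
    (hJ : J ∈ I) (ε η : ℝ) (hη : 0 < η) :
    ∃ a, IsCnt I a ∧ cost π ε a < mm π I ε + η := by
  have : Nonempty {a : Ω → ℝ≥0∞ // IsCnt I a} := ⟨⟨_, IsCnt.single hJ⟩⟩
  obtain ⟨⟨a, ha⟩, h⟩ := exists_lt_of_ciInf_lt
    (show (⨅ a : {a : Ω → ℝ≥0∞ // IsCnt I a}, cost π ε a.1) < mm π I ε + η by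
      show mm π I ε < mm π I ε + η
      linarith)
  exact ⟨a, ha, h⟩

theorem log_one_add_ge {y : ℝ} (hy : -(1 / 2) ≤ y) : y - 2 * y ^ 2 ≤ Real.log (1 + y) := by
  have h1 : 0 < 1 + y := by linarith
  have h2 := Real.one_sub_inv_le_log_of_pos h1
  refine le_trans ?_ h2
  have h3 : 1 - (1 + y)⁻¹ - (y - 2 * y ^ 2) = y ^ 2 * (1 + 2 * y) / (1 + y) := by
    field_simp
    ring
  have h4 : 0 ≤ y ^ 2 * (1 + 2 * y) / (1 + y) := by
    apply div_nonneg _ h1.le
    apply mul_nonneg (sq_nonneg y)
    linarith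
  linarith

/-- Perturbation: a near-minimiser of the regularised cost gives a dual feasible function. -/
theorem claim1 (π : Measure Ω) [IsProbabilityMeasure π] {I : Set (Set Ω)}
    (hI : ∀ J ∈ I, MeasurableSet J) {J0 : Set Ω} (hJ0 : J0 ∈ I) {ε : ℝ} (h0 : 0 < ε)
    (h1 : ε < 1) {η : ℝ} (hη : 0 < η) :
    ∃ r, Feas π I r ∧ mm π I ε - η ≤ ∫ x, Real.log (r x) ∂π := by
  -- choose t
  set C : ℝ := 1 + 2 / ε ^ 2 with hC
  have hC0 : 0 < C := by positivity
  set t : ℝ := min (ε / 2) (η * (1 - ε) / C) with ht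
  have ht0 : 0 < t := by
    apply lt_min (by positivity)
    apply div_pos _ hC0
    apply mul_pos hη
    linarith
  have ht1 : t ≤ ε / 2 := min_le_left _ _
  have ht2 : t * C ≤ η * (1 - ε) := by
    have : t ≤ η * (1 - ε) / C := min_le_right _ _
    rwa [le_div_iff₀ hC0] at this
  obtain ⟨a, ha, hac⟩ := exists_near π hJ0 ε (t ^ 2) (by positivity)
  have hcm := cc_meas hI ha ε
  set κ : ℝ := t * C with hκ
  set κ' : ℝ := κ / (1 - ε) with hκ'
  have h1ε : 0 < 1 - ε := by linarith
  have hκ0 : 0 < κ := by positivity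
  have hκ'0 : 0 < κ' := by positivity
  have hκη : κ' ≤ η := by
    rw [hκ', div_le_iff₀ h1ε]
    exact ht2
  have hcpos : ∀ x, 0 < cc ε a x := fun x => lt_of_lt_of_le h0 (cc_ge ha h1.le x)
  -- key inequality
  have hkey : ∀ J ∈ I, ∫⁻ x in J, ENNReal.ofReal (1 / cc ε a x) ∂π ≤ ENNReal.ofReal (1 + κ') := by
    intro J hJ
    set b : Ω → ℝ≥0∞ := fun x => ENNReal.ofReal (1 - t) * a x +
      ENNReal.ofReal t * J.indicator (fun _ => 1) x with hb
    have htle : t ≤ 1 := by linarith
    have hbc : IsCnt I b := ha.convex (IsCnt.single hJ) ht0.le htle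
    set ind : Ω → ℝ := J.indicator (fun _ => (1 : ℝ)) with hind
    have hind0 : ∀ x, 0 ≤ ind x := fun x => Set.indicator_nonneg (fun _ _ => zero_le_one) x
    have hind1 : ∀ x, ind x ≤ 1 := fun x => Set.indicator_le_self' (fun _ _ => zero_le_one) x
    have hindm : Measurable ind := measurable_const.indicator (hI J hJ)
    have hbr : ∀ x, (b x).toReal = (1 - t) * (a x).toReal + t * ind x := by
      intro x
      have hat : a x ≠ ∞ := (lt_of_le_of_lt (ha.le_one x) ENNReal.one_lt_top).ne
      simp only [hb, hind]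
      rw [ENNReal.toReal_add (ENNReal.mul_ne_top ENNReal.ofReal_ne_top hat)]
      · rw [ENNReal.toReal_mul, ENNReal.toReal_mul, ENNReal.toReal_ofReal (by linarith),
          ENNReal.toReal_ofReal ht0.le]
        congr 2
        by_cases hx : x ∈ J
        · simp [Set.indicator_of_mem hx]
        · simp [Set.indicator_of_notMem hx]
      · apply ENNReal.mul_ne_top ENNReal.ofReal_ne_top
        by_cases hx : x ∈ J
        · simp [Set.indicator_of_mem hx]
        · simp [Set.indicator_of_notMem hx]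
    set y : Ω → ℝ := fun x => t * (1 - ε) * (ind x - (a x).toReal) / cc ε a x with hy
    have hym : Measurable y := by
      apply Measurable.div _ hcm
      exact (hindm.sub (ha.meas hI).ennreal_toReal).const_mul _
    have hcb : ∀ x, cc ε b x = cc ε a x * (1 + y x) := by
      intro x
      have := hcpos x
      simp only [hy]
      field_simp
      unfold cc
      rw [hbr]
      ring
    have hyabs : ∀ x, |y x| ≤ t / ε := by
      intro x
      simp only [hy]
      rw [abs_div, abs_of_pos (hcpos x), abs_mul, abs_of_pos (mul_pos ht0 h1ε)]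
      have h3 : |ind x - (a x).toReal| ≤ 1 := by
        rw [abs_le]
        have := ha.toReal_mem x
        constructor <;> linarith [hind0 x, hind1 x]
      calc t * (1 - ε) * |ind x - (a x).toReal| / cc ε a x
          ≤ t * 1 * 1 / ε := by
            gcongr
            · linarith
            · exact cc_ge ha h1.le x
        _ = t / ε := by ring
    have hyhalf : ∀ x, -(1 / 2) ≤ y x := by
      intro x
      have h3 : t / ε ≤ 1 / 2 := by
        rw [div_le_iff₀ h0]
        linarith
      linarith [(abs_le.1 (hyabs x)).1]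
    have hyi : Integrable y π := by
      refine Integrable.of_bound (C := t / ε) hym.aestronglyMeasurable (ae_of_all _ fun x => ?_)
      exact hyabs x
    have hlogdiff : ∀ x, Real.log (cc ε b x) = Real.log (cc ε a x) + Real.log (1 + y x) := by
      intro x
      rw [hcb, Real.log_mul (hcpos x).ne']
      linarith [hyhalf x]
    have hmmb := mm_le π hbc h0 h1.le
    have hli : Integrable (fun x => Real.log (cc ε a x)) π := logcc_integrable π hI ha h0 h1.le
    have hlb : Integrable (fun x => Real.log (cc ε b x)) π := logcc_integrable π hI hbc h0 h1.le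
    have h3 : ∫ x, (Real.log (cc ε b x) - Real.log (cc ε a x)) ∂π ≤ t ^ 2 := by
      rw [integral_sub hlb hli]
      unfold cost at hmmb hac
      rw [integral_neg] at hmmb hac
      linarith
    have h4 : ∫ x, y x ∂π ≤ t ^ 2 + 2 * (t / ε) ^ 2 := by
      have h5 : ∫ x, (y x - 2 * (t / ε) ^ 2) ∂π ≤
          ∫ x, (Real.log (cc ε b x) - Real.log (cc ε a x)) ∂π := by
        apply integral_mono (hyi.sub (integrable_const _)) (hlb.sub hli)
        intro x
        show y x - 2 * (t / ε) ^ 2 ≤ Real.log (cc ε b x) - Real.log (cc ε a x)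
        rw [hlogdiff]
        have h6 := log_one_add_ge (hyhalf x)
        have h7 : (y x) ^ 2 ≤ (t / ε) ^ 2 := by
          rw [← sq_abs]
          exact pow_le_pow_left₀ (abs_nonneg _) (hyabs x) 2
        linarith
      rw [integral_sub hyi (integrable_const _)] at h5
      simp only [integral_const, probReal_univ, one_smul] at h5
      linarith
    -- rewrite y
    have h5 : ∀ x, t * (1 - ε) * (ind x / cc ε a x) - t * (1 - ε) ≤ y x := by
      intro x
      have hy2 : y x = t * (1 - ε) * (ind x / cc ε a x) -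
          t * (1 - ε) * ((a x).toReal / cc ε a x) := by
        simp only [hy]
        ring
      rw [hy2]
      have h6 : (1 - ε) * (a x).toReal / cc ε a x ≤ 1 - ε := by
        rw [div_le_iff₀ (hcpos x)]
        have h7 := ha.toReal_mem x
        have h8 : (a x).toReal ≤ cc ε a x := by
          unfold cc
          nlinarith
        nlinarith
      have h9 : t * (1 - ε) * ((a x).toReal / cc ε a x) ≤ t * (1 - ε) := by
        have : t * (1 - ε) * ((a x).toReal / cc ε a x) =
            t * ((1 - ε) * (a x).toReal / cc ε a x) := by ring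
        rw [this]
        exact mul_le_mul_of_nonneg_left h6 ht0.le
      linarith
    have hqm : Measurable (fun x => ind x / cc ε a x) := hindm.div hcm
    have hqi : Integrable (fun x => ind x / cc ε a x) π := by
      refine Integrable.of_bound (C := 1 / ε) hqm.aestronglyMeasurable (ae_of_all _ fun x => ?_)
      rw [Real.norm_eq_abs, abs_of_nonneg (div_nonneg (hind0 x) (hcpos x).le)]
      exact div_le_div₀ zero_le_one (hind1 x) h0 (cc_ge ha h1.le x)
    have h6 : t * (1 - ε) * ∫ x, ind x / cc ε a x ∂π - t * (1 - ε) ≤ ∫ x, y x ∂π := by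
      have h7 : ∫ x, (t * (1 - ε) * (ind x / cc ε a x) - t * (1 - ε)) ∂π ≤ ∫ x, y x ∂π :=
        integral_mono ((hqi.const_mul _).sub (integrable_const _)) hyi h5
      rw [integral_sub (hqi.const_mul _) (integrable_const _), integral_const_mul] at h7
      simpa using h7
    have h7 : ∫ x, ind x / cc ε a x ∂π ≤ 1 + κ' := by
      have h8 : t * (1 - ε) * ∫ x, ind x / cc ε a x ∂π ≤ t * (1 - ε) * (1 + κ') := by
        have h9 : t * (1 - ε) * (1 + κ') = t * (1 - ε) + (t ^ 2 + 2 * (t / ε) ^ 2) := by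
          rw [hκ', hκ, hC]
          field_simp
        linarith
      exact le_of_mul_le_mul_left h8 (mul_pos ht0 h1ε)
    calc ∫⁻ x in J, ENNReal.ofReal (1 / cc ε a x) ∂π
        = ∫⁻ x, ENNReal.ofReal (ind x / cc ε a x) ∂π := by
          rw [← lintegral_indicator (hI J hJ)]
          apply lintegral_congr
          intro x
          by_cases hx : x ∈ J
          · rw [Set.indicator_of_mem hx]
            simp only [hind]
            rw [Set.indicator_of_mem hx]
          · rw [Set.indicator_of_notMem hx]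
            simp only [hind]
            rw [Set.indicator_of_notMem hx, zero_div, ENNReal.ofReal_zero]
      _ = ENNReal.ofReal (∫ x, ind x / cc ε a x ∂π) := by
          rw [ofReal_integral_eq_lintegral_ofReal hqi
            (ae_of_all _ fun x => div_nonneg (hind0 x) (hcpos x).le)]
      _ ≤ _ := ENNReal.ofReal_le_ofReal h7
  -- define r
  have hκ1 : 0 < 1 + κ' := by linarith
  set r : Ω → ℝ := fun x => 1 / ((1 + κ') * cc ε a x) with hr
  have hrlog : ∀ x, Real.log (r x) = - Real.log (1 + κ') - Real.log (cc ε a x) := by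
    intro x
    simp only [hr]
    rw [one_div, Real.log_inv, Real.log_mul hκ1.ne' (hcpos x).ne']
    ring
  refine ⟨r, ⟨?_, ?_, ?_, ?_⟩, ?_⟩
  · exact (measurable_const.div (hcm.const_mul _))
  · intro x
    simp only [hr]
    have := hcpos x
    positivity
  · refine ⟨|Real.log (1 + κ')| + |Real.log ε|, fun x => ?_⟩
    rw [hrlog]
    have h2 := logcc_bound ha h0 h1.le x
    have h3 : |Real.log (cc ε a x)| ≤ |Real.log ε| := by
      rw [abs_of_nonpos h2.2, abs_of_nonpos (le_trans h2.1 h2.2)]
      linarith [h2.1]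
    calc |-Real.log (1 + κ') - Real.log (cc ε a x)|
        ≤ |-Real.log (1 + κ')| + |Real.log (cc ε a x)| := abs_sub _ _
      _ ≤ _ := by rw [abs_neg]; linarith
  · intro J hJ
    have h2 : ∀ x, ENNReal.ofReal (r x) =
        ENNReal.ofReal (1 / (1 + κ')) * ENNReal.ofReal (1 / cc ε a x) := by
      intro x
      rw [← ENNReal.ofReal_mul (by positivity)]
      congr 1
      simp only [hr]
      have := hcpos x
      field_simp
    simp_rw [h2]
    rw [lintegral_const_mul' _ _ ENNReal.ofReal_ne_top]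
    calc ENNReal.ofReal (1 / (1 + κ')) * ∫⁻ x in J, ENNReal.ofReal (1 / cc ε a x) ∂π
        ≤ ENNReal.ofReal (1 / (1 + κ')) * ENNReal.ofReal (1 + κ') := by
          gcongr
          exact hkey J hJ
      _ = 1 := by
          rw [← ENNReal.ofReal_mul (by positivity)]
          rw [one_div, inv_mul_cancel₀ hκ1.ne', ENNReal.ofReal_one]
  · have h2 : ∫ x, Real.log (r x) ∂π = - Real.log (1 + κ') + cost π ε a := by
      simp_rw [hrlog]
      have hcost : cost π ε a = - ∫ x, Real.log (cc ε a x) ∂π := by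
        unfold cost
        rw [integral_neg]
      rw [integral_sub (integrable_const _) (logcc_integrable π hI ha h0 h1.le), hcost]
      simp only [integral_const, probReal_univ, one_smul]
      ring
    rw [h2]
    have h3 := mm_le π ha h0 h1.le
    have h4 : Real.log (1 + κ') ≤ κ' := by
      have := Real.log_le_sub_one_of_pos hκ1
      linarith
    linarith

end Pool.Agent.R130.Cov
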