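import Pool.Agent.R130.CovE

open MeasureTheory ENNReal Filter Topology

namespace Pool.Agent.R130.Cov

universe u

variable {Ω : Type u} [MeasurableSpace Ω]

theorem log_mid {x y : ℝ} (hx : 0 < x) (hx1 : x ≤ 1) (hy : 0 < y) (hy1 : y ≤ 1) :
    - Real.log ((x + y) / 2) ≤ (- Real.log x - Real.log y) / 2 - (x - y) ^ 2 / 8 := by
  have hxy : 0 < x + y := by linarith
  have h1 : 0 < 4 * x * y / (x + y) ^ 2 := by positivity
  have h2 := Real.log_le_sub_one_of_pos h1
  have h3 : Real.log (4 * x * y / (x + y) ^ 2) =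
      Real.log x + Real.log y - 2 * Real.log ((x + y) / 2) := by
    have : 4 * x * y / (x + y) ^ 2 = x * y / ((x + y) / 2) ^ 2 := by
      field_simp
      ring
    rw [this, Real.log_div (by positivity) (by positivity), Real.log_mul hx.ne' hy.ne',
      Real.log_pow]
    push_cast
    ring
  have h4 : 4 * x * y / (x + y) ^ 2 - 1 = - ((x - y) ^ 2 / (x + y) ^ 2) := by
    field_simp
    ring
  have h5 : (x - y) ^ 2 / 4 ≤ (x - y) ^ 2 / (x + y) ^ 2 := by
    apply div_le_div_of_nonneg_left (sq_nonneg _) (by positivity)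
    nlinarith
  rw [h3, h4] at h2
  linarith

theorem mid_bound (π : Measure Ω) [IsProbabilityMeasure π] {I : Set (Set Ω)}
    (hI : ∀ J ∈ I, MeasurableSet J) {a b : Ω → ℝ≥0∞} (ha : IsCnt I a) (hb : IsCnt I b)
    {ε ε' : ℝ} (h0 : 0 < ε') (hle : ε' ≤ ε) (h1 : ε ≤ 1) :
    mm π I ε ≤ (cost π ε a + cost π ε' b) / 2 - (∫ x, (cc ε a x - cc ε' b x) ^ 2 ∂π) / 8 := by
  have h0' : 0 < ε := lt_of_lt_of_le h0 hle
  have hd := ha.convex hb (t := 1 / 2) (by norm_num) (by norm_num)
  set d : Ω → ℝ≥0∞ := fun x => ENNReal.ofReal (1 - 1 / 2) * a x + ENNReal.ofReal (1 / 2) * b x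
    with hdd
  have hdr : ∀ x, (d x).toReal = ((a x).toReal + (b x).toReal) / 2 := by
    intro x
    have hat : a x ≠ ∞ := (lt_of_le_of_lt (ha.le_one x) ENNReal.one_lt_top).ne
    have hbt : b x ≠ ∞ := (lt_of_le_of_lt (hb.le_one x) ENNReal.one_lt_top).ne
    simp only [hdd]
    rw [ENNReal.toReal_add (ENNReal.mul_ne_top ENNReal.ofReal_ne_top hat)
      (ENNReal.mul_ne_top ENNReal.ofReal_ne_top hbt), ENNReal.toReal_mul, ENNReal.toReal_mul,
      ENNReal.toReal_ofReal (by norm_num), ENNReal.toReal_ofReal (by norm_num)]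
    ring
  have hla := logcc_integrable π hI ha h0' h1
  have hlb := logcc_integrable π hI hb h0 (hle.trans h1)
  have hld := logcc_integrable π hI hd h0' h1
  have hsqi : Integrable (fun x => (cc ε a x - cc ε' b x) ^ 2) π := by
    refine Integrable.of_bound (C := 1)
      (((cc_meas hI ha ε).sub (cc_meas hI hb ε')).pow_const 2).aestronglyMeasurable
      (ae_of_all _ fun x => ?_)
    rw [Real.norm_eq_abs, abs_of_nonneg (sq_nonneg _)]
    have h2 := cc_ge ha h1 x
    have h3 := cc_le ha h1 x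
    have h4 := cc_ge hb (hle.trans h1) x
    have h5 := cc_le hb (hle.trans h1) x
    rw [sq_le_one_iff_abs_le_one, abs_le]
    constructor <;> linarith
  have hmm := mm_le π hd h0' h1
  have hpt : ∀ x, - Real.log (cc ε d x) ≤
      (- Real.log (cc ε a x) - Real.log (cc ε' b x)) / 2 - (cc ε a x - cc ε' b x) ^ 2 / 8 := by
    intro x
    have h2 : 0 < cc ε a x := lt_of_lt_of_le h0' (cc_ge ha h1 x)
    have h3 : 0 < cc ε' b x := lt_of_lt_of_le h0 (cc_ge hb (hle.trans h1) x)
    refine le_trans ?_ (log_mid h2 (cc_le ha h1 x) h3 (cc_le hb (hle.trans h1) x))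
    apply neg_le_neg
    apply Real.log_le_log (by positivity)
    unfold cc
    rw [hdr]
    have := (hb.toReal_mem x).2
    nlinarith
  refine hmm.trans ?_
  have hint : ∫ x, - Real.log (cc ε d x) ∂π ≤
      ∫ x, ((- Real.log (cc ε a x) - Real.log (cc ε' b x)) / 2 -
        (cc ε a x - cc ε' b x) ^ 2 / 8) ∂π := by
    apply integral_mono hld.neg _ hpt
    exact (((hla.neg.sub hlb).div_const 2).sub (hsqi.div_const 8))
  refine hint.trans (le_of_eq ?_)
  have hca : cost π ε a = - ∫ x, Real.log (cc ε a x) ∂π := by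
    unfold cost; rw [integral_neg]
  have hcb : cost π ε' b = - ∫ x, Real.log (cc ε' b x) ∂π := by
    unfold cost; rw [integral_neg]
  have e1 : ∫ x, (- Real.log (cc ε a x) - Real.log (cc ε' b x)) ∂π =
      cost π ε a + cost π ε' b := by
    rw [integral_sub (f := fun x => - Real.log (cc ε a x)) (g := fun x => Real.log (cc ε' b x))
      hla.neg hlb, hcb]
    unfold cost
    ring
  rw [integral_sub (f := fun x => (- Real.log (cc ε a x) - Real.log (cc ε' b x)) / 2)
    (g := fun x => (cc ε a x - cc ε' b x) ^ 2 / 8)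
    ((hla.neg.sub hlb).div_const 2) (hsqi.div_const 8), integral_div, integral_div, e1]

theorem l1_of_l2 (π : Measure Ω) [IsProbabilityMeasure π] (f : Ω → ℝ) (hf : Integrable f π)
    (hf2 : Integrable (fun x => (f x) ^ 2) π) {s : ℝ} (hs : 0 < s)
    (h : ∫ x, (f x) ^ 2 ∂π ≤ s ^ 2) : ∫ x, |f x| ∂π ≤ s := by
  have h1 : ∫ x, 2 * s * |f x| ∂π ≤ ∫ x, ((f x) ^ 2 + s ^ 2) ∂π := by
    apply integral_mono (hf.abs.const_mul _) (hf2.add (integrable_const _))
    intro x
    show 2 * s * |f x| ≤ (f x) ^ 2 + s ^ 2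
    nlinarith [sq_nonneg (|f x| - s), sq_abs (f x)]
  rw [integral_const_mul, integral_add hf2 (integrable_const _)] at h1
  simp only [integral_const, probReal_univ, one_smul] at h1
  nlinarith

theorem mm_anti (π : Measure Ω) [IsProbabilityMeasure π] {I : Set (Set Ω)}
    (hI : ∀ J ∈ I, MeasurableSet J) {J0 : Set Ω} (hJ0 : J0 ∈ I) {ε ε' : ℝ} (h0 : 0 < ε')
    (hle : ε' ≤ ε) (h1 : ε ≤ 1) : mm π I ε ≤ mm π I ε' := by
  apply _root_.le_of_forall_pos_le_add
  intro η hη
  obtain ⟨a, ha, hac⟩ := exists_near π hJ0 ε' η hη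
  have h2 := mm_le π ha (lt_of_lt_of_le h0 hle) h1
  have h3 : cost π ε a ≤ cost π ε' a := by
    unfold cost
    apply integral_mono (logcc_integrable π hI ha (lt_of_lt_of_le h0 hle) h1).neg
      (logcc_integrable π hI ha h0 (hle.trans h1)).neg
    intro x
    apply neg_le_neg
    apply Real.log_le_log (lt_of_lt_of_le h0 (cc_ge ha (hle.trans h1) x))
    unfold cc
    have := (ha.toReal_mem x).2
    nlinarith
  linarith

/-- Near-minimisers of the regularised problems converge almost everywhere. -/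
theorem claim2 (π : Measure Ω) [IsProbabilityMeasure π] {I : Set (Set Ω)}
    (hI : ∀ J ∈ I, MeasurableSet J) {J0 : Set Ω} (hJ0 : J0 ∈ I) (h : ℝ)
    (hmm : ∀ ε : ℝ, 0 < ε → ε < 1 → mm π I ε ≤ h) :
    ∃ (b : ℕ → Ω → ℝ≥0∞) (C0 : Ω → ℝ≥0∞), (∀ n, IsCnt I (b n)) ∧ Measurable C0 ∧
      (∀ᵐ x ∂π, Tendsto (fun n => b n x) atTop (𝓝 (C0 x))) ∧ phi π C0 ≤ ENNReal.ofReal h := by
  set e : ℕ → ℝ := fun n => 1 / ((n : ℝ) + 2) with he
  set η : ℕ → ℝ := fun n => 1 / ((n : ℝ) + 1) with hη
  have he0 : ∀ n, 0 < e n := fun n => by simp only [he]; positivity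
  have he1 : ∀ n, e n < 1 := fun n => by
    simp only [he]
    rw [div_lt_one (by positivity)]
    have : (0 : ℝ) ≤ n := Nat.cast_nonneg n
    linarith
  have heanti : ∀ n k, n ≤ k → e k ≤ e n := fun n k hnk => by
    simp only [he]
    apply one_div_le_one_div_of_le (by positivity)
    have : (n : ℝ) ≤ k := by exact_mod_cast hnk
    linarith
  have hη0 : ∀ n, 0 < η n := fun n => by simp only [hη]; positivity
  have hηlim : Tendsto η atTop (𝓝 0) := tendsto_one_div_add_atTop_nhds_zero_nat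
  have helim : Tendsto e atTop (𝓝 0) := by
    refine squeeze_zero (fun n => (he0 n).le) (fun n => ?_) hηlim
    simp only [he, hη]
    apply one_div_le_one_div_of_le (by positivity)
    linarith
  choose a ha hac using fun n => exists_near π hJ0 (e n) (η n) (hη0 n)
  set c : ℕ → Ω → ℝ := fun n => cc (e n) (a n) with hc
  have hcm : ∀ n, Measurable (c n) := fun n => cc_meas hI (ha n) (e n)
  have hcge : ∀ n x, e n ≤ c n x := fun n x => cc_ge (ha n) (he1 n).le x
  have hcle : ∀ n x, c n x ≤ 1 := fun n x => cc_le (ha n) (he1 n).le x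
  have hcpos : ∀ n x, 0 < c n x := fun n x => lt_of_lt_of_le (he0 n) (hcge n x)
  set m : ℕ → ℝ := fun n => mm π I (e n) with hm
  have hmmono : Monotone m := fun n k hnk =>
    mm_anti π hI hJ0 (he0 k) (heanti n k hnk) (he1 n).le
  have hmb : ∀ n, m n ≤ h := fun n => hmm _ (he0 n) (he1 n)
  have hmlim : Tendsto m atTop (𝓝 (⨆ n, m n)) :=
    tendsto_atTop_ciSup hmmono ⟨h, by rintro _ ⟨n, rfl⟩; exact hmb n⟩
  have hmsup : ∀ n, m n ≤ ⨆ n, m n := fun n =>
    le_ciSup (f := m) ⟨h, by rintro _ ⟨n, rfl⟩; exact hmb n⟩ n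
  have hdi : ∀ n k, Integrable (fun x => c n x - c k x) π := by
    intro n k
    refine Integrable.of_bound (C := 1) ((hcm n).sub (hcm k)).aestronglyMeasurable
      (ae_of_all _ fun x => ?_)
    rw [Real.norm_eq_abs, abs_le]
    constructor <;> linarith [hcpos n x, hcpos k x, hcle n x, hcle k x]
  have hdi2 : ∀ n k, Integrable (fun x => (c n x - c k x) ^ 2) π := by
    intro n k
    refine Integrable.of_bound (C := 1) (((hcm n).sub (hcm k)).pow_const 2).aestronglyMeasurable
      (ae_of_all _ fun x => ?_)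
    rw [Real.norm_eq_abs, abs_of_nonneg (sq_nonneg _)]
    rw [sq_le_one_iff_abs_le_one, abs_le]
    constructor <;> linarith [hcpos n x, hcpos k x, hcle n x, hcle k x]
  have hP : ∀ j : ℕ, ∀ᶠ n in atTop, ∀ k ≥ n, ∫ x, |c n x - c k x| ∂π ≤ (1 / 2 : ℝ) ^ j := by
    intro j
    set s : ℝ := (1 / 2 : ℝ) ^ j with hs
    have hs0 : 0 < s := by positivity
    set γ : ℝ := s ^ 2 / 12 with hγ
    have hγ0 : 0 < γ := by positivity
    filter_upwards [hmlim.eventually (lt_mem_nhds (show (⨆ n, m n) - γ < ⨆ n, m n by linarith)),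
      hηlim.eventually (gt_mem_nhds hγ0)] with n hn1 hn2 k hk
    apply l1_of_l2 π _ (hdi n k) (hdi2 n k) hs0
    have h2 := mid_bound π hI (ha n) (ha k) (he0 k) (heanti n k hk) (he1 n).le
    have h3 := hac n
    have h4 := hac k
    have h5 := hmsup k
    have h6 : η k ≤ η n := by
      simp only [hη]
      apply one_div_le_one_div_of_le (by positivity)
      have : (n : ℝ) ≤ k := by exact_mod_cast hk
      linarith
    have h7 : ∫ x, (c n x - c k x) ^ 2 ∂π ≤ 12 * γ := by
      simp only [hm] at hn1 h5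
      simp only [hc]
      linarith
    calc _ ≤ 12 * γ := h7
      _ = s ^ 2 := by rw [hγ]; ring
  obtain ⟨φ, hφ, hPφ⟩ := extraction_forall_of_eventually hP
  -- almost everywhere convergence
  have hae : ∀ᵐ x ∂π, ∃ l, Tendsto (fun j => c (φ j) x) atTop (𝓝 l) := by
    set F : ℕ → Ω → ℝ≥0∞ := fun j x => edist (c (φ j) x) (c (φ (j + 1)) x) with hF
    have hFm : ∀ j, Measurable (F j) := fun j => (hcm _).edist (hcm _)
    have hFi : ∀ j, ∫⁻ x, F j x ∂π ≤ ENNReal.ofReal ((1 / 2 : ℝ) ^ j) := by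
      intro j
      have h2 : ∀ x, F j x = ENNReal.ofReal |c (φ j) x - c (φ (j + 1)) x| := by
        intro x
        simp only [hF]
        rw [edist_dist, Real.dist_eq]
      rw [lintegral_congr h2, ← ofReal_integral_eq_lintegral_ofReal (hdi _ _).abs
        (ae_of_all _ fun x => abs_nonneg _)]
      apply ENNReal.ofReal_le_ofReal
      exact hPφ j (φ (j + 1)) (hφ (Nat.lt_succ_self j)).le
    have hsum : ∫⁻ x, ∑' j, F j x ∂π ≠ ∞ := by
      rw [lintegral_tsum (fun j => (hFm j).aemeasurable)]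
      have h2 : ∑' j, ∫⁻ x, F j x ∂π ≤ ∑' j : ℕ, ENNReal.ofReal ((1 / 2 : ℝ) ^ j) :=
        ENNReal.tsum_le_tsum hFi
      refine ne_top_of_le_ne_top ?_ h2
      rw [← ENNReal.ofReal_tsum_of_nonneg (fun n => by positivity) summable_geometric_two]
      exact ENNReal.ofReal_ne_top
    filter_upwards [ae_lt_top (Measurable.tsum hFm) hsum] with x hx
    have hcs : CauchySeq (fun j => c (φ j) x) :=
      cauchySeq_of_edist_le_of_tsum_ne_top (fun j => F j x) (fun j => le_rfl) hx.ne
    exact cauchySeq_tendsto_of_complete hcs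
  obtain ⟨c0, hc0m, hc0⟩ := exists_stronglyMeasurable_limit_of_tendsto_ae
    (fun j => (hcm (φ j)).aestronglyMeasurable) hae
  have hφlim : Tendsto φ atTop atTop := hφ.tendsto_atTop
  refine ⟨fun j => a (φ j), fun x => ENNReal.ofReal (c0 x), fun j => ha _,
    hc0m.measurable.ennreal_ofReal, ?_, ?_⟩
  · filter_upwards [hc0] with x hx
    have h2 : ∀ j, a (φ j) x = ENNReal.ofReal ((c (φ j) x - e (φ j)) / (1 - e (φ j))) := by
      intro j
      have hat : a (φ j) x ≠ ∞ := (lt_of_le_of_lt ((ha _).le_one x) ENNReal.one_lt_top).ne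
      have h3 : (c (φ j) x - e (φ j)) / (1 - e (φ j)) = (a (φ j) x).toReal := by
        have : 1 - e (φ j) ≠ 0 := by linarith [he1 (φ j)]
        simp only [hc]
        unfold cc
        field_simp
        ring
      rw [h3, ENNReal.ofReal_toReal hat]
    simp_rw [h2]
    apply ENNReal.tendsto_ofReal
    have h4 : Tendsto (fun j => e (φ j)) atTop (𝓝 0) := helim.comp hφlim
    have h5 : Tendsto (fun j => (c (φ j) x - e (φ j)) / (1 - e (φ j))) atTop
        (𝓝 ((c0 x - 0) / (1 - 0))) :=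
      (hx.sub h4).div (tendsto_const_nhds.sub h4) (by norm_num)
    simpa using h5
  · -- Fatou
    have h2 : ∀ j, ∫⁻ x, nl (ENNReal.ofReal (c (φ j) x)) ∂π =
        ENNReal.ofReal (cost π (e (φ j)) (a (φ j))) := by
      intro j
      unfold cost
      rw [ofReal_integral_eq_lintegral_ofReal
        (f := fun x => - Real.log (cc (e (φ j)) (a (φ j)) x))
        (logcc_integrable π hI (ha _) (he0 _) (he1 _).le).neg
        (ae_of_all _ fun x => by
          have := (logcc_bound (ha (φ j)) (he0 (φ j)) (he1 (φ j)).le x).2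
          simp only [Pi.zero_apply]
          linarith)]
      apply lintegral_congr
      intro x
      exact nl_ofReal (hcpos _ _)
    have h3 : phi π (fun x => ENNReal.ofReal (c0 x)) =
        ∫⁻ x, liminf (fun j => nl (ENNReal.ofReal (c (φ j) x))) atTop ∂π := by
      apply lintegral_congr_ae
      filter_upwards [hc0] with x hx
      have h4 : Tendsto (fun j => nl (ENNReal.ofReal (c (φ j) x))) atTop
          (𝓝 (nl (ENNReal.ofReal (c0 x)))) :=
        (continuous_nl.tendsto _).comp (ENNReal.tendsto_ofReal hx)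
      exact h4.liminf_eq.symm
    rw [h3]
    have h8 : ∀ j, Measurable (fun x => nl (ENNReal.ofReal (c (φ j) x))) := fun j =>
      measurable_nl.comp (hcm _).ennreal_ofReal
    refine (lintegral_liminf_le h8).trans ?_
    simp_rw [h2]
    have h5 : Tendsto (fun j => ENNReal.ofReal (h + η (φ j))) atTop (𝓝 (ENNReal.ofReal (h + 0))) :=
      ENNReal.tendsto_ofReal (tendsto_const_nhds.add (hηlim.comp hφlim))
    rw [add_zero] at h5
    rw [← h5.liminf_eq]
    apply liminf_le_liminf
    · refine Eventually.of_forall fun j => ?_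
      apply ENNReal.ofReal_le_ofReal
      have h6 := hac (φ j)
      have h7 := hmb (φ j)
      simp only [hm] at h7
      linarith
    · isBoundedDefault
    · isBoundedDefault

end Pool.Agent.R130.Cov
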