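import Pool.Agent.R130.CovF

open MeasureTheory ENNReal Filter Topology

namespace Pool.Agent.R130.Cov

universe u

variable {Ω : Type u} [MeasurableSpace Ω]

theorem tsum_option_elim (D : ℝ≥0∞) (w : ℕ → ℝ≥0∞) :
    ∑' i : Option ℕ, i.elim D w = D + ∑' k, w k := by
  classical
  rw [ENNReal.tsum_eq_add_tsum_ite (f := fun i : Option ℕ => i.elim D w) none]
  show D + _ = _
  congr 1
  rw [← (Option.some_injective ℕ).tsum_eq]
  · apply tsum_congr
    intro k
    rw [if_neg (Option.some_ne_none k)]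
    rfl
  · intro x hx
    rcases x with _ | k
    · exact absurd (if_pos rfl) hx
    · exact ⟨k, rfl⟩

/-- From an almost everywhere convergent sequence of countable convex combinations to a single
one whose cost is almost the cost of the limit. -/
theorem claim2b (π : Measure Ω) [IsProbabilityMeasure π] {I : Set (Set Ω)}
    (hI : ∀ J ∈ I, MeasurableSet J) (b : ℕ → Ω → ℝ≥0∞) (C0 : Ω → ℝ≥0∞)
    (hb : ∀ n, IsCnt I (b n)) (hC0 : Measurable C0)
    (hlim : ∀ᵐ x ∂π, Tendsto (fun n => b n x) atTop (𝓝 (C0 x))) (hphi : phi π C0 ≠ ∞)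
    (δ : ℝ) (h0 : 0 < δ) (h1 : δ < 1) :
    Hcnt π I ≤ phi π C0 + (2 * ENNReal.ofReal (- Real.log (1 - δ)) + ENNReal.ofReal δ) := by
  have hnlm : Measurable (fun x => nl (C0 x)) := measurable_nl.comp hC0
  have hpos : ∀ᵐ x ∂π, C0 x ≠ 0 := by
    filter_upwards [ae_lt_top hnlm hphi] with x hx
    exact nl_ne_top hx.ne
  have hle1 : ∀ᵐ x ∂π, C0 x ≤ 1 := by
    filter_upwards [hlim] with x hx
    exact le_of_tendsto' hx (fun n => (hb n).le_one x)
  set D : ℝ≥0∞ := ENNReal.ofReal (1 - δ) with hD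
  have hD0 : D ≠ 0 := by
    rw [hD, Ne, ENNReal.ofReal_eq_zero, not_le]
    linarith
  have hD1 : D < 1 := by
    rw [hD, ← ENNReal.ofReal_one]
    apply (ENNReal.ofReal_lt_ofReal_iff one_pos).2
    linarith
  -- bad sets
  set B : ℕ → Set Ω := fun n => {x | b n x < D * C0 x} with hB
  have hBm : ∀ n, MeasurableSet (B n) := fun n =>
    measurableSet_lt ((hb n).meas hI) (hC0.const_mul D)
  have hev : ∀ᵐ x ∂π, ∀ᶠ n in atTop, x ∉ B n := by
    filter_upwards [hlim, hpos, hle1] with x hx hx0 hx1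
    have hxt : C0 x ≠ ∞ := (lt_of_le_of_lt hx1 ENNReal.one_lt_top).ne
    have h2 : D * C0 x < C0 x := by
      calc D * C0 x < 1 * C0 x := (ENNReal.mul_lt_mul_iff_left hx0 hxt).2 hD1
        _ = C0 x := one_mul _
    filter_upwards [hx.eventually (lt_mem_nhds h2)] with n hn
    intro hcon
    exact absurd hn (not_lt.2 (le_of_lt hcon))
  have hBlim : Tendsto (fun n => π (B n)) atTop (𝓝 0) := by
    have := tendsto_measure_of_ae_tendsto_indicator_of_isFiniteMeasure (μ := π) (L := atTop)
      (As := B) (A := ∅) MeasurableSet.empty hBm (by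
        filter_upwards [hev] with x hx
        filter_upwards [hx] with n hn
        simp [hn])
    simpa using this
  -- weights
  set w : ℕ → ℝ≥0∞ := fun k => ENNReal.ofReal δ * 2⁻¹ ^ (k + 1) with hw
  have hw0 : ∀ k, w k ≠ 0 := by
    intro k
    simp only [hw]
    apply mul_ne_zero
    · rw [Ne, ENNReal.ofReal_eq_zero, not_le]
      exact h0
    · apply pow_ne_zero
      norm_num
  have hwsum : ∑' k, w k = ENNReal.ofReal δ := by
    simp only [hw]
    rw [ENNReal.tsum_mul_left, ENNReal.tsum_geometric_add_one]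
    rw [ENNReal.one_sub_inv_two, inv_inv, ENNReal.inv_mul_cancel (by norm_num) (by norm_num),
      mul_one]
  have hw1 : ∀ k, w k ≤ 1 := by
    intro k
    calc w k ≤ ∑' k, w k := ENNReal.le_tsum k
      _ = ENNReal.ofReal δ := hwsum
      _ ≤ 1 := by
        rw [← ENNReal.ofReal_one]
        exact ENNReal.ofReal_le_ofReal h1.le
  have hnlw : ∀ k, nl (w k) ≠ ∞ := by
    intro k
    rw [nl_eq_ofReal (hw0 k) (hw1 k)]
    exact ENNReal.ofReal_ne_top
  -- selection
  set p : ℕ → ℝ≥0∞ := fun k => w k / nl (w k) with hp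
  have hp0 : ∀ k, 0 < p k := fun k => ENNReal.div_pos (hw0 k) (hnlw k)
  have hsel : ∀ k : ℕ, ∃ j, k ≤ j ∧ π (B j) ≤ p k := by
    intro k
    rw [ENNReal.tendsto_nhds_zero] at hBlim
    exact ((eventually_ge_atTop k).and (hBlim (p k) (hp0 k))).exists
  choose j hjk hjp using hsel
  -- the mixture; index `none` for the main part
  set W : Option ℕ → ℝ≥0∞ := fun i => i.elim D w with hW
  set bb : Option ℕ → Ω → ℝ≥0∞ := fun i => i.elim (b (j 0)) (fun k => b (j (k + 1))) with hbb
  have hW1 : ∑' i, W i = 1 := by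
    simp only [hW]
    rw [tsum_option_elim, hwsum, hD, ← ENNReal.ofReal_add (by linarith) h0.le]
    simp
  have hbbc : ∀ i, IsCnt I (bb i) := by
    intro i
    cases i
    · exact hb _
    · exact hb _
  set a' : Ω → ℝ≥0∞ := fun x => ∑' i, W i * bb i x with ha'
  have hmix : IsCnt I a' := IsCnt.mixture bb hbbc W hW1
  have hlb0 : ∀ x, D * b (j 0) x ≤ a' x := by
    intro x
    exact ENNReal.le_tsum (f := fun i => W i * bb i x) none
  have hlbk : ∀ k x, w k * b (j (k + 1)) x ≤ a' x := by
    intro k x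
    exact ENNReal.le_tsum (f := fun i => W i * bb i x) (some k)
  clear_value a'
  have hnlD : nl D = ENNReal.ofReal (- Real.log (1 - δ)) := nl_ofReal (by linarith)
  have hpt : ∀ᵐ x ∂π, nl (a' x) ≤ nl (C0 x) + (2 * nl D +
      ∑' k, (B (j k)).indicator (fun _ => nl (w k)) x) := by
    filter_upwards [hev, hle1] with x hx hx1
    -- first good index
    have hex : ∃ k, x ∉ B (j k) := by
      obtain ⟨N, hN⟩ := eventually_atTop.1 hx
      exact ⟨N, hN _ (hjk N)⟩
    classical
    set κ := Nat.find hex with hκ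
    have hκ1 : x ∉ B (j κ) := Nat.find_spec hex
    have hge : D * C0 x ≤ b (j κ) x := not_lt.1 hκ1
    have hDC : D * C0 x ≤ 1 := mul_le_one' hD1.le hx1
    rcases Nat.eq_zero_or_pos κ with hz | hz
    · rw [hz] at hge
      have h2 : D * (D * C0 x) ≤ a' x := le_trans (by gcongr) (hlb0 x)
      calc nl (a' x) ≤ nl (D * (D * C0 x)) := nl_anti h2
        _ = nl D + (nl D + nl (C0 x)) := by rw [nl_mul hD1.le hDC, nl_mul hD1.le hx1]
        _ = nl (C0 x) + (2 * nl D + 0) := by ring
        _ ≤ _ := by gcongr; exact bot_le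
    · obtain ⟨k, hk⟩ : ∃ k, κ = k + 1 := ⟨κ - 1, by omega⟩
      have hkB : x ∈ B (j k) := by
        by_contra hcon
        have := Nat.find_min' hex hcon
        omega
      rw [hk] at hge
      have h2 : w k * (D * C0 x) ≤ a' x := le_trans (by gcongr) (hlbk k x)
      calc nl (a' x) ≤ nl (w k * (D * C0 x)) := nl_anti h2
        _ = nl (w k) + (nl D + nl (C0 x)) := by rw [nl_mul (hw1 k) hDC, nl_mul hD1.le hx1]
        _ = nl (C0 x) + (nl D + nl (w k)) := by ring
        _ ≤ nl (C0 x) + (2 * nl D + ∑' k, (B (j k)).indicator (fun _ => nl (w k)) x) := by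
            gcongr
            · calc nl D = 1 * nl D := (one_mul _).symm
                _ ≤ 2 * nl D := by gcongr; norm_num
            · have := ENNReal.le_tsum (f := fun k => (B (j k)).indicator (fun _ => nl (w k)) x) k
              rwa [Set.indicator_of_mem hkB] at this
  calc Hcnt π I ≤ phi π a' := iInf₂_le a' hmix
    _ ≤ ∫⁻ x, (nl (C0 x) + (2 * nl D +
      ∑' k, (B (j k)).indicator (fun _ => nl (w k)) x)) ∂π := lintegral_mono_ae hpt
    _ = phi π C0 + (2 * nl D + ∑' k, nl (w k) * π (B (j k))) := by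
        rw [lintegral_add_left hnlm, lintegral_add_left measurable_const,
          lintegral_tsum (fun k => (measurable_const.indicator (hBm _)).aemeasurable)]
        simp_rw [lintegral_indicator_const (hBm _)]
        simp [phi]
    _ ≤ phi π C0 + (2 * ENNReal.ofReal (- Real.log (1 - δ)) + ENNReal.ofReal δ) := by
        rw [hnlD]
        gcongr
        rw [← hwsum]
        apply ENNReal.tsum_le_tsum
        intro k
        calc nl (w k) * π (B (j k)) ≤ nl (w k) * p k := by gcongr; exact hjp k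
          _ ≤ w k := ENNReal.mul_div_le

/-- Upper bounds for all dual feasible functions are upper bounds for `Hcnt`. -/
theorem main_bound (π : Measure Ω) [IsProbabilityMeasure π] (I : Set (Set Ω))
    (hI : ∀ J ∈ I, MeasurableSet J) (X : ℝ≥0∞)
    (hX : ∀ r, Feas π I r → ENNReal.ofReal (∫ x, Real.log (r x) ∂π) ≤ X) : Hcnt π I ≤ X := by
  rcases eq_or_ne X ∞ with hXt | hXt
  · rw [hXt]; exact le_top
  rcases I.eq_empty_or_nonempty with hemp | ⟨J0, hJ0⟩
  · exfalso
    obtain ⟨n, hn⟩ := exists_nat_gt X.toReal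
    have h2 := hX (fun _ => Real.exp n) ⟨measurable_const, fun _ => Real.exp_pos _,
      ⟨n, fun _ => by rw [Real.log_exp, abs_of_nonneg (Nat.cast_nonneg n)]⟩,
      fun J hJ => by rw [hemp] at hJ; exact absurd hJ (Set.notMem_empty J)⟩
    simp only [Real.log_exp, integral_const, probReal_univ, one_smul] at h2
    rw [ENNReal.ofReal_le_iff_le_toReal hXt] at h2
    linarith
  set h := X.toReal with hh
  have hmm : ∀ ε : ℝ, 0 < ε → ε < 1 → mm π I ε ≤ h := by
    intro ε h0 h1
    apply _root_.le_of_forall_pos_le_add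
    intro η hη
    obtain ⟨r, hr, hrm⟩ := claim1 π hI hJ0 h0 h1 hη
    have h2 := hX r hr
    rw [ENNReal.ofReal_le_iff_le_toReal hXt] at h2
    linarith
  obtain ⟨b, C0, hb, hC0, hlim, hphi⟩ := claim2 π hI hJ0 h hmm
  have hphit : phi π C0 ≠ ∞ := ne_top_of_le_ne_top ENNReal.ofReal_ne_top hphi
  have hbd : ∀ᶠ δ in 𝓝[>] (0 : ℝ), Hcnt π I ≤
      phi π C0 + (2 * ENNReal.ofReal (- Real.log (1 - δ)) + ENNReal.ofReal δ) := by
    filter_upwards [self_mem_nhdsWithin, Ioo_mem_nhdsGT one_pos] with δ _ hδ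
    exact claim2b π hI b C0 hb hC0 hlim hphit δ hδ.1 hδ.2
  have hcont : Tendsto (fun δ : ℝ => phi π C0 +
      (2 * ENNReal.ofReal (- Real.log (1 - δ)) + ENNReal.ofReal δ)) (𝓝[>] (0 : ℝ))
      (𝓝 (phi π C0 + (2 * ENNReal.ofReal (- Real.log (1 - 0)) + ENNReal.ofReal 0))) := by
    apply tendsto_const_nhds.add
    apply Tendsto.add
    · apply ENNReal.Tendsto.const_mul _ (Or.inr (by norm_num))
      apply ENNReal.tendsto_ofReal
      apply Tendsto.mono_left _ nhdsWithin_le_nhds
      apply Tendsto.neg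
      apply Tendsto.log _ (by norm_num)
      exact tendsto_const_nhds.sub tendsto_id
    · apply ENNReal.tendsto_ofReal
      exact Tendsto.mono_left tendsto_id nhdsWithin_le_nhds
  have hfin := ge_of_tendsto hcont hbd
  simp only [sub_zero, Real.log_one, neg_zero, ENNReal.ofReal_zero, mul_zero, add_zero] at hfin
  refine hfin.trans (hphi.trans (le_of_eq ?_))
  rw [hh, ENNReal.ofReal_toReal hXt]

/-- Countable convex combinations come from compatible measures. -/
theorem Hfull_le_Hcnt (π : Measure Ω) [IsProbabilityMeasure π] (I : Set (Set Ω))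
    (hI : ∀ J ∈ I, MeasurableSet J) : Hfull π I ≤ Hcnt π I := by
  unfold Hcnt
  refine le_iInf₂ fun a ha => ?_
  obtain ⟨q, J, hq, hJ, hx⟩ := ha
  let m : MeasurableSpace I := ⊤
  set Js : ℕ → I := fun k => ⟨J k, hJ k⟩ with hJs
  set β : @Measure I m := Measure.sum (fun k => q k • Measure.dirac (Js k)) with hβ
  have hms : ∀ s : Set I, MeasurableSet s := fun s => trivial
  have hβint : ∀ f : I → ℝ≥0∞, ∫⁻ n, f n ∂β = ∑' k, q k * f (Js k) := by
    intro f
    rw [hβ, lintegral_sum_measure]
    congr 1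
    ext k
    rw [lintegral_smul_measure, lintegral_dirac' _ (fun s _ => hms _), smul_eq_mul]
  have hβp : IsProbabilityMeasure β := ⟨by
    have := hβint (fun _ => 1)
    simpa [hq] using this⟩
  have hcomp : Compatible π β := by
    refine ⟨hβp, ?_⟩
    set S' : Set (I × Ω) := ⋃ k, ({Js k} : Set I) ×ˢ (J k) with hS'
    have hS'm : MeasurableSet S' :=
      MeasurableSet.iUnion fun k => (hms _).prod (hI _ (hJ k))
    refine hS'm.nullMeasurableSet.congr ?_
    set Dc : Set I := (Set.range Js)ᶜ with hDc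
    have hβD : β Dc = 0 := by
      rw [← lintegral_indicator_one (hms Dc), hβint]
      rw [ENNReal.tsum_eq_zero]
      intro k
      have : Js k ∉ Dc := fun hcon => hcon ⟨k, rfl⟩
      rw [Set.indicator_of_notMem this, mul_zero]
    have hnull : (β.prod π) (Dc ×ˢ (Set.univ : Set Ω)) = 0 := by
      rw [Measure.prod_prod, hβD, zero_mul]
    have hae : ∀ᵐ p ∂(β.prod π), p ∉ Dc ×ˢ (Set.univ : Set Ω) := measure_eq_zero_iff_ae_notMem.1 hnull
    filter_upwards [hae] with p hp
    have hpD : p.1 ∈ Set.range Js := by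
      by_contra hcon
      exact hp ⟨hcon, Set.mem_univ _⟩
    obtain ⟨k, hk⟩ := hpD
    apply propext
    constructor
    · intro hpS
      obtain ⟨k', hk'⟩ := Set.mem_iUnion.1 hpS
      have h2 : p.1 = Js k' := hk'.1
      show p.2 ∈ (p.1 : Set Ω)
      rw [h2]
      exact hk'.2
    · intro hpS
      refine Set.mem_iUnion.2 ⟨k, hk.symm, ?_⟩
      have h2 : p.2 ∈ (p.1 : Set Ω) := hpS
      rw [← hk] at h2
      exact h2
  have hmix : mix β = a := by
    ext x
    unfold mix
    rw [hβint, hx]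
    congr 1
    ext k
    by_cases h2 : x ∈ J k
    · rw [Set.indicator_of_mem h2, Set.indicator_of_mem (s := ((Js k : I) : Set Ω)) h2]
      simp
    · rw [Set.indicator_of_notMem h2, Set.indicator_of_notMem (s := ((Js k : I) : Set Ω)) h2,
        mul_zero]
  rw [← hmix]
  exact iInf_le_of_le m (iInf₂_le β hcomp)

/-- The main theorem: the covering entropy exists for every system and equals the
compatible-measure bound, which also equals the countable bound. -/
theorem covering_entropy (π : Measure Ω) [IsProbabilityMeasure π] (I : Set (Set Ω))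
    (hI : ∀ J ∈ I, MeasurableSet J) (lam : ℝ) (h0 : 0 < lam) (h1 : lam < 1) :
    Tendsto (fun l : ℕ => lg (covN π I lam l) / l) atTop (𝓝 (Hfull π I)) ∧
      Hcnt π I = Hfull π I := by
  have e1 : Hcnt π I = Hfull π I := le_antisymm
    (main_bound π I hI _ (fun r hr => weak_duality π I hI r hr)) (Hfull_le_Hcnt π I hI)
  refine ⟨?_, e1⟩
  have hlow : Hcnt π I ≤ liminf (fun l : ℕ => lg (covN π I lam l) / l) atTop :=
    main_bound π I hI _ (fun r hr => lower_bound π I hI r hr lam h1)
  have hup : limsup (fun l : ℕ => lg (covN π I lam l) / l) atTop ≤ Hcnt π I :=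
    le_iInf₂ fun a ha => upper_bound π I hI a ha lam h0 h1
  rw [← e1]
  exact tendsto_of_le_liminf_of_limsup_le hlow hup

end Pool.Agent.R130.Cov
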