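import Mathlib

/-!
Pircons, zircons, special partial matchings; the rank function of a pircon.
-/

open Set

namespace Pool.Agent.R130.Pircon

universe u

/-- A special partial matching on a poset with maximum. -/
structure IsSPM {Q : Type*} [PartialOrder Q] [OrderTop Q] (M : Q → Q) : Prop where
  invol : ∀ x, M (M x) = x
  top : M ⊤ ⋖ ⊤
  near : ∀ x, M x ⋖ x ∨ M x = x ∨ x ⋖ M x
  mono : ∀ x y, x ⋖ y → M x ≠ y → M x < M y

/-- A special matching: a special partial matching with no fixed points. -/
def IsSM {Q : Type*} [PartialOrder Q] [OrderTop Q] (M : Q → Q) : Prop :=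
  IsSPM M ∧ ∀ x, M x ≠ x

/-- A pircon: every principal ideal of a non-minimal element is finite and admits a special
partial matching. -/
def IsPircon (P : Type*) [PartialOrder P] : Prop :=
  ∀ x : P, ¬ IsMin x → (Set.Iic x).Finite ∧ ∃ M : Set.Iic x → Set.Iic x, IsSPM M

/-- A zircon: every principal ideal of a non-minimal element is finite and admits a special
matching. -/
def IsZircon (P : Type*) [PartialOrder P] : Prop :=
  ∀ x : P, ¬ IsMin x → (Set.Iic x).Finite ∧ ∃ M : Set.Iic x → Set.Iic x, IsSM M

/-- A rank function. -/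
def IsRank {P : Type*} [PartialOrder P] (r : P → ℕ) : Prop :=
  (∀ x, IsMin x → r x = 0) ∧ ∀ x y, x ⋖ y → r y = r x + 1

open Classical in
/-- The map `M'_p` on the ideal of `p` in the induced subposet `S`: send `x` to `M_p x` if this
lies in `S`, and to `x` otherwise. -/
noncomputable def induced {Z : Type*} [PartialOrder Z] (S : Set Z) (p : S)
    (M : Set.Iic (p : Z) → Set.Iic (p : Z)) (x : Set.Iic p) : Set.Iic p :=
  if h : ((M ⟨x.1.1, x.2⟩ : Set.Iic (p : Z)) : Z) ∈ S then
    ⟨⟨((M ⟨x.1.1, x.2⟩ : Set.Iic (p : Z)) : Z), h⟩, (M ⟨x.1.1, x.2⟩).2⟩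
  else x

/-- `S` is an induced pircon of `Z`, where `Z` is equipped with the rank function `rk` and with
the special matchings `M z` (only the values at non-minimal `z` matter). -/
def IsInducedPircon {Z : Type*} [PartialOrder Z] (rk : Z → ℕ)
    (M : ∀ z : Z, Set.Iic z → Set.Iic z) (S : Set Z) : Prop :=
  (∀ p : S, ¬ IsMin p → IsSPM (induced S p (M p))) ∧ IsRank (fun p : S => rk p)

/-! ### Unbundled special partial matchings -/

/-- A special partial matching of the ideal `Iic p`, as a map on the whole poset. -/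
structure SPM {P : Type*} [PartialOrder P] (p : P) (M : P → P) : Prop where
  maps : ∀ x, x ≤ p → M x ≤ p
  invol : ∀ x, x ≤ p → M (M x) = x
  top : M p ⋖ p
  near : ∀ x, x ≤ p → M x ⋖ x ∨ M x = x ∨ x ⋖ M x
  mono : ∀ x y, y ≤ p → x ⋖ y → M x ≠ y → M x < M y

theorem covBy_Iic {P : Type*} [PartialOrder P] {p : P} {x y : Set.Iic p} :
    x ⋖ y ↔ (x : P) ⋖ (y : P) := by
  constructor
  · rintro ⟨h1, h2⟩
    refine ⟨h1, fun z hxz hzy => ?_⟩
    exact h2 (c := ⟨z, hzy.le.trans y.2⟩) hxz hzy
  · rintro ⟨h1, h2⟩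
    exact ⟨h1, fun z hxz hzy => h2 hxz hzy⟩

theorem exists_SPM {P : Type*} [PartialOrder P] {p : P} {M : Set.Iic p → Set.Iic p}
    (h : IsSPM M) : ∃ M' : P → P, SPM p M' := by
  classical
  refine ⟨fun x => if hx : x ≤ p then (M ⟨x, hx⟩ : P) else x, ?_, ?_, ?_, ?_, ?_⟩
  · intro x hx
    simp only [hx, dif_pos]
    exact (M ⟨x, hx⟩).2
  · intro x hx
    have h1 : ((M ⟨x, hx⟩ : Set.Iic p) : P) ≤ p := (M ⟨x, hx⟩).2
    simp only [hx, dif_pos, h1]
    exact congrArg Subtype.val (h.invol ⟨x, hx⟩)
  · simp only [le_refl, dif_pos]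
    exact covBy_Iic.1 h.top
  · intro x hx
    simp only [hx, dif_pos]
    rcases h.near ⟨x, hx⟩ with h1 | h1 | h1
    · exact Or.inl (covBy_Iic.1 h1)
    · exact Or.inr (Or.inl (congrArg Subtype.val h1))
    · exact Or.inr (Or.inr (covBy_Iic.1 h1))
  · intro x y hy hxy hne
    have hx : x ≤ p := hxy.le.trans hy
    simp only [hx, hy, dif_pos] at hne ⊢
    refine h.mono ⟨x, hx⟩ ⟨y, hy⟩ (covBy_Iic.2 hxy) ?_
    intro h1
    exact hne (congrArg Subtype.val h1)

theorem SPM.isSPM {P : Type*} [PartialOrder P] {p : P} {M : P → P} (h : SPM p M) :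
    IsSPM (fun x : Set.Iic p => (⟨M x, h.maps x x.2⟩ : Set.Iic p)) := by
  refine ⟨?_, ?_, ?_, ?_⟩
  · intro x
    exact Subtype.ext (h.invol x x.2)
  · exact covBy_Iic.2 h.top
  · intro x
    rcases h.near x x.2 with h1 | h1 | h1
    · exact Or.inl (covBy_Iic.2 h1)
    · exact Or.inr (Or.inl (Subtype.ext h1))
    · exact Or.inr (Or.inr (covBy_Iic.2 h1))
  · intro x y hxy hne
    refine h.mono x y y.2 (covBy_Iic.1 hxy) ?_
    intro h1
    exact hne (Subtype.ext h1)

/-! ### Finite ideals -/

section

variable {P : Type u} [PartialOrder P]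

theorem finite_Iic (hP : IsPircon P) (x : P) : (Set.Iic x).Finite := by
  by_cases hx : IsMin x
  · have : Set.Iic x = {x} := by
      ext y
      constructor
      · intro hy
        exact le_antisymm hy (hx hy)
      · rintro rfl
        exact le_refl _
    rw [this]
    exact Set.finite_singleton x
  · exact (hP x hx).1

theorem exists_spm (hP : IsPircon P) (x : P) (hx : ¬ IsMin x) : ∃ M : P → P, SPM x M := by
  obtain ⟨M, hM⟩ := (hP x hx).2
  exact exists_SPM hM

theorem wfLT (hF : ∀ x : P, (Set.Iic x).Finite) : WellFounded ((· < ·) : P → P → Prop) := by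
  have h : ∀ x y : P, x < y → (Set.Iic x).ncard < (Set.Iic y).ncard := by
    intro x y hxy
    apply Set.ncard_lt_ncard _ (hF y)
    refine ⟨Set.Iic_subset_Iic.2 hxy.le, ?_⟩
    intro hsub
    exact absurd (hsub (Set.mem_Iic.2 le_rfl)) hxy.not_ge
  exact Subrelation.wf (fun {x y} hxy => h x y hxy) (InvImage.wf (fun x => (Set.Iic x).ncard) wellFounded_lt)

theorem exists_cov_below (hF : ∀ x : P, (Set.Iic x).Finite) {x y : P} (hxy : x < y) :
    ∃ c, x ≤ c ∧ c ⋖ y := by
  have hfin : {c | x ≤ c ∧ c < y}.Finite := (hF y).subset (fun c hc => hc.2.le)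
  obtain ⟨c, hc⟩ := hfin.exists_maximal ⟨x, le_rfl, hxy⟩
  refine ⟨c, hc.prop.1, hc.prop.2, fun z hcz hzy => ?_⟩
  exact absurd (hc.le_of_ge (y := z) ⟨hc.prop.1.trans hcz.le, hzy⟩ hcz.le) hcz.not_ge

theorem exists_cov_above (hF : ∀ x : P, (Set.Iic x).Finite) {x y : P} (hxy : x < y) :
    ∃ c, x ⋖ c ∧ c ≤ y := by
  have hfin : {c | x < c ∧ c ≤ y}.Finite := (hF y).subset (fun c hc => hc.2)
  obtain ⟨c, hc⟩ := hfin.exists_minimal ⟨y, hxy, le_rfl⟩
  refine ⟨c, ⟨hc.prop.1, fun z hxz hzc => ?_⟩, hc.prop.2⟩
  exact absurd (hc.le_of_le (y := z) ⟨hxz, hzc.le.trans hc.prop.2⟩ hzc.le) hzc.not_ge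

/-- Lifting property. -/
theorem SPM.lift (hF : ∀ x : P, (Set.Iic x).Finite) {p : P} {N : P → P} (hN : SPM p N) {a : P} :
    ∀ b, a ≤ b → b ≤ p → N a ≤ b ∨ N a ≤ N b := by
  intro b
  induction b using (wfLT hF).induction with
  | _ b ih =>
    intro hab hbp
    rcases hab.eq_or_lt with rfl | hlt
    · exact Or.inr le_rfl
    · obtain ⟨c, hac, hcb⟩ := exists_cov_below hF hlt
      rcases ih c hcb.lt hac (hcb.le.trans hbp) with h1 | h1
      · exact Or.inl (h1.trans hcb.le)
      · by_cases h2 : N c = b
        · exact Or.inl (h1.trans h2.le)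
        · exact Or.inr (h1.trans (hN.mono c b hbp hcb h2).le)

theorem SPM.lift_down (hF : ∀ x : P, (Set.Iic x).Finite) {p : P} {N : P → P} (hN : SPM p N)
    {a : P} (ha : ¬ N a ⋖ a) :
    ∀ b, a ≤ b → b ≤ p → N b ⋖ b → a ≤ N b := by
  intro b
  induction b using (wfLT hF).induction with
  | _ b ih =>
    intro hab hbp hNb
    rcases hab.eq_or_lt with rfl | hlt
    · exact absurd hNb ha
    · obtain ⟨c, hac, hcb⟩ := exists_cov_below hF hlt
      by_cases h2 : N c = b
      · have : N b = c := by rw [← h2]; exact hN.invol c (hcb.le.trans hbp)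
        rw [this]
        exact hac
      · have h3 := hN.mono c b hbp hcb h2
        rcases hN.near c (hcb.le.trans hbp) with h4 | h4 | h4
        · exact (ih c hcb.lt hac (hcb.le.trans hbp) h4).trans h3.le
        · exact hac.trans (h4.symm.le.trans h3.le)
        · exact hac.trans (h4.le.trans h3.le)

/-! ### The rank function -/

theorem exists_rank (hP : IsPircon P) : ∃ r : P → ℕ, IsRank r := by
  classical
  have hF := finite_Iic hP
  have hwf := wfLT hF
  have hN : ∀ x : P, ∃ M : P → P, ¬ IsMin x → SPM x M := by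
    intro x
    by_cases hx : IsMin x
    · exact ⟨id, fun h => absurd hx h⟩
    · obtain ⟨M, hM⟩ := exists_spm hP x hx
      exact ⟨M, fun _ => hM⟩
  choose N hN using hN
  let F : (x : P) → ((y : P) → y < x → ℕ) → ℕ := fun x ih =>
    if h : IsMin x then 0 else ih (N x x) (hN x h).top.lt + 1
  let r : P → ℕ := hwf.fix F
  have hr : ∀ x, r x = F x (fun y _ => r y) := fun x => hwf.fix_eq F x
  have hr0 : ∀ x, IsMin x → r x = 0 := by
    intro x hx
    rw [hr x]
    simp only [F, dif_pos hx]
  have hr1 : ∀ x, ¬ IsMin x → r x = r (N x x) + 1 := by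
    intro x hx
    rw [hr x]
    simp only [F, dif_neg hx]
  have key : ∀ p : P, ∀ y, y ⋖ p → r p = r y + 1 := by
    intro p
    induction p using hwf.induction with
    | _ p ih =>
      intro y hy
      have hp : ¬ IsMin p := fun h => absurd (h hy.le) hy.lt.not_ge
      have hM := hN p hp
      set M := N p with hMdef
      set q := M p with hq
      by_cases hyq : y = q
      · rw [hr1 p hp, hyq]
      · have hyp := hy.le
        have hMq : M q = p := hM.invol p le_rfl
        have hMy : M y ≠ p := by
          intro h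
          apply hyq
          rw [hq, ← h]
          exact (hM.invol y hyp).symm
        have h1 : M y < q := hM.mono y p le_rfl hy hMy
        have hnle : ¬ y ≤ q := by
          intro h
          have hlt : y < q := lt_of_le_of_ne h hyq
          exact hy.2 hlt hM.top.lt
        have h2 : M y ⋖ y := by
          rcases hM.near y hyp with h | h | h
          · exact h
          · exact absurd (h.symm.le.trans h1.le) hnle
          · exact absurd (h.le.trans h1.le) hnle
        obtain ⟨z, hz1, hz2⟩ := exists_cov_below hF h1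
        have hzp : z ≤ p := hz2.le.trans hM.top.le
        have h3 : y ≤ M z := by
          rcases hM.lift hF (a := M y) z hz1 hzp with h | h
          · rw [hM.invol y hyp] at h
            exact absurd (h.trans hz2.le) hnle
          · rw [hM.invol y hyp] at h
            exact h
        have h4 : M z < p := by
          have := hM.mono z q hM.top.le hz2 ?_
          · rwa [hMq] at this
          · intro h
            have h5 : M q = z := by rw [← h]; exact hM.invol z hzp
            rw [hMq] at h5
            have := hz2.lt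
            rw [← h5] at this
            exact absurd hM.top.lt this.not_gt
        have h5 : M z = y := by
          by_contra hne
          exact hy.2 (lt_of_le_of_ne h3 (Ne.symm hne)) h4
        have h6 : z = M y := by rw [← h5]; exact (hM.invol z hzp).symm
        rw [h6] at hz2
        have e1 := ih y hy.lt _ h2
        have e2 := ih q hM.top.lt _ hz2
        rw [hr1 p hp, e1]
        show r q + 1 = _
        rw [e2]
  exact ⟨r, hr0, fun x y hxy => key y x hxy⟩

theorem IsRank.strictMono (hF : ∀ x : P, (Set.Iic x).Finite) {r : P → ℕ} (hr : IsRank r) :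
    ∀ x y : P, x < y → r x < r y := by
  intro x y
  induction y using (wfLT hF).induction with
  | _ y ih =>
    intro hxy
    obtain ⟨c, hxc, hcy⟩ := exists_cov_below hF hxy
    have h1 := hr.2 c y hcy
    rcases hxc.eq_or_lt with rfl | hlt
    · omega
    · have := ih c hcy.lt hlt
      omega

end

end Pool.Agent.R130.Pircon
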