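import Pool.Agent.R130.PirconA

/-!
The zircon `P ∪ P*` hosting a pircon `P`.
-/

open Set

namespace Pool.Agent.R130.Pircon

universe u

section

variable {P : Type u} [PartialOrder P]

/-- `[u,v]` is the three element chain `u ⋖ z ⋖ v`. -/
def Tri (u z v : P) : Prop := u ⋖ z ∧ z ⋖ v ∧ ∀ w, u < w → w < v → w = z

/-- `[x,y]` contains a three element interval of rank two. -/
def Ball (x y : P) : Prop := ∃ u z v, x ≤ u ∧ v ≤ y ∧ Tri u z v

theorem Tri.lt {u z v : P} (h : Tri u z v) : u < v := h.1.lt.trans h.2.1.lt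

theorem Ball.lt {x y : P} (h : Ball x y) : x < y := by
  obtain ⟨u, z, v, h1, h2, h3⟩ := h
  exact (h1.trans_lt h3.lt).trans_le h2

theorem Ball.mono {x y x' y' : P} (h : Ball x y) (hx : x' ≤ x) (hy : y ≤ y') : Ball x' y' := by
  obtain ⟨u, z, v, h1, h2, h3⟩ := h
  exact ⟨u, z, v, hx.trans h1, h2.trans hy, h3⟩

theorem Tri.ball {u z v : P} (h : Tri u z v) : Ball u v := ⟨u, z, v, le_rfl, le_rfl, h⟩

/-- A ranked context: all principal ideals are finite and there is a rank function. -/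
structure Ranked (r : P → ℕ) : Prop where
  fin : ∀ x : P, (Set.Iic x).Finite
  rank : IsRank r

variable {r : P → ℕ}

theorem Ranked.lt (hR : Ranked r) {x y : P} (h : x < y) : r x < r y :=
  hR.rank.strictMono hR.fin x y h

theorem Ranked.cov (hR : Ranked r) {x y : P} (h : x < y) (hr : r y = r x + 1) : x ⋖ y := by
  refine ⟨h, fun z h1 h2 => ?_⟩
  have := hR.lt h1
  have := hR.lt h2
  omega

theorem Ranked.covr (hR : Ranked r) {x y : P} (h : x ⋖ y) : r y = r x + 1 := hR.rank.2 x y h

theorem step (hR : Ranked r) {p : P} {N : P → P} (hN : SPM p N) {s t w : P} (htp : t ≤ p)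
    (hst : r t = r s + 2) (h1 : s < w) (h2 : w < t) (hs : N s ≠ w) (hw : N w ≠ t) :
    N s < N w ∧ N w < N t := by
  have e1 := hR.lt h1
  have e2 := hR.lt h2
  have c1 : s ⋖ w := hR.cov h1 (by omega)
  have c2 : w ⋖ t := hR.cov h2 (by omega)
  exact ⟨hN.mono s w (h2.le.trans htp) c1 hs, hN.mono w t htp c2 hw⟩

theorem Tri.rank (hR : Ranked r) {u z v : P} (h : Tri u z v) : r v = r u + 2 := by
  have := hR.covr h.1
  have := hR.covr h.2.1
  omega

theorem Tri.mk' (hR : Ranked r) {u z v : P} (h1 : u < z) (h2 : z < v) (h3 : r v = r u + 2)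
    (h4 : ∀ w, u < w → w < v → w = z) : Tri u z v := by
  have e1 := hR.lt h1
  have e2 := hR.lt h2
  exact ⟨hR.cov h1 (by omega), hR.cov h2 (by omega), h4⟩

/-- (a) -/
theorem tri_a (hR : Ranked r) {p : P} {N : P → P} (hN : SPM p N) {u z v : P} (hv : v ≤ p)
    (hT : Tri u z v) (hu : u ⋖ N u) (hz : N u ≠ z) : v ⋖ N v ∧ Tri (N u) (N z) (N v) := by
  have hup : u ≤ p := hT.lt.le.trans hv
  have hzp : z ≤ p := hT.2.1.le.trans hv
  have e1 := hR.covr hT.1
  have e2 := hR.covr hT.2.1
  have e3 := hR.covr hu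
  have c1 := hN.mono u z hzp hT.1 hz
  have hzv : N z ≠ v := by
    intro h
    rw [h] at c1
    exact hz (hT.2.2 _ hu.lt c1)
  have c2 := hN.mono z v hv hT.2.1 hzv
  have e4 := hR.lt c1
  have e5 := hR.lt c2
  have hNv : v ⋖ N v := by
    rcases hN.near v hv with h | h | h
    · have := hR.covr h
      omega
    · rw [h] at e5
      omega
    · exact h
  have e6 := hR.covr hNv
  refine ⟨hNv, Tri.mk' hR c1 c2 (by omega) ?_⟩
  intro w hw1 hw2
  have hNvp : N v ≤ p := hN.maps v hv
  have hNN : N (N v) = v := hN.invol v hv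
  have hNNu : N (N u) = u := hN.invol u hup
  have hwp : w ≤ p := hw2.le.trans hNvp
  have hwv : w ≠ v := by
    rintro rfl
    exact hz (hT.2.2 _ hu.lt hw1)
  have := step hR hN hNvp (by omega : r (N v) = r (N u) + 2) hw1 hw2 (by
    rw [hNNu]
    rintro rfl
    exact absurd hu.lt hw1.not_gt) (by
    intro h
    apply hwv
    rw [← hN.invol w hwp, h, hNN])
  rw [hNNu, hNN] at this
  have h5 := hT.2.2 _ this.1 this.2
  rw [← h5]
  exact (hN.invol w hwp).symm

/-- (b) -/
theorem tri_b (hR : Ranked r) {p : P} {N : P → P} (hN : SPM p N) {u z v : P} (hv : v ≤ p)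
    (hT : Tri u z v) (hz : N u = z) (hNv : v ⋖ N v) : Tri z v (N v) := by
  have hup : u ≤ p := hT.lt.le.trans hv
  have hzp : z ≤ p := hT.2.1.le.trans hv
  have e1 := hR.covr hT.1
  have e2 := hR.covr hT.2.1
  have e6 := hR.covr hNv
  refine ⟨hT.2.1, hNv, ?_⟩
  intro w hw1 hw2
  by_contra hwv
  have hNvp : N v ≤ p := hN.maps v hv
  have hNN : N (N v) = v := hN.invol v hv
  have hNz : N z = u := by rw [← hz]; exact hN.invol u hup
  have hwp : w ≤ p := hw2.le.trans hNvp
  have := step hR hN hNvp (by omega : r (N v) = r z + 2) hw1 hw2 (by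
    rw [hNz]
    rintro rfl
    exact absurd hT.1.lt hw1.not_gt) (by
    intro h
    apply hwv
    rw [← hN.invol w hwp, h, hNN])
  rw [hNz, hNN] at this
  have h5 := hT.2.2 _ this.1 this.2
  have h6 : w = u := by rw [← hN.invol w hwp, h5, hNz]
  rw [h6] at hw1
  exact absurd hT.1.lt hw1.not_gt

/-- In the situation `N u = z`, `N v` does not go down. -/
theorem tri_b' (hR : Ranked r) {p : P} {N : P → P} (hN : SPM p N) {u z v : P} (hv : v ≤ p)
    (hT : Tri u z v) (hz : N u = z) : ¬ N v ⋖ v := by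
  intro h
  have hup : u ≤ p := hT.lt.le.trans hv
  have hNz : N z = u := by rw [← hz]; exact hN.invol u hup
  have h1 : N z < N v := hN.mono z v hv hT.2.1 (by rw [hNz]; exact hT.lt.ne)
  rw [hNz] at h1
  have h2 := hT.2.2 _ h1 h.lt
  have h3 : v = u := by rw [← hN.invol v hv, h2, hNz]
  exact hT.lt.ne h3.symm

/-- (c) -/
theorem tri_c (hR : Ranked r) {p : P} {N : P → P} (hN : SPM p N) {u z v : P} (hv : v ≤ p)
    (hT : Tri u z v) (hu : N u ⋖ u) (hz : N v = z) : Tri (N u) u z := by
  have hup : u ≤ p := hT.lt.le.trans hv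
  have hzp : z ≤ p := hT.2.1.le.trans hv
  have e1 := hR.covr hT.1
  have e2 := hR.covr hT.2.1
  have e6 := hR.covr hu
  refine ⟨hu, hT.1, ?_⟩
  intro w hw1 hw2
  by_contra hwu
  have hNz : N z = v := by rw [← hz]; exact hN.invol v hv
  have hNNu : N (N u) = u := hN.invol u hup
  have hwp : w ≤ p := hw2.le.trans hzp
  have := step hR hN hzp (by omega : r z = r (N u) + 2) hw1 hw2 (by
    rw [hNNu]
    exact fun h => hwu h.symm) (by
    intro h
    have : w = v := by rw [← hN.invol w hwp, h, hNz]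
    rw [this] at hw2
    exact absurd hT.2.1.lt hw2.not_gt)
  rw [hNNu, hNz] at this
  have h5 := hT.2.2 _ this.1 this.2
  have h6 : w = v := by rw [← hN.invol w hwp, h5, hNz]
  rw [h6] at hw2
  exact absurd hT.2.1.lt hw2.not_gt

/-- (d) -/
theorem tri_d (hR : Ranked r) {p : P} {N : P → P} (hN : SPM p N) {u z v : P} (hv : v ≤ p)
    (hT : Tri u z v) (hu : N u ⋖ u) (hNv : N v ⋖ v) (hz : N v ≠ z) :
    Tri (N u) (N z) (N v) := by
  have hup : u ≤ p := hT.lt.le.trans hv
  have hzp : z ≤ p := hT.2.1.le.trans hv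
  have e1 := hR.covr hT.1
  have e2 := hR.covr hT.2.1
  have e3 := hR.covr hu
  have e4 := hR.covr hNv
  have hNN : N (N v) = v := hN.invol v hv
  have hNNu : N (N u) = u := hN.invol u hup
  have c1 := hN.mono u z hzp hT.1 (by
    intro h
    have := hu.lt
    rw [h] at this
    exact absurd hT.1.lt this.not_gt)
  have c2 := hN.mono z v hv hT.2.1 (by
    intro h
    apply hz
    rw [← h]
    exact hN.invol z hzp)
  refine Tri.mk' hR c1 c2 (by omega) ?_
  intro w hw1 hw2
  have hNvp : N v ≤ p := hN.maps v hv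
  have hwp : w ≤ p := hw2.le.trans hNvp
  have := step hR hN hNvp (by omega : r (N v) = r (N u) + 2) hw1 hw2 (by
    rw [hNNu]
    rintro rfl
    exact hz (hT.2.2 _ hw2 hNv.lt)) (by
    intro h
    have h' : w = v := by rw [← hN.invol w hwp, h, hNN]
    rw [h'] at hw2
    exact absurd hNv.lt hw2.not_gt)
  rw [hNNu, hNN] at this
  have h5 := hT.2.2 _ this.1 this.2
  rw [← h5]
  exact (hN.invol w hwp).symm

/-- (e) -/
theorem tri_e (hR : Ranked r) {p : P} {N : P → P} (hN : SPM p N) {u v : P} (hv : v ≤ p)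
    (huv : u ⋖ v) (hu : N u = u) (hv' : N v ≠ v) : v ⋖ N v ∧ Tri u v (N v) := by
  have e1 := hR.covr huv
  have c1 := hN.mono u v hv huv (by rw [hu]; exact huv.lt.ne)
  rw [hu] at c1
  have hNv : v ⋖ N v := by
    rcases hN.near v hv with h | h | h
    · exact absurd h.lt (fun h' => huv.2 c1 h')
    · exact absurd h hv'
    · exact h
  have e2 := hR.covr hNv
  refine ⟨hNv, huv, hNv, ?_⟩
  intro w hw1 hw2
  by_contra hwv
  have hNvp : N v ≤ p := hN.maps v hv
  have hNN : N (N v) = v := hN.invol v hv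
  have hwp : w ≤ p := hw2.le.trans hNvp
  have := step hR hN hNvp (by omega : r (N v) = r u + 2) hw1 hw2 (by
    rw [hu]; exact hw1.ne) (by
    intro h
    apply hwv
    rw [← hN.invol w hwp, h, hNN])
  rw [hu, hNN] at this
  exact huv.2 this.1 this.2

/-- (f) -/
theorem tri_f (hR : Ranked r) {p : P} {N : P → P} (hN : SPM p N) {x y : P} (hy : y ≤ p)
    (hxy : x ⋖ y) (hx : N x ≠ x) (hy' : N y = y) : N x ⋖ x ∧ Tri (N x) x y := by
  have hxp : x ≤ p := hxy.le.trans hy
  have e1 := hR.covr hxy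
  have hne : N x ≠ y := by
    intro h
    have : x = y := by rw [← hN.invol x hxp, h, hy']
    exact hxy.lt.ne this
  have c1 := hN.mono x y hy hxy hne
  rw [hy'] at c1
  have hNx : N x ⋖ x := by
    rcases hN.near x hxp with h | h | h
    · exact h
    · exact absurd h hx
    · exact absurd c1 (hxy.2 h.lt)
  have e2 := hR.covr hNx
  have hNN : N (N x) = x := hN.invol x hxp
  refine ⟨hNx, hNx, hxy, ?_⟩
  intro w hw1 hw2
  by_contra hwx
  have hwp : w ≤ p := hw2.le.trans hy
  have := step hR hN hy (by omega : r y = r (N x) + 2) hw1 hw2 (by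
    rw [hNN]; exact fun h => hwx h.symm) (by
    intro h
    have h' : w = y := by rw [← hN.invol w hwp, h, hy']
    exact hw2.ne h')
  rw [hNN, hy'] at this
  exact hxy.2 this.1 this.2

/-- (i) A fixed point of `N` is the bottom of a non-thin interval `[x,p]`. -/
theorem fixed_ball (hR : Ranked r) {p : P} {N : P → P} (hN : SPM p N) {x : P} (hx : x ≤ p)
    (hfix : N x = x) : Ball x p := by
  have hfin : {c | x ≤ c ∧ c ≤ p ∧ N c = c}.Finite := (hR.fin p).subset (fun c hc => hc.2.1)
  obtain ⟨u, hu⟩ := hfin.exists_maximal ⟨x, le_rfl, hx, hfix⟩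
  have hup : u < p := by
    refine lt_of_le_of_ne hu.prop.2.1 ?_
    intro h
    have h1 := hN.top
    rw [← h, hu.prop.2.2] at h1
    exact h1.lt.false
  obtain ⟨c, hc1, hc2⟩ := exists_cov_above hR.fin hup
  have hc3 : N c ≠ c := by
    intro h
    exact absurd (hu.le_of_ge (y := c) ⟨hu.prop.1.trans hc1.le, hc2, h⟩ hc1.le) hc1.lt.not_ge
  have h2 := tri_e hR hN hc2 hc1 hu.prop.2.2 hc3
  exact h2.2.ball.mono hu.prop.1 (hN.maps c hc2)

/-- (ii) -/
theorem ball_map (hR : Ranked r) {p : P} {N : P → P} (hN : SPM p N) {x : P}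
    (hx : Ball x p) : Ball (N x) p := by
  have hxp : x ≤ p := hx.lt.le
  rcases hN.near x hxp with h | h | h
  · exact hx.mono h.le le_rfl
  · rwa [h]
  · obtain ⟨u, z, v, hxu, hvp, hT⟩ := hx
    have hup : u ≤ p := hT.lt.le.trans hvp
    by_cases h1 : N x ≤ u
    · exact ⟨u, z, v, h1, hvp, hT⟩
    · have h2 : N x ≤ N u := (hN.lift hR.fin u hxu hup).resolve_left h1
      have hu : u ⋖ N u := by
        rcases hN.near u hup with h3 | h3 | h3
        · exact absurd (h2.trans h3.le) h1
        · exact absurd (h2.trans h3.le) h1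
        · exact h3
      by_cases hz : N u = z
      · rcases hN.near v hvp with h4 | h4 | h4
        · exact absurd h4 (tri_b' hR hN hvp hT hz)
        · have := fixed_ball hR hN hvp h4
          exact this.mono (h2.trans (hz.le.trans hT.2.1.le)) le_rfl
        · have := tri_b hR hN hvp hT hz h4
          exact this.ball.mono (h2.trans hz.le) (hN.maps v hvp)
      · have := tri_a hR hN hvp hT hu hz
        exact this.2.ball.mono h2 (hN.maps v hvp)

end

end Pool.Agent.R130.Pircon
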