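import Pool.Agent.R130.PirconB

/-!
The poset `P ∪ P*` and its special matchings.
-/

open Set

namespace Pool.Agent.R130.Pircon

universe u

/-- The doubled poset: `a x` is the element `x` of `P`, `s x` is the new element `x*`. -/
inductive Dbl (P : Type u) : Type u
  | a : P → Dbl P
  | s : P → Dbl P

namespace Dbl

variable {P : Type u} [PartialOrder P]

/-- The order of the doubled poset. -/
def le : Dbl P → Dbl P → Prop
  | a x, a y => x ≤ y
  | a x, s y => x ≤ y
  | s x, s y => x ≤ y
  | s x, a y => Ball x y

instance : PartialOrder (Dbl P) where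
  le := le
  le_refl := by
    rintro (x | x)
    · exact le_refl x
    · exact le_refl x
  le_trans := by
    rintro (x | x) (y | y) (z | z) h1 h2
    · exact _root_.le_trans (α := P) h1 h2
    · exact _root_.le_trans (α := P) h1 h2
    · exact _root_.le_trans (α := P) h1 (Ball.lt h2).le
    · exact _root_.le_trans (α := P) h1 h2
    · exact Ball.mono h1 (_root_.le_refl x) h2
    · exact _root_.le_trans (α := P) (Ball.lt h1).le h2
    · exact Ball.mono h2 h1 (_root_.le_refl z)
    · exact _root_.le_trans (α := P) h1 h2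
  le_antisymm := by
    rintro (x | x) (y | y) h1 h2
    · exact congrArg a (_root_.le_antisymm (α := P) h1 h2)
    · exact absurd (Ball.lt h2) (not_lt_of_ge (α := P) h1)
    · exact absurd (Ball.lt h1) (not_lt_of_ge (α := P) h2)
    · exact congrArg s (_root_.le_antisymm (α := P) h1 h2)

theorem le_aa {x y : P} : (a x ≤ a y) ↔ x ≤ y := Iff.rfl
theorem le_as {x y : P} : (a x ≤ s y) ↔ x ≤ y := Iff.rfl
theorem le_ss {x y : P} : (s x ≤ s y) ↔ x ≤ y := Iff.rfl
theorem le_sa {x y : P} : (s x ≤ a y) ↔ Ball x y := Iff.rfl

theorem lt_aa {x y : P} : (a x < a y) ↔ x < y := by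
  rw [lt_iff_le_not_ge, lt_iff_le_not_ge]
  exact Iff.rfl
theorem lt_ss {x y : P} : (s x < s y) ↔ x < y := by
  rw [lt_iff_le_not_ge, lt_iff_le_not_ge]
  exact Iff.rfl
theorem lt_as {x y : P} : (a x < s y) ↔ x ≤ y := by
  rw [lt_iff_le_not_ge]
  constructor
  · exact fun h => h.1
  · intro h
    exact ⟨h, fun h2 => absurd (Ball.lt h2) (not_lt_of_ge h)⟩
theorem lt_sa {x y : P} : (s x < a y) ↔ Ball x y := by
  rw [lt_iff_le_not_ge]
  constructor
  · exact fun h => h.1
  · intro h
    refine ⟨h, fun h2 => ?_⟩
    have h3 : y ≤ x := h2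
    exact absurd h.lt (not_lt_of_ge h3)

/-- The rank of the doubled poset. -/
def rk (r : P → ℕ) : Dbl P → ℕ
  | a x => r x
  | s x => r x + 1

variable {r : P → ℕ}

theorem Ball.rank (hR : Ranked r) {x y : P} (h : Ball x y) : r x + 2 ≤ r y := by
  obtain ⟨u, z, v, h1, h2, h3⟩ := h
  have e := h3.rank hR
  have e1 : r x ≤ r u := by
    rcases h1.eq_or_lt with rfl | h
    · exact le_rfl
    · exact (hR.lt h).le
  have e2 : r v ≤ r y := by
    rcases h2.eq_or_lt with rfl | h
    · exact le_rfl
    · exact (hR.lt h).le
  omega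

theorem rk_lt (hR : Ranked r) {A B : Dbl P} (h : A < B) : rk r A < rk r B := by
  rcases A with x | x <;> rcases B with y | y
  · exact hR.lt (lt_aa.1 h)
  · have h1 := lt_as.1 h
    rcases h1.eq_or_lt with rfl | h2
    · exact Nat.lt_succ_self _
    · have := hR.lt h2
      simp only [rk]
      omega
  · have := Ball.rank hR (lt_sa.1 h)
    simp only [rk]
    omega
  · have := hR.lt (lt_ss.1 h)
    simp only [rk]
    omega

theorem cov_of (hR : Ranked r) {A B : Dbl P} (h : A < B) (hr : rk r B = rk r A + 1) : A ⋖ B := by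
  refine ⟨h, fun C h1 h2 => ?_⟩
  have := rk_lt hR h1
  have := rk_lt hR h2
  omega

theorem cov_aa {x y : P} (h : a x ⋖ a y) : x ⋖ y :=
  ⟨lt_aa.1 h.lt, fun _ h1 h2 => h.2 (lt_aa.2 h1) (lt_aa.2 h2)⟩

theorem cov_ss {x y : P} (h : s x ⋖ s y) : x ⋖ y :=
  ⟨lt_ss.1 h.lt, fun _ h1 h2 => h.2 (lt_ss.2 h1) (lt_ss.2 h2)⟩

theorem cov_as {x y : P} (h : a x ⋖ s y) : x = y := by
  have h1 := lt_as.1 h.lt
  by_contra hne
  exact h.2 (lt_aa.2 (lt_of_le_of_ne h1 hne)) (lt_as.2 le_rfl)

theorem cov_sa {x y : P} (h : s x ⋖ a y) : ∃ z, Tri x z y := by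
  obtain ⟨u, z, v, h1, h2, h3⟩ := lt_sa.1 h.lt
  have e1 : x = u := by
    by_contra hne
    exact h.2 (lt_ss.2 (lt_of_le_of_ne h1 hne)) (lt_sa.2 (h3.ball.mono le_rfl h2))
  have e2 : v = y := by
    by_contra hne
    exact h.2 (lt_sa.2 (h3.ball.mono h1 le_rfl)) (lt_aa.2 (lt_of_le_of_ne h2 hne))
  subst e1 e2
  exact ⟨z, h3⟩

theorem rank_rk (hR : Ranked r) : IsRank (rk r) := by
  constructor
  · rintro (x | x) hx
    · refine hR.rank.1 x ?_
      intro y hy
      exact hx (le_aa.2 hy)
    · have h1 : a x ≤ s x := lt_as.2 le_rfl |>.le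
      have h2 : s x ≤ a x := hx h1
      exact absurd (le_antisymm h1 h2) (by simp)
  · rintro (x | x) (y | y) h
    · exact hR.covr (cov_aa h)
    · have := cov_as h
      subst this
      rfl
    · obtain ⟨z, hz⟩ := cov_sa h
      have := hz.rank hR
      simp only [rk]
      omega
    · have := hR.covr (cov_ss h)
      simp only [rk]
      omega

theorem finite_Iic (hR : Ranked r) (A : Dbl P) : (Set.Iic A).Finite := by
  have key : ∀ p : P, (Set.Iic (s p)).Finite := by
    intro p
    have : Set.Iic (s p) ⊆ a '' Set.Iic p ∪ s '' Set.Iic p := by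
      rintro (x | x) hx
      · exact Or.inl ⟨x, hx, rfl⟩
      · exact Or.inr ⟨x, hx, rfl⟩
    exact (((hR.fin p).image a).union ((hR.fin p).image s)).subset this
  rcases A with p | p
  · exact (key p).subset (Set.Iic_subset_Iic.2 (le_as.2 le_rfl))
  · exact key p

/-- The toggle `x ↔ x*`. -/
def tog : Dbl P → Dbl P
  | a x => s x
  | s x => a x

theorem spm_tog (hR : Ranked r) (p : P) : SPM (s p) (tog : Dbl P → Dbl P) := by
  refine ⟨?_, ?_, ?_, ?_, ?_⟩
  · rintro (x | x) h
    · exact h
    · exact h
  · rintro (x | x) _ <;> rfl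
  · exact cov_of hR (lt_as.2 le_rfl) rfl
  · rintro (x | x) _
    · exact Or.inr (Or.inr (cov_of hR (lt_as.2 le_rfl) rfl))
    · exact Or.inl (cov_of hR (lt_as.2 le_rfl) rfl)
  · rintro (x | x) (y | y) _ hc hne
    · exact lt_ss.2 (cov_aa hc).lt
    · exact absurd (congrArg s (cov_as hc)) hne
    · obtain ⟨z, hz⟩ := cov_sa hc
      exact lt_as.2 hz.lt.le
    · exact lt_aa.2 (cov_ss hc).lt

open Classical in
/-- The special matching of `Iic (a p)` induced from an SPM of `Iic p`. -/
noncomputable def lift (N : P → P) : Dbl P → Dbl P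
  | a x => if N x = x then s x else a (N x)
  | s x => if N x = x then a x else s (N x)

theorem lift_a_fix {N : P → P} {x : P} (h : N x = x) : lift N (a x) = s x := by simp [lift, h]
theorem lift_s_fix {N : P → P} {x : P} (h : N x = x) : lift N (s x) = a x := by simp [lift, h]
theorem lift_a_ne {N : P → P} {x : P} (h : N x ≠ x) : lift N (a x) = a (N x) := by simp [lift, h]
theorem lift_s_ne {N : P → P} {x : P} (h : N x ≠ x) : lift N (s x) = s (N x) := by simp [lift, h]

theorem spm_lift (hR : Ranked r) {p : P} {N : P → P} (hN : SPM p N) : SPM (a p) (lift N) := by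
  have hNN : ∀ x, x ≤ p → N x ≠ x → N (N x) ≠ N x := by
    intro x hx h h2
    rw [hN.invol x hx] at h2
    exact h h2.symm
  refine ⟨?_, ?_, ?_, ?_, ?_⟩
  · rintro (x | x) h
    · have hx : x ≤ p := h
      by_cases hf : N x = x
      · rw [lift_a_fix hf]
        exact fixed_ball hR hN hx hf
      · rw [lift_a_ne hf]
        exact hN.maps x hx
    · have hx : Ball x p := h
      by_cases hf : N x = x
      · rw [lift_s_fix hf]
        exact hx.lt.le
      · rw [lift_s_ne hf]
        exact ball_map hR hN hx
  · rintro (x | x) h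
    · have hx : x ≤ p := h
      by_cases hf : N x = x
      · rw [lift_a_fix hf, lift_s_fix hf]
      · rw [lift_a_ne hf, lift_a_ne (hNN x hx hf), hN.invol x hx]
    · have hx : x ≤ p := (Ball.lt h).le
      by_cases hf : N x = x
      · rw [lift_s_fix hf, lift_a_fix hf]
      · rw [lift_s_ne hf, lift_s_ne (hNN x hx hf), hN.invol x hx]
  · have hf : N p ≠ p := hN.top.lt.ne
    rw [lift_a_ne hf]
    exact cov_of hR (lt_aa.2 hN.top.lt) (hR.covr hN.top)
  · rintro (x | x) h
    · have hx : x ≤ p := h
      by_cases hf : N x = x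
      · rw [lift_a_fix hf]
        exact Or.inr (Or.inr (cov_of hR (lt_as.2 le_rfl) rfl))
      · rw [lift_a_ne hf]
        rcases hN.near x hx with h1 | h1 | h1
        · exact Or.inl (cov_of hR (lt_aa.2 h1.lt) (hR.covr h1))
        · exact absurd h1 hf
        · exact Or.inr (Or.inr (cov_of hR (lt_aa.2 h1.lt) (hR.covr h1)))
    · have hx : x ≤ p := (Ball.lt h).le
      by_cases hf : N x = x
      · rw [lift_s_fix hf]
        exact Or.inl (cov_of hR (lt_as.2 le_rfl) rfl)
      · rw [lift_s_ne hf]
        rcases hN.near x hx with h1 | h1 | h1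
        · exact Or.inl (cov_of hR (lt_ss.2 h1.lt) (by
            have := hR.covr h1
            simp only [rk]; omega))
        · exact absurd h1 hf
        · exact Or.inr (Or.inr (cov_of hR (lt_ss.2 h1.lt) (by
            have := hR.covr h1
            simp only [rk]; omega)))
  · rintro (x | x) (y | y) hyp hc hne
    · -- a x ⋖ a y
      have hxy := cov_aa hc
      have hy : y ≤ p := hyp
      have hx : x ≤ p := hxy.le.trans hy
      by_cases hfx : N x = x
      · by_cases hfy : N y = y
        · rw [lift_a_fix hfx, lift_a_fix hfy]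
          exact lt_ss.2 hxy.lt
        · rw [lift_a_fix hfx, lift_a_ne hfy]
          exact lt_sa.2 (tri_e hR hN hy hxy hfx hfy).2.ball
      · rw [lift_a_ne hfx] at hne ⊢
        have hne' : N x ≠ y := fun h => hne (congrArg a h)
        have h1 := hN.mono x y hy hxy hne'
        by_cases hfy : N y = y
        · rw [lift_a_fix hfy]
          rw [hfy] at h1
          exact lt_as.2 h1.le
        · rw [lift_a_ne hfy]
          exact lt_aa.2 h1
    · -- a x ⋖ s y
      have hxy := cov_as hc
      subst hxy
      have hx : x ≤ p := (Ball.lt hyp).le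
      by_cases hfx : N x = x
      · rw [lift_a_fix hfx] at hne
        exact absurd rfl hne
      · rw [lift_a_ne hfx, lift_s_ne hfx]
        exact lt_as.2 le_rfl
    · -- s x ⋖ a y
      obtain ⟨z, hT⟩ := cov_sa hc
      have hy : y ≤ p := hyp
      have hx : x ≤ p := hT.lt.le.trans hy
      by_cases hfx : N x = x
      · rw [lift_s_fix hfx]
        by_cases hfy : N y = y
        · rw [lift_a_fix hfy]
          exact lt_as.2 hT.lt.le
        · rw [lift_a_ne hfy]
          refine lt_aa.2 ?_
          have hxNy : x ≠ N y := by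
            intro h
            have h2 : y = x := by
              rw [← hN.invol y hy, ← h, hfx]
            exact hT.lt.ne h2.symm
          rcases hN.near y hy with h1 | h1 | h1
          · refine lt_of_le_of_ne (hN.lift_down hR.fin ?_ y hT.lt.le hy h1) hxNy
            rw [hfx]
            exact fun h => h.lt.false
          · exact absurd h1 hfy
          · exact hT.lt.trans h1.lt
      · rw [lift_s_ne hfx]
        by_cases hfy : N y = y
        · rw [lift_a_fix hfy]
          refine lt_ss.2 ?_
          have hne' : N x ≠ y := by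
            intro h
            have : x = y := by rw [← hN.invol x hx, h, hfy]
            exact hT.lt.ne this
          refine lt_of_le_of_ne ?_ hne'
          rcases hN.lift hR.fin y hT.lt.le hy with h | h
          · exact h
          · rwa [hfy] at h
        · rw [lift_a_ne hfy]
          refine lt_sa.2 ?_
          rcases hN.near x hx with h1 | h1 | h1
          · rcases hN.near y hy with h2 | h2 | h2
            · by_cases hz : N y = z
              · rw [hz]
                exact (tri_c hR hN hy hT h1 hz).ball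
              · exact (tri_d hR hN hy hT h1 h2 hz).ball
            · exact absurd h2 hfy
            · exact hT.ball.mono h1.le h2.le
          · exact absurd h1 hfx
          · by_cases hz : N x = z
            · rcases hN.near y hy with h2 | h2 | h2
              · exact absurd h2 (tri_b' hR hN hy hT hz)
              · exact absurd h2 hfy
              · rw [hz]
                exact (tri_b hR hN hy hT hz h2).ball
            · exact (tri_a hR hN hy hT h1 hz).2.ball
    · -- s x ⋖ s y
      have hxy := cov_ss hc
      have hy : y ≤ p := (Ball.lt hyp).le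
      have hx : x ≤ p := hxy.le.trans hy
      by_cases hfx : N x = x
      · have h1 := hN.mono x y hy hxy (by rw [hfx]; exact hxy.lt.ne)
        rw [hfx] at h1
        by_cases hfy : N y = y
        · rw [lift_s_fix hfx, lift_s_fix hfy]
          exact lt_aa.2 hxy.lt
        · rw [lift_s_fix hfx, lift_s_ne hfy]
          exact lt_as.2 h1.le
      · rw [lift_s_ne hfx] at hne ⊢
        have hne' : N x ≠ y := fun h => hne (congrArg s h)
        by_cases hfy : N y = y
        · rw [lift_s_fix hfy]
          exact lt_sa.2 (tri_f hR hN hy hxy hfx hfy).2.ball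
        · rw [lift_s_ne hfy]
          exact lt_ss.2 (hN.mono x y hy hxy hne')

theorem lift_ne {p : P} {N : P → P} (A : Dbl P) : lift N A ≠ A := by
  rcases A with x | x
  · by_cases hf : N x = x
    · rw [lift_a_fix hf]; simp
    · rw [lift_a_ne hf]
      intro h
      injection h with h
      exact hf h
  · by_cases hf : N x = x
    · rw [lift_s_fix hf]; simp
    · rw [lift_s_ne hf]
      intro h
      injection h with h
      exact hf h

theorem tog_ne (A : Dbl P) : tog A ≠ A := by
  rcases A with x | x <;> simp [tog]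

end Dbl

end Pool.Agent.R130.Pircon
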