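import Mathlib

/-!
Ultrafilters on a semigroup: homomorphisms and a functorial choice of idempotents.
-/

open Filter

namespace Pool.Agent.R130.Ram

attribute [local instance] Ultrafilter.semigroup

section

variable {S T : Type*} [Semigroup S] [Semigroup T]

theorem map_mul (f : S → T) (hf : ∀ x y, f (x * y) = f x * f y) (U V : Ultrafilter S) :
    Ultrafilter.map f (U * V) = Ultrafilter.map f U * Ultrafilter.map f V := by
  apply Ultrafilter.coe_inj.mp
  apply Filter.ext'
  intro p
  rw [Ultrafilter.coe_map, Filter.eventually_map, Ultrafilter.eventually_mul,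
    Ultrafilter.eventually_mul]
  simp only [Ultrafilter.coe_map, Filter.eventually_map, hf]

theorem continuous_umap {S T : Type*} (f : S → T) :
    Continuous (Ultrafilter.map f : Ultrafilter S → Ultrafilter T) :=
  ultrafilterBasis_is_basis.continuous_iff.2 <| Set.forall_mem_range.mpr fun s ↦
    ultrafilter_isOpen_basic (f ⁻¹' s)

/-- A functorial choice of idempotents: `E X` is an idempotent of the closed subsemigroup
generated by `X`, and `E` commutes with continuous endomorphisms. -/
theorem exists_E (S : Type*) [Semigroup S] : ∃ E : Ultrafilter S → Ultrafilter S,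
    (∀ X, E X * E X = E X) ∧
    (∀ C : Set (Ultrafilter S), IsClosed C → (∀ x ∈ C, ∀ y ∈ C, x * y ∈ C) → ∀ X ∈ C, E X ∈ C) ∧
    (∀ f : Ultrafilter S → Ultrafilter S, Continuous f → (∀ x y, f (x * y) = f x * f y) →
      ∀ X, f (E X) = E (f X)) := by
  let P := Ultrafilter S → Ultrafilter S
  let Cs : Set (Set P) := {C | IsClosed C ∧ (∀ x ∈ C, ∀ y ∈ C, x * y ∈ C) ∧ id ∈ C}
  let G : Set P := ⋂₀ Cs
  have hGc : IsClosed G := isClosed_sInter fun C hC => hC.1
  have hGn : G.Nonempty := ⟨id, fun C hC => hC.2.2⟩
  have hGm : ∀ x ∈ G, ∀ y ∈ G, x * y ∈ G := fun x hx y hy C hC =>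
    hC.2.1 x (hx C hC) y (hy C hC)
  have hcont : ∀ r : P, Continuous (· * r) := by
    intro r
    refine continuous_pi fun X => ?_
    exact (Ultrafilter.continuous_mul_left (r X)).comp (continuous_apply X)
  obtain ⟨ε, hε, hεε⟩ := exists_idempotent_in_compact_subsemigroup hcont G hGn hGc.isCompact hGm
  refine ⟨ε, fun X => congrFun hεε X, ?_, ?_⟩
  · intro C hC hCm X hX
    have : {φ : P | φ X ∈ C} ∈ Cs := by
      refine ⟨hC.preimage (continuous_apply X), ?_, hX⟩
      intro φ hφ ψ hψ
      exact hCm _ hφ _ hψ
    exact hε _ this
  · intro f hf hfm X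
    have : {φ : P | f (φ X) = φ (f X)} ∈ Cs := by
      refine ⟨isClosed_eq (hf.comp (continuous_apply X)) (continuous_apply (f X)), ?_, rfl⟩
      intro φ hφ ψ hψ
      show f (φ X * ψ X) = φ (f X) * ψ (f X)
      rw [hfm]
      have h1 : f (φ X) = φ (f X) := hφ
      have h2 : f (ψ X) = ψ (f X) := hψ
      rw [h1, h2]
    exact hε _ this

end

/-! ### Finite partial functions -/

/-- Finite partial functions from `ℕ` to `α`. -/
@[ext]
structure PF (α : Type*) where
  /-- the partial function; `none` means undefined -/
  val : ℕ → Option α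
  fin : {n | val n ≠ none}.Finite

namespace PF

variable {α β γ : Type*}

/-- The product: `s` where `s` is defined, otherwise `t`. If the domain of `s` lies to the left of
the domain of `t` this is the union of `s` and `t`. -/
instance : Monoid (PF α) where
  mul s t := ⟨fun n => (s.val n).or (t.val n), (s.fin.union t.fin).subset (by
    intro n hn
    by_contra h
    simp only [Set.mem_union, Set.mem_ofPred_eq, not_or, not_not] at h
    exact hn (by simp [h.1, h.2]))⟩
  one := ⟨fun _ => none, by simp⟩
  mul_assoc s t r := by
    apply PF.ext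
    funext n
    exact Option.or_assoc
  one_mul s := by
    apply PF.ext
    funext n
    rfl
  mul_one s := by
    apply PF.ext
    funext n
    exact Option.or_none

theorem mul_val (s t : PF α) (n : ℕ) : (s * t).val n = (s.val n).or (t.val n) := rfl

theorem one_val (n : ℕ) : (1 : PF α).val n = none := rfl

/-- Letterwise application of a map. -/
def map (g : α → β) (s : PF α) : PF β := ⟨fun n => (s.val n).map g, s.fin.subset (by
    intro n hn h
    exact hn (by simp [h]))⟩

theorem map_val (g : α → β) (s : PF α) (n : ℕ) : (map g s).val n = (s.val n).map g := rfl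

theorem map_mul' (g : α → β) (s t : PF α) : map g (s * t) = map g s * map g t := by
  apply PF.ext
  funext n
  simp only [map_val, mul_val]
  cases s.val n <;> rfl

theorem map_map (g : β → γ) (f : α → β) (s : PF α) : map g (map f s) = map (g ∘ f) s := by
  apply PF.ext
  funext n
  simp [map_val, Option.map_map]

theorem map_id' (s : PF α) : map id s = s := by
  apply PF.ext
  funext n
  simp [map_val]

end PF

end Pool.Agent.R130.Ram
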