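import Pool.Agent.R130.RamA

/-!
A chain of idempotent ultrafilters on finite partial functions, compatible with all restricted
growth maps.
-/

open Filter

namespace Pool.Agent.R130.Ram

attribute [local instance] Ultrafilter.semigroup

/-- The domain goes to infinity. -/
def Tail {α : Type*} (U : Ultrafilter (PF α)) : Prop :=
  ∀ n, ∀ᶠ s in (U : Filter (PF α)), ∀ i ≤ n, s.val i = none

/-- The letter `a` occurs. -/
def Has {α : Type*} (a : α) (U : Ultrafilter (PF α)) : Prop :=
  ∀ᶠ s in (U : Filter (PF α)), ∃ i, s.val i = some a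

section

variable {α : Type*}

theorem isClosed_ev (p : PF α → Prop) : IsClosed {U : Ultrafilter (PF α) | ∀ᶠ s in (U : Filter (PF α)), p s} :=
  ultrafilter_isClosed_basic {s | p s}

theorem isClosed_tail : IsClosed {U : Ultrafilter (PF α) | Tail U} := by
  have : {U : Ultrafilter (PF α) | Tail U} =
      ⋂ n : ℕ, {U : Ultrafilter (PF α) | ∀ᶠ s in (U : Filter (PF α)), ∀ i ≤ n, s.val i = none} := by
    ext U
    simp [Tail]
  rw [this]
  exact isClosed_iInter fun n => isClosed_ev _

theorem tail_mul {U V : Ultrafilter (PF α)} (hU : Tail U) (hV : Tail V) : Tail (U * V) := by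
  intro n
  rw [Ultrafilter.eventually_mul]
  filter_upwards [hU n] with s hs
  filter_upwards [hV n] with t ht
  intro i hi
  rw [PF.mul_val, hs i hi, ht i hi]
  rfl

theorem has_mul_left {a : α} {U : Ultrafilter (PF α)} (V : Ultrafilter (PF α)) (hU : Has a U) :
    Has a (U * V) := by
  unfold Has
  rw [Ultrafilter.eventually_mul]
  filter_upwards [hU] with s hs
  obtain ⟨i, hi⟩ := hs
  refine Filter.Eventually.of_forall fun t => ⟨i, ?_⟩
  rw [PF.mul_val, hi]
  rfl

theorem PF.bdd (s : PF α) : ∃ b, ∀ i, s.val i ≠ none → i ≤ b := by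
  obtain ⟨b, hb⟩ := s.fin.bddAbove
  exact ⟨b, fun i hi => hb hi⟩

theorem has_mul_right {a : α} (U : Ultrafilter (PF α)) {V : Ultrafilter (PF α)} (hV : Tail V)
    (hV' : Has a V) : Has a (U * V) := by
  unfold Has
  rw [Ultrafilter.eventually_mul]
  refine Filter.Eventually.of_forall fun s => ?_
  obtain ⟨b, hb⟩ := s.bdd
  filter_upwards [hV b, hV'] with t ht ht'
  obtain ⟨i, hi⟩ := ht'
  refine ⟨i, ?_⟩
  have hib : ¬ i ≤ b := by
    intro h
    rw [ht i h] at hi
    exact absurd hi (by simp)
  have : s.val i = none := by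
    by_contra h
    exact hib (hb i h)
  rw [PF.mul_val, this, hi]
  rfl

theorem tail_map {β : Type*} (g : α → β) {U : Ultrafilter (PF α)} (hU : Tail U) :
    Tail (Ultrafilter.map (PF.map g) U) := by
  intro n
  rw [Ultrafilter.coe_map, Filter.eventually_map]
  filter_upwards [hU n] with s hs
  intro i hi
  rw [PF.map_val, hs i hi]
  rfl

theorem has_map {β : Type*} (g : α → β) {a : α} {U : Ultrafilter (PF α)} (hU : Has a U) :
    Has (g a) (Ultrafilter.map (PF.map g) U) := by
  unfold Has
  rw [Ultrafilter.coe_map, Filter.eventually_map]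
  filter_upwards [hU] with s hs
  obtain ⟨i, hi⟩ := hs
  exact ⟨i, by rw [PF.map_val, hi]; rfl⟩

/-- One-point partial function. -/
def single (n : ℕ) (a : α) : PF α := ⟨fun i => if i = n then some a else none,
  (Set.finite_singleton n).subset (by
    intro i hi
    by_contra h
    exact hi (if_neg h))⟩

theorem single_self (n : ℕ) (a : α) : (single n a).val n = some a := if_pos rfl
theorem single_ne {n i : ℕ} (a : α) (h : i ≠ n) : (single n a).val i = none := if_neg h

end

/-- Letters: `some i` are the letters, `none` is the variable. -/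
abbrev L := Option ℕ

/-- Substituting the variable by the letter `y`. -/
def sub (y : ℕ) : L → L
  | none => some y
  | some i => some i

/-- The induced map on ultrafilters. -/
noncomputable def T (h : L → L) : Ultrafilter (PF L) → Ultrafilter (PF L) :=
  Ultrafilter.map (PF.map h)

theorem T_mul (h : L → L) (U V : Ultrafilter (PF L)) : T h (U * V) = T h U * T h V :=
  map_mul _ (PF.map_mul' h) U V

theorem T_cont (h : L → L) : Continuous (T h) := continuous_umap _

theorem T_comp (h h' : L → L) (U : Ultrafilter (PF L)) : T h (T h' U) = T (h ∘ h') U := by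
  unfold T
  rw [Ultrafilter.map_map]
  congr 1
  funext s
  exact PF.map_map h h' s

theorem exists_e : ∃ e : Ultrafilter (PF L), e * e = e ∧ Tail e ∧ Has none e ∧
    ∀ᶠ s in (e : Filter (PF L)), ∀ i, s.val i = none ∨ s.val i = some none := by
  let C : Set (Ultrafilter (PF L)) := {U | (Tail U ∧ Has none U) ∧
    ∀ᶠ s in (U : Filter (PF L)), ∀ i, s.val i = none ∨ s.val i = some none}
  have hC : IsClosed C := (isClosed_tail.inter (isClosed_ev _)).inter (isClosed_ev _)
  have hCm : ∀ x ∈ C, ∀ y ∈ C, x * y ∈ C := by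
    rintro x ⟨⟨h1, h2⟩, h3⟩ y ⟨⟨k1, k2⟩, k3⟩
    refine ⟨⟨tail_mul h1 k1, has_mul_left _ h2⟩, ?_⟩
    rw [Ultrafilter.eventually_mul]
    filter_upwards [h3] with s hs
    filter_upwards [k3] with t ht
    intro i
    rw [PF.mul_val]
    rcases hs i with h | h
    · rw [h]
      exact ht i
    · right
      rw [h]
      rfl
  have hCn : C.Nonempty := by
    refine ⟨Ultrafilter.map (fun n => single n (none : L)) (hyperfilter ℕ), ⟨?_, ?_⟩, ?_⟩
    · intro n
      rw [Ultrafilter.coe_map, Filter.eventually_map]
      have h1 : ∀ᶠ m in (hyperfilter ℕ : Filter ℕ), n < m :=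
        (Nat.hyperfilter_le_atTop) (eventually_gt_atTop n)
      filter_upwards [h1] with m hm
      intro i hi
      exact single_ne _ (by omega)
    · unfold Has
      rw [Ultrafilter.coe_map, Filter.eventually_map]
      exact Filter.Eventually.of_forall fun m => ⟨m, single_self m _⟩
    · rw [Ultrafilter.coe_map, Filter.eventually_map]
      refine Filter.Eventually.of_forall fun m i => ?_
      by_cases h : i = m
      · right
        rw [h]
        exact single_self m _
      · left
        exact single_ne _ h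
  obtain ⟨e, he, hee⟩ := exists_idempotent_in_compact_subsemigroup
    (fun r => Ultrafilter.continuous_mul_left r) C hCn hC.isCompact hCm
  exact ⟨e, hee, he.1.1, he.1.2, he.2⟩

/-- Restricted growth. -/
def RG (g : ℕ → ℕ) : Prop := g 0 = 0 ∧ ∀ j, g (j + 1) ≤ (Finset.range (j + 1)).sup g + 1

/-- Running maximum `max_{i ≤ j} g i`. -/
def Mx (g : ℕ → ℕ) (j : ℕ) : ℕ := (Finset.range (j + 1)).sup g

theorem Mx_succ (g : ℕ → ℕ) (j : ℕ) : Mx g (j + 1) = max (g (j + 1)) (Mx g j) := by
  unfold Mx
  rw [Finset.range_add_one (n := j + 1), Finset.sup_insert]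

/-- The letter map on `L` induced by `g`. -/
def hat (g : ℕ → ℕ) : L → L := Option.map g

theorem hat_sub (g : ℕ → ℕ) (y : ℕ) : hat g ∘ sub y = sub (g y) ∘ hat g := by
  funext x
  cases x <;> rfl

theorem sub_sub (y z : ℕ) : sub y ∘ sub z = sub z := by
  funext x
  cases x <;> rfl

/-- The main existence theorem. -/
theorem exists_chain : ∃ u : ℕ → Ultrafilter (PF L),
    (∀ i j, i ≤ j → u i * u j = u j ∧ u j * u i = u j) ∧
    (∀ j, Tail (u j)) ∧ (∀ j, Has (some j) (u j)) ∧
    (∀ g, RG g → ∀ j, T (hat g) (u j) = u (Mx g j)) := by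
  obtain ⟨E, hE1, hE2, hE3⟩ := exists_E (PF L)
  obtain ⟨e, hee, heT, heH, heO⟩ := exists_e
  have hE3' : ∀ h X, T h (E X) = E (T h X) := fun h X => hE3 (T h) (T_cont h) (T_mul h) X
  have hEid : ∀ X, X * X = X → E X = X := by
    intro X hX
    exact hE2 {X} isClosed_singleton (by rintro _ rfl _ rfl; exact hX) X rfl
  obtain ⟨D, hD0, hD'⟩ : ∃ D : ℕ → Ultrafilter (PF L), D 0 = e ∧
      ∀ j, D (j + 1) = T (sub j) (D j) * E (T (sub j) (D j) * D j * T (sub j) (D j)) :=
    ⟨fun j => Nat.rec e (fun j D => T (sub j) D * E (T (sub j) D * D * T (sub j) D)) j,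
      rfl, fun j => rfl⟩
  obtain ⟨u, hu⟩ : ∃ u : ℕ → Ultrafilter (PF L), ∀ j, u j = T (sub j) (D j) :=
    ⟨_, fun _ => rfl⟩
  have hD : ∀ j, D (j + 1) = u j * E (u j * D j * u j) := by
    intro j
    rw [hD' j, ← hu]
  -- idempotents
  have hidem : ∀ j, D j * D j = D j := by
    intro j
    induction j with
    | zero => rw [hD0, hee]
    | succ j ih =>
      have huu : u j * u j = u j := by rw [hu, ← T_mul, ih]
      have ht : E (u j * D j * u j) * u j = E (u j * D j * u j) := by
        refine hE2 {t | t * u j = t}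
          (isClosed_eq (Ultrafilter.continuous_mul_left _) continuous_id) ?_ _ ?_
        · intro x hx y hy
          show x * y * u j = x * y
          rw [mul_assoc, show y * u j = y from hy]
        · show u j * D j * u j * u j = u j * D j * u j
          rw [mul_assoc, huu]
      rw [hD]
      calc u j * E (u j * D j * u j) * (u j * E (u j * D j * u j))
          = u j * (E (u j * D j * u j) * u j) * E (u j * D j * u j) := by
            simp only [mul_assoc]
        _ = u j * E (u j * D j * u j) := by rw [ht, mul_assoc, hE1]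
  have huu : ∀ j, u j * u j = u j := by
    intro j
    rw [hu, ← T_mul, hidem]
  have ht : ∀ j, E (u j * D j * u j) * u j = E (u j * D j * u j) := by
    intro j
    refine hE2 {t | t * u j = t}
      (isClosed_eq (Ultrafilter.continuous_mul_left _) continuous_id) ?_ _ ?_
    · intro x hx y hy
      show x * y * u j = x * y
      rw [mul_assoc, show y * u j = y from hy]
    · show u j * D j * u j * u j = u j * D j * u j
      rw [mul_assoc, huu]
  have huD : ∀ j, u j * D (j + 1) = D (j + 1) := by
    intro j
    rw [hD, ← mul_assoc, huu]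
  have hDu : ∀ j, D (j + 1) * u j = D (j + 1) := by
    intro j
    rw [hD, mul_assoc, ht]
  have hsubu : ∀ y j, T (sub y) (u j) = u j := by
    intro y j
    rw [hu, T_comp, sub_sub]
  have h1 : ∀ j, u j * u (j + 1) = u (j + 1) := by
    intro j
    rw [hu (j + 1)]
    conv_lhs => rw [← hsubu (j + 1) j]
    rw [← T_mul, huD]
  have h2 : ∀ j, u (j + 1) * u j = u (j + 1) := by
    intro j
    rw [hu (j + 1)]
    conv_lhs => rw [← hsubu (j + 1) j]
    rw [← T_mul, hDu]
  have habs : ∀ i j, i ≤ j → u i * u j = u j ∧ u j * u i = u j := by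
    intro i j hij
    induction j, hij using Nat.le_induction with
    | base => exact ⟨huu i, huu i⟩
    | succ j hij ih =>
      constructor
      · rw [← h1 j, ← mul_assoc, ih.1]
      · rw [← h2 j, mul_assoc, ih.2]
  -- property (E)
  have hEE : ∀ j y, y ≤ j → T (sub y) (D (j + 1)) = u j := by
    intro j
    induction j with
    | zero =>
      intro y hy
      obtain rfl : y = 0 := by omega
      rw [hD, T_mul, hE3', T_mul, T_mul, hsubu, ← hu, huu, huu, hEid _ (huu 0), huu]
    | succ j ih =>
      intro y hy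
      rw [hD, T_mul, hE3', T_mul, T_mul, hsubu]
      rcases Nat.lt_or_ge y (j + 1) with h | h
      · rw [ih y (by omega), h2, huu, hEid _ (huu _), huu]
      · obtain rfl : y = j + 1 := by omega
        rw [← hu, huu, huu, hEid _ (huu _), huu]
  -- tails
  have hDtail : ∀ j, Tail (D j) ∧ Has none (D j) := by
    intro j
    induction j with
    | zero => rw [hD0]; exact ⟨heT, heH⟩
    | succ j ih =>
      have huT : Tail (u j) := by rw [hu]; exact tail_map _ ih.1
      have hmem : Tail (E (u j * D j * u j)) ∧ Has none (E (u j * D j * u j)) := by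
        refine hE2 {U | Tail U ∧ Has none U} (isClosed_tail.inter (isClosed_ev _)) ?_ _ ?_
        · rintro x ⟨a1, a2⟩ y ⟨b1, b2⟩
          exact ⟨tail_mul a1 b1, has_mul_left _ a2⟩
        · exact ⟨tail_mul (tail_mul huT ih.1) huT, has_mul_left _ (has_mul_right _ ih.1 ih.2)⟩
      rw [hD]
      exact ⟨tail_mul huT hmem.1, has_mul_right _ hmem.1 hmem.2⟩
  refine ⟨u, habs, fun j => by rw [hu]; exact tail_map _ (hDtail j).1,
    fun j => by rw [hu]; exact has_map (sub j) (hDtail j).2, ?_⟩
  -- compatibility
  intro g hg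
  have hgD0 : T (hat g) (D 0) = D 0 := by
    rw [hD0]
    apply Ultrafilter.coe_inj.mp
    unfold T
    rw [Ultrafilter.coe_map]
    have : (PF.map (hat g)) =ᶠ[(e : Filter (PF L))] id := by
      filter_upwards [heO] with s hs
      apply PF.ext
      funext i
      rw [PF.map_val]
      rcases hs i with h | h <;> rw [h] <;> simp [hat, h]
    rw [Filter.map_congr this, Filter.map_id]
  have key : ∀ j, T (hat g) (u j) = u (Mx g j) ∧ T (hat g) (D (j + 1)) = D (Mx g j + 1) := by
    intro j
    induction j with
    | zero =>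
      have hM0 : Mx g 0 = 0 := by simp [Mx, hg.1]
      have hu0 : T (hat g) (u 0) = u 0 := by
        rw [hu, T_comp, hat_sub, ← T_comp, hgD0, hg.1]
      rw [hM0]
      refine ⟨hu0, ?_⟩
      rw [hD, T_mul, hE3', T_mul, T_mul, hu0, hgD0]
    | succ j ih =>
      have hgj : g (j + 1) ≤ Mx g j + 1 := hg.2 j
      have hM := Mx_succ g j
      have hu' : T (hat g) (u (j + 1)) = T (sub (g (j + 1))) (D (Mx g j + 1)) := by
        rw [hu, T_comp, hat_sub, ← T_comp, ih.2]
      rcases Nat.lt_or_ge (Mx g j) (g (j + 1)) with h | h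
      · have e1 : g (j + 1) = Mx g j + 1 := by omega
        have e2 : Mx g (j + 1) = Mx g j + 1 := by omega
        have hu2 : T (hat g) (u (j + 1)) = u (Mx g (j + 1)) := by
          rw [hu', e2, e1, ← hu]
        refine ⟨hu2, ?_⟩
        rw [hD, T_mul, hE3', T_mul, T_mul, hu2, ih.2, e2, ← hD]
      · have e2 : Mx g (j + 1) = Mx g j := by omega
        have hu2 : T (hat g) (u (j + 1)) = u (Mx g (j + 1)) := by
          rw [hu', e2, hEE _ _ h]
        refine ⟨hu2, ?_⟩
        have h5 : E (D (Mx g j + 1)) = D (Mx g j + 1) := hEid _ (hidem _)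
        rw [hD, T_mul, hE3', T_mul, T_mul, hu2, ih.2, e2, huD, hDu]
        rw [h5, huD]
  exact fun j => (key j).1

end Pool.Agent.R130.Ram
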