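import Pool.Agent.R130.RamB

/-!
Building the monochromatic sequence from the ultrafilters.
-/

open Filter

namespace Pool.Agent.R130.Ram

attribute [local instance] Ultrafilter.semigroup

section

variable {S : Type*} [Monoid S]

/-- Intermediate stage of the construction. -/
structure St (u : Ultrafilter S) (Φ : Set (S → S)) (A : Set S) where
  all : Set S
  span : Set S
  hist : Set S
  allf : all.Finite
  spanf : span.Finite
  histf : hist.Finite
  hall : ∀ t ∈ all, ∀ᶠ x in (u : Filter S), t * x ∈ A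
  hspan : ∀ t ∈ span, t ∈ A ∧ ∀ f ∈ Φ, ∀ᶠ x in (u : Filter S), t * f x ∈ A

theorem ev_mul_map {u : Ultrafilter S} {f g : S → S} {p : S → Prop}
    (h : ∀ᶠ x in ((Ultrafilter.map f u * Ultrafilter.map g u : Ultrafilter S) : Filter S), p x) :
    ∀ᶠ x in (u : Filter S), ∀ᶠ y in (u : Filter S), p (f x * g y) := by
  rw [Ultrafilter.eventually_mul] at h
  simpa only [Ultrafilter.coe_map, Filter.eventually_map] using h

omit [Monoid S] in
theorem umap_id (u : Ultrafilter S) : Ultrafilter.map (id : S → S) u = u := by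
  apply Ultrafilter.coe_inj.mp
  rw [Ultrafilter.coe_map, Filter.map_id]

theorem step {u : Ultrafilter S} {Φ : Set (S → S)} (hfin : Φ.Finite)
    (h1 : ∀ f ∈ Φ, Ultrafilter.map f u * u = u) (h2 : ∀ f ∈ Φ, u * Ultrafilter.map f u = u)
    (h3 : ∀ f ∈ Φ, ∀ g ∈ Φ,
      Ultrafilter.map f u * Ultrafilter.map g u = Ultrafilter.map f u ∨
      Ultrafilter.map f u * Ultrafilter.map g u = Ultrafilter.map g u)
    {A : Set S} (R : Set S) (hR : ∀ᶠ x in (u : Filter S), x ∈ R) (Q : S → S → Prop)
    (hQ : ∀ a, ∀ᶠ x in (u : Filter S), Q a x) (q : St u Φ A) :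
    ∃ (s : S) (q' : St u Φ A), s ∈ R ∧ (∀ a ∈ q.hist, Q a s) ∧ q.all ⊆ q'.all ∧
      (∀ t ∈ q.all, ∀ f ∈ Φ, t * f s ∈ q'.all) ∧ q.span ⊆ q'.span ∧
      (∀ t ∈ q.all, t * s ∈ q'.span) ∧ (∀ t ∈ q.span, ∀ f ∈ Φ, t * f s ∈ q'.span) ∧
      q.hist ⊆ q'.hist ∧ s ∈ q'.hist := by
  have a0 : ∀ᶠ s in (u : Filter S), ∀ a ∈ q.hist, Q a s :=
    (Filter.eventually_all_finite q.histf).2 fun a _ => hQ a
  have a1 : ∀ᶠ s in (u : Filter S), ∀ t ∈ q.all, t * s ∈ A :=
    (Filter.eventually_all_finite q.allf).2 fun t ht => q.hall t ht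
  have a2 : ∀ᶠ s in (u : Filter S), ∀ t ∈ q.all, ∀ f ∈ Φ,
      ∀ᶠ y in (u : Filter S), t * s * f y ∈ A := by
    refine (Filter.eventually_all_finite q.allf).2 fun t ht => ?_
    refine (Filter.eventually_all_finite hfin).2 fun f hf => ?_
    have h := q.hall t ht
    rw [← h2 f hf] at h
    conv at h => rw [← umap_id u]
    have h' := ev_mul_map (p := fun x => t * x ∈ A) (f := id) (g := f) (u := u) (by
      simpa only [umap_id] using h)
    filter_upwards [h'] with x hx
    filter_upwards [hx] with y hy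
    rw [mul_assoc]
    exact hy
  have a3 : ∀ᶠ s in (u : Filter S), ∀ t ∈ q.all, ∀ f ∈ Φ,
      ∀ᶠ y in (u : Filter S), t * f s * y ∈ A := by
    refine (Filter.eventually_all_finite q.allf).2 fun t ht => ?_
    refine (Filter.eventually_all_finite hfin).2 fun f hf => ?_
    have h := q.hall t ht
    rw [← h1 f hf] at h
    have h' := ev_mul_map (p := fun x => t * x ∈ A) (f := f) (g := id) (u := u) (by
      simpa only [umap_id] using h)
    filter_upwards [h'] with x hx
    filter_upwards [hx] with y hy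
    rw [mul_assoc]
    exact hy
  have a4 : ∀ᶠ s in (u : Filter S), ∀ t ∈ q.span, ∀ f ∈ Φ, t * f s ∈ A := by
    refine (Filter.eventually_all_finite q.spanf).2 fun t ht => ?_
    exact (Filter.eventually_all_finite hfin).2 fun f hf => (q.hspan t ht).2 f hf
  have a5 : ∀ᶠ s in (u : Filter S), ∀ t ∈ q.span, ∀ f ∈ Φ, ∀ g ∈ Φ,
      ∀ᶠ y in (u : Filter S), t * f s * g y ∈ A := by
    refine (Filter.eventually_all_finite q.spanf).2 fun t ht => ?_
    refine (Filter.eventually_all_finite hfin).2 fun f hf => ?_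
    refine (Filter.eventually_all_finite hfin).2 fun g hg => ?_
    have h : ∀ᶠ x in ((Ultrafilter.map f u * Ultrafilter.map g u : Ultrafilter S) : Filter S),
        t * x ∈ A := by
      rcases h3 f hf g hg with h | h
      · rw [h, Ultrafilter.coe_map, Filter.eventually_map]
        exact (q.hspan t ht).2 f hf
      · rw [h, Ultrafilter.coe_map, Filter.eventually_map]
        exact (q.hspan t ht).2 g hg
    have h' := ev_mul_map (p := fun x => t * x ∈ A) h
    filter_upwards [h'] with x hx
    filter_upwards [hx] with y hy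
    rw [mul_assoc]
    exact hy
  obtain ⟨s, b, b0, b1, b2, b3, b4, b5⟩ :=
    (hR.and (a0.and (a1.and (a2.and (a3.and (a4.and a5)))))).exists
  refine ⟨s, ⟨q.all ∪ Set.image2 (fun t f => t * f s) q.all Φ,
    q.span ∪ ((fun t => t * s) '' q.all ∪ Set.image2 (fun t f => t * f s) q.span Φ),
    q.hist ∪ {s}, q.allf.union (q.allf.image2 _ hfin),
    q.spanf.union ((q.allf.image _).union (q.spanf.image2 _ hfin)),
    q.histf.union (Set.finite_singleton s), ?_, ?_⟩, b, b0, ?_, ?_, ?_, ?_, ?_, ?_, ?_⟩
  · rintro t (ht | ⟨t, ht, f, hf, rfl⟩)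
    · exact q.hall t ht
    · exact b3 t ht f hf
  · rintro t (ht | ⟨t, ht, rfl⟩ | ⟨t, ht, f, hf, rfl⟩)
    · exact q.hspan t ht
    · exact ⟨b1 t ht, fun f hf => b2 t ht f hf⟩
    · exact ⟨b4 t ht f hf, fun g hg => b5 t ht f hf g hg⟩
  · exact Set.subset_union_left
  · exact fun t ht f hf => Or.inr ⟨t, ht, f, hf, rfl⟩
  · exact Set.subset_union_left
  · exact fun t ht => Or.inr (Or.inl ⟨t, ht, rfl⟩)
  · exact fun t ht f hf => Or.inr (Or.inr ⟨t, ht, f, hf, rfl⟩)
  · exact Set.subset_union_left
  · exact Or.inr rfl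

theorem build (u : Ultrafilter S) (Φ : Set (S → S)) (hfin : Φ.Finite)
    (h1 : ∀ f ∈ Φ, Ultrafilter.map f u * u = u) (h2 : ∀ f ∈ Φ, u * Ultrafilter.map f u = u)
    (h3 : ∀ f ∈ Φ, ∀ g ∈ Φ,
      Ultrafilter.map f u * Ultrafilter.map g u = Ultrafilter.map f u ∨
      Ultrafilter.map f u * Ultrafilter.map g u = Ultrafilter.map g u)
    (A : Set S) (hA : ∀ᶠ x in (u : Filter S), x ∈ A)
    (R : Set S) (hR : ∀ᶠ x in (u : Filter S), x ∈ R) (Q : S → S → Prop)
    (hQ : ∀ a, ∀ᶠ x in (u : Filter S), Q a x) :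
    ∃ s : ℕ → S, (∀ n, s n ∈ R) ∧ (∀ i j, i < j → Q (s i) (s j)) ∧
      ∀ l : List (ℕ × (S → S)), l.Pairwise (fun a b => a.1 < b.1) → (∀ x ∈ l, x.2 ∈ Φ) →
        (∃ x ∈ l, x.2 = id) → (l.map (fun x => x.2 (s x.1))).prod ∈ A := by
  choose elem next hrel using step hfin h1 h2 h3 R hR Q hQ (A := A)
  let q0 : St u Φ A := ⟨{1}, ∅, ∅, Set.finite_singleton 1, Set.finite_empty, Set.finite_empty,
    by rintro t rfl; simpa using hA, by rintro t ⟨⟩⟩
  obtain ⟨q, hq0, hq⟩ : ∃ q : ℕ → St u Φ A, q 0 = q0 ∧ ∀ n, q (n + 1) = next (q n) :=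
    ⟨fun n => Nat.rec q0 (fun _ q => next q) n, rfl, fun n => rfl⟩
  have hhist : ∀ i j, i ≤ j → (q i).hist ⊆ (q j).hist := by
    intro i j hij
    induction j, hij using Nat.le_induction with
    | base => exact le_rfl
    | succ j hij ih =>
      refine ih.trans ?_
      rw [hq j]
      exact (hrel (q j)).2.2.2.2.2.2.2.1
  refine ⟨fun n => elem (q n), fun n => (hrel (q n)).1, ?_, ?_⟩
  · intro i j hij
    refine (hrel (q j)).2.1 _ (hhist (i + 1) j hij ?_)
    rw [hq i]
    exact (hrel (q i)).2.2.2.2.2.2.2.2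
  · have key : ∀ n, ∀ l : List (ℕ × (S → S)), l.Pairwise (fun a b => a.1 < b.1) →
        (∀ x ∈ l, x.2 ∈ Φ) → (∀ x ∈ l, x.1 < n) →
        (l.map (fun x => x.2 (elem (q x.1)))).prod ∈ (q n).all ∧
        ((∃ x ∈ l, x.2 = id) → (l.map (fun x => x.2 (elem (q x.1)))).prod ∈ (q n).span) := by
      intro n
      induction n with
      | zero =>
        intro l _ _ hl
        have : l = [] := by
          rcases l with _ | ⟨a, l⟩
          · rfl
          · exact absurd (hl a (by simp)) (by omega)
        subst this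
        refine ⟨?_, by rintro ⟨x, hx, _⟩; simp at hx⟩
        rw [hq0]
        exact rfl
      | succ n ih =>
        intro l hp hΦ hl
        have hr := hrel (q n)
        rcases List.eq_nil_or_concat l with rfl | ⟨l', a, rfl⟩
        · refine ⟨?_, by rintro ⟨x, hx, _⟩; simp at hx⟩
          rw [hq n]
          exact hr.2.2.1 (ih [] List.Pairwise.nil (by simp) (by simp)).1
        · rw [List.concat_eq_append] at *
          rw [List.pairwise_append] at hp
          by_cases han : a.1 < n
          · have h := ih (l' ++ [a]) (by rw [List.pairwise_append]; exact hp) hΦ (by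
              intro x hx
              rw [List.mem_append] at hx
              rcases hx with hx | hx
              · exact (hp.2.2 x hx a (by simp)).trans han
              · rw [List.mem_singleton] at hx
                rw [hx]
                exact han)
            rw [hq n]
            exact ⟨hr.2.2.1 h.1, fun hid => hr.2.2.2.2.1 (h.2 hid)⟩
          · have hane : a.1 = n := by
              have := hl a (by simp)
              omega
            have h := ih l' hp.1 (fun x hx => hΦ x (by simp [hx])) (by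
              intro x hx
              rw [← hane]
              exact hp.2.2 x hx a (by simp))
            have hprod : ((l' ++ [a]).map (fun x => x.2 (elem (q x.1)))).prod =
                (l'.map (fun x => x.2 (elem (q x.1)))).prod * a.2 (elem (q n)) := by
              rw [List.map_append, List.prod_append, List.map_singleton, List.prod_singleton, hane]
            rw [hprod, hq n]
            have haΦ : a.2 ∈ Φ := hΦ a (by simp)
            refine ⟨hr.2.2.2.1 _ h.1 _ haΦ, ?_⟩
            rintro ⟨x, hx, hxid⟩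
            rw [List.mem_append] at hx
            rcases hx with hx | hx
            · exact hr.2.2.2.2.2.2.1 _ (h.2 ⟨x, hx, hxid⟩) _ haΦ
            · rw [List.mem_singleton] at hx
              rw [hx] at hxid
              rw [hxid]
              exact hr.2.2.2.2.2.1 _ h.1
    intro l hp hΦ hid
    obtain ⟨n, hn⟩ : ∃ n, ∀ x ∈ l, x.1 < n := by
      refine ⟨(l.map (fun x => x.1)).sum + 1, fun x hx => ?_⟩
      have : x.1 ≤ (l.map (fun x => x.1)).sum :=
        List.single_le_sum (by simp) _ (List.mem_map_of_mem hx)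
      omega
    exact ((q n).hspan _ ((key n l hp hΦ hn).2 hid)).1

end

end Pool.Agent.R130.Ram
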