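import Mathlib

/-!
# The two exponentiations of ultrafilters

`E₁(p,q)` and `E₂(p,q)` for ultrafilters on the positive integers, and a proof that they differ for
every nonprincipal `q`.
-/

set_option autoImplicit false

namespace Pool.Agent.R130.UltraExp

open Filter

/-- `E₁(p,q) = {A : {n : {m : n ^ m ∈ A} ∈ q} ∈ p}` -/
def E₁ (p q : Ultrafilter ℕ+) : Set (Set ℕ+) :=
  {A | {n : ℕ+ | {m : ℕ+ | n ^ (m : ℕ) ∈ A} ∈ q} ∈ p}

/-- `E₂(p,q) = {A : {n : {m : m ^ n ∈ A} ∈ q} ∈ p}` -/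
def E₂ (p q : Ultrafilter ℕ+) : Set (Set ℕ+) :=
  {A | {n : ℕ+ | {m : ℕ+ | m ^ (n : ℕ) ∈ A} ∈ q} ∈ p}

/-- an ultrafilter is nonprincipal if it is not the ultrafilter of all sets containing a point -/
def Nonprincipal (p : Ultrafilter ℕ+) : Prop := ∀ n : ℕ+, p ≠ pure n

/-- thresholds: iterated powers of two, starting from `a` -/
def th (a : ℕ) : ℕ → ℕ
  | 0 => a
  | i + 1 => 2 ^ th a i

lemma th_lt_succ (a i : ℕ) : th a i < th a (i + 1) := Nat.lt_two_pow_self

lemma th_strictMono (a : ℕ) : StrictMono (th a) := strictMono_nat_of_lt_succ (th_lt_succ a)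

lemma le_th (a i : ℕ) : i ≤ th a i := (th_strictMono a).le_apply

/-- the two threshold sequences are far apart -/
lemma far1 (k : ℕ) : th 2 (k + 2) ^ 2 ≤ th 3 (k + 2) := by
  induction k with
  | zero => decide
  | succ k ih =>
    have h1 : th 2 (k + 2) * 2 ≤ th 2 (k + 2) ^ 2 := by
      rw [pow_two]
      apply Nat.mul_le_mul_left
      have := le_th 2 (k + 2)
      omega
    change (2 ^ th 2 (k + 2)) ^ 2 ≤ 2 ^ th 3 (k + 2)
    rw [← pow_mul]
    exact Nat.pow_le_pow_right (by norm_num) (h1.trans ih)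

lemma far2 (k : ℕ) : th 3 (k + 2) ^ 2 ≤ th 2 (k + 3) := by
  induction k with
  | zero => decide
  | succ k ih =>
    have h1 : th 3 (k + 2) * 2 ≤ th 3 (k + 2) ^ 2 := by
      rw [pow_two]
      apply Nat.mul_le_mul_left
      have := le_th 3 (k + 2)
      omega
    change (2 ^ th 3 (k + 2)) ^ 2 ≤ 2 ^ th 2 (k + 3)
    rw [← pow_mul]
    exact Nat.pow_le_pow_right (by norm_num) (h1.trans ih)

/-- `m ^ n` does not pass the next threshold -/
def Good (a n m : ℕ) : Prop := ∀ i, m < th a i → m ^ n < th a i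

/-- a large number is good for one of the two threshold sequences -/
lemma good_or (n m : ℕ) (hm : th 3 (n + 3) ≤ m) : Good 2 n m ∨ Good 3 n m := by
  by_contra hcon
  push Not at hcon
  obtain ⟨h1, h2⟩ := hcon
  unfold Good at h1 h2
  push Not at h1 h2
  obtain ⟨i, hi, hi'⟩ := h1
  obtain ⟨j, hj, hj'⟩ := h2
  have hjn : n + 3 < j := (th_strictMono 3).lt_iff_lt.mp (hm.trans_lt hj)
  have h23 : ∀ k, th 2 k < th 3 k := by
    intro k
    induction k with
    | zero => decide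
    | succ k ih => exact Nat.pow_lt_pow_right (by norm_num) ih
  have hin : n + 3 < i := by
    have : th 2 (n + 3) < th 2 i := (h23 _).trans (hm.trans_lt hi)
    exact (th_strictMono 2).lt_iff_lt.mp this
  rcases le_or_gt i j with hij | hij
  · -- `m ^ n < (th 2 i) ^ n ≤ th 3 i ≤ th 3 j`
    obtain ⟨k, rfl⟩ : ∃ k, i = k + 3 := ⟨i - 3, by omega⟩
    have e1 : th 2 (k + 3) ^ n ≤ th 3 (k + 3) := by
      change (2 ^ th 2 (k + 2)) ^ n ≤ 2 ^ th 3 (k + 2)
      rw [← pow_mul]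
      apply Nat.pow_le_pow_right (by norm_num)
      refine le_trans ?_ (far1 k)
      rw [pow_two]
      apply Nat.mul_le_mul_left
      have := le_th 2 (k + 2)
      omega
    have e2 : m ^ n ≤ th 2 (k + 3) ^ n := Nat.pow_le_pow_left hi.le n
    have e3 : th 3 (k + 3) ≤ th 3 j := (th_strictMono 3).monotone hij
    -- equality is impossible
    have e4 : m ^ n < th 3 j := by
      rcases Nat.eq_zero_or_pos n with rfl | hn
      · rw [pow_zero]
        have := le_th 3 j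
        omega
      · exact lt_of_lt_of_le (Nat.pow_lt_pow_left hi (by omega)) (e1.trans e3)
    omega
  · -- `m ^ n < (th 3 j) ^ n ≤ th 2 (j + 1) ≤ th 2 i`
    obtain ⟨k, rfl⟩ : ∃ k, j = k + 3 := ⟨j - 3, by omega⟩
    have e1 : th 3 (k + 3) ^ n ≤ th 2 (k + 4) := by
      change (2 ^ th 3 (k + 2)) ^ n ≤ 2 ^ th 2 (k + 3)
      rw [← pow_mul]
      apply Nat.pow_le_pow_right (by norm_num)
      refine le_trans ?_ (far2 k)
      rw [pow_two]
      apply Nat.mul_le_mul_left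
      have := le_th 3 (k + 2)
      omega
    have e3 : th 2 (k + 4) ≤ th 2 i := (th_strictMono 2).monotone hij
    have e4 : m ^ n < th 2 i := by
      rcases Nat.eq_zero_or_pos n with rfl | hn
      · rw [pow_zero]
        have := le_th 2 i
        omega
      · exact lt_of_lt_of_le (Nat.pow_lt_pow_left hj (by omega)) (e1.trans e3)
    omega

lemma Good.mono {a n n' m : ℕ} (hm : 1 ≤ m) (h : Good a n m) (hn : n' ≤ n) : Good a n' m :=
  fun i hi => (Nat.pow_le_pow_right hm hn).trans_lt (h i hi)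

/-- the numbers between an even threshold and the next one -/
def Ev (a : ℕ) : Set ℕ+ := {x | ∃ i, th a (2 * i) ≤ (x : ℕ) ∧ (x : ℕ) < th a (2 * i + 1)}

lemma mem_Ev {a i : ℕ} {x : ℕ+} (h1 : th a i ≤ (x : ℕ)) (h2 : (x : ℕ) < th a (i + 1)) :
    x ∈ Ev a ↔ i % 2 = 0 := by
  constructor
  · rintro ⟨j, h3, h4⟩
    have e1 : th a i < th a (2 * j + 1) := h1.trans_lt h4
    have e2 : th a (2 * j) < th a (i + 1) := h3.trans_lt h2
    rw [(th_strictMono a).lt_iff_lt] at e1 e2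
    omega
  · intro h
    refine ⟨i / 2, ?_⟩
    have : 2 * (i / 2) = i := by omega
    rw [this]
    exact ⟨h1, h2⟩

/-- for `n ≥ 2` and large good `m`: `m ^ n` lies in the same interval as `m`, but `n ^ m` lies in
the next one -/
lemma key {a : ℕ} {n m : ℕ+} (hn : 2 ≤ (n : ℕ)) (hm : th a 0 ≤ (m : ℕ)) (hnm : (n : ℕ) ≤ (m : ℕ))
    (h1 : Good a n m) (h2 : Good a 2 m) :
    (m ^ (n : ℕ) ∈ Ev a ↔ m ∈ Ev a) ∧ (n ^ (m : ℕ) ∈ Ev a ↔ ¬ m ∈ Ev a) := by
  -- the interval of `m`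
  have hex : ∃ i, (m : ℕ) < th a i := ⟨m + 1, by
    have := le_th a ((m : ℕ) + 1)
    omega⟩
  obtain ⟨i, hi, hmin⟩ : ∃ i, (m : ℕ) < th a i ∧ ∀ j < i, ¬ (m : ℕ) < th a j := by
    classical
    exact ⟨Nat.find hex, Nat.find_spec hex, fun j hj => Nat.find_min hex hj⟩
  obtain ⟨k, rfl⟩ : ∃ k, i = k + 1 := by
    refine ⟨i - 1, ?_⟩
    have : i ≠ 0 := by
      rintro rfl
      omega
    omega
  have hk : th a k ≤ (m : ℕ) := by
    have := hmin k (by omega)
    omega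
  have hm1 : 1 ≤ (m : ℕ) := m.2
  -- `m ^ n`
  have c1 : ((m ^ (n : ℕ) : ℕ+) : ℕ) = (m : ℕ) ^ (n : ℕ) := PNat.pow_coe m n
  have c2 : ((n ^ (m : ℕ) : ℕ+) : ℕ) = (n : ℕ) ^ (m : ℕ) := PNat.pow_coe n m
  have a1 : th a k ≤ ((m ^ (n : ℕ) : ℕ+) : ℕ) := by
    rw [c1]
    exact hk.trans (Nat.le_self_pow (by omega) _)
  have a2 : ((m ^ (n : ℕ) : ℕ+) : ℕ) < th a (k + 1) := by
    rw [c1]
    exact h1 _ hi
  have b1 : th a (k + 1) ≤ ((n ^ (m : ℕ) : ℕ+) : ℕ) := by
    rw [c2]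
    change 2 ^ th a k ≤ _
    exact (Nat.pow_le_pow_right (by norm_num) hk).trans (Nat.pow_le_pow_left hn _)
  have b2 : ((n ^ (m : ℕ) : ℕ+) : ℕ) < th a (k + 2) := by
    rw [c2]
    change _ < 2 ^ th a (k + 1)
    have e1 : (n : ℕ) ^ (m : ℕ) ≤ (2 ^ (n : ℕ)) ^ (m : ℕ) :=
      Nat.pow_le_pow_left Nat.lt_two_pow_self.le _
    rw [← pow_mul] at e1
    have e2 : (n : ℕ) * (m : ℕ) ≤ (m : ℕ) ^ 2 := by
      rw [pow_two]
      exact Nat.mul_le_mul_right _ hnm
    have e3 : (m : ℕ) ^ 2 < th a (k + 1) := h2 _ hi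
    exact e1.trans_lt (Nat.pow_lt_pow_right (by norm_num) (e2.trans_lt e3))
  constructor
  · rw [mem_Ev a1 a2, mem_Ev hk hi]
  · rw [mem_Ev b1 b2, mem_Ev hk hi]
    omega

lemma Nonprincipal.large {q : Ultrafilter ℕ+} (hq : Nonprincipal q) (N : ℕ) :
    {m : ℕ+ | N ≤ (m : ℕ)} ∈ q := by
  by_contra hcon
  rw [← Ultrafilter.compl_mem_iff_notMem] at hcon
  have hfin : ({m : ℕ+ | N ≤ (m : ℕ)}ᶜ).Finite := by
    have : {m : ℕ+ | N ≤ (m : ℕ)}ᶜ ⊆ (fun m : ℕ+ => (m : ℕ)) ⁻¹' (Set.Iio N) := by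
      intro m hm
      simp only [Set.mem_compl_iff, Set.mem_ofPred_eq, not_le] at hm
      exact hm
    exact ((Set.finite_Iio N).preimage (fun a _ b _ h => PNat.coe_injective h)).subset this
  obtain ⟨n, -, hn⟩ := Ultrafilter.eq_pure_of_finite_mem hfin hcon
  exact hq n hn

/-- **`E₁(p,q) ≠ E₂(p,q)` for all `p` and all nonprincipal `q`.** -/
theorem E₁_ne_E₂ (p q : Ultrafilter ℕ+) (hq : Nonprincipal q) : E₁ p q ≠ E₂ p q := by
  intro heq
  by_cases hp : p = pure 1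
  · -- the degenerate case
    have h1 : ({1} : Set ℕ+) ∈ E₁ p q := by
      change {n : ℕ+ | {m : ℕ+ | n ^ (m : ℕ) ∈ ({1} : Set ℕ+)} ∈ q} ∈ p
      rw [hp]
      change {m : ℕ+ | (1 : ℕ+) ^ (m : ℕ) ∈ ({1} : Set ℕ+)} ∈ q
      exact Filter.mem_of_superset Filter.univ_mem (fun m _ => by simp)
    rw [heq] at h1
    change {n : ℕ+ | {m : ℕ+ | m ^ (n : ℕ) ∈ ({1} : Set ℕ+)} ∈ q} ∈ p at h1
    rw [hp] at h1
    change {m : ℕ+ | m ^ ((1 : ℕ+) : ℕ) ∈ ({1} : Set ℕ+)} ∈ q at h1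
    have h2 := hq.large 2
    have h3 := Filter.inter_mem h1 h2
    have h4 : {m : ℕ+ | m ^ ((1 : ℕ+) : ℕ) ∈ ({1} : Set ℕ+)} ∩ {m : ℕ+ | 2 ≤ (m : ℕ)} = ∅ := by
      ext m
      simp only [PNat.one_coe, pow_one, Set.mem_singleton_iff, Set.mem_inter_iff,
        Set.mem_ofPred_eq, Set.mem_empty_iff_false, iff_false, not_and]
      rintro rfl
      simp
    rw [h4] at h3
    exact (Ultrafilter.neBot q).ne (Filter.empty_mem_iff_bot.mp h3)
  · -- `p` contains `{n ≥ 2}`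
    have hp2 : {n : ℕ+ | 2 ≤ (n : ℕ)} ∈ p := by
      by_contra hcon
      rw [← Ultrafilter.compl_mem_iff_notMem] at hcon
      apply hp
      apply Ultrafilter.eq_of_le
      rw [Ultrafilter.coe_pure, Filter.le_pure_iff]
      refine Filter.mem_of_superset hcon ?_
      intro n hn
      simp only [Set.mem_compl_iff, Set.mem_ofPred_eq, not_le] at hn
      have := n.2
      rw [Set.mem_singleton_iff]
      apply PNat.coe_injective
      rw [PNat.one_coe]
      change (n : ℕ) = 1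
      have h5 : 0 < (n : ℕ) := n.2
      omega
    -- a threshold sequence for which almost all numbers are good
    have hgood : ∃ a, ∀ n : ℕ, {m : ℕ+ | Good a n m} ∈ q := by
      by_contra hcon
      push Not at hcon
      obtain ⟨n1, h1⟩ := hcon 2
      obtain ⟨n2, h2⟩ := hcon 3
      have h3 : {m : ℕ+ | Good 2 (max n1 n2) m ∨ Good 3 (max n1 n2) m} ∈ q :=
        Filter.mem_of_superset (hq.large (th 3 (max n1 n2 + 3))) (fun m hm => good_or _ _ hm)
      have h4 : {m : ℕ+ | Good 2 (max n1 n2) m ∨ Good 3 (max n1 n2) m} =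
          {m : ℕ+ | Good 2 (max n1 n2) m} ∪ {m : ℕ+ | Good 3 (max n1 n2) m} := rfl
      rw [h4, Ultrafilter.union_mem_iff] at h3
      rcases h3 with h3 | h3
      · exact h1 (Filter.mem_of_superset h3 (fun m hm => Good.mono m.2 hm (le_max_left _ _)))
      · exact h2 (Filter.mem_of_superset h3 (fun m hm => Good.mono m.2 hm (le_max_right _ _)))
    obtain ⟨a, ha⟩ := hgood
    have main : ∀ n : ℕ+, 2 ≤ (n : ℕ) →
        ({m : ℕ+ | m ^ (n : ℕ) ∈ Ev a} ∈ q ↔ Ev a ∈ q) ∧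
        ({m : ℕ+ | n ^ (m : ℕ) ∈ Ev a} ∈ q ↔ ¬ Ev a ∈ q) := by
      intro n hn
      have hS : {m : ℕ+ | th a 0 ≤ (m : ℕ)} ∩ {m : ℕ+ | (n : ℕ) ≤ (m : ℕ)} ∩
          {m : ℕ+ | Good a n m} ∩ {m : ℕ+ | Good a 2 m} ∈ q :=
        Filter.inter_mem (Filter.inter_mem (Filter.inter_mem (hq.large _) (hq.large _))
          (ha n)) (ha 2)
      constructor
      · constructor
        · intro h
          refine Filter.mem_of_superset (Filter.inter_mem h hS) ?_
          rintro m ⟨h1, ⟨⟨h2, h3⟩, h4⟩, h5⟩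
          exact (key hn h2 h3 h4 h5).1.mp h1
        · intro h
          refine Filter.mem_of_superset (Filter.inter_mem h hS) ?_
          rintro m ⟨h1, ⟨⟨h2, h3⟩, h4⟩, h5⟩
          exact (key hn h2 h3 h4 h5).1.mpr h1
      · rw [← Ultrafilter.compl_mem_iff_notMem]
        constructor
        · intro h
          refine Filter.mem_of_superset (Filter.inter_mem h hS) ?_
          rintro m ⟨h1, ⟨⟨h2, h3⟩, h4⟩, h5⟩
          exact (key hn h2 h3 h4 h5).2.mp h1
        · intro h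
          refine Filter.mem_of_superset (Filter.inter_mem h hS) ?_
          rintro m ⟨h1, ⟨⟨h2, h3⟩, h4⟩, h5⟩
          exact (key hn h2 h3 h4 h5).2.mpr h1
    have e1 : Ev a ∈ E₁ p q ↔ ¬ Ev a ∈ q := by
      change {n : ℕ+ | {m : ℕ+ | n ^ (m : ℕ) ∈ Ev a} ∈ q} ∈ p ↔ _
      constructor
      · intro h
        obtain ⟨n, h1, h2⟩ := Ultrafilter.nonempty_of_mem (Filter.inter_mem h hp2)
        exact (main n h2).2.mp h1
      · intro h
        exact Filter.mem_of_superset hp2 (fun n hn => (main n hn).2.mpr h)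
    have e2 : Ev a ∈ E₂ p q ↔ Ev a ∈ q := by
      change {n : ℕ+ | {m : ℕ+ | m ^ (n : ℕ) ∈ Ev a} ∈ q} ∈ p ↔ _
      constructor
      · intro h
        obtain ⟨n, h1, h2⟩ := Ultrafilter.nonempty_of_mem (Filter.inter_mem h hp2)
        exact (main n h2).1.mp h1
      · intro h
        exact Filter.mem_of_superset hp2 (fun n hn => (main n hn).1.mpr h)
    rw [heq, e2] at e1
    tauto

end Pool.Agent.R130.UltraExp
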